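import Pool.Agent.H.MP_1b807b_an.A.Basic

/-! MP_1b807b_an, large parameter asymptotics in the plane, module AreaA: Banach indicatrix inequality -/

set_option autoImplicit false

namespace Pool.Agent.RA

open MeasureTheory Metric Set Pool.Agent.RG
open scoped RealInnerProductSpace ENNReal Topology Pointwise

theorem areaa_image_le {f : ℝ → ℝ} (hf : LipschitzWith 1 f) {M : Set ℝ} (hM : MeasurableSet M) :
    volume (f '' M) ≤ ∫⁻ s in M, ENNReal.ofReal |deriv f s| := by
  let D : Set ℝ := {s | DifferentiableAt ℝ f s}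
  have hD : MeasurableSet D := measurableSet_of_differentiableAt ℝ f
  have h1 : volume (f '' (M \ D)) = 0 := by
    have h2 : volume (M \ D) = 0 := by
      refine measure_mono_null (fun x hx => hx.2) (ae_iff.1 hf.ae_differentiableAt_real)
    have h3 := (hf.lipschitzOnWith (s := M \ D)).hausdorffMeasure_image_le (d := 1) zero_le_one
    rw [hausdorffMeasure_real, h2, mul_zero] at h3
    exact le_antisymm h3 zero_le
  have h2 : volume (f '' (M ∩ D)) ≤ ∫⁻ s in M ∩ D, ENNReal.ofReal |deriv f s| := by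
    have h3 := addHaar_image_le_lintegral_abs_det_fderiv volume (hM.inter hD)
      (f := f) (f' := fun x => fderiv ℝ f x) (fun x hx => hx.2.hasFDerivAt.hasFDerivWithinAt)
    refine h3.trans (le_of_eq ?_)
    refine lintegral_congr fun x => ?_
    have h3 : (fderiv ℝ f x).det = deriv f x := by
      rw [ContinuousLinearMap.det, LinearMap.det_ring]
      rfl
    rw [h3]
  calc volume (f '' M) = volume (f '' (M ∩ D) ∪ f '' (M \ D)) := by
        rw [← image_union, inter_union_sdiff]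
    _ ≤ volume (f '' (M ∩ D)) + volume (f '' (M \ D)) := measure_union_le _ _
    _ = volume (f '' (M ∩ D)) := by rw [h1, add_zero]
    _ ≤ ∫⁻ s in M ∩ D, ENNReal.ofReal |deriv f s| := h2
    _ ≤ _ := lintegral_mono_set inter_subset_left

theorem areaa_meas {f : ℝ → ℝ} (hf : Continuous f) (c d : ℝ) {C : Set ℝ} (hC : IsClosed C) :
    MeasurableSet (f '' (Ico c d ∩ C)) := by
  have h1 : Ico c d ∩ C = ⋃ m : ℕ, (Icc c (d - 1 / ((m : ℝ) + 1)) ∩ C) := by
    rw [← iUnion_inter]
    congr 1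
    ext x
    rw [mem_iUnion]
    constructor
    · rintro ⟨hx1, hx2⟩
      obtain ⟨m, hm⟩ := exists_nat_one_div_lt (sub_pos.2 hx2)
      exact ⟨m, hx1, by linarith⟩
    · rintro ⟨m, hx1, hx2⟩
      have h3 : 0 < 1 / ((m : ℝ) + 1) := Nat.one_div_pos_of_nat
      exact ⟨hx1, by linarith⟩
  rw [h1, image_iUnion]
  refine MeasurableSet.iUnion fun m => ?_
  exact ((isCompact_Icc.inter_right hC).image hf).isClosed.measurableSet

/-- the pieces -/
def areaa_J (a b : ℝ) (n k : ℕ) : Set ℝ := {x | x ∈ Ico a b ∧ ⌊(x - a) * (n + 1)⌋₊ = k}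

theorem areaa_J_eq (a b : ℝ) (n k : ℕ) :
    areaa_J a b n k = Ico (max a (a + k / (n + 1))) (min b (a + (k + 1) / (n + 1))) := by
  have hn : (0 : ℝ) < (n : ℝ) + 1 := by positivity
  ext x
  constructor
  · rintro ⟨⟨h1, h2⟩, h3⟩
    have h4 : 0 ≤ (x - a) * ((n : ℝ) + 1) := mul_nonneg (by linarith) hn.le
    rw [Nat.floor_eq_iff h4] at h3
    refine ⟨max_le h1 ?_, lt_min h2 ?_⟩
    · have h5 : (k : ℝ) / (n + 1) ≤ x - a := (div_le_iff₀ hn).2 h3.1
      linarith
    · have h5 : x - a < ((k : ℝ) + 1) / (n + 1) := (lt_div_iff₀ hn).2 h3.2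
      linarith
  · rintro ⟨h1, h2⟩
    have h3 := max_le_iff.1 h1
    have h4 := lt_min_iff.1 h2
    refine ⟨⟨h3.1, h4.1⟩, ?_⟩
    have h5 : 0 ≤ (x - a) * ((n : ℝ) + 1) := mul_nonneg (by linarith [h3.1]) hn.le
    rw [Nat.floor_eq_iff h5]
    constructor
    · exact (div_le_iff₀ hn).1 (by linarith [h3.2])
    · exact (lt_div_iff₀ hn).1 (by linarith [h4.2])

open Classical in
/-- the number of the pieces that meet the level set -/
noncomputable def areaa_K (f : ℝ → ℝ) (a b : ℝ) (C : Set ℝ) (n : ℕ) (p : ℝ) : Finset ℕ :=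
  (Finset.range (⌈(b - a) * (n + 1)⌉₊ + 1)).filter fun k => p ∈ f '' (areaa_J a b n k ∩ C)

theorem areaa_card (f : ℝ → ℝ) (a b : ℝ) (C : Set ℝ) (n : ℕ) (p : ℝ) :
    ((areaa_K f a b C n p).card : ℝ≥0∞) =
      ∑ k ∈ Finset.range (⌈(b - a) * (n + 1)⌉₊ + 1),
        (f '' (areaa_J a b n k ∩ C)).indicator (fun _ => (1 : ℝ≥0∞)) p := by
  classical
  unfold areaa_K
  rw [Finset.card_filter]
  push_cast
  refine Finset.sum_congr rfl fun k _ => ?_
  by_cases h : p ∈ f '' (areaa_J a b n k ∩ C)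
  · rw [if_pos h, indicator_of_mem h]
  · rw [if_neg h, indicator_of_notMem h]

theorem areaa_upper (f : ℝ → ℝ) (a b : ℝ) (C : Set ℝ) (n : ℕ) (p : ℝ) :
    ((areaa_K f a b C n p).card : ℝ≥0∞) ≤ cnt (Ico a b ∩ C ∩ f ⁻¹' {p}) := by
  classical
  have h1 : ∀ k ∈ areaa_K f a b C n p, ∃ x, x ∈ areaa_J a b n k ∩ C ∧ f x = p := by
    intro k hk
    exact (Finset.mem_filter.1 hk).2
  choose! g hg1 hg2 using h1
  have hinj : Set.InjOn g (areaa_K f a b C n p) := by
    intro k hk l hl hkl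
    rw [← (hg1 k hk).1.2, ← (hg1 l hl).1.2, hkl]
  have h2 : ((((areaa_K f a b C n p).image g : Finset ℝ) : Set ℝ)) ⊆
      Ico a b ∩ C ∩ f ⁻¹' {p} := by
    intro x hx
    obtain ⟨k, hk, rfl⟩ := Finset.mem_image.1 (Finset.mem_coe.1 hx)
    exact ⟨⟨(hg1 k hk).1.1, (hg1 k hk).2⟩, hg2 k hk⟩
  have h3 := Set.encard_le_encard h2
  rw [Set.encard_coe_eq_coe_finsetCard, Finset.card_image_of_injOn hinj] at h3
  unfold cnt
  exact_mod_cast h3

theorem areaa_lower (f : ℝ → ℝ) (a b : ℝ) (C : Set ℝ) (p : ℝ) (F : Finset ℝ)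
    (hF : (F : Set ℝ) ⊆ Ico a b ∩ C ∩ f ⁻¹' {p}) :
    ∀ᶠ n in Filter.atTop, (F.card : ℝ≥0∞) ≤ ((areaa_K f a b C n p).card : ℝ≥0∞) := by
  classical
  have h1 : ∀ x ∈ F, ∀ y ∈ F, x < y → ∀ᶠ n : ℕ in Filter.atTop, 1 ≤ (y - x) * ((n : ℝ) + 1) := by
    intro x _ y _ hxy
    obtain ⟨m, hm⟩ := exists_nat_ge (1 / (y - x))
    filter_upwards [Filter.eventually_ge_atTop m] with n hn
    have h2 : (m : ℝ) ≤ n := by exact_mod_cast hn
    have h3 : 1 / (y - x) ≤ (n : ℝ) + 1 := by linarith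
    have h4 : 0 < y - x := sub_pos.2 hxy
    rw [div_le_iff₀ h4] at h3
    linarith
  have h2 : ∀ᶠ n : ℕ in Filter.atTop, ∀ x ∈ F, ∀ y ∈ F, x < y →
      1 ≤ (y - x) * ((n : ℝ) + 1) := by
    rw [Filter.eventually_all_finset]
    intro x hx
    rw [Filter.eventually_all_finset]
    intro y hy
    rw [Filter.eventually_imp_distrib_left]
    exact h1 x hx y hy
  filter_upwards [h2] with n hn
  have hkey : ∀ x ∈ F, ∀ y ∈ F, x < y → ⌊(x - a) * ((n : ℝ) + 1)⌋₊ ≠ ⌊(y - a) * ((n : ℝ) + 1)⌋₊ := by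
    intro x hx y hy hxy
    have h3 := hn x hx y hy hxy
    have hxa : 0 ≤ (x - a) * ((n : ℝ) + 1) :=
      mul_nonneg (by linarith [(hF hx).1.1.1]) (by positivity)
    have hya : 0 ≤ (y - a) * ((n : ℝ) + 1) :=
      mul_nonneg (by linarith [(hF hy).1.1.1]) (by positivity)
    have h4 := Nat.floor_le hxa
    have h5 := Nat.lt_floor_add_one ((y - a) * ((n : ℝ) + 1))
    intro h6
    rw [← h6] at h5
    nlinarith
  have h3 : F.card ≤ (areaa_K f a b C n p).card := by
    refine Finset.card_le_card_of_injOn (fun x => ⌊(x - a) * ((n : ℝ) + 1)⌋₊) ?_ ?_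
    · intro x hx
      have h4 := hF hx
      refine Finset.mem_filter.2 ⟨Finset.mem_range.2 ?_, x, ⟨⟨h4.1.1, rfl⟩, h4.1.2⟩, h4.2⟩
      have h5 : (x - a) * ((n : ℝ) + 1) ≤ (b - a) * ((n : ℝ) + 1) :=
        mul_le_mul_of_nonneg_right (by linarith [h4.1.1.2]) (by positivity)
      have h6 := Nat.floor_le_ceil ((x - a) * ((n : ℝ) + 1))
      have h7 := Nat.ceil_le_ceil h5
      exact Nat.lt_succ_of_le (h6.trans h7)
    · intro x hx y hy hxy
      by_contra hne
      rcases lt_or_gt_of_ne hne with h4 | h4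
      · exact hkey x hx y hy h4 hxy
      · exact hkey y hy x hx h4 hxy.symm
  exact_mod_cast h3

theorem areaa_liminf (f : ℝ → ℝ) (a b : ℝ) (C : Set ℝ) (p : ℝ) :
    cnt (Ico a b ∩ C ∩ f ⁻¹' {p}) =
      Filter.liminf (fun n => ((areaa_K f a b C n p).card : ℝ≥0∞)) Filter.atTop := by
  apply le_antisymm
  · by_cases hfin : (Ico a b ∩ C ∩ f ⁻¹' {p}).Finite
    · have h1 := areaa_lower f a b C p hfin.toFinset (by rw [hfin.coe_toFinset])
      have h2 : cnt (Ico a b ∩ C ∩ f ⁻¹' {p}) = (hfin.toFinset.card : ℝ≥0∞) := by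
        unfold cnt
        rw [hfin.encard_eq_coe_toFinset_card]
        rfl
      rw [h2]
      exact Filter.le_liminf_of_le (by isBoundedDefault) h1
    · have h1 : Filter.liminf (fun n => ((areaa_K f a b C n p).card : ℝ≥0∞)) Filter.atTop = ⊤ := by
        apply ENNReal.eq_top_of_forall_nnreal_le
        intro r
        obtain ⟨m, hm⟩ := exists_nat_ge r
        obtain ⟨F, hF, hFm⟩ := (Set.not_finite.1 hfin).exists_subset_card_eq m
        have h2 := areaa_lower f a b C p F hF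
        rw [hFm] at h2
        have h3 : ((r : ℝ≥0∞)) ≤ (m : ℝ≥0∞) := by exact_mod_cast hm
        exact h3.trans (Filter.le_liminf_of_le (by isBoundedDefault) h2)
      rw [h1]
      exact le_top
  · refine (Filter.liminf_le_liminf (Filter.Eventually.of_forall fun n =>
      areaa_upper f a b C n p)).trans ?_
    rw [Filter.liminf_const]

/-- Banach's indicatrix inequality. PROOF: for `n` let `I n k`, `k < 2 ^ n`, be the half open dyadic
intervals of `[a, b)`; `c n p = ∑ k, 1_{f '' (I n k ∩ C)} p` is measurable (`I n k ∩ C` is a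
countable union of compact sets, so is its image), increasing in `n`, with supremum
`cnt (Ico a b ∩ C ∩ f ⁻¹' {p})`; `∫ c n = ∑ k, |f '' (I n k ∩ C)|` and
`|f '' M| ≤ ∫_M |f'|` (`addHaar_image_le_lintegral_abs_det_fderiv` on the measurable set of points
of differentiability of `M`, and the rest of `M` is null (Rademacher) so its image is null). -/
theorem area_one {f : ℝ → ℝ} (hf : LipschitzWith 1 f) (a b : ℝ) {C : Set ℝ} (hC : IsClosed C) :
    Measurable (fun p => cnt (Ico a b ∩ C ∩ f ⁻¹' {p})) ∧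
    ∫⁻ p, cnt (Ico a b ∩ C ∩ f ⁻¹' {p}) ≤ ∫⁻ s in Ico a b ∩ C, ENNReal.ofReal |deriv f s| := by
  have hms : ∀ n k, MeasurableSet (f '' (areaa_J a b n k ∩ C)) := by
    intro n k
    rw [areaa_J_eq]
    exact areaa_meas hf.continuous _ _ hC
  have hmJ : ∀ n k, MeasurableSet (areaa_J a b n k) := by
    intro n k
    rw [areaa_J_eq]
    exact measurableSet_Ico
  have hm : ∀ n, Measurable fun p => ((areaa_K f a b C n p).card : ℝ≥0∞) := by
    intro n
    have h1 : (fun p => ((areaa_K f a b C n p).card : ℝ≥0∞)) = fun p =>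
        ∑ k ∈ Finset.range (⌈(b - a) * (n + 1)⌉₊ + 1),
          (f '' (areaa_J a b n k ∩ C)).indicator (fun _ => (1 : ℝ≥0∞)) p :=
      funext fun p => areaa_card f a b C n p
    rw [h1]
    exact Finset.measurable_sum _ fun k _ => measurable_const.indicator (hms n k)
  have hfun : (fun p => cnt (Ico a b ∩ C ∩ f ⁻¹' {p})) = fun p =>
      Filter.liminf (fun n => ((areaa_K f a b C n p).card : ℝ≥0∞)) Filter.atTop :=
    funext fun p => areaa_liminf f a b C p
  refine ⟨?_, ?_⟩
  · rw [hfun]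
    exact Measurable.liminf hm
  · rw [hfun]
    refine (lintegral_liminf_le hm).trans ?_
    have h1 : ∀ n, ∫⁻ p, ((areaa_K f a b C n p).card : ℝ≥0∞) ≤
        ∫⁻ s in Ico a b ∩ C, ENNReal.ofReal |deriv f s| := by
      intro n
      have h2 : ∫⁻ p, ((areaa_K f a b C n p).card : ℝ≥0∞) =
          ∑ k ∈ Finset.range (⌈(b - a) * (n + 1)⌉₊ + 1), volume (f '' (areaa_J a b n k ∩ C)) := by
        rw [lintegral_congr fun p => areaa_card f a b C n p,
          lintegral_finsetSum _ fun k _ => measurable_const.indicator (hms n k)]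
        refine Finset.sum_congr rfl fun k _ => ?_
        rw [lintegral_indicator (hms n k), setLIntegral_one]
      rw [h2]
      calc ∑ k ∈ Finset.range (⌈(b - a) * (n + 1)⌉₊ + 1), volume (f '' (areaa_J a b n k ∩ C)) ≤
          ∑ k ∈ Finset.range (⌈(b - a) * (n + 1)⌉₊ + 1),
            ∫⁻ s in areaa_J a b n k ∩ C, ENNReal.ofReal |deriv f s| :=
            Finset.sum_le_sum fun k _ =>
              areaa_image_le hf ((hmJ n k).inter hC.measurableSet)
        _ = ∫⁻ s in ⋃ k ∈ Finset.range (⌈(b - a) * (n + 1)⌉₊ + 1), (areaa_J a b n k ∩ C),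
            ENNReal.ofReal |deriv f s| := by
            rw [lintegral_biUnion_finset]
            · intro k _ l _ hkl
              refine disjoint_left.2 fun x hx hx' => hkl ?_
              rw [← hx.1.2, ← hx'.1.2]
            · intro k _
              exact (hmJ n k).inter hC.measurableSet
        _ ≤ _ := by
            refine lintegral_mono_set ?_
            refine iUnion₂_subset fun k _ x hx => ⟨hx.1.1, hx.2⟩
    refine (Filter.liminf_le_liminf (Filter.Eventually.of_forall h1)).trans ?_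
    rw [Filter.liminf_const]

end Pool.Agent.RA
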