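import Pool.Agent.H.MP_1b807b_an.A.Basic

/-! MP_1b807b_an, large parameter asymptotics in the plane, module AreaB: regular values of Lipschitz functions -/

set_option autoImplicit false

namespace Pool.Agent.RA

open MeasureTheory Metric Set Pool.Agent.RG
open scoped RealInnerProductSpace ENNReal Topology Pointwise

theorem areab_image_null {f : ℝ → ℝ} (hf : LipschitzWith 1 f) {s : Set ℝ} (hs : volume s = 0) :
    volume (f '' s) = 0 := by
  have h1 := (hf.lipschitzOnWith (s := s)).hausdorffMeasure_image_le (d := 1) zero_le_one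
  rw [hausdorffMeasure_real, hs, mul_zero] at h1
  exact le_antisymm h1 zero_le

/-- Almost every value of a Lipschitz function is regular. PROOF: the image of the null set of
points of nondifferentiability is null, and the image of `{f' = 0}` is null
(`addHaar_image_eq_zero_of_det_fderiv_eq_zero`). -/
theorem ae_regular {f : ℝ → ℝ} (hf : LipschitzWith 1 f) :
    ∀ᵐ p : ℝ, ∀ s, f s = p → DifferentiableAt ℝ f s ∧ deriv f s ≠ 0 := by
  have h1 : volume (f '' {s | ¬ DifferentiableAt ℝ f s}) = 0 :=
    areab_image_null hf (ae_iff.1 hf.ae_differentiableAt_real)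
  have h2 : volume (f '' {s | DifferentiableAt ℝ f s ∧ deriv f s = 0}) = 0 := by
    refine addHaar_image_eq_zero_of_det_fderivWithin_eq_zero volume (f' := fun x => fderiv ℝ f x)
      (fun x hx => hx.1.hasFDerivAt.hasFDerivWithinAt) (fun x hx => ?_)
    have h3 : (fderiv ℝ f x).det = deriv f x := by
      rw [ContinuousLinearMap.det, LinearMap.det_ring]
      rfl
    rw [h3]
    exact hx.2
  filter_upwards [measure_eq_zero_iff_ae_notMem.1 h1, measure_eq_zero_iff_ae_notMem.1 h2]
    with p hp1 hp2 s hs
  have h3 : DifferentiableAt ℝ f s := by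
    by_contra h
    exact hp1 ⟨s, h, hs⟩
  exact ⟨h3, fun h => hp2 ⟨s, ⟨h3, h⟩, hs⟩⟩

end Pool.Agent.RA
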