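import Pool.Agent.H.MP_1b807b_an.A.Defs

/-! MP_1b807b_an, large parameter asymptotics in the plane, module Basic: coordinates -/

set_option autoImplicit false

namespace Pool.Agent.RA

open MeasureTheory Metric Set Pool.Agent.RG
open scoped RealInnerProductSpace ENNReal Topology Pointwise

theorem dir_zero (θ : ℝ) : dir θ 0 = Real.cos θ := rfl
theorem dir_one (θ : ℝ) : dir θ 1 = Real.sin θ := rfl
theorem nrm_zero (θ : ℝ) : nrm θ 0 = -Real.sin θ := rfl
theorem nrm_one (θ : ℝ) : nrm θ 1 = Real.cos θ := rfl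

theorem inner_two (x y : E 2) : ⟪x, y⟫ = x 0 * y 0 + x 1 * y 1 := by
  simp [PiLp.inner_apply, Fin.sum_univ_two, mul_comm]

theorem norm_two (x : E 2) : ‖x‖ ^ 2 = x 0 ^ 2 + x 1 ^ 2 := by
  rw [← real_inner_self_eq_norm_sq, inner_two]; ring

theorem inner_dir (θ : ℝ) (x : E 2) : ⟪dir θ, x⟫ = Real.cos θ * x 0 + Real.sin θ * x 1 := by
  rw [inner_two, dir_zero, dir_one]

theorem inner_nrm (θ : ℝ) (x : E 2) : ⟪nrm θ, x⟫ = -Real.sin θ * x 0 + Real.cos θ * x 1 := by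
  rw [inner_two, nrm_zero, nrm_one]

theorem inner_dir_dir (θ : ℝ) : ⟪dir θ, dir θ⟫ = 1 := by
  rw [inner_dir, dir_zero, dir_one]; nlinarith [Real.sin_sq_add_cos_sq θ]

theorem inner_nrm_nrm (θ : ℝ) : ⟪nrm θ, nrm θ⟫ = 1 := by
  rw [inner_nrm, nrm_zero, nrm_one]; nlinarith [Real.sin_sq_add_cos_sq θ]

theorem inner_dir_nrm (θ : ℝ) : ⟪dir θ, nrm θ⟫ = 0 := by
  rw [inner_dir, nrm_zero, nrm_one]; ring

theorem inner_nrm_dir (θ : ℝ) : ⟪nrm θ, dir θ⟫ = 0 := by
  rw [inner_nrm, dir_zero, dir_one]; ring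

theorem norm_dir (θ : ℝ) : ‖dir θ‖ = 1 := by
  have h := inner_dir_dir θ
  rw [real_inner_self_eq_norm_sq] at h
  nlinarith [norm_nonneg (dir θ)]

theorem norm_nrm (θ : ℝ) : ‖nrm θ‖ = 1 := by
  have h := inner_nrm_nrm θ
  rw [real_inner_self_eq_norm_sq] at h
  nlinarith [norm_nonneg (nrm θ)]

theorem decomp (θ : ℝ) (x : E 2) : ⟪dir θ, x⟫ • dir θ + ⟪nrm θ, x⟫ • nrm θ = x := by
  ext i
  have h := Real.sin_sq_add_cos_sq θ
  fin_cases i
  · simp only [Fin.zero_eta, PiLp.add_apply, PiLp.smul_apply, smul_eq_mul, inner_dir, inner_nrm,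
      dir_zero, nrm_zero]
    linear_combination (x 0) * h
  · simp only [Fin.mk_one, PiLp.add_apply, PiLp.smul_apply, smul_eq_mul, inner_dir, inner_nrm,
      dir_one, nrm_one]
    linear_combination (x 1) * h

theorem inner_dir_comb (θ p y : ℝ) : ⟪dir θ, p • dir θ + y • nrm θ⟫ = p := by
  rw [inner_add_right, inner_smul_right, inner_smul_right, inner_dir_dir, inner_dir_nrm]; ring

theorem inner_nrm_comb (θ p y : ℝ) : ⟪nrm θ, p • dir θ + y • nrm θ⟫ = y := by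
  rw [inner_add_right, inner_smul_right, inner_smul_right, inner_nrm_dir, inner_nrm_nrm]; ring

theorem norm_sq_decomp (θ : ℝ) (x : E 2) : ‖x‖ ^ 2 = ⟪dir θ, x⟫ ^ 2 + ⟪nrm θ, x⟫ ^ 2 := by
  rw [norm_two, inner_dir, inner_nrm]
  linear_combination (-(x 0 ^ 2 + x 1 ^ 2)) * Real.sin_sq_add_cos_sq θ

theorem abs_inner_dir_le (θ : ℝ) (x : E 2) : |⟪dir θ, x⟫| ≤ ‖x‖ := by
  have h := abs_real_inner_le_norm (dir θ) x
  rwa [norm_dir, one_mul] at h

theorem abs_inner_nrm_le (θ : ℝ) (x : E 2) : |⟪nrm θ, x⟫| ≤ ‖x‖ := by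
  have h := abs_real_inner_le_norm (nrm θ) x
  rwa [norm_nrm, one_mul] at h

theorem dir_add (θ φ : ℝ) : dir (θ + φ) = Real.cos φ • dir θ + Real.sin φ • nrm θ := by
  ext i
  fin_cases i
  · simp only [Fin.zero_eta, PiLp.add_apply, PiLp.smul_apply, smul_eq_mul, dir_zero, nrm_zero,
      Real.cos_add]; ring
  · simp only [Fin.mk_one, PiLp.add_apply, PiLp.smul_apply, smul_eq_mul, dir_one, nrm_one,
      Real.sin_add]; ring

theorem nrm_add (θ φ : ℝ) : nrm (θ + φ) = Real.cos φ • nrm θ - Real.sin φ • dir θ := by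
  ext i
  fin_cases i
  · simp only [Fin.zero_eta, PiLp.sub_apply, PiLp.smul_apply, smul_eq_mul, dir_zero, nrm_zero,
      Real.sin_add]; ring
  · simp only [Fin.mk_one, PiLp.sub_apply, PiLp.smul_apply, smul_eq_mul, dir_one, nrm_one,
      Real.cos_add]; ring

theorem dir_add_pi (θ : ℝ) : dir (θ + Real.pi) = -dir θ := by
  rw [dir_add, Real.cos_pi, Real.sin_pi]; simp

theorem nrm_add_pi (θ : ℝ) : nrm (θ + Real.pi) = -nrm θ := by
  rw [nrm_add, Real.cos_pi, Real.sin_pi]; simp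

theorem dir_add_two_pi (θ : ℝ) : dir (θ + 2 * Real.pi) = dir θ := by
  rw [dir_add, Real.cos_two_pi, Real.sin_two_pi]; simp

theorem dir_add_half_pi (θ : ℝ) : dir (θ + Real.pi / 2) = nrm θ := by
  rw [dir_add, Real.cos_pi_div_two, Real.sin_pi_div_two]; simp

theorem inner_dir_nrm' (θ φ : ℝ) : ⟪dir θ, nrm φ⟫ = Real.sin (θ - φ) := by
  rw [inner_dir, nrm_zero, nrm_one, Real.sin_sub]; ring

theorem inner_dir_dir' (θ φ : ℝ) : ⟪dir θ, dir φ⟫ = Real.cos (θ - φ) := by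
  rw [inner_dir, dir_zero, dir_one, Real.cos_sub]

theorem continuous_dir : Continuous dir := by
  unfold dir
  refine (PiLp.continuous_toLp 2 _).comp ?_
  refine continuous_pi fun i => ?_
  fin_cases i
  · exact Real.continuous_cos
  · exact Real.continuous_sin

theorem continuous_nrm : Continuous nrm := by
  have h : nrm = fun θ => dir (θ + Real.pi / 2) := by
    funext θ; rw [dir_add_half_pi]
  rw [h]; exact continuous_dir.comp (by fun_prop)

theorem mem_ln {θ p : ℝ} {x : E 2} : x ∈ ln θ p ↔ ⟪dir θ, x⟫ = p := Iff.rfl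

theorem mem_slc {θ p y : ℝ} {S : Set (E 2)} : y ∈ slc θ S p ↔ p • dir θ + y • nrm θ ∈ S := Iff.rfl

theorem isClosed_ln (θ p : ℝ) : IsClosed (ln θ p) :=
  isClosed_eq (continuous_const.inner continuous_id) continuous_const

theorem mem_ln_iff {θ p : ℝ} {x : E 2} : x ∈ ln θ p ↔ ∃ y : ℝ, x = p • dir θ + y • nrm θ := by
  constructor
  · intro h
    refine ⟨⟪nrm θ, x⟫, ?_⟩
    rw [mem_ln] at h
    conv_lhs => rw [← decomp θ x]
    rw [h]
  · rintro ⟨y, rfl⟩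
    exact inner_dir_comb θ p y

theorem isClosed_slc {θ : ℝ} {S : Set (E 2)} (hS : IsClosed S) (p : ℝ) : IsClosed (slc θ S p) :=
  hS.preimage (by fun_prop)

theorem isOpen_slc {θ : ℝ} {S : Set (E 2)} (hS : IsOpen S) (p : ℝ) : IsOpen (slc θ S p) :=
  hS.preimage (by fun_prop)

theorem dist_comb (θ p q y z : ℝ) :
    dist (p • dir θ + y • nrm θ) (q • dir θ + z • nrm θ) ^ 2 = (p - q) ^ 2 + (y - z) ^ 2 := by
  rw [dist_eq_norm, norm_sq_decomp θ, inner_sub_right, inner_sub_right, inner_dir_comb,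
    inner_dir_comb, inner_nrm_comb, inner_nrm_comb]

end Pool.Agent.RA
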