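import Pool.Agent.H.MP_1b807b_an.A.CompDefs

/-! MP_1b807b_an, large parameter asymptotics in the plane, module CompA: components, basic facts -/

set_option autoImplicit false

namespace Pool.Agent.RA

open MeasureTheory Metric Set Pool.Agent.RG
open scoped RealInnerProductSpace ENNReal Topology Pointwise

variable {D : Domain 2} (J : JordanBoundary D)

include J

theorem curve_mem_compl (j : Fin J.N) (s : ℝ) : J.curve j s ∈ D.carrierᶜ := by
  have h1 : J.curve j s ∈ frontier D.carrier := by
    rw [J.frontier_eq]
    exact mem_iUnion.2 ⟨j, mem_range_self s⟩
  rw [D.isOpen.frontier_eq] at h1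
  exact h1.2

theorem comp_sub (i : Fin J.N) : J.comp i ⊆ D.carrierᶜ := connectedComponentIn_subset _ _

/-- PROOF: the closure of the component is connected and contained in the closed complement. -/
theorem comp_isClosed (i : Fin J.N) : IsClosed (J.comp i) := by
  have h1 : closure (J.comp i) ⊆ J.comp i := by
    refine IsPreconnected.subset_connectedComponentIn isPreconnected_connectedComponentIn.closure
      (subset_closure (mem_connectedComponentIn (curve_mem_compl J i 0))) ?_
    exact closure_minimal (comp_sub J i) D.isOpen.isClosed_compl
  exact isClosed_of_closure_subset h1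

theorem comp_conn (i : Fin J.N) : IsConnected (J.comp i) :=
  isConnected_connectedComponentIn_iff.2 (curve_mem_compl J i 0)

/-- PROOF: `range (curve j)` is connected and contained in the complement. -/
theorem curve_sub_comp {i j : Fin J.N} {s : ℝ} (h : J.curve j s ∈ J.comp i) :
    range (J.curve j) ⊆ J.comp i := by
  have h1 : J.comp i = connectedComponentIn D.carrierᶜ (J.curve j s) := connectedComponentIn_eq h
  rw [h1]
  refine IsPreconnected.subset_connectedComponentIn
    (isPreconnected_range (J.lipschitz j).continuous) (mem_range_self s) ?_
  rintro _ ⟨t, rfl⟩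
  exact curve_mem_compl J j t

theorem comp_eq {i j : Fin J.N} {x : E 2} (hi : x ∈ J.comp i) (hj : x ∈ J.comp j) :
    J.comp i = J.comp j := by
  have h1 : J.comp i = connectedComponentIn D.carrierᶜ x := connectedComponentIn_eq hi
  have h2 : J.comp j = connectedComponentIn D.carrierᶜ x := connectedComponentIn_eq hj
  rw [h1, h2]

end Pool.Agent.RA
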