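import Pool.Agent.H.MP_1b807b_an.A.CompA

/-! MP_1b807b_an, large parameter asymptotics in the plane, module CompB: components cover the complement -/

set_option autoImplicit false

namespace Pool.Agent.RA

open MeasureTheory Metric Set Pool.Agent.RG
open scoped RealInnerProductSpace ENNReal Topology Pointwise

variable {D : Domain 2} (J : JordanBoundary D)

include J

/-- Every point of the complement is in the component of a curve. PROOF: let `x ∉ D`, `y ∈ D`; on
the segment from `x` to `y` let `z` be the first point of `closure D`, that is, `z = x + t (y - x)`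
with `t` the infimum of the parameters of points of `D`; then `z ∈ frontier D` and the segment from
`x` to `z` is a connected subset of the complement; `z` is on a curve. -/
theorem exists_comp {x : E 2} (hx : x ∉ D.carrier) : ∃ i, x ∈ J.comp i := by
  have hxc : x ∈ D.carrierᶜ := hx
  have hclosed : IsClosed D.carrierᶜ := D.isOpen.isClosed_compl
  set A := connectedComponentIn D.carrierᶜ x with hA
  have hxA : x ∈ A := mem_connectedComponentIn hxc
  have hAsub : A ⊆ D.carrierᶜ := connectedComponentIn_subset _ _
  have hAconn : IsPreconnected A := isPreconnected_connectedComponentIn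
  have hAclosed : IsClosed A := by
    refine isClosed_of_closure_subset ?_
    refine hAconn.closure.subset_connectedComponentIn (subset_closure hxA) ?_
    exact closure_minimal hAsub hclosed
  have hmeet : ∃ z ∈ A, z ∈ frontier D.carrier := by
    by_contra hcon
    push Not at hcon
    have hAopen : IsOpen A := by
      rw [isOpen_iff_mem_nhds]
      intro a ha
      have h1 : a ∉ closure D.carrier := by
        intro h2
        refine hcon a ha ?_
        rw [D.isOpen.frontier_eq]
        exact ⟨h2, hAsub ha⟩
      have h2 : (closure D.carrier)ᶜ ∈ 𝓝 a := isClosed_closure.isOpen_compl.mem_nhds h1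
      obtain ⟨ε, hε, hball⟩ := Metric.mem_nhds_iff.1 h2
      have h3 : ball a ε ⊆ D.carrierᶜ := fun y hy hyD => hball hy (subset_closure hyD)
      have h4 : ball a ε ⊆ A := by
        rw [hA, connectedComponentIn_eq (hA ▸ ha)]
        exact (convex_ball a ε).isPreconnected.subset_connectedComponentIn (mem_ball_self hε) h3
      exact Filter.mem_of_superset (ball_mem_nhds a hε) h4
    have h5 : A = univ := IsClopen.eq_univ ⟨hAclosed, hAopen⟩ ⟨x, hxA⟩
    obtain ⟨y, hy⟩ := D.isConnected.nonempty
    exact hAsub (h5 ▸ mem_univ y) hy
  obtain ⟨z, hzA, hz⟩ := hmeet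
  rw [J.frontier_eq, mem_iUnion] at hz
  obtain ⟨j, s, hs⟩ := hz
  refine ⟨j, ?_⟩
  have h6 : J.curve j 0 ∈ J.comp j := mem_connectedComponentIn (curve_mem_compl J j 0)
  have h7 : z ∈ J.comp j := curve_sub_comp J h6 ⟨s, hs⟩
  have h8 : J.comp j = connectedComponentIn D.carrierᶜ z := connectedComponentIn_eq h7
  have h9 : A = connectedComponentIn D.carrierᶜ z := connectedComponentIn_eq hzA
  rw [h8, ← h9]
  exact hxA

theorem compl_eq : D.carrierᶜ = ⋃ i, J.comp i := by
  ext x
  rw [mem_iUnion]
  exact ⟨fun hx => exists_comp J hx, fun ⟨i, hi⟩ => comp_sub J i hi⟩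

end Pool.Agent.RA
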