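import Pool.Agent.H.MP_1b807b_an.A.CompA

/-! MP_1b807b_an, large parameter asymptotics in the plane, module CompC: frontier of a component -/

set_option autoImplicit false

namespace Pool.Agent.RA

open MeasureTheory Metric Set Pool.Agent.RG
open scoped RealInnerProductSpace ENNReal Topology Pointwise

variable {D : Domain 2} (J : JordanBoundary D)

include J

/-- PROOF: a point of `comp i` outside `frontier D` is in the interior of the complement, and a
ball around it is a connected subset of the complement, so it is in the interior of `comp i`.
Conversely `frontier (comp i) ⊆ comp i` and a point of `comp i ∩ frontier D` is a limit of points of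
`D`. -/
theorem frontier_comp (i : Fin J.N) : frontier (J.comp i) = J.comp i ∩ frontier D.carrier := by
  have hcl := comp_isClosed J i
  ext x
  constructor
  · intro hx
    have hxc : x ∈ J.comp i := by
      have h1 := frontier_subset_closure hx
      rwa [hcl.closure_eq] at h1
    refine ⟨hxc, ?_⟩
    by_contra hxf
    have hxD : x ∉ D.carrier := comp_sub J i hxc
    have hxcl : x ∉ closure D.carrier := by
      intro h
      apply hxf
      rw [D.isOpen.frontier_eq]
      exact ⟨h, hxD⟩
    obtain ⟨ε, hε, hball⟩ := Metric.isOpen_iff.1 (isClosed_closure (s := D.carrier)).isOpen_compl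
      x hxcl
    have hsub : ball x ε ⊆ D.carrierᶜ := fun y hy h => hball hy (subset_closure h)
    have h2 : ball x ε ⊆ connectedComponentIn D.carrierᶜ x :=
      (convex_ball x ε).isPreconnected.subset_connectedComponentIn (mem_ball_self hε) hsub
    have h3 : connectedComponentIn D.carrierᶜ x = J.comp i :=
      (connectedComponentIn_eq hxc).symm
    rw [h3] at h2
    exact hx.2 (mem_interior.2 ⟨ball x ε, h2, isOpen_ball, mem_ball_self hε⟩)
  · rintro ⟨hxc, hxf⟩
    refine ⟨subset_closure hxc, fun hint => ?_⟩
    obtain ⟨y, hy1, hy2⟩ := mem_closure_iff.1 (frontier_subset_closure hxf) _ isOpen_interior hint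
    exact comp_sub J i (interior_subset hy1) hy2

end Pool.Agent.RA
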