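import Pool.Agent.H.MP_1b807b_an.A.CompB

/-! MP_1b807b_an, large parameter asymptotics in the plane, module CompD: bounded and unbounded components -/

set_option autoImplicit false

namespace Pool.Agent.RA

open MeasureTheory Metric Set Pool.Agent.RG
open scoped RealInnerProductSpace ENNReal Topology Pointwise

variable {D : Domain 2} (J : JordanBoundary D)

include J

omit J in
private theorem compd_out {r : ℝ} (hr : 0 ≤ r) : IsConnected {x : E 2 | r < ‖x‖} := by
  have hrank : 1 < Module.rank ℝ (E 2) := by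
    rw [← Module.finrank_eq_rank, finrank_euclideanSpace, Fintype.card_fin]
    norm_num
  have h1 : IsConnected (sphere (0 : E 2) 1) := isConnected_sphere hrank 0 zero_le_one
  have h2 : {x : E 2 | r < ‖x‖} =
      (fun q : E 2 × ℝ => q.2 • q.1) '' (sphere (0 : E 2) 1 ×ˢ Ioi r) := by
    ext x
    constructor
    · intro hx
      have hx' : r < ‖x‖ := hx
      have hx0 : 0 < ‖x‖ := lt_of_le_of_lt hr hx'
      refine ⟨(‖x‖⁻¹ • x, ‖x‖), ⟨?_, hx'⟩, ?_⟩
      · rw [mem_sphere_zero_iff_norm, norm_smul, norm_inv, norm_norm,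
          inv_mul_cancel₀ hx0.ne']
      · show ‖x‖ • ‖x‖⁻¹ • x = x
        rw [smul_smul, mul_inv_cancel₀ hx0.ne', one_smul]
    · rintro ⟨⟨v, t⟩, ⟨hv, ht⟩, rfl⟩
      have ht' : r < t := ht
      have hv' : ‖v‖ = 1 := mem_sphere_zero_iff_norm.1 hv
      show r < ‖t • v‖
      rw [norm_smul, hv', mul_one, Real.norm_eq_abs]
      exact lt_of_lt_of_le ht' (le_abs_self t)
  rw [h2]
  exact (h1.prod isConnected_Ioi).image _ (by fun_prop)

omit J in
private theorem compd_rad (D : Domain 2) :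
    ∃ r : ℝ, 0 ≤ r ∧ {x : E 2 | r < ‖x‖} ⊆ D.carrierᶜ := by
  obtain ⟨r, hr⟩ := D.isBounded.subset_closedBall (0 : E 2)
  refine ⟨|r|, abs_nonneg r, ?_⟩
  intro x hx hxD
  have h1 := hr hxD
  rw [mem_closedBall_zero_iff] at h1
  have h2 : |r| < ‖x‖ := hx
  linarith [le_abs_self r]

private theorem compd_sub {r : ℝ} (hr : 0 ≤ r) (hrD : {x : E 2 | r < ‖x‖} ⊆ D.carrierᶜ)
    {i : Fin J.N} {x : E 2} (hx : x ∈ J.comp i) (hxr : r < ‖x‖) :
    {x : E 2 | r < ‖x‖} ⊆ J.comp i := by
  have h1 : J.comp i = connectedComponentIn D.carrierᶜ x := connectedComponentIn_eq hx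
  rw [h1]
  exact (compd_out hr).isPreconnected.subset_connectedComponentIn hxr hrD

private theorem compd_far {r : ℝ} {i : Fin J.N} (hi : ¬ Bornology.IsBounded (J.comp i)) :
    ∃ x ∈ J.comp i, r < ‖x‖ := by
  by_contra hcon
  push Not at hcon
  apply hi
  refine (isBounded_closedBall (x := (0 : E 2)) (r := r)).subset ?_
  intro x hx
  rw [mem_closedBall_zero_iff]
  exact hcon x hx

/-- PROOF: the complement of a ball containing `D` is connected (`2 = dim > 1`) and contained in the
complement of `D`; if `comp i` is unbounded it meets it. -/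
theorem comp_dich (i : Fin J.N) : IsCompact (J.comp i) ∨ Bornology.IsBounded (J.comp i)ᶜ := by
  obtain ⟨r, hr, hrD⟩ := compd_rad D
  by_cases hi : Bornology.IsBounded (J.comp i)
  · exact Or.inl (isCompact_of_isClosed_isBounded (comp_isClosed J i) hi)
  · right
    obtain ⟨x, hx, hxr⟩ := compd_far J (r := r) hi
    refine (isBounded_closedBall (x := (0 : E 2)) (r := r)).subset ?_
    intro y hy
    rw [mem_closedBall_zero_iff]
    by_contra hcon
    exact hy (compd_sub J hr hrD hx hxr (not_le.1 hcon))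

theorem comp_unbdd_eq {i j : Fin J.N} (hi : ¬ Bornology.IsBounded (J.comp i))
    (hj : ¬ Bornology.IsBounded (J.comp j)) : J.comp i = J.comp j := by
  obtain ⟨r, hr, hrD⟩ := compd_rad D
  obtain ⟨x, hx, hxr⟩ := compd_far J (r := r) hi
  obtain ⟨y, hy, hyr⟩ := compd_far J (r := r) hj
  exact comp_eq J hx (compd_sub J hr hrD hy hyr hxr)

theorem exists_unbdd : ∃ i, ¬ Bornology.IsBounded (J.comp i) := by
  obtain ⟨r, hr, hrD⟩ := compd_rad D
  have hnorm : ∀ t : ℝ, 0 ≤ t → ‖t • dir 0‖ = t := by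
    intro t ht
    rw [norm_smul, norm_dir, mul_one, Real.norm_eq_abs, abs_of_nonneg ht]
  have h1 : r < ‖(r + 1) • dir 0‖ := by
    rw [hnorm _ (by linarith)]
    linarith
  obtain ⟨i, hi⟩ := exists_comp J (hrD h1)
  refine ⟨i, fun hb => ?_⟩
  obtain ⟨R, hR⟩ := hb.subset_closedBall (0 : E 2)
  have h2 : r < ‖(|R| + r + 1) • dir 0‖ := by
    rw [hnorm _ (by positivity)]
    linarith [abs_nonneg R]
  have h3 := hR (compd_sub J hr hrD hi h1 h2)
  rw [mem_closedBall_zero_iff, hnorm _ (by positivity)] at h3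
  linarith [le_abs_self R]

end Pool.Agent.RA
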