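import Pool.Agent.H.MP_1b807b_an.A.Basic

/-! MP_1b807b_an, large parameter asymptotics in the plane, module CompDefs: the components of the
complement, definitions -/

set_option autoImplicit false

namespace Pool.Agent.RA

open MeasureTheory Metric Set Pool.Agent.RG
open scoped RealInnerProductSpace ENNReal Topology Pointwise

namespace JordanBoundary

variable {D : Domain 2} (J : JordanBoundary D)

/-- the component of the complement that contains the `i`-th curve -/
def comp (i : Fin J.N) : Set (E 2) := connectedComponentIn D.carrierᶜ (J.curve i 0)

open Classical in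
/-- the total length of the curves in the component of the `i`-th curve -/
noncomputable def clen (i : Fin J.N) : ℝ :=
  ∑ j, if J.curve j 0 ∈ J.comp i then J.len j else 0

/-- the component of the `i`-th curve is unbounded or has total length more than `p₀` -/
def big (p₀ : ℝ) (i : Fin J.N) : Prop := ¬ Bornology.IsBounded (J.comp i) ∨ p₀ < J.clen i

/-- the union of the big components of the complement -/
def SS (p₀ : ℝ) : Set (E 2) := ⋃ i, ⋃ _ : J.big p₀ i, J.comp i

/-- the domain with the small components of the complement added -/
def UU (p₀ : ℝ) : Set (E 2) := (J.SS p₀)ᶜ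

/-- the directional length of the part of the boundary in `C` -/
noncomputable def dl (C : Set (E 2)) (θ : ℝ) : ℝ≥0∞ :=
  ∑ j, ∫⁻ s in Ico 0 (J.len j) ∩ J.curve j ⁻¹' C, ENNReal.ofReal |⟪dir θ, deriv (J.curve j) s⟫|

end JordanBoundary

end Pool.Agent.RA
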