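import Pool.Agent.H.MP_1b807b_an.A.CompC
import Pool.Agent.H.MP_1b807b_an.A.CompD

/-! MP_1b807b_an, large parameter asymptotics in the plane, module CompE: area of a small component -/

set_option autoImplicit false

namespace Pool.Agent.RA

open MeasureTheory Metric Set Pool.Agent.RG
open scoped RealInnerProductSpace ENNReal Topology Pointwise

variable {D : Domain 2} (J : JordanBoundary D)

include J

omit J in
theorem compe_line {K : Set (E 2)} (hK : IsCompact K) {x v : E 2} (hx : x ∈ K) (hv : v ≠ 0) :
    ∃ t : ℝ, x + t • v ∈ frontier K := by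
  have hc : Continuous (fun t : ℝ => x + t • v) := by fun_prop
  have hclosed : IsClosed {t : ℝ | x + t • v ∈ K} := hK.isClosed.preimage hc
  obtain ⟨R, hR⟩ := hK.isBounded.subset_closedBall x
  have hbdd : {t : ℝ | x + t • v ∈ K} ⊆ Icc (-(R / ‖v‖)) (R / ‖v‖) := by
    intro t ht
    have h1 := hR ht
    rw [mem_closedBall, dist_eq_norm, add_sub_cancel_left, norm_smul, Real.norm_eq_abs] at h1
    have h2 : |t| ≤ R / ‖v‖ := by
      rw [le_div_iff₀ (norm_pos_iff.2 hv)]
      exact h1
    exact abs_le.1 h2
  have hcomp : IsCompact {t : ℝ | x + t • v ∈ K} := isCompact_Icc.of_isClosed_subset hclosed hbdd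
  obtain ⟨t, ht, hmax⟩ := hcomp.exists_isGreatest ⟨0, by simpa using hx⟩
  refine ⟨t, ?_⟩
  rw [hK.isClosed.frontier_eq]
  refine ⟨ht, fun hint => ?_⟩
  have h1 : ∀ᶠ s in 𝓝 t, x + s • v ∈ K :=
    hc.continuousAt.eventually (mem_interior_iff_mem_nhds.1 hint)
  obtain ⟨s, hs, hts⟩ := ((h1.filter_mono (nhdsWithin_le_nhds (s := Ioi t))).and
    self_mem_nhdsWithin).exists
  exact absurd (hmax hs) (not_le.2 hts)

omit J in
theorem compe_lip {g : ℝ → ℝ} (hg : LipschitzWith 1 g) (L : ℝ) :
    volume (g '' Icc 0 L) ≤ ENNReal.ofReal L := by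
  have h := hg.hausdorffMeasure_image_le (d := 1) zero_le_one (Icc 0 L)
  rw [hausdorffMeasure_real, Real.volume_Icc] at h
  simpa using h

omit J in
theorem compe_coord (k : Fin 2) : LipschitzWith 1 (fun x : E 2 => x k) := by
  refine LipschitzWith.mk_one fun x y => ?_
  rw [dist_eq_norm, dist_eq_norm]
  exact PiLp.norm_apply_le (x - y) k

theorem compe_proj {i : Fin J.N} (hi : Bornology.IsBounded (J.comp i)) (k : Fin 2) :
    volume ((fun x : E 2 => x k) '' J.comp i) ≤ ENNReal.ofReal (J.clen i) := by
  classical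
  have hK : IsCompact (J.comp i) :=
    Metric.isCompact_of_isClosed_isBounded (comp_isClosed J i) hi
  obtain ⟨v, hv, hvk⟩ : ∃ v : E 2, v ≠ 0 ∧ v k = 0 := by
    fin_cases k
    · refine ⟨!₂[0, 1], fun h => ?_, rfl⟩
      have := congrArg (fun x : E 2 => x 1) h
      simp at this
    · refine ⟨!₂[1, 0], fun h => ?_, rfl⟩
      have := congrArg (fun x : E 2 => x 0) h
      simp at this
  have h1 : (fun x : E 2 => x k) '' J.comp i ⊆
      ⋃ j ∈ (Finset.univ.filter (fun j => J.curve j 0 ∈ J.comp i)),
        (fun s => J.curve j s k) '' Icc 0 (J.len j) := by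
    rintro _ ⟨x, hx, rfl⟩
    obtain ⟨t, ht⟩ := compe_line hK hx hv
    have hxk : (x + t • v) k = x k := by simp [hvk]
    rw [frontier_comp] at ht
    obtain ⟨ht1, ht2⟩ := ht
    rw [J.frontier_eq, mem_iUnion] at ht2
    obtain ⟨j, s, hs⟩ := ht2
    have h0 : J.curve j 0 ∈ J.comp i :=
      curve_sub_comp J (i := i) (j := j) (s := s) (by rw [hs]; exact ht1) ⟨0, rfl⟩
    obtain ⟨s', hs', hs''⟩ := (J.periodic j).exists_mem_Ico₀ (J.len_pos j) s
    simp only [Finset.mem_filter, Finset.mem_univ, true_and, mem_iUnion]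
    refine ⟨j, h0, s', ⟨hs'.1, hs'.2.le⟩, ?_⟩
    show J.curve j s' k = x k
    rw [← hs'', hs, hxk]
  refine (measure_mono h1).trans ((measure_biUnion_finset_le _ _).trans ?_)
  have h2 : ENNReal.ofReal (J.clen i) =
      ∑ j ∈ (Finset.univ.filter (fun j => J.curve j 0 ∈ J.comp i)), ENNReal.ofReal (J.len j) := by
    have h3 : J.clen i = ∑ j ∈ (Finset.univ.filter (fun j => J.curve j 0 ∈ J.comp i)),
        J.len j := by
      rw [Finset.sum_filter]
      unfold JordanBoundary.clen
      refine Finset.sum_congr rfl fun j _ => ?_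
      congr
    rw [h3, ENNReal.ofReal_sum_of_nonneg fun j _ => (J.len_pos j).le]
  rw [h2]
  refine Finset.sum_le_sum fun j _ => ?_
  have h4 : LipschitzWith 1 (fun s => J.curve j s k) := by
    have := (compe_coord k).comp (J.lipschitz j)
    rw [one_mul] at this
    exact this
  exact compe_lip h4 _

/-- a small component is small. PROOF: both coordinate projections of the compact set `comp i` have
measure at most `clen i`: a vertical line through a point of `comp i` meets `frontier (comp i)`
(topmost point), which lies on the curves contained in `comp i` (`frontier_comp`,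
`curve_sub_comp`), and a `1`-Lipschitz image of `[0, len j]` has measure at most `len j`. So
`comp i` lies in a product of two sets of measure `≤ clen i`. -/
theorem volume_comp_le {i : Fin J.N} (hi : Bornology.IsBounded (J.comp i)) :
    volume (J.comp i) ≤ ENNReal.ofReal (J.clen i ^ 2) := by
  have hK : IsCompact (J.comp i) :=
    Metric.isCompact_of_isClosed_isBounded (comp_isClosed J i) hi
  have h1 : J.comp i ⊆ (@WithLp.ofLp 2 (Fin 2 → ℝ)) ⁻¹'
      (Set.pi univ (fun k => (fun x : E 2 => x k) '' J.comp i)) := by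
    intro x hx k _
    exact ⟨x, hx, rfl⟩
  have hcpt : ∀ k : Fin 2, IsCompact ((fun x : E 2 => x k) '' J.comp i) :=
    fun k => hK.image (compe_coord k).continuous
  have h2 : MeasurableSet (Set.pi univ (fun k : Fin 2 => (fun x : E 2 => x k) '' J.comp i)) :=
    MeasurableSet.univ_pi fun k => (hcpt k).measurableSet
  refine (measure_mono h1).trans ?_
  rw [(PiLp.volume_preserving_ofLp (Fin 2)).measure_preimage h2.nullMeasurableSet, volume_pi_pi,
    Fin.prod_univ_two]
  have hn : 0 ≤ J.clen i := by
    unfold JordanBoundary.clen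
    refine Finset.sum_nonneg fun j _ => ?_
    split_ifs
    · exact (J.len_pos j).le
    · exact le_rfl
  rw [sq, ENNReal.ofReal_mul hn]
  exact mul_le_mul' (compe_proj J hi 0) (compe_proj J hi 1)

end Pool.Agent.RA
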