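import Pool.Agent.H.MP_1b807b_an.G.Defs

/-! MP_1b807b_an, large parameter asymptotics in the plane, module Defs -/

set_option autoImplicit false

namespace Pool.Agent.RA

open MeasureTheory Metric Set Pool.Agent.RG
open scoped RealInnerProductSpace ENNReal Topology Pointwise

/-- The unit vector of direction `θ`. -/
noncomputable def dir (θ : ℝ) : E 2 := !₂[Real.cos θ, Real.sin θ]

/-- The unit vector of direction `θ + π / 2`. -/
noncomputable def nrm (θ : ℝ) : E 2 := !₂[-Real.sin θ, Real.cos θ]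

/-- The line with normal direction `dir θ` at signed distance `p` from the origin. -/
def ln (θ p : ℝ) : Set (E 2) := {x | ⟪dir θ, x⟫ = p}

/-- The clockwise rotation by a right angle. -/
noncomputable def rot (v : E 2) : E 2 := !₂[v 1, -v 0]

/-- The number of elements of a set (`∞` for infinite sets). -/
noncomputable def cnt {α : Type*} (s : Set α) : ℝ≥0∞ := ((s.encard : ℕ∞) : ℝ≥0∞)

/-- The boundary of the planar domain `D` is a finite disjoint union of simple closed curves,
parametrised by arc length, with the domain on the left. -/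
structure JordanBoundary (D : Domain 2) where
  /-- the number of curves -/
  N : ℕ
  /-- the lengths of the curves -/
  len : Fin N → ℝ
  /-- the curves -/
  curve : Fin N → ℝ → E 2
  len_pos : ∀ i, 0 < len i
  lipschitz : ∀ i, LipschitzWith 1 (curve i)
  periodic : ∀ i, Function.Periodic (curve i) (len i)
  injOn : ∀ i, InjOn (curve i) (Ico 0 (len i))
  disjoint : ∀ i j, i ≠ j → Disjoint (range (curve i)) (range (curve j))
  frontier_eq : frontier D.carrier = ⋃ i, range (curve i)
  surface_eq : D.surface = ∑ i, (volume.restrict (Ico 0 (len i))).map (curve i)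
  normal_eq : ∀ i, ∀ᵐ s ∂(volume.restrict (Ico 0 (len i))),
    D.normal (curve i s) = rot (deriv (curve i) s)

/-- Every boundary point of `U` has arbitrarily small neighbourhoods whose intersection with `U`
is connected. -/
def LocConn (U : Set (E 2)) : Prop :=
  ∀ z ∈ frontier U, ∀ ε > 0, ∃ V ∈ 𝓝 z, V ⊆ ball z ε ∧ IsPreconnected (U ∩ V)

/-- The energy inequality `λ₁ ≥ - β² - Λ`. -/
def EN (D : Domain 2) (β Λ : ℝ) : Prop :=
  ∀ u : E 2 → ℝ, ContDiff ℝ 1 u → β * ∫ x, u x ^ 2 ∂D.surface ≤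
    (∫ x in D.carrier, ‖fderiv ℝ u x‖ ^ 2) + (β ^ 2 + Λ) * ∫ x in D.carrier, u x ^ 2

/-- the slice of `S` by the line `ln θ p`, as a set of real numbers -/
def slc (θ : ℝ) (S : Set (E 2)) (p : ℝ) : Set ℝ := {y | p • dir θ + y • nrm θ ∈ S}

/-- the right endpoints of a set of real numbers -/
def rend (A : Set ℝ) : Set ℝ := {b | b ∈ A ∧ ∃ ε > 0, ∀ y, b < y → y < b + ε → y ∉ A}

/-- the total number of right endpoints of the slices of `S` by the lines of normal direction
`dir θ` -/
noncomputable def NN (θ : ℝ) (S : Set (E 2)) : ℝ≥0∞ := ∫⁻ p, cnt (rend (slc θ S p))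

/-- No point at distance more than `R' + m` of a centre `x₀` lies in a component of
`U \ closedBall x₀ R'` contained in `ball x₀ R`. -/
def PP (U : Set (E 2)) (R m : ℝ) : Prop :=
  ∀ (x₀ : E 2) (R' : ℝ), 0 ≤ R' → ∀ q ∈ U, R' + m < dist q x₀ →
    ¬ (connectedComponentIn (U \ closedBall x₀ R') q ⊆ ball x₀ R)

/-- an open set with a length measure on its boundary -/
structure GeoData (U : Set (E 2)) (lam : Measure (E 2)) : Prop where
  isOpen : IsOpen U
  conn : IsConnected U
  bdd : Bornology.IsBounded U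
  locc : LocConn U
  supp : lam (frontier U)ᶜ = 0
  point : ∀ z, lam {z} = 0
  fin : lam univ ≠ ⊤
  crof : ∀ C : Set (E 2), IsClosed C →
    ∫⁻ θ in Ioo 0 Real.pi, ∫⁻ p, cnt (frontier U ∩ C ∩ ln θ p) ≤ 2 * lam C
  noiso : ∀ θ, ∀ᵐ p : ℝ, ∀ z ∈ frontier U ∩ ln θ p, ∀ δ > 0,
    ∃ t : ℝ, 0 < |t| ∧ |t| < δ ∧ z + t • nrm θ ∉ U
  proj : ∀ f : E 2 → ℝ, LipschitzWith 1 f → ∀ C : Set (E 2), IsClosed C →
    volume (f '' (frontier U ∩ C)) ≤ lam C

/-- the support function of `Q` -/
noncomputable def hs (Q : Set (E 2)) (θ : ℝ) : ℝ := sSup ((fun x => ⟪dir θ, x⟫) '' Q)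

/-- the perimeter of the convex hull of `Q` -/
noncomputable def HH (Q : Set (E 2)) : ℝ := ∫ θ in (0 : ℝ)..(2 * Real.pi), hs Q θ

/-- a piece of `U`, cut off by `Sg` -/
structure Piece (U Q Sg : Set (E 2)) : Prop where
  isOpen : IsOpen Q
  conn : IsConnected Q
  sub : Q ⊆ U
  bd : U ∩ frontier Q ⊆ Sg

end Pool.Agent.RA
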