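import Pool.Agent.H.MP_1b807b_an.A.CompDefs

/-! MP_1b807b_an, large parameter asymptotics in the plane, module DlenA: the surface measure -/

set_option autoImplicit false

namespace Pool.Agent.RA

open MeasureTheory Metric Set Pool.Agent.RG
open scoped RealInnerProductSpace ENNReal Topology Pointwise

variable {D : Domain 2} (J : JordanBoundary D)

include J

theorem curve_continuous (j : Fin J.N) : Continuous (J.curve j) := (J.lipschitz j).continuous

/-- each boundary point is hit by exactly one curve, once in each period -/
theorem mem_frontier_iff {z : E 2} :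
    z ∈ frontier D.carrier ↔ ∃ j, ∃ s ∈ Ico 0 (J.len j), J.curve j s = z := by
  rw [J.frontier_eq, mem_iUnion]
  refine exists_congr fun j => ?_
  constructor
  · rintro ⟨x, rfl⟩
    obtain ⟨y, hy, hxy⟩ := (J.periodic j).exists_mem_Ico₀ (J.len_pos j) x
    exact ⟨y, hy, hxy.symm⟩
  · rintro ⟨s, _, hs⟩
    exact ⟨s, hs⟩

/-- PROOF: `surface_eq`, `Measure.map_apply`. -/
theorem surface_apply {C : Set (E 2)} (hC : MeasurableSet C) :
    D.surface C = ∑ j, volume (Ico 0 (J.len j) ∩ J.curve j ⁻¹' C) := by
  rw [J.surface_eq, Measure.finsetSum_apply]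
  refine Finset.sum_congr rfl fun j _ => ?_
  have hm : Measurable (J.curve j) := (curve_continuous J j).measurable
  rw [Measure.map_apply hm hC, Measure.restrict_apply (hm hC), inter_comm]

theorem surface_univ : D.surface univ = ENNReal.ofReal (∑ j, J.len j) := by
  rw [surface_apply J MeasurableSet.univ, ENNReal.ofReal_sum_of_nonneg fun j _ => (J.len_pos j).le]
  refine Finset.sum_congr rfl fun j _ => ?_
  rw [preimage_univ, inter_univ, Real.volume_Ico, sub_zero]

/-- PROOF: `surface_apply` and `injOn`: each `Ico ∩ curve⁻¹ {z}` has at most one point. -/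
theorem surface_point (z : E 2) : D.surface {z} = 0 := by
  rw [surface_apply J (measurableSet_singleton z)]
  refine Finset.sum_eq_zero fun j _ => ?_
  refine Set.Subsingleton.measure_zero ?_ _
  rintro s ⟨hs, hs'⟩ t ⟨ht, ht'⟩
  have h1 : J.curve j s = z := hs'
  have h2 : J.curve j t = z := ht'
  exact J.injOn j hs ht (h1.trans h2.symm)

end Pool.Agent.RA
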