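import Pool.Agent.H.MP_1b807b_an.A.DlenA

/-! MP_1b807b_an, large parameter asymptotics in the plane, module DlenB: projection of the surface measure -/

set_option autoImplicit false

namespace Pool.Agent.RA

open MeasureTheory Metric Set Pool.Agent.RG
open scoped RealInnerProductSpace ENNReal Topology Pointwise

variable {D : Domain 2} (J : JordanBoundary D)

include J

omit J in
private theorem dlenb_lip {g : ℝ → ℝ} (hg : LipschitzWith 1 g) (s : Set ℝ) :
    volume (g '' s) ≤ volume s := by
  have h := hg.hausdorffMeasure_image_le (d := 1) zero_le_one s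
  rw [hausdorffMeasure_real, ENNReal.coe_one, ENNReal.one_rpow, one_mul] at h
  exact h

/-- PROOF: `frontier D.carrier ∩ C` is covered by the `curve j '' (Ico 0 (len j) ∩ curve j ⁻¹' C)`
and `f ∘ curve j` is `1`-Lipschitz, so it does not increase the outer measure
(`LipschitzOnWith` and `hausdorffMeasure` on the line, or `addHaar`), `surface_apply`. -/
theorem surface_proj {f : E 2 → ℝ} (hf : LipschitzWith 1 f) {C : Set (E 2)} (hC : IsClosed C) :
    volume (f '' (frontier D.carrier ∩ C)) ≤ D.surface C := by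
  have hsub : f '' (frontier D.carrier ∩ C) ⊆
      ⋃ j ∈ (Finset.univ : Finset (Fin J.N)),
        (f ∘ J.curve j) '' (Ico 0 (J.len j) ∩ J.curve j ⁻¹' C) := by
    rintro _ ⟨z, ⟨hz, hzC⟩, rfl⟩
    obtain ⟨j, s, hs, rfl⟩ := (mem_frontier_iff J).1 hz
    exact mem_biUnion (Finset.mem_coe.2 (Finset.mem_univ j)) ⟨s, ⟨hs, hzC⟩, rfl⟩
  calc volume (f '' (frontier D.carrier ∩ C))
      ≤ volume (⋃ j ∈ (Finset.univ : Finset (Fin J.N)),
        (f ∘ J.curve j) '' (Ico 0 (J.len j) ∩ J.curve j ⁻¹' C)) := measure_mono hsub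
    _ ≤ ∑ j, volume ((f ∘ J.curve j) '' (Ico 0 (J.len j) ∩ J.curve j ⁻¹' C)) :=
        measure_biUnion_finset_le _ _
    _ ≤ ∑ j, volume (Ico 0 (J.len j) ∩ J.curve j ⁻¹' C) := by
        refine Finset.sum_le_sum fun j _ => dlenb_lip ?_ _
        have h := hf.comp (J.lipschitz j)
        rwa [one_mul] at h
    _ = D.surface C := (surface_apply J hC.measurableSet).symm

end Pool.Agent.RA
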