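import Pool.Agent.H.MP_1b807b_an.A.AreaA
import Pool.Agent.H.MP_1b807b_an.A.DlenA

/-! MP_1b807b_an, large parameter asymptotics in the plane, module DlenC: hits of lines -/

set_option autoImplicit false

namespace Pool.Agent.RA

open MeasureTheory Metric Set Pool.Agent.RG
open scoped RealInnerProductSpace ENNReal Topology Pointwise

theorem dlenc_cnt_mono {α : Type*} {s t : Set α} (h : s ⊆ t) : cnt s ≤ cnt t := by
  unfold cnt
  exact_mod_cast Set.encard_le_encard h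

theorem dlenc_cnt_union {α : Type*} (s t : Set α) : cnt (s ∪ t) ≤ cnt s + cnt t := by
  unfold cnt
  exact_mod_cast Set.encard_union_le s t

theorem dlenc_cnt_image {α β : Type*} (f : α → β) (s : Set α) : cnt (f '' s) ≤ cnt s := by
  unfold cnt
  exact_mod_cast Set.encard_image_le f s

theorem dlenc_cnt_iUnion {ι α : Type*} (F : Finset ι) (s : ι → Set α) :
    cnt (⋃ i ∈ F, s i) ≤ ∑ i ∈ F, cnt (s i) := by
  classical
  induction F using Finset.induction_on with
  | empty =>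
    have h0 : (⋃ i ∈ (∅ : Finset ι), s i) = ∅ := by simp
    rw [h0]
    simp [cnt]
  | insert a F ha ih =>
    rw [Finset.set_biUnion_insert, Finset.sum_insert ha]
    exact (dlenc_cnt_union _ _).trans (add_le_add le_rfl ih)

theorem dlenc_lip (θ : ℝ) {c : ℝ → E 2} (hc : LipschitzWith 1 c) :
    LipschitzWith 1 (fun s => ⟪dir θ, c s⟫) := by
  refine LipschitzWith.of_dist_le_mul fun x y => ?_
  rw [NNReal.coe_one, one_mul, Real.dist_eq, ← inner_sub_right]
  refine (abs_inner_dir_le θ _).trans ?_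
  have h1 := hc.dist_le_mul x y
  rwa [NNReal.coe_one, one_mul, dist_eq_norm] at h1

theorem dlenc_deriv (θ : ℝ) {c : ℝ → E 2} (hc : LipschitzWith 1 c) :
    ∀ᵐ s : ℝ, deriv (fun s => ⟪dir θ, c s⟫) s = ⟪dir θ, deriv c s⟫ := by
  filter_upwards [hc.ae_differentiableAt] with s hs
  have h1 := (hasDerivAt_const s (dir θ)).inner ℝ hs.hasDerivAt
  simp only [inner_zero_left, add_zero] at h1
  exact h1.deriv

variable {D : Domain 2} (J : JordanBoundary D)

include J

/-- PROOF: `cnt (frontier ∩ C ∩ ln θ p) ≤ ∑ j, cnt (Ico 0 (len j) ∩ curve j ⁻¹' C ∩ f ⁻¹' {p})` with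
`f s = ⟪dir θ, curve j s⟫` (`1`-Lipschitz), `area_one`; `deriv f s = ⟪dir θ, deriv (curve j) s⟫` at
almost every `s` (Rademacher). -/
theorem dl_cnt (θ : ℝ) {C : Set (E 2)} (hC : IsClosed C) :
    ∫⁻ p, cnt (frontier D.carrier ∩ C ∩ ln θ p) ≤ J.dl C θ := by
  have hpt : ∀ p, cnt (frontier D.carrier ∩ C ∩ ln θ p) ≤
      ∑ j, cnt (Ico 0 (J.len j) ∩ J.curve j ⁻¹' C ∩ (fun s => ⟪dir θ, J.curve j s⟫) ⁻¹' {p}) := by
    intro p
    have h1 : frontier D.carrier ∩ C ∩ ln θ p ⊆ ⋃ j ∈ (Finset.univ : Finset (Fin J.N)),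
        J.curve j '' (Ico 0 (J.len j) ∩ J.curve j ⁻¹' C ∩
          (fun s => ⟪dir θ, J.curve j s⟫) ⁻¹' {p}) := by
      rintro z ⟨⟨hz1, hz2⟩, hz3⟩
      obtain ⟨j, s, hs, rfl⟩ := (mem_frontier_iff J).1 hz1
      exact mem_iUnion₂.2 ⟨j, Finset.mem_univ j, s, ⟨⟨hs, hz2⟩, hz3⟩, rfl⟩
    refine (dlenc_cnt_mono h1).trans ((dlenc_cnt_iUnion _ _).trans ?_)
    exact Finset.sum_le_sum fun j _ => dlenc_cnt_image _ _
  have ha : ∀ j, _ := fun j => area_one (dlenc_lip θ (J.lipschitz j)) 0 (J.len j)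
    (hC.preimage (curve_continuous J j))
  refine (lintegral_mono hpt).trans ?_
  rw [lintegral_finsetSum _ fun j _ => (ha j).1]
  unfold JordanBoundary.dl
  refine Finset.sum_le_sum fun j _ => (ha j).2.trans (le_of_eq ?_)
  refine lintegral_congr_ae (ae_restrict_of_ae ?_)
  filter_upwards [dlenc_deriv θ (J.lipschitz j)] with s hs
  rw [hs]

end Pool.Agent.RA
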