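import Pool.Agent.H.MP_1b807b_an.A.DlenA

/-! MP_1b807b_an, large parameter asymptotics in the plane, module DlenD: directional length -/

set_option autoImplicit false

namespace Pool.Agent.RA

open MeasureTheory Metric Set Pool.Agent.RG
open scoped RealInnerProductSpace ENNReal Topology Pointwise

theorem dlend_dir (x y : ℝ) : ‖dir x - dir y‖ ≤ |x - y| := by
  have h1 : ‖dir x - dir y‖ ^ 2 = 2 - 2 * Real.cos (x - y) := by
    rw [norm_sub_sq_real, norm_dir, norm_dir, inner_dir_dir']; ring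
  have h2 := Real.one_sub_sq_div_two_le_cos (x := x - y)
  have h3 : ‖dir x - dir y‖ ^ 2 ≤ |x - y| ^ 2 := by rw [h1, sq_abs]; linarith
  exact (sq_le_sq₀ (norm_nonneg _) (abs_nonneg _)).1 h3

theorem dlend_cos : ∫ x in (-(Real.pi / 2))..(Real.pi / 2), |Real.cos x| = 2 := by
  have h : ∫ x in (-(Real.pi / 2))..(Real.pi / 2), |Real.cos x| =
      ∫ x in (-(Real.pi / 2))..(Real.pi / 2), Real.cos x := by
    apply intervalIntegral.integral_congr
    intro x hx
    rw [uIcc_of_le (by linarith [Real.pi_pos])] at hx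
    exact abs_of_nonneg (Real.cos_nonneg_of_mem_Icc hx)
  rw [h, integral_cos, Real.sin_neg, Real.sin_pi_div_two]
  norm_num

theorem dlend_shift (φ : ℝ) : ∫ θ in (0 : ℝ)..Real.pi, |Real.cos (θ - φ)| = 2 := by
  have hper : Function.Periodic (fun x : ℝ => |Real.cos x|) Real.pi := by
    intro x
    show |Real.cos (x + Real.pi)| = |Real.cos x|
    rw [Real.cos_add_pi, abs_neg]
  have h1 : ∫ θ in (0 : ℝ)..Real.pi, |Real.cos (θ - φ)| =
      ∫ x in (0 - φ)..(Real.pi - φ), |Real.cos x| :=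
    intervalIntegral.integral_comp_sub_right (fun x => |Real.cos x|) φ
  have h2 := hper.intervalIntegral_add_eq (0 - φ) (-(Real.pi / 2))
  have e1 : (0 : ℝ) - φ + Real.pi = Real.pi - φ := by ring
  have e2 : -(Real.pi / 2) + Real.pi = Real.pi / 2 := by ring
  rw [e1, e2] at h2
  rw [h1, h2, dlend_cos]

theorem dlend_lint (v : E 2) :
    ∫⁻ θ in Ioo 0 Real.pi, ENNReal.ofReal |⟪dir θ, v⟫| = ENNReal.ofReal (2 * ‖v‖) := by
  set z : ℂ := ⟨v 0, v 1⟩ with hz
  have hzn : ‖z‖ = ‖v‖ := by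
    have h1 := Complex.sq_norm z
    rw [Complex.normSq_apply] at h1
    have h2 := norm_two v
    have h3 : ‖z‖ ^ 2 = ‖v‖ ^ 2 := by
      rw [h1, h2]
      show v 0 * v 0 + v 1 * v 1 = _
      ring
    exact (pow_left_inj₀ (norm_nonneg _) (norm_nonneg _) two_ne_zero).1 h3
  have hin : ∀ θ, ⟪dir θ, v⟫ = ‖v‖ * Real.cos (θ - Complex.arg z) := by
    intro θ
    have h1 : ‖z‖ * Real.cos (Complex.arg z) = v 0 := Complex.norm_mul_cos_arg z
    have h2 : ‖z‖ * Real.sin (Complex.arg z) = v 1 := Complex.norm_mul_sin_arg z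
    rw [inner_dir, Real.cos_sub, ← hzn, ← h1, ← h2]
    ring
  have hint : ∫ θ in (0 : ℝ)..Real.pi, |⟪dir θ, v⟫| = 2 * ‖v‖ := by
    simp_rw [hin, abs_mul, abs_norm]
    rw [intervalIntegral.integral_const_mul, dlend_shift]
    ring
  have hcont : Continuous fun θ => |⟪dir θ, v⟫| := (continuous_dir.inner continuous_const).abs
  rw [← ofReal_integral_eq_lintegral_ofReal
    (hcont.continuousOn.integrableOn_Icc.mono_set Ioo_subset_Icc_self)
    (Filter.Eventually.of_forall fun _ => abs_nonneg _),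
    ← integral_Ioc_eq_integral_Ioo, ← intervalIntegral.integral_of_le Real.pi_pos.le, hint]

variable {D : Domain 2} (J : JordanBoundary D)

include J

theorem dlend_deriv (j : Fin J.N) (s : ℝ) : ‖deriv (J.curve j) s‖ ≤ 1 := by
  have h := norm_deriv_le_of_lipschitz (J.lipschitz j) (x₀ := s)
  simpa using h

theorem dlend_meas (j : Fin J.N) :
    Measurable fun p : ℝ × ℝ => ENNReal.ofReal |⟪dir p.1, deriv (J.curve j) p.2⟫| := by
  have h1 : Measurable fun p : ℝ × ℝ => dir p.1 := continuous_dir.measurable.comp measurable_fst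
  have h2 : Measurable fun p : ℝ × ℝ => deriv (J.curve j) p.2 :=
    (measurable_deriv _).comp measurable_snd
  exact (continuous_abs.measurable.comp (h1.inner h2)).ennreal_ofReal

theorem dlend_surf {C : Set (E 2)} (hC : IsClosed C) :
    D.surface C = ∑ j, volume (Ico 0 (J.len j) ∩ J.curve j ⁻¹' C) :=
  surface_apply J hC.measurableSet

/-- PROOF: the integrand is at most `‖deriv (curve j) s‖ ≤ 1`; `surface_apply`. -/
theorem dl_le (θ : ℝ) {C : Set (E 2)} (hC : IsClosed C) : J.dl C θ ≤ D.surface C := by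
  rw [dlend_surf J hC]
  unfold JordanBoundary.dl
  refine Finset.sum_le_sum fun j _ => ?_
  calc ∫⁻ s in Ico 0 (J.len j) ∩ J.curve j ⁻¹' C, ENNReal.ofReal |⟪dir θ, deriv (J.curve j) s⟫|
      ≤ ∫⁻ _ in Ico 0 (J.len j) ∩ J.curve j ⁻¹' C, 1 := by
        refine lintegral_mono fun s => ?_
        rw [← ENNReal.ofReal_one]
        exact ENNReal.ofReal_le_ofReal ((abs_inner_dir_le θ _).trans (dlend_deriv J j s))
    _ = volume (Ico 0 (J.len j) ∩ J.curve j ⁻¹' C) := by
        rw [setLIntegral_const, one_mul]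

/-- comparison of two directions -/
theorem dlend_lip (x y : ℝ) {C : Set (E 2)} (hC : IsClosed C) :
    J.dl C x ≤ J.dl C y + ENNReal.ofReal |x - y| * D.surface C := by
  rw [dlend_surf J hC, Finset.mul_sum]
  unfold JordanBoundary.dl
  rw [← Finset.sum_add_distrib]
  refine Finset.sum_le_sum fun j _ => ?_
  calc ∫⁻ s in Ico 0 (J.len j) ∩ J.curve j ⁻¹' C, ENNReal.ofReal |⟪dir x, deriv (J.curve j) s⟫|
      ≤ ∫⁻ s in Ico 0 (J.len j) ∩ J.curve j ⁻¹' C,
          (ENNReal.ofReal |⟪dir y, deriv (J.curve j) s⟫| + ENNReal.ofReal |x - y|) := by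
        refine lintegral_mono fun s => ?_
        show ENNReal.ofReal |⟪dir x, deriv (J.curve j) s⟫| ≤
          ENNReal.ofReal |⟪dir y, deriv (J.curve j) s⟫| + ENNReal.ofReal |x - y|
        rw [← ENNReal.ofReal_add (abs_nonneg _) (abs_nonneg _)]
        apply ENNReal.ofReal_le_ofReal
        have h1 : ⟪dir x, deriv (J.curve j) s⟫ =
            ⟪dir y, deriv (J.curve j) s⟫ + ⟪dir x - dir y, deriv (J.curve j) s⟫ := by
          rw [inner_sub_left]; ring
        rw [h1]
        refine (abs_add_le _ _).trans (add_le_add le_rfl ?_)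
        refine (abs_real_inner_le_norm _ _).trans ?_
        calc ‖dir x - dir y‖ * ‖deriv (J.curve j) s‖ ≤ |x - y| * 1 :=
              mul_le_mul (dlend_dir x y) (dlend_deriv J j s) (norm_nonneg _) (abs_nonneg _)
          _ = |x - y| := mul_one _
    _ = _ := by
        rw [lintegral_add_right _ measurable_const, setLIntegral_const]

/-- PROOF: Tonelli (`lintegral_lintegral_swap`) and `∫_0^π |⟪dir θ, v⟫| dθ = 2 ‖v‖`. -/
theorem dl_int {C : Set (E 2)} (hC : IsClosed C) :
    ∫⁻ θ in Ioo 0 Real.pi, J.dl C θ ≤ 2 * D.surface C := by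
  unfold JordanBoundary.dl
  rw [lintegral_finsetSum _ fun j _ => (dlend_meas J j).lintegral_prod_right', dlend_surf J hC,
    Finset.mul_sum]
  refine Finset.sum_le_sum fun j _ => ?_
  rw [lintegral_lintegral_swap (dlend_meas J j).aemeasurable]
  calc ∫⁻ s in Ico 0 (J.len j) ∩ J.curve j ⁻¹' C, ∫⁻ θ in Ioo 0 Real.pi,
        ENNReal.ofReal |⟪dir θ, deriv (J.curve j) s⟫|
      ≤ ∫⁻ _ in Ico 0 (J.len j) ∩ J.curve j ⁻¹' C, 2 := by
        refine lintegral_mono fun s => ?_
        show ∫⁻ θ in Ioo 0 Real.pi, ENNReal.ofReal |⟪dir θ, deriv (J.curve j) s⟫| ≤ 2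
        rw [dlend_lint]
        have h1 : (2 : ℝ≥0∞) = ENNReal.ofReal 2 := by simp
        refine (ENNReal.ofReal_le_ofReal ?_).trans_eq h1.symm
        have := dlend_deriv J j s
        linarith
    _ = 2 * volume (Ico 0 (J.len j) ∩ J.curve j ⁻¹' C) := setLIntegral_const _ _

/-- The directional length as a real Lipschitz function. PROOF: `Lm θ = (dl C θ).toReal`;
`|⟪dir θ, v⟫ - ⟪dir φ, v⟫| ≤ |θ - φ|` for `‖v‖ ≤ 1`; `dl_int`. -/
theorem dl_real {C : Set (E 2)} (hC : IsClosed C) :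
    ∃ Lm : ℝ → ℝ, (∀ θ, J.dl C θ = ENNReal.ofReal (Lm θ)) ∧ (∀ θ, 0 ≤ Lm θ) ∧
      (∀ x y, |Lm x - Lm y| ≤ D.surface.real C * |x - y|) ∧
      ∫ θ in (0 : ℝ)..Real.pi, Lm θ ≤ 2 * D.surface.real C := by
  have hfin : IsFiniteMeasure D.surface := D.isFinite
  have hS : D.surface C ≠ ⊤ := measure_ne_top _ _
  have hdl : ∀ θ, J.dl C θ ≠ ⊤ := fun θ => ne_top_of_le_ne_top hS (dl_le J θ hC)
  have hone : ∀ x y, (J.dl C x).toReal ≤ (J.dl C y).toReal + D.surface.real C * |x - y| := by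
    intro x y
    have h1 := dlend_lip J x y hC
    have h2 : ENNReal.ofReal |x - y| * D.surface C ≠ ⊤ :=
      ENNReal.mul_ne_top ENNReal.ofReal_ne_top hS
    have h3 := ENNReal.toReal_mono (ENNReal.add_ne_top.2 ⟨hdl y, h2⟩) h1
    rw [ENNReal.toReal_add (hdl y) h2, ENNReal.toReal_mul, ENNReal.toReal_ofReal (abs_nonneg _),
      mul_comm |x - y|] at h3
    exact h3
  have hlip : ∀ x y, |(J.dl C x).toReal - (J.dl C y).toReal| ≤ D.surface.real C * |x - y| := by
    intro x y
    rw [abs_le]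
    have h1 := hone x y
    have h2 := hone y x
    rw [abs_sub_comm y x] at h2
    constructor <;> linarith
  have hcont : Continuous fun θ => (J.dl C θ).toReal := by
    have hL : LipschitzWith (Real.toNNReal (D.surface.real C)) fun θ => (J.dl C θ).toReal := by
      refine LipschitzWith.of_dist_le_mul fun x y => ?_
      rw [Real.dist_eq, Real.dist_eq, Real.coe_toNNReal _ measureReal_nonneg]
      exact hlip x y
    exact hL.continuous
  refine ⟨fun θ => (J.dl C θ).toReal, fun θ => (ENNReal.ofReal_toReal (hdl θ)).symm,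
    fun θ => ENNReal.toReal_nonneg, hlip, ?_⟩
  have hint : IntegrableOn (fun θ => (J.dl C θ).toReal) (Ioo 0 Real.pi) :=
    hcont.continuousOn.integrableOn_Icc.mono_set Ioo_subset_Icc_self
  rw [intervalIntegral.integral_of_le Real.pi_pos.le, integral_Ioc_eq_integral_Ioo]
  have h4 : ENNReal.ofReal (∫ θ in Ioo 0 Real.pi, (J.dl C θ).toReal) ≤ 2 * D.surface C := by
    rw [ofReal_integral_eq_lintegral_ofReal hint
      (Filter.Eventually.of_forall fun _ => ENNReal.toReal_nonneg)]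
    refine le_trans (le_of_eq ?_) (dl_int J hC)
    refine lintegral_congr fun θ => ?_
    exact ENNReal.ofReal_toReal (hdl θ)
  have h5 : (2 : ℝ≥0∞) * D.surface C ≠ ⊤ := ENNReal.mul_ne_top (by simp) hS
  have h6 := ENNReal.toReal_mono h5 h4
  rw [ENNReal.toReal_mul] at h6
  have h7 : (0 : ℝ) ≤ ∫ θ in Ioo 0 Real.pi, (J.dl C θ).toReal :=
    integral_nonneg fun _ => ENNReal.toReal_nonneg
  have h8 : (2 : ℝ≥0∞).toReal = 2 := by simp
  rw [ENNReal.toReal_ofReal h7, h8] at h6
  exact h6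

end Pool.Agent.RA
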