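import Pool.Agent.H.MP_1b807b_an.A.Basic

/-! MP_1b807b_an, large parameter asymptotics in the plane, module EnergyA: energy inequality -/

set_option autoImplicit false

namespace Pool.Agent.RA

open MeasureTheory Metric Set Pool.Agent.RG
open scoped RealInnerProductSpace ENNReal Topology Pointwise

/-- PROOF: if `∫_D u² > 0` the Rayleigh quotient of `u` is an element of the set whose infimum is
`robin`; if `∫_D u² = 0` then `u = 0` on the open set `D`, hence on `closure D` and `∇ u = 0` on `D`,
and the surface measure is concentrated on `frontier D`, so all terms vanish. -/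
theorem EN_of_robin {D : Domain 2} {β Λ : ℝ}
    (h : ((-β ^ 2 - Λ : ℝ) : EReal) < D.robin (-β)) : EN D β Λ := by
  intro u hu
  have hcont : Continuous fun x => u x ^ 2 := hu.continuous.pow 2
  have hnn : 0 ≤ ∫ x in D.carrier, u x ^ 2 := integral_nonneg fun x => sq_nonneg _
  rcases hnn.lt_or_eq with hpos | hzero
  · have h1 : D.robin (-β) ≤ (D.rayleigh (-β) u : EReal) := sInf_le ⟨u, hu, hpos, rfl⟩
    have h2 := EReal.coe_lt_coe_iff.1 (h.trans_le h1)
    unfold Domain.rayleigh at h2
    rw [lt_div_iff₀ hpos] at h2
    nlinarith
  · have hint : IntegrableOn (fun x => u x ^ 2) D.carrier :=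
      (hcont.continuousOn.integrableOn_compact D.isBounded.isCompact_closure).mono_set
        subset_closure
    have h1 := (setIntegral_eq_zero_iff_of_nonneg_ae
      (Filter.Eventually.of_forall fun x => sq_nonneg (u x)) hint).1 hzero.symm
    have h2 : EqOn (fun x => u x ^ 2) 0 D.carrier :=
      Measure.eqOn_open_of_ae_eq h1 D.isOpen hcont.continuousOn continuousOn_const
    have h3 : EqOn (fun x => u x ^ 2) 0 (closure D.carrier) :=
      h2.closure hcont continuous_const
    have h4 : ∫ x, u x ^ 2 ∂D.surface = 0 := by
      refine integral_eq_zero_of_ae ?_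
      have h5 : ∀ᵐ x ∂D.surface, x ∈ frontier D.carrier := by
        rw [ae_iff]
        exact D.support
      filter_upwards [h5] with x hx
      exact h3 (frontier_subset_closure hx)
    rw [h4, ← hzero, mul_zero, mul_zero, add_zero]
    exact integral_nonneg fun x => sq_nonneg _

/-- PROOF: `u = 1`. -/
theorem EN_length {D : Domain 2} {β Λ : ℝ} (h : EN D β Λ) :
    β * D.surface.real univ ≤ (β ^ 2 + Λ) * volume.real D.carrier := by
  have h1 := h (fun _ => 1) contDiff_const
  simpa using h1

end Pool.Agent.RA
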