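import Pool.Agent.H.MP_1b807b_an.A.Basic

/-! MP_1b807b_an, large parameter asymptotics in the plane, module EnergyB: Lipschitz test functions -/

set_option autoImplicit false

namespace Pool.Agent.RA

open MeasureTheory Metric Set Pool.Agent.RG
open scoped RealInnerProductSpace ENNReal Topology Pointwise

/-- the bump function -/
noncomputable def energyb_bump {ε : ℝ} (hε : 0 < ε) : ContDiffBump (0 : E 2) where
  rIn := ε / 2
  rOut := ε
  rIn_pos := by positivity
  rIn_lt_rOut := half_lt_self hε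

theorem energyb_zero {ε : ℝ} (hε : 0 < ε) {y : E 2} (hy : ε ≤ ‖y‖) :
    (energyb_bump hε).normed volume y = 0 := by
  by_contra hne
  have h1 : y ∈ Function.support ((energyb_bump hε).normed (volume : Measure (E 2))) := hne
  rw [ContDiffBump.support_normed_eq, mem_ball_zero_iff] at h1
  exact absurd hy (not_le.2 h1)

theorem energyb_int {ε : ℝ} (hε : 0 < ε) {g : E 2 → ℝ} (hg : Continuous g) :
    Integrable fun y => (energyb_bump hε).normed volume y * g y := by
  refine Continuous.integrable_of_hasCompactSupport ?_ ?_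
  · exact (energyb_bump hε).continuous_normed.mul hg
  · exact (energyb_bump hε).hasCompactSupport_normed.mul_right

/-- the mollification -/
noncomputable def energyb_U {ε : ℝ} (hε : 0 < ε) (u : E 2 → ℝ) (x : E 2) : ℝ :=
  ∫ y, (energyb_bump hε).normed volume y * u (x - y)

theorem energyb_contDiff {ε : ℝ} (hε : 0 < ε) {u : E 2 → ℝ} (hu : Continuous u) :
    ContDiff ℝ 1 (energyb_U hε u) :=
  ((energyb_bump hε).hasCompactSupport_normed).contDiff_convolution_left (n := 1)
    (ContinuousLinearMap.lsmul ℝ ℝ)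
    ((energyb_bump hε).contDiff_normed) hu.locallyIntegrable

/-- comparison of two functions under the mollifier -/
theorem energyb_mono {ε : ℝ} (hε : 0 < ε) {f g : E 2 → ℝ} (hf : Continuous f) (hg : Continuous g)
    (h : ∀ y, ‖y‖ < ε → f y ≤ g y) :
    ∫ y, (energyb_bump hε).normed volume y * f y ≤
      ∫ y, (energyb_bump hε).normed volume y * g y := by
  refine integral_mono (energyb_int hε hf) (energyb_int hε hg) fun y => ?_
  show (energyb_bump hε).normed volume y * f y ≤ (energyb_bump hε).normed volume y * g y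
  rcases lt_or_ge ‖y‖ ε with hy | hy
  · exact mul_le_mul_of_nonneg_left (h y hy) ((energyb_bump hε).nonneg_normed y)
  · rw [energyb_zero hε hy, zero_mul, zero_mul]

theorem energyb_const {ε : ℝ} (hε : 0 < ε) (c : ℝ) :
    ∫ y, (energyb_bump hε).normed (volume : Measure (E 2)) y * c = c := by
  rw [integral_mul_const, (energyb_bump hε).integral_normed, one_mul]

theorem energyb_lower {ε β : ℝ} (hε : 0 < ε) (hβ : 0 < β) {u : E 2 → ℝ} (hu : Continuous u)
    (hpos : ∀ x, 0 < u x) (hle : ∀ x y, u x ≤ Real.exp (β * dist x y) * u y) (x : E 2) :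
    u x ≤ Real.exp (β * ε) * energyb_U hε u x := by
  have h1 := energyb_mono hε (f := fun _ => u x) (g := fun y => Real.exp (β * ε) * u (x - y))
    continuous_const (by fun_prop) (fun y hy => by
      refine (hle x (x - y)).trans (mul_le_mul_of_nonneg_right ?_ (hpos _).le)
      rw [Real.exp_le_exp, dist_eq_norm, sub_sub_cancel]
      exact mul_le_mul_of_nonneg_left hy.le hβ.le)
  rw [energyb_const] at h1
  refine h1.trans (le_of_eq ?_)
  unfold energyb_U
  rw [← integral_const_mul]
  refine integral_congr_ae (Filter.Eventually.of_forall fun y => ?_)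
  show _ * (_ * _) = _ * (_ * _)
  ring

theorem energyb_upper {ε β : ℝ} (hε : 0 < ε) (hβ : 0 < β) {u : E 2 → ℝ} (hu : Continuous u)
    (hpos : ∀ x, 0 < u x) (hle : ∀ x y, u x ≤ Real.exp (β * dist x y) * u y) (x : E 2) :
    energyb_U hε u x ≤ Real.exp (β * ε) * u x := by
  have h1 := energyb_mono hε (f := fun y => u (x - y)) (g := fun _ => Real.exp (β * ε) * u x)
    (by fun_prop) continuous_const (fun y hy => by
      refine (hle (x - y) x).trans (mul_le_mul_of_nonneg_right ?_ (hpos _).le)
      rw [Real.exp_le_exp, dist_eq_norm, sub_sub_cancel_left, norm_neg]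
      exact mul_le_mul_of_nonneg_left hy.le hβ.le)
  rwa [energyb_const] at h1

theorem energyb_nonneg {ε : ℝ} (hε : 0 < ε) {u : E 2 → ℝ} (hpos : ∀ x, 0 < u x) (x : E 2) :
    0 ≤ energyb_U hε u x :=
  integral_nonneg fun y => mul_nonneg ((energyb_bump hε).nonneg_normed y) (hpos _).le

theorem energyb_diff {ε β : ℝ} (hε : 0 < ε) {u : E 2 → ℝ} (hu : Continuous u)
    (hpos : ∀ x, 0 < u x) (hle : ∀ x y, u x ≤ Real.exp (β * dist x y) * u y) (x z : E 2) :
    ‖energyb_U hε u z - energyb_U hε u x‖ ≤ (Real.exp (β * dist z x) - 1) * energyb_U hε u x := by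
  have hsub : ∀ a b : E 2, ∀ y : E 2, dist (a - y) (b - y) = dist a b := fun a b y =>
    dist_sub_right a b y
  have h1 := energyb_mono hε (f := fun y => u (z - y))
    (g := fun y => Real.exp (β * dist z x) * u (x - y)) (by fun_prop) (by fun_prop)
    (fun y _ => by
      have := hle (z - y) (x - y)
      rwa [hsub] at this)
  have h2 := energyb_mono hε (f := fun y => (2 - Real.exp (β * dist z x)) * u (x - y))
    (g := fun y => u (z - y)) (by fun_prop) (by fun_prop)
    (fun y _ => by
      have h3 := hle (x - y) (z - y)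
      rw [hsub, dist_comm x z] at h3
      have h4 := hpos (x - y)
      have h5 := hpos (z - y)
      have h6 : 0 < Real.exp (β * dist z x) := Real.exp_pos _
      by_contra hc
      rw [not_le] at hc
      have h7 : Real.exp (β * dist z x) * u (z - y) <
          Real.exp (β * dist z x) * ((2 - Real.exp (β * dist z x)) * u (x - y)) :=
        mul_lt_mul_of_pos_left hc h6
      nlinarith [sq_nonneg (Real.exp (β * dist z x) - 1)])
  have e1 : ∫ y, (energyb_bump hε).normed volume y * (Real.exp (β * dist z x) * u (x - y)) =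
      Real.exp (β * dist z x) * energyb_U hε u x := by
    unfold energyb_U
    rw [← integral_const_mul]
    refine integral_congr_ae (Filter.Eventually.of_forall fun y => ?_)
    show _ * (_ * _) = _ * (_ * _)
    ring
  have e2 : ∫ y, (energyb_bump hε).normed volume y *
      ((2 - Real.exp (β * dist z x)) * u (x - y)) =
      (2 - Real.exp (β * dist z x)) * energyb_U hε u x := by
    unfold energyb_U
    rw [← integral_const_mul]
    refine integral_congr_ae (Filter.Eventually.of_forall fun y => ?_)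
    show _ * (_ * _) = _ * (_ * _)
    ring
  rw [e1] at h1
  rw [e2] at h2
  have h8 : energyb_U hε u z ≤ Real.exp (β * dist z x) * energyb_U hε u x := h1
  have h9 : (2 - Real.exp (β * dist z x)) * energyb_U hε u x ≤ energyb_U hε u z := h2
  rw [Real.norm_eq_abs, abs_le]
  constructor
  · nlinarith
  · nlinarith

theorem energyb_fderiv {ε β : ℝ} (hε : 0 < ε) (hβ : 0 < β) {u : E 2 → ℝ} (hu : Continuous u)
    (hpos : ∀ x, 0 < u x) (hle : ∀ x y, u x ≤ Real.exp (β * dist x y) * u y) (x : E 2) :
    ‖fderiv ℝ (energyb_U hε u) x‖ ≤ β * energyb_U hε u x := by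
  have hU := energyb_nonneg hε hpos x
  have hd : HasFDerivAt (energyb_U hε u) (fderiv ℝ (energyb_U hε u) x) x :=
    ((energyb_contDiff hε hu).differentiable one_ne_zero x).hasFDerivAt
  have key : ∀ η : ℝ, 0 < η → ‖fderiv ℝ (energyb_U hε u) x‖ ≤
      (β * Real.exp (β * η)) * energyb_U hε u x := by
    intro η hη
    refine hd.le_of_lip' (mul_nonneg (mul_nonneg hβ.le (Real.exp_pos _).le) hU) ?_
    filter_upwards [ball_mem_nhds x hη] with z hz
    refine (energyb_diff hε hu hpos hle x z).trans ?_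
    rw [mem_ball] at hz
    rw [← dist_eq_norm, mul_right_comm]
    refine mul_le_mul_of_nonneg_right ?_ hU
    have h0 : 0 ≤ dist z x := dist_nonneg
    have h1 : Real.exp (β * dist z x) - 1 ≤ β * dist z x * Real.exp (β * dist z x) := by
      have h2 := Real.add_one_le_exp (-(β * dist z x))
      have h3 : Real.exp (β * dist z x) * Real.exp (-(β * dist z x)) = 1 := by
        rw [← Real.exp_add, add_neg_cancel, Real.exp_zero]
      have h4 := Real.exp_pos (β * dist z x)
      nlinarith
    refine h1.trans ?_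
    have h5 : Real.exp (β * dist z x) ≤ Real.exp (β * η) := by
      rw [Real.exp_le_exp]
      exact mul_le_mul_of_nonneg_left hz.le hβ.le
    calc β * dist z x * Real.exp (β * dist z x) ≤ β * dist z x * Real.exp (β * η) :=
          mul_le_mul_of_nonneg_left h5 (mul_nonneg hβ.le h0)
      _ = β * Real.exp (β * η) * dist z x := by ring
  have hlim : Filter.Tendsto (fun η : ℝ => (β * Real.exp (β * η)) * energyb_U hε u x)
      (nhdsWithin 0 (Ioi 0)) (nhds ((β * Real.exp (β * 0)) * energyb_U hε u x)) := by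
    refine Filter.Tendsto.mono_left (Continuous.tendsto (by fun_prop) 0) nhdsWithin_le_nhds
  rw [mul_zero, Real.exp_zero, mul_one] at hlim
  refine ge_of_tendsto hlim ?_
  filter_upwards [self_mem_nhdsWithin] with η hη
  exact key η hη

theorem energyb_surf {D : Domain 2} {g : E 2 → ℝ} (hg : Continuous g) :
    Integrable g D.surface := by
  haveI := D.isFinite
  have h1 : D.surface.restrict (closure D.carrier) = D.surface := by
    refine Measure.restrict_eq_self_of_ae_mem ?_
    have h5 : ∀ᵐ x ∂D.surface, x ∈ frontier D.carrier := by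
      rw [ae_iff]
      exact D.support
    filter_upwards [h5] with x hx
    exact frontier_subset_closure hx
  rw [← h1]
  exact hg.continuousOn.integrableOn_compact D.isBounded.isCompact_closure

theorem energyb_vol {D : Domain 2} {g : E 2 → ℝ} (hg : Continuous g) :
    IntegrableOn g D.carrier :=
  (hg.continuousOn.integrableOn_compact D.isBounded.isCompact_closure).mono_set subset_closure

theorem energyb_step {D : Domain 2} {β Λ : ℝ} (h : EN D β Λ) (hβ : 0 < β) (hΛ : 0 ≤ Λ)
    {u : E 2 → ℝ} (hu : Continuous u) (hpos : ∀ x, 0 < u x)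
    (hle : ∀ x y, u x ≤ Real.exp (β * dist x y) * u y) {ε : ℝ} (hε : 0 < ε) :
    β * ∫ x, u x ^ 2 ∂D.surface ≤
      Real.exp (β * ε) ^ 4 * ((2 * β ^ 2 + Λ) * ∫ x in D.carrier, u x ^ 2) := by
  have hc := energyb_contDiff hε hu
  have hfd : Continuous (fun x => ‖fderiv ℝ (energyb_U hε u) x‖ ^ 2) :=
    ((hc.continuous_fderiv one_ne_zero).norm).pow 2
  have hUc := hc.continuous
  have h1 := h (energyb_U hε u) hc
  have h2 : ∫ x in D.carrier, ‖fderiv ℝ (energyb_U hε u) x‖ ^ 2 ≤
      β ^ 2 * ∫ x in D.carrier, energyb_U hε u x ^ 2 := by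
    rw [← integral_const_mul]
    refine integral_mono (energyb_vol hfd) ((energyb_vol (hUc.pow 2)).const_mul _) fun x => ?_
    have h3 := energyb_fderiv hε hβ hu hpos hle x
    have h4 : 0 ≤ ‖fderiv ℝ (energyb_U hε u) x‖ := norm_nonneg _
    show ‖fderiv ℝ (energyb_U hε u) x‖ ^ 2 ≤ β ^ 2 * energyb_U hε u x ^ 2
    rw [← mul_pow]
    exact pow_le_pow_left₀ h4 h3 2
  have h5 : ∫ x in D.carrier, energyb_U hε u x ^ 2 ≤
      Real.exp (β * ε) ^ 2 * ∫ x in D.carrier, u x ^ 2 := by
    rw [← integral_const_mul]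
    refine integral_mono (energyb_vol (hUc.pow 2)) ((energyb_vol (hu.pow 2)).const_mul _)
      fun x => ?_
    show energyb_U hε u x ^ 2 ≤ Real.exp (β * ε) ^ 2 * u x ^ 2
    rw [← mul_pow]
    exact pow_le_pow_left₀ (energyb_nonneg hε hpos x) (energyb_upper hε hβ hu hpos hle x) 2
  have h6 : ∫ x, u x ^ 2 ∂D.surface ≤
      Real.exp (β * ε) ^ 2 * ∫ x, energyb_U hε u x ^ 2 ∂D.surface := by
    rw [← integral_const_mul]
    refine integral_mono (energyb_surf (hu.pow 2)) ((energyb_surf (hUc.pow 2)).const_mul _)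
      fun x => ?_
    show u x ^ 2 ≤ Real.exp (β * ε) ^ 2 * energyb_U hε u x ^ 2
    rw [← mul_pow]
    exact pow_le_pow_left₀ (hpos x).le (energyb_lower hε hβ hu hpos hle x) 2
  have he : 0 < Real.exp (β * ε) := Real.exp_pos _
  have h7 : 0 ≤ 2 * β ^ 2 + Λ := by positivity
  have h8 : β * ∫ x, energyb_U hε u x ^ 2 ∂D.surface ≤
      (2 * β ^ 2 + Λ) * ∫ x in D.carrier, energyb_U hε u x ^ 2 := by
    linarith
  calc β * ∫ x, u x ^ 2 ∂D.surface
      ≤ β * (Real.exp (β * ε) ^ 2 * ∫ x, energyb_U hε u x ^ 2 ∂D.surface) :=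
        mul_le_mul_of_nonneg_left h6 hβ.le
    _ = Real.exp (β * ε) ^ 2 * (β * ∫ x, energyb_U hε u x ^ 2 ∂D.surface) := by ring
    _ ≤ Real.exp (β * ε) ^ 2 *
        ((2 * β ^ 2 + Λ) * ∫ x in D.carrier, energyb_U hε u x ^ 2) :=
        mul_le_mul_of_nonneg_left h8 (by positivity)
    _ ≤ Real.exp (β * ε) ^ 2 *
        ((2 * β ^ 2 + Λ) * (Real.exp (β * ε) ^ 2 * ∫ x in D.carrier, u x ^ 2)) :=
        mul_le_mul_of_nonneg_left (mul_le_mul_of_nonneg_left h5 h7) (by positivity)
    _ = _ := by ring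

/-- PROOF: let `u_ε = φ_ε ⋆ u` with a normalised bump function `φ_ε` (`ContDiffBump`, radius `ε`).
From `|u (x + h - y) - u (x - y)| ≤ (exp (β |h|) - 1) u (x - y)` one gets `‖∇ u_ε‖ ≤ β u_ε`, and
`exp (-β ε) u ≤ u_ε ≤ exp (β ε) u`. `EN` for `u_ε` and `ε → 0`. -/
theorem EN_lip {D : Domain 2} {β Λ : ℝ} (h : EN D β Λ) (hβ : 0 < β) (hΛ : 0 ≤ Λ)
    {u : E 2 → ℝ} (hu : Continuous u) (hpos : ∀ x, 0 < u x)
    (hle : ∀ x y, u x ≤ Real.exp (β * dist x y) * u y) :
    β * ∫ x, u x ^ 2 ∂D.surface ≤ (2 * β ^ 2 + Λ) * ∫ x in D.carrier, u x ^ 2 := by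
  have hlim : Filter.Tendsto (fun ε : ℝ => Real.exp (β * ε) ^ 4 *
      ((2 * β ^ 2 + Λ) * ∫ x in D.carrier, u x ^ 2)) (nhdsWithin 0 (Ioi 0))
      (nhds (Real.exp (β * 0) ^ 4 * ((2 * β ^ 2 + Λ) * ∫ x in D.carrier, u x ^ 2))) := by
    refine Filter.Tendsto.mono_left (Continuous.tendsto (by fun_prop) 0) nhdsWithin_le_nhds
  rw [mul_zero, Real.exp_zero, one_pow, one_mul] at hlim
  refine ge_of_tendsto hlim ?_
  filter_upwards [self_mem_nhdsWithin] with ε hε
  exact energyb_step h hβ hΛ hu hpos hle hε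

end Pool.Agent.RA
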