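import Pool.Agent.H.MP_1b807b_an.A.EnergyB

/-! MP_1b807b_an, large parameter asymptotics in the plane, module EnergyC: the exponential of the distance -/

set_option autoImplicit false

namespace Pool.Agent.RA

open MeasureTheory Metric Set Pool.Agent.RG
open scoped RealInnerProductSpace ENNReal Topology Pointwise

/-- PROOF: `EN_lip` for `u x = exp (-β * infDist x S)`, which is `1` on `S`. -/
theorem EN_exp {D : Domain 2} {β Λ : ℝ} (h : EN D β Λ) (hβ : 0 < β) (hΛ : 0 ≤ Λ)
    {S : Set (E 2)} (hS : IsClosed S) (hne : S.Nonempty) :
    β * D.surface.real S ≤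
      (2 * β ^ 2 + Λ) * ∫ x in D.carrier, Real.exp (-(2 * β) * infDist x S) := by
  have hcont : Continuous fun x : E 2 => Real.exp (-β * infDist x S) :=
    Real.continuous_exp.comp (continuous_const.mul (continuous_infDist_pt S))
  have hsq : ∀ x : E 2, Real.exp (-β * infDist x S) ^ 2 = Real.exp (-(2 * β) * infDist x S) := by
    intro x
    rw [← Real.exp_nat_mul]
    congr 1
    push_cast
    ring
  have h1 := EN_lip h hβ hΛ hcont (fun x => Real.exp_pos _) (fun x y => by
    rw [← Real.exp_add, Real.exp_le_exp]
    have h2 : infDist y S ≤ infDist x S + dist y x := infDist_le_infDist_add_dist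
    rw [dist_comm] at h2
    nlinarith)
  simp only [hsq] at h1
  refine le_trans (mul_le_mul_of_nonneg_left ?_ hβ.le) h1
  haveI := D.isFinite
  have hle : ∀ x : E 2, Real.exp (-(2 * β) * infDist x S) ≤ 1 := by
    intro x
    rw [Real.exp_le_one_iff]
    have := infDist_nonneg (x := x) (s := S)
    nlinarith
  have hint : Integrable (fun x : E 2 => Real.exp (-(2 * β) * infDist x S)) D.surface := by
    refine Integrable.of_bound (C := 1) ?_ (Filter.Eventually.of_forall fun x => ?_)
    · exact (Real.continuous_exp.comp
        (continuous_const.mul (continuous_infDist_pt S))).aestronglyMeasurable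
    · rw [Real.norm_of_nonneg (Real.exp_pos _).le]
      exact hle x
  calc D.surface.real S = ∫ x in S, (1 : ℝ) ∂D.surface := by
        rw [setIntegral_const, smul_eq_mul, mul_one]
    _ = ∫ x in S, Real.exp (-(2 * β) * infDist x S) ∂D.surface := by
        refine setIntegral_congr_fun hS.measurableSet fun x hx => ?_
        simp only [infDist_zero_of_mem hx, mul_zero, Real.exp_zero]
    _ ≤ ∫ x, Real.exp (-(2 * β) * infDist x S) ∂D.surface :=
        setIntegral_le_integral hint (Filter.Eventually.of_forall fun x => (Real.exp_pos _).le)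

end Pool.Agent.RA
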