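import Pool.Agent.H.MP_1b807b_an.A.Basic

/-! MP_1b807b_an, large parameter asymptotics in the plane, module EnergyD: layer cake -/

set_option autoImplicit false

namespace Pool.Agent.RA

open MeasureTheory Metric Set Pool.Agent.RG
open scoped RealInnerProductSpace ENNReal Topology Pointwise

private theorem energyd_g (b s y : ℝ) :
    ∫ t in (0 : ℝ)..y, b * Real.exp (-b * (s - t)) =
      Real.exp (-b * (s - y)) - Real.exp (-b * s) := by
  have hd : ∀ t ∈ uIcc 0 y, HasDerivAt (fun t => Real.exp (-b * (s - t)))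
      (b * Real.exp (-b * (s - t))) t := by
    intro t _
    have h1 : HasDerivAt (fun t : ℝ => -b * (s - t)) b t := by
      have h2 := ((hasDerivAt_id t).const_sub s).const_mul (-b)
      have h3 : -b * -1 = b := by ring
      rw [h3] at h2
      exact h2
    have h4 := h1.exp
    rwa [mul_comm] at h4
  rw [intervalIntegral.integral_eq_sub_of_hasDerivAt hd
    ((by fun_prop : Continuous fun t : ℝ => b * Real.exp (-b * (s - t))).intervalIntegrable _ _),
    sub_zero]

private theorem energyd_J (L c : ℝ) {b : ℝ} (hb : 0 < b) (s : ℝ) :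
    ∫ t in (0 : ℝ)..s, (L * (s - t) + c * (s - t) ^ 2) * (b * Real.exp (-b * (s - t))) =
      L / b + 2 * c / b ^ 2 -
        Real.exp (-b * s) * (L * s + c * s ^ 2 + (L + 2 * c * s) / b + 2 * c / b ^ 2) := by
  have hd : ∀ t ∈ uIcc 0 s, HasDerivAt (fun t => Real.exp (-b * (s - t)) *
      (L * (s - t) + c * (s - t) ^ 2 + (L + 2 * c * (s - t)) / b + 2 * c / b ^ 2))
      ((L * (s - t) + c * (s - t) ^ 2) * (b * Real.exp (-b * (s - t)))) t := by
    intro t _
    have h0 : HasDerivAt (fun t : ℝ => s - t) (-1) t := (hasDerivAt_id t).const_sub s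
    have h1 : HasDerivAt (fun t : ℝ => -b * (s - t)) b t := by
      have h2 := h0.const_mul (-b)
      have h3 : -b * -1 = b := by ring
      rwa [h3] at h2
    have h4 := h1.exp
    have h5 : HasDerivAt (fun t : ℝ => L * (s - t) + c * (s - t) ^ 2 +
        (L + 2 * c * (s - t)) / b + 2 * c / b ^ 2)
        (-L - 2 * c * (s - t) - 2 * c / b) t := by
      have h6 := (((h0.const_mul L).add ((h0.pow 2).const_mul c)).add
        (((h0.const_mul (2 * c)).const_add L).div_const b)).add_const (2 * c / b ^ 2)
      refine h6.congr_deriv ?_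
      field_simp
      ring
    refine (h4.mul h5).congr_deriv ?_
    field_simp
    ring
  rw [intervalIntegral.integral_eq_sub_of_hasDerivAt hd
    ((by fun_prop : Continuous fun t : ℝ => (L * (s - t) + c * (s - t) ^ 2) *
      (b * Real.exp (-b * (s - t)))).intervalIntegrable _ _)]
  simp

/-- Layer cake. PROOF: `∫_D exp (-2 β d) = ∫_0^∞ 2 β exp (-2 β t) |D ∩ {d ≤ t}| dt` (Tonelli for
`exp (-2βd) = ∫_d^∞ 2β exp (-2βt) dt`), the integrand is at most
`2 β exp (-2 β t) (min A (L t) + c t²)`, and
`∫_0^∞ 2β exp (-2βt) min A (L t) dt = L/(2β) (1 - exp (-2βA/L))`,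
`∫_0^∞ 2β exp (-2βt) t² dt = 1/(2β²)`. -/
theorem layer_cake {D : Domain 2} {β L c : ℝ} (hβ : 0 < β) (hL : 0 < L) (hc : 0 ≤ c)
    {S : Set (E 2)}
    (hS : ∀ t, 0 ≤ t → volume (D.carrier ∩ {x | infDist x S ≤ t}) ≤
      ENNReal.ofReal (L * t + c * t ^ 2)) :
    ∫ x in D.carrier, Real.exp (-(2 * β) * infDist x S) ≤
      L / (2 * β) * (1 - Real.exp (-(2 * β * volume.real D.carrier / L))) + c / (2 * β ^ 2) := by
  obtain ⟨b, hb⟩ : ∃ b, b = 2 * β := ⟨_, rfl⟩
  obtain ⟨A, hA⟩ : ∃ A, A = volume.real D.carrier := ⟨_, rfl⟩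
  obtain ⟨s, hs⟩ : ∃ s, s = A / L := ⟨_, rfl⟩
  have hb0 : 0 < b := by rw [hb]; linarith
  have hA0 : 0 ≤ A := by rw [hA]; exact measureReal_nonneg
  have hs0 : 0 ≤ s := by rw [hs]; exact div_nonneg hA0 hL.le
  have hLs : L * s = A := by rw [hs]; field_simp
  have hfin : volume D.carrier < ⊤ := D.isBounded.measure_lt_top
  have : IsFiniteMeasure (volume.restrict D.carrier) := ⟨by rwa [Measure.restrict_apply_univ]⟩
  obtain ⟨m, hmdef⟩ : ∃ m : E 2 → ℝ, m = fun x => min (infDist x S) s := ⟨_, rfl⟩
  have hmc : Continuous m := by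
    rw [hmdef]
    exact (continuous_infDist_pt S).min continuous_const
  have hm0 : ∀ x, 0 ≤ m x := fun x => by
    rw [hmdef]
    exact le_min infDist_nonneg hs0
  have hms : ∀ x, m x ≤ s := fun x => by
    rw [hmdef]
    exact min_le_right _ _
  have hmd : ∀ x, m x ≤ infDist x S := fun x => by
    rw [hmdef]
    exact min_le_left _ _
  have hint : ∀ f : E 2 → ℝ, Continuous f → (∀ x, 0 ≤ f x) →
      Integrable (fun x => Real.exp (-b * f x)) (volume.restrict D.carrier) := by
    intro f hf hf0
    refine Integrable.of_bound ?_ 1 (Filter.Eventually.of_forall fun x => ?_)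
    · exact (by fun_prop : Continuous fun x => Real.exp (-b * f x)).aestronglyMeasurable
    · rw [Real.norm_eq_abs, abs_of_pos (Real.exp_pos _), Real.exp_le_one_iff]
      nlinarith [hf0 x]
  have h1 : ∫ x in D.carrier, Real.exp (-(2 * β) * infDist x S) ≤
      ∫ x in D.carrier, Real.exp (-b * m x) := by
    rw [← hb]
    refine integral_mono (hint _ (continuous_infDist_pt S) fun x => infDist_nonneg)
      (hint m hmc hm0) fun x => ?_
    show Real.exp (-b * infDist x S) ≤ Real.exp (-b * m x)
    rw [Real.exp_le_exp]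
    nlinarith [hmd x]
  have h2 : ∫ x in D.carrier, Real.exp (-b * m x) =
      (∫ x in D.carrier, (Real.exp (-b * m x) - Real.exp (-b * s))) +
        A * Real.exp (-b * s) := by
    rw [integral_sub (hint m hmc hm0) (integrable_const _), setIntegral_const, smul_eq_mul, ← hA]
    ring
  obtain ⟨J, hJ⟩ : ∃ J, J = ∫ t in (0 : ℝ)..s,
      (L * (s - t) + c * (s - t) ^ 2) * (b * Real.exp (-b * (s - t))) := ⟨_, rfl⟩
  have hJ0 : 0 ≤ J := by
    rw [hJ]
    refine intervalIntegral.integral_nonneg hs0 fun t ht => ?_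
    have h3 : 0 ≤ s - t := sub_nonneg.2 ht.2
    positivity
  have h3 : ∫ x in D.carrier, (Real.exp (-b * m x) - Real.exp (-b * s)) ≤ J := by
    have hnn : ∀ x, 0 ≤ Real.exp (-b * m x) - Real.exp (-b * s) := by
      intro x
      rw [sub_nonneg, Real.exp_le_exp]
      nlinarith [hms x]
    rw [integral_eq_lintegral_of_nonneg_ae (Filter.Eventually.of_forall hnn)
      ((by fun_prop : Continuous fun x => Real.exp (-b * m x) -
        Real.exp (-b * s)).aestronglyMeasurable)]
    refine ENNReal.toReal_le_of_le_ofReal hJ0 ?_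
    have h4 : ∀ x, Real.exp (-b * m x) - Real.exp (-b * s) =
        ∫ t in (0 : ℝ)..(s - m x), b * Real.exp (-b * (s - t)) := by
      intro x
      rw [energyd_g, sub_sub_cancel]
    simp only [h4]
    rw [lintegral_comp_eq_lintegral_meas_le_mul (f := fun x => s - m x)
      (g := fun t => b * Real.exp (-b * (s - t)))
      (volume.restrict D.carrier) (Filter.Eventually.of_forall fun x => sub_nonneg.2 (hms x))
      ((by fun_prop : Continuous fun x => s - m x).aemeasurable)
      (fun t _ => (by fun_prop : Continuous fun t : ℝ =>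
        b * Real.exp (-b * (s - t))).intervalIntegrable _ _)
      (Filter.Eventually.of_forall fun t => by positivity)]
    have h5 : ∀ t ∈ Ioi (0 : ℝ), (volume.restrict D.carrier) {x | t ≤ s - m x} *
        ENNReal.ofReal (b * Real.exp (-b * (s - t))) ≤
        (Ioc 0 s).indicator (fun t => ENNReal.ofReal
          ((L * (s - t) + c * (s - t) ^ 2) * (b * Real.exp (-b * (s - t))))) t := by
      intro t ht
      have ht' : 0 < t := ht
      by_cases hts : t ≤ s
      · rw [indicator_of_mem (show t ∈ Ioc 0 s from ⟨ht', hts⟩),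
          ENNReal.ofReal_mul (p := L * (s - t) + c * (s - t) ^ 2) (by
            have h6 : 0 ≤ s - t := sub_nonneg.2 hts
            positivity)]
        refine mul_le_mul' ?_ le_rfl
        rw [Measure.restrict_apply' D.isOpen.measurableSet, inter_comm]
        refine le_trans (measure_mono ?_) (hS (s - t) (sub_nonneg.2 hts))
        rintro x ⟨hxD, hx⟩
        refine ⟨hxD, ?_⟩
        have hx' : t ≤ s - m x := hx
        show infDist x S ≤ s - t
        rw [hmdef] at hx'
        by_contra hcon
        have h6 : s - t < min (infDist x S) s := lt_min (not_le.1 hcon) (by linarith)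
        have h7 : t ≤ s - min (infDist x S) s := hx'
        linarith
      · have h6 : {x | t ≤ s - m x} = ∅ := by
          rw [eq_empty_iff_forall_notMem]
          intro x hx
          have hx' : t ≤ s - m x := hx
          exact hts (by linarith [hm0 x])
        rw [h6, measure_empty, zero_mul]
        exact zero_le
    calc ∫⁻ t in Ioi 0, (volume.restrict D.carrier) {x | t ≤ s - m x} *
          ENNReal.ofReal (b * Real.exp (-b * (s - t)))
        ≤ ∫⁻ t in Ioi 0, (Ioc 0 s).indicator (fun t => ENNReal.ofReal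
          ((L * (s - t) + c * (s - t) ^ 2) * (b * Real.exp (-b * (s - t))))) t :=
          setLIntegral_mono' measurableSet_Ioi h5
      _ ≤ ∫⁻ t, (Ioc 0 s).indicator (fun t => ENNReal.ofReal
          ((L * (s - t) + c * (s - t) ^ 2) * (b * Real.exp (-b * (s - t))))) t :=
          setLIntegral_le_lintegral _ _
      _ = ∫⁻ t in Ioc 0 s, ENNReal.ofReal
          ((L * (s - t) + c * (s - t) ^ 2) * (b * Real.exp (-b * (s - t)))) :=
          lintegral_indicator measurableSet_Ioc _
      _ = ENNReal.ofReal J := by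
          rw [hJ, intervalIntegral.integral_of_le hs0,
            ofReal_integral_eq_lintegral_ofReal]
          · exact ((by fun_prop : Continuous fun t : ℝ => (L * (s - t) + c * (s - t) ^ 2) *
              (b * Real.exp (-b * (s - t)))).integrableOn_Icc).mono_set Ioc_subset_Icc_self
          · rw [Filter.EventuallyLE, ae_restrict_iff' measurableSet_Ioc]
            refine Filter.Eventually.of_forall fun t ht => ?_
            have h6 : 0 ≤ s - t := sub_nonneg.2 ht.2
            show 0 ≤ (L * (s - t) + c * (s - t) ^ 2) * (b * Real.exp (-b * (s - t)))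
            positivity
  have h4 := energyd_J L c hb0 s
  rw [← hJ] at h4
  have h5 : Real.exp (-(2 * β * volume.real D.carrier / L)) = Real.exp (-b * s) := by
    rw [← hA, hs, hb]
    congr 1
    ring
  rw [h5, ← hb]
  rw [← hb] at h1
  have h6 : c / (2 * β ^ 2) = 2 * c / b ^ 2 := by
    rw [hb]
    field_simp
  rw [h6]
  have h7 : 0 ≤ Real.exp (-b * s) * (c * s ^ 2 + 2 * c * s / b + 2 * c / b ^ 2) := by
    positivity
  have h8 : Real.exp (-b * s) * (L * s + c * s ^ 2 + (L + 2 * c * s) / b + 2 * c / b ^ 2) =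
      Real.exp (-b * s) * (c * s ^ 2 + 2 * c * s / b + 2 * c / b ^ 2) +
      A * Real.exp (-b * s) + L / b * Real.exp (-b * s) := by
    rw [hLs]
    ring
  rw [h8] at h4
  have h9 : L / b * (1 - Real.exp (-b * s)) = L / b - L / b * Real.exp (-b * s) := by ring
  rw [h9]
  linarith

end Pool.Agent.RA
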