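import Pool.Agent.H.MP_1b807b_an.A.RingA

/-! MP_1b807b_an, large parameter asymptotics in the plane, module RingC: the boundary of an annulus -/

set_option autoImplicit false

namespace Pool.Agent.RA

open MeasureTheory Metric Set Pool.Agent.RG
open scoped RealInnerProductSpace ENNReal Topology Pointwise

/-- the circle of radius `R`, traversed in the direction `e = 1` or `e = -1` -/
private noncomputable def ringc_c (R e : ℝ) (s : ℝ) : E 2 := R • dir (e * s / R)

private theorem ringc_hasDerivAt_dir (θ : ℝ) : HasDerivAt dir (nrm θ) θ := by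
  have h1 : dir = fun φ => Real.cos φ • dir 0 + Real.sin φ • nrm 0 := by
    funext φ
    have := dir_add 0 φ
    rwa [zero_add] at this
  have h2 : nrm θ = (-Real.sin θ) • dir 0 + Real.cos θ • nrm 0 := by
    have := nrm_add 0 θ
    rw [zero_add] at this
    rw [this, neg_smul]
    abel
  rw [h2]
  conv => arg 1; rw [h1]
  exact ((Real.hasDerivAt_cos θ).smul_const _).add ((Real.hasDerivAt_sin θ).smul_const _)

private theorem ringc_hasDerivAt {R : ℝ} (hR : 0 < R) (e s : ℝ) :
    HasDerivAt (ringc_c R e) (e • nrm (e * s / R)) s := by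
  have h1 : HasDerivAt (fun s : ℝ => e * s / R) (e / R) s := by
    have := ((hasDerivAt_id s).const_mul e).div_const R
    simpa using this
  have h2 := (ringc_hasDerivAt_dir (e * s / R)).scomp s h1
  have h3 := h2.const_smul R
  have h4 : R • (e / R) • nrm (e * s / R) = e • nrm (e * s / R) := by
    rw [smul_smul]
    congr 1
    field_simp
  rw [← h4]
  exact h3

private theorem ringc_norm {R : ℝ} (hR : 0 < R) (e s : ℝ) : ‖ringc_c R e s‖ = R := by
  rw [ringc_c, norm_smul, norm_dir, mul_one, Real.norm_of_nonneg hR.le]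

private theorem ringc_lip {R e : ℝ} (hR : 0 < R) (he : |e| = 1) : LipschitzWith 1 (ringc_c R e) := by
  refine lipschitzWith_of_nnnorm_deriv_le (fun s => (ringc_hasDerivAt hR e s).differentiableAt) ?_
  intro s
  rw [(ringc_hasDerivAt hR e s).deriv, ← NNReal.coe_le_coe, coe_nnnorm, norm_smul, norm_nrm, mul_one,
    Real.norm_eq_abs, he]
  simp

private theorem ringc_periodic {R e : ℝ} (hR : 0 < R) (he : e = 1 ∨ e = -1) :
    Function.Periodic (ringc_c R e) (2 * Real.pi * R) := by
  intro s
  rw [ringc_c, ringc_c]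
  congr 1
  rcases he with rfl | rfl
  · rw [← dir_add_two_pi (1 * s / R)]
    congr 1
    field_simp
  · rw [← dir_add_two_pi (-1 * (s + 2 * Real.pi * R) / R)]
    congr 1
    field_simp
    ring

private theorem ringc_inj {R e : ℝ} (hR : 0 < R) (he : e = 1 ∨ e = -1) :
    InjOn (ringc_c R e) (Ico 0 (2 * Real.pi * R)) := by
  intro s hs t ht hst
  rw [ringc_c, ringc_c] at hst
  have h1 : dir (e * s / R) = dir (e * t / R) := smul_right_injective _ hR.ne' hst
  have h2 : Real.cos (e * s / R - e * t / R) = 1 := by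
    rw [← inner_dir_dir', h1, inner_dir_dir]
  have hd : |e * s / R - e * t / R| < 2 * Real.pi := by
    have h3 : e * s / R - e * t / R = e * (s - t) / R := by ring
    have he1 : |e| = 1 := by rcases he with rfl | rfl <;> simp
    rw [h3, abs_div, abs_mul, he1, one_mul, abs_of_pos hR, div_lt_iff₀ hR, abs_lt]
    constructor
    · linarith [hs.1, ht.2]
    · linarith [hs.2, ht.1]
  rw [abs_lt] at hd
  have h4 := (Real.cos_eq_one_iff_of_lt_of_lt hd.1 hd.2).1 h2
  have h5 : e * (s - t) = 0 := by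
    have h6 : e * s / R - e * t / R = e * (s - t) / R := by ring
    rw [h6, div_eq_zero_iff] at h4
    rcases h4 with h4 | h4
    · exact h4
    · exact absurd h4 hR.ne'
  rcases mul_eq_zero.1 h5 with h6 | h6
  · rcases he with rfl | rfl <;> norm_num at h6
  · linarith

private theorem ringc_range {R e : ℝ} (hR : 0 < R) (he : e = 1 ∨ e = -1) :
    range (ringc_c R e) = {x : E 2 | ‖x‖ = R} := by
  ext x
  constructor
  · rintro ⟨s, rfl⟩
    exact ringc_norm hR e s
  · intro hx
    have hx' : ‖x‖ = R := hx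
    have h1 : (x 0) ^ 2 + (x 1) ^ 2 = R ^ 2 := by rw [← norm_two, hx']
    obtain ⟨θ, h2, h3⟩ : ∃ θ : ℝ, x 0 = R * Real.cos θ ∧ x 1 = R * Real.sin θ := by
      let z : ℂ := ⟨x 0, x 1⟩
      have hz : ‖z‖ = R := by
        rw [Complex.norm_def, Complex.normSq_mk, ← sq, ← sq, h1, Real.sqrt_sq hR.le]
      refine ⟨Complex.arg z, ?_, ?_⟩
      · rw [← hz, Complex.norm_mul_cos_arg]
      · rw [← hz, Complex.norm_mul_sin_arg]
    refine ⟨e * θ * R, ?_⟩
    have he2 : e * e = 1 := by rcases he with rfl | rfl <;> norm_num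
    have h4 : e * (e * θ * R) / R = θ := by
      rw [show e * (e * θ * R) = (e * e) * θ * R by ring, he2]
      field_simp
    rw [ringc_c, h4]
    ext i
    fin_cases i
    · simp only [Fin.zero_eta, PiLp.smul_apply, smul_eq_mul, dir_zero]
      exact h2.symm
    · simp only [Fin.mk_one, PiLp.smul_apply, smul_eq_mul, dir_one]
      exact h3.symm

private theorem ringc_rot {R e : ℝ} (hR : 0 < R) (s : ℝ) :
    rot (deriv (ringc_c R e) s) = e • dir (e * s / R) := by
  rw [(ringc_hasDerivAt hR e s).deriv]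
  ext i
  fin_cases i
  · simp [rot, nrm, dir]
  · simp [rot, nrm, dir]

private theorem ringc_map {R : ℝ} (hR : 0 < R) : sphereMeasure 2 R =
    (volume.restrict (Ico 0 (2 * Real.pi * R))).map (ringc_c R 1) := by
  rw [sphere_param hR]
  congr 1
  funext s
  rw [ringc_c, one_mul]

private theorem ringc_map_neg {R : ℝ} (hR : 0 < R) : sphereMeasure 2 R =
    (volume.restrict (Ico 0 (2 * Real.pi * R))).map (ringc_c R (-1)) := by
  set L : ℝ := 2 * Real.pi * R with hL
  have hc : Continuous (ringc_c R 1) := (ringc_lip hR (by simp)).continuous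
  have h1 : ringc_c R (-1) = ringc_c R 1 ∘ fun s => L - s := by
    funext s
    have h := ringc_periodic hR (Or.inl rfl : (1 : ℝ) = 1 ∨ (1 : ℝ) = -1) (-s)
    rw [Function.comp_apply]
    have h2 : L - s = -s + 2 * Real.pi * R := by rw [hL]; ring
    rw [h2, h, ringc_c, ringc_c]
    congr 2
    ring
  have hmp : MeasurePreserving (fun s : ℝ => L - s) volume volume := Measure.measurePreserving_sub_left volume L
  have h2 := (hmp.restrict_preimage (measurableSet_Ioc : MeasurableSet (Ioc (0 : ℝ) L))).map_eq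
  have h3 : (fun s : ℝ => L - s) ⁻¹' Ioc 0 L = Ico 0 L := by
    ext s
    simp only [mem_preimage, mem_Ioc, mem_Ico]
    constructor
    · rintro ⟨ha, hb⟩
      constructor <;> linarith
    · rintro ⟨ha, hb⟩
      constructor <;> linarith
  rw [h3] at h2
  rw [h1, ← Measure.map_map hc.measurable hmp.measurable, h2, ringc_map hR]
  congr 1
  exact Measure.restrict_congr_set Ico_ae_eq_Ioc

private theorem ringc_frontier {r₁ r₂ : ℝ} (h1 : 0 < r₁) (h12 : r₁ < r₂) :
    frontier {x : E 2 | r₁ < ‖x‖ ∧ ‖x‖ < r₂} = {x | ‖x‖ = r₂} ∪ {x | ‖x‖ = r₁} := by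
  have ho : IsOpen {x : E 2 | r₁ < ‖x‖ ∧ ‖x‖ < r₂} :=
    (isOpen_lt continuous_const continuous_norm).inter (isOpen_lt continuous_norm continuous_const)
  have hcl : closure {x : E 2 | r₁ < ‖x‖ ∧ ‖x‖ < r₂} = {x : E 2 | r₁ ≤ ‖x‖ ∧ ‖x‖ ≤ r₂} := by
    apply Subset.antisymm
    · refine closure_minimal (fun x hx => ⟨hx.1.le, hx.2.le⟩) ?_
      exact (isClosed_le continuous_const continuous_norm).inter
        (isClosed_le continuous_norm continuous_const)
    · rintro x ⟨ha, hb⟩
      let m : ℝ := (r₁ + r₂) / 2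
      have hx0 : 0 < ‖x‖ := lt_of_lt_of_le h1 ha
      have ht : Filter.Tendsto (fun t : ℝ => ((1 - t) + t * (m / ‖x‖)) • x) (𝓝[>] 0)
          (𝓝 x) := by
        have h5 : Continuous (fun t : ℝ => ((1 - t) + t * (m / ‖x‖)) • x) := by fun_prop
        have h6 := (h5.tendsto 0).mono_left (nhdsWithin_le_nhds (s := Ioi 0))
        simpa using h6
      refine mem_closure_of_tendsto ht ?_
      have h7 : ∀ᶠ t : ℝ in 𝓝[>] 0, t < 1 := by
        exact nhdsWithin_le_nhds (Iio_mem_nhds one_pos)
      filter_upwards [h7, self_mem_nhdsWithin] with t ht1 ht0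
      have ht0' : 0 < t := ht0
      have hm0 : 0 < m := by simp only [m]; linarith
      have hpos : 0 ≤ (1 - t) + t * (m / ‖x‖) := by
        have : 0 ≤ t * (m / ‖x‖) := by positivity
        linarith
      have hn : ‖((1 - t) + t * (m / ‖x‖)) • x‖ = (1 - t) * ‖x‖ + t * m := by
        rw [norm_smul, Real.norm_of_nonneg hpos, add_mul, mul_assoc, div_mul_cancel₀ _ hx0.ne']
      have hm1 : r₁ < m := by simp only [m]; linarith
      have hm2 : m < r₂ := by simp only [m]; linarith
      show r₁ < ‖_‖ ∧ ‖_‖ < r₂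
      rw [hn]
      constructor
      · nlinarith
      · nlinarith
  rw [frontier, ho.interior_eq, hcl]
  ext x
  simp only [mem_sdiff, mem_ofPred_eq, mem_union]
  constructor
  · rintro ⟨⟨ha, hb⟩, hc⟩
    by_cases h : r₁ < ‖x‖
    · left
      by_contra hne
      exact hc ⟨h, lt_of_le_of_ne hb hne⟩
    · right
      exact le_antisymm (not_lt.1 h) ha
  · rintro (h | h)
    · rw [h]
      exact ⟨⟨h12.le, le_rfl⟩, fun hh => lt_irrefl _ hh.2⟩
    · rw [h]
      exact ⟨⟨le_rfl, h12.le⟩, fun hh => lt_irrefl _ hh.1⟩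

/-- PROOF: two curves `s ↦ r₂ • dir (s / r₂)` and `s ↦ r₁ • dir (-s / r₁)`, `sphere_param`. -/
theorem ring_jordan {r₁ r₂ : ℝ} (h1 : 0 < r₁) (h12 : r₁ < r₂) {D : Domain 2}
    (hD : D.carrier = {x : E 2 | r₁ < ‖x‖ ∧ ‖x‖ < r₂})
    (hs : D.surface = sphereMeasure 2 r₂ + sphereMeasure 2 r₁)
    (hn2 : ∀ x, ‖x‖ = r₂ → D.normal x = r₂⁻¹ • x)
    (hn1 : ∀ x, ‖x‖ = r₁ → D.normal x = -(r₁⁻¹ • x)) : Nonempty (JordanBoundary D) := by
  have h2 : 0 < r₂ := h1.trans h12
  have hpi := Real.pi_pos
  refine ⟨{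
    N := 2
    len := ![2 * Real.pi * r₂, 2 * Real.pi * r₁]
    curve := ![ringc_c r₂ 1, ringc_c r₁ (-1)]
    len_pos := ?_
    lipschitz := ?_
    periodic := ?_
    injOn := ?_
    disjoint := ?_
    frontier_eq := ?_
    surface_eq := ?_
    normal_eq := ?_ }⟩
  · intro i
    fin_cases i
    · show 0 < 2 * Real.pi * r₂
      positivity
    · show 0 < 2 * Real.pi * r₁
      positivity
  · intro i
    fin_cases i
    · exact ringc_lip h2 (by simp)
    · exact ringc_lip h1 (by simp)
  · intro i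
    fin_cases i
    · exact ringc_periodic h2 (Or.inl rfl)
    · exact ringc_periodic h1 (Or.inr rfl)
  · intro i
    fin_cases i
    · exact ringc_inj h2 (Or.inl rfl)
    · exact ringc_inj h1 (Or.inr rfl)
  · have hdis : Disjoint (range (ringc_c r₂ 1)) (range (ringc_c r₁ (-1))) := by
      rw [ringc_range h2 (Or.inl rfl), ringc_range h1 (Or.inr rfl), Set.disjoint_left]
      intro x hx hx'
      have hx1 : ‖x‖ = r₂ := hx
      have hx2 : ‖x‖ = r₁ := hx'
      exact h12.ne (hx2.symm.trans hx1)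
    intro i j hij
    fin_cases i <;> fin_cases j
    · exact absurd rfl hij
    · exact hdis
    · exact hdis.symm
    · exact absurd rfl hij
  · rw [hD, ringc_frontier h1 h12]
    have hU : (⋃ i : Fin 2, range ((![ringc_c r₂ 1, ringc_c r₁ (-1)] : Fin 2 → ℝ → E 2) i)) =
        range (ringc_c r₂ 1) ∪ range (ringc_c r₁ (-1)) := by
      ext x
      simp only [mem_iUnion, Fin.exists_fin_two, mem_union]
      rfl
    rw [hU, ringc_range h2 (Or.inl rfl), ringc_range h1 (Or.inr rfl)]
  · rw [hs, Fin.sum_univ_two, ringc_map h2, ringc_map_neg h1]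
    rfl
  · intro i
    fin_cases i
    · refine Filter.Eventually.of_forall fun s => ?_
      show D.normal (ringc_c r₂ 1 s) = rot (deriv (ringc_c r₂ 1) s)
      rw [ringc_rot h2, hn2 _ (ringc_norm h2 1 s), ringc_c, smul_smul, inv_mul_cancel₀ h2.ne']
    · refine Filter.Eventually.of_forall fun s => ?_
      show D.normal (ringc_c r₁ (-1) s) = rot (deriv (ringc_c r₁ (-1)) s)
      rw [ringc_rot h1, hn1 _ (ringc_norm h1 (-1) s), ringc_c, smul_smul, inv_mul_cancel₀ h1.ne', one_smul,
        neg_smul, one_smul]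

end Pool.Agent.RA
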