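import Pool.Agent.H.MP_1b807b_an.A.Basic

/-! MP_1b807b_an, large parameter asymptotics in the plane, module RingD: annuli are locally connected at the boundary -/

set_option autoImplicit false

namespace Pool.Agent.RA

open MeasureTheory Metric Set Pool.Agent.RG
open scoped RealInnerProductSpace ENNReal Topology Pointwise

theorem ringd_cone_convex (z : E 2) {c : ℝ} (hc : 0 ≤ c) :
    Convex ℝ {x : E 2 | c * ‖x‖ < ⟪x, z⟫} := by
  intro x hx y hy a b ha hb hab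
  change c * ‖a • x + b • y‖ < ⟪a • x + b • y, z⟫
  rw [inner_add_left, real_inner_smul_left, real_inner_smul_left]
  have h1 : ‖a • x + b • y‖ ≤ a * ‖x‖ + b * ‖y‖ := by
    refine (norm_add_le _ _).trans ?_
    rw [norm_smul, norm_smul, Real.norm_of_nonneg ha, Real.norm_of_nonneg hb]
  have hx' : c * ‖x‖ < ⟪x, z⟫ := hx
  have hy' : c * ‖y‖ < ⟪y, z⟫ := hy
  have h2 : c * ‖a • x + b • y‖ ≤ c * (a * ‖x‖ + b * ‖y‖) := mul_le_mul_of_nonneg_left h1 hc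
  have h3 : 0 < a * (⟪x, z⟫ - c * ‖x‖) + b * (⟪y, z⟫ - c * ‖y‖) := by
    have e1 : 0 < ⟪x, z⟫ - c * ‖x‖ := by linarith
    have e2 : 0 < ⟪y, z⟫ - c * ‖y‖ := by linarith
    rcases ha.eq_or_lt with h | h
    · have hb1 : 0 < b := by linarith
      have := mul_pos hb1 e2
      have := mul_nonneg ha e1.le
      linarith
    · have := mul_pos h e1
      have := mul_nonneg hb e2.le
      linarith
  nlinarith

theorem ringd_cone_ne {z : E 2} {c : ℝ} {x : E 2} (hx : c * ‖x‖ < ⟪x, z⟫) : 0 < ‖x‖ := by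
  rw [norm_pos_iff]
  rintro rfl
  rw [norm_zero, mul_zero, inner_zero_left] at hx
  exact lt_irrefl _ hx

theorem ringd_precon (z : E 2) {c : ℝ} (hc : 0 ≤ c) {α β : ℝ} (hα : 0 < α) :
    IsPreconnected {x : E 2 | c * ‖x‖ < ⟪x, z⟫ ∧ α < ‖x‖ ∧ ‖x‖ < β} := by
  let φ : E 2 × ℝ → E 2 := fun w => (w.2 / ‖w.1‖) • w.1
  have hA : IsPreconnected ({x : E 2 | c * ‖x‖ < ⟪x, z⟫} ×ˢ Ioo α β) :=
    (ringd_cone_convex z hc).isPreconnected.prod isPreconnected_Ioo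
  have hφ : ContinuousOn φ ({x : E 2 | c * ‖x‖ < ⟪x, z⟫} ×ˢ Ioo α β) := by
    refine ContinuousOn.smul (ContinuousOn.div continuousOn_snd
      (continuous_norm.comp continuous_fst).continuousOn ?_) continuousOn_fst
    rintro ⟨x, t⟩ ⟨hx, -⟩
    exact (ringd_cone_ne hx).ne'
  have himg : φ '' ({x : E 2 | c * ‖x‖ < ⟪x, z⟫} ×ˢ Ioo α β) =
      {x : E 2 | c * ‖x‖ < ⟪x, z⟫ ∧ α < ‖x‖ ∧ ‖x‖ < β} := by
    ext y
    constructor
    · rintro ⟨⟨x, t⟩, ⟨hx, ht⟩, rfl⟩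
      have hx' : c * ‖x‖ < ⟪x, z⟫ := hx
      have hx0 := ringd_cone_ne hx'
      have ht0 : 0 < t := hα.trans ht.1
      have htx : 0 < t / ‖x‖ := div_pos ht0 hx0
      have hn : ‖(t / ‖x‖) • x‖ = t := by
        rw [norm_smul, Real.norm_of_nonneg htx.le, div_mul_cancel₀ _ hx0.ne']
      change c * ‖(t / ‖x‖) • x‖ < ⟪(t / ‖x‖) • x, z⟫ ∧ α < ‖(t / ‖x‖) • x‖ ∧
        ‖(t / ‖x‖) • x‖ < β
      refine ⟨?_, by rw [hn]; exact ht.1, by rw [hn]; exact ht.2⟩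
      rw [real_inner_smul_left, norm_smul, Real.norm_of_nonneg htx.le]
      calc c * (t / ‖x‖ * ‖x‖) = t / ‖x‖ * (c * ‖x‖) := by ring
        _ < t / ‖x‖ * ⟪x, z⟫ := mul_lt_mul_of_pos_left hx' htx
    · rintro ⟨hy, hy1, hy2⟩
      refine ⟨(y, ‖y‖), ⟨hy, hy1, hy2⟩, ?_⟩
      change (‖y‖ / ‖y‖) • y = y
      rw [div_self (ringd_cone_ne hy).ne', one_smul]
  rw [← himg]
  exact hA.image φ hφ

theorem ringd_main {r₁ r₂ : ℝ} (h1 : 0 < r₁) {z : E 2} (hz : 0 < ‖z‖) {ε : ℝ}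
    (hε : 0 < ε) : ∃ V ∈ 𝓝 z, V ⊆ ball z ε ∧
      IsPreconnected ({x : E 2 | r₁ < ‖x‖ ∧ ‖x‖ < r₂} ∩ V) := by
  obtain ⟨r, hr⟩ : ∃ r, r = ‖z‖ := ⟨_, rfl⟩
  rw [← hr] at hz
  obtain ⟨η, hη⟩ : ∃ η, η = min (ε / 2) r := ⟨_, rfl⟩
  have hη0 : 0 < η := by rw [hη]; exact lt_min (by linarith) hz
  have hη1 : η ≤ ε / 2 := by rw [hη]; exact min_le_left _ _
  have hη2 : η ≤ r := by rw [hη]; exact min_le_right _ _
  obtain ⟨δ, hδ⟩ : ∃ δ, δ = min 1 (ε ^ 2 / (8 * r ^ 2)) := ⟨_, rfl⟩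
  have hδ0 : 0 < δ := by rw [hδ]; exact lt_min one_pos (by positivity)
  have hδ1 : δ ≤ 1 := by rw [hδ]; exact min_le_left _ _
  have hδ2 : δ * (8 * r ^ 2) ≤ ε ^ 2 := by
    have h3 : δ ≤ ε ^ 2 / (8 * r ^ 2) := by rw [hδ]; exact min_le_right _ _
    rwa [le_div_iff₀ (by positivity)] at h3
  have hc : 0 ≤ (1 - δ) * r := mul_nonneg (by linarith) hz.le
  refine ⟨{x : E 2 | (1 - δ) * r * ‖x‖ < ⟪x, z⟫ ∧ r - η < ‖x‖ ∧ ‖x‖ < r + η}, ?_, ?_, ?_⟩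
  · have ho : IsOpen {x : E 2 | (1 - δ) * r * ‖x‖ < ⟪x, z⟫ ∧ r - η < ‖x‖ ∧ ‖x‖ < r + η} := by
      refine IsOpen.and ?_ (IsOpen.and ?_ ?_)
      · exact isOpen_lt (continuous_const.mul continuous_norm)
          (continuous_id.inner continuous_const)
      · exact isOpen_lt continuous_const continuous_norm
      · exact isOpen_lt continuous_norm continuous_const
    refine ho.mem_nhds ⟨?_, ?_, ?_⟩
    · rw [real_inner_self_eq_norm_sq, ← hr]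
      have := mul_pos hδ0 (mul_pos hz hz)
      nlinarith
    · rw [← hr]; linarith
    · rw [← hr]; linarith
  · rintro x ⟨hx1, hx2, hx3⟩
    rw [mem_ball, dist_eq_norm]
    have e1 : ‖x - z‖ ^ 2 = ‖x‖ ^ 2 - 2 * ⟪x, z⟫ + ‖z‖ ^ 2 := norm_sub_sq_real x z
    rw [← hr] at e1
    have e2 : (‖x‖ - r) ^ 2 < η ^ 2 := sq_lt_sq' (by linarith) (by linarith)
    have e3 : η ^ 2 ≤ (ε / 2) ^ 2 := pow_le_pow_left₀ hη0.le hη1 2
    have e4 : 2 * (δ * r) * ‖x‖ ≤ 2 * (δ * r) * (2 * r) :=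
      mul_le_mul_of_nonneg_left (by linarith) (by positivity)
    have e5 : ‖x - z‖ ^ 2 < ε ^ 2 := by nlinarith [sq_nonneg ε]
    exact lt_of_pow_lt_pow_left₀ 2 hε.le e5
  · have hset : {x : E 2 | r₁ < ‖x‖ ∧ ‖x‖ < r₂} ∩
        {x : E 2 | (1 - δ) * r * ‖x‖ < ⟪x, z⟫ ∧ r - η < ‖x‖ ∧ ‖x‖ < r + η} =
        {x : E 2 | (1 - δ) * r * ‖x‖ < ⟪x, z⟫ ∧ max r₁ (r - η) < ‖x‖ ∧
          ‖x‖ < min r₂ (r + η)} := by
      ext x
      simp only [mem_inter_iff, mem_setOf_eq, max_lt_iff, lt_min_iff]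
      tauto
    rw [hset]
    exact ringd_precon z hc (lt_max_of_lt_left h1)

/-- PROOF: at a point of the outer circle a small ball intersected with the ball `‖x‖ < r₂` is convex;
at a point `z` of the inner circle take the neighbourhood
`{x | ‖x‖ < r₁ + ε, angle with z less than ε}` (image of a product of intervals in polar
coordinates). -/
theorem ring_locc {r₁ r₂ : ℝ} (h1 : 0 < r₁) (h12 : r₁ < r₂) :
    LocConn {x : E 2 | r₁ < ‖x‖ ∧ ‖x‖ < r₂} := by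
  intro z hz ε hε
  have hcl : z ∈ closure {x : E 2 | r₁ < ‖x‖ ∧ ‖x‖ < r₂} := frontier_subset_closure hz
  have hsub : closure {x : E 2 | r₁ < ‖x‖ ∧ ‖x‖ < r₂} ⊆ {x : E 2 | r₁ ≤ ‖x‖} :=
    closure_minimal (fun x hx => hx.1.le) (isClosed_le continuous_const continuous_norm)
  have hz1 : r₁ ≤ ‖z‖ := hsub hcl
  exact ringd_main h1 (h1.trans_le hz1) hε

end Pool.Agent.RA
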