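import Pool.Agent.H.MP_1b807b_an.A.Basic
import Pool.Agent.H.MP_1b807b_an.G.GaussBall

/-! MP_1b807b_an, large parameter asymptotics in the plane, module RingE: energy of annuli -/

set_option autoImplicit false

namespace Pool.Agent.RA

open MeasureTheory Metric Set Pool.Agent.RG
open scoped RealInnerProductSpace ENNReal Topology Pointwise

theorem ringe_tanh_deriv (x : ℝ) : HasDerivAt Real.tanh (1 - Real.tanh x ^ 2) x := by
  have h : Real.tanh = fun y => Real.sinh y / Real.cosh y := funext Real.tanh_eq_sinh_div_cosh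
  have hc : Real.cosh x ≠ 0 := (Real.cosh_pos x).ne'
  have h1 := (Real.hasDerivAt_sinh x).div (Real.hasDerivAt_cosh x) hc
  have h2 : HasDerivAt Real.tanh
      ((Real.cosh x * Real.cosh x - Real.sinh x * Real.sinh x) / Real.cosh x ^ 2) x := by
    rw [h]; exact h1
  convert h2 using 1
  rw [Real.tanh_eq_sinh_div_cosh]
  field_simp

theorem ringe_tanh_contDiff : ContDiff ℝ 1 Real.tanh := by
  have h : Real.tanh = fun y => Real.sinh y / Real.cosh y := funext Real.tanh_eq_sinh_div_cosh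
  rw [h]
  exact Real.contDiff_sinh.div Real.contDiff_cosh fun x => (Real.cosh_pos x).ne'

theorem ringe_tanh_le (x : ℝ) : Real.tanh x ≤ 1 := by
  rw [Real.tanh_eq_sinh_div_cosh, div_le_one (Real.cosh_pos x)]
  exact (Real.sinh_lt_cosh x).le

theorem ringe_tanh_neg (x : ℝ) : Real.tanh (-x) = -Real.tanh x := by
  rw [Real.tanh_eq_sinh_div_cosh, Real.tanh_eq_sinh_div_cosh, Real.sinh_neg, Real.cosh_neg, neg_div]

/-- the radial factor of the field -/
noncomputable def ringe_G (r₁ k m : ℝ) (r : ℝ) : ℝ :=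
  Real.smoothTransition (2 * (r / r₁) - 1) * (k * Real.tanh (k * (r - m)) / r)

theorem ringe_G_eq {r₁ k m r : ℝ} (h1 : 0 < r₁) (hr : r₁ ≤ r) :
    ringe_G r₁ k m r = k * Real.tanh (k * (r - m)) / r := by
  have h2 : 1 ≤ r / r₁ := (one_le_div h1).mpr hr
  rw [ringe_G, Real.smoothTransition.one_of_one_le (by linarith), one_mul]

theorem ringe_G_contDiffAt {r₁ k m r : ℝ} (hr : r ≠ 0) : ContDiffAt ℝ 1 (ringe_G r₁ k m) r := by
  unfold ringe_G
  refine ContDiffAt.mul ?_ (ContDiffAt.div ?_ contDiffAt_id hr)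
  · exact (Real.smoothTransition.contDiff.comp (by fun_prop)).contDiffAt
  · exact (contDiff_const.mul (ringe_tanh_contDiff.comp (by fun_prop))).contDiffAt

theorem ringe_G_hasDerivAt {r₁ k m r : ℝ} (h1 : 0 < r₁) (hr : r₁ < r) :
    HasDerivAt (ringe_G r₁ k m)
      ((k * ((1 - Real.tanh (k * (r - m)) ^ 2) * k) * r - k * Real.tanh (k * (r - m)) * 1) /
        r ^ 2) r := by
  have hr0 : r ≠ 0 := (h1.trans hr).ne'
  have h2 : HasDerivAt (fun r : ℝ => k * (r - m)) k r := by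
    simpa using ((hasDerivAt_id r).sub_const m).const_mul k
  have h3 : HasDerivAt (fun r : ℝ => Real.tanh (k * (r - m)))
      ((1 - Real.tanh (k * (r - m)) ^ 2) * k) r := (ringe_tanh_deriv _).comp r h2
  have h4 := (h3.const_mul k).div (hasDerivAt_id r) hr0
  refine h4.congr_of_eventuallyEq ?_
  filter_upwards [Ioi_mem_nhds hr] with y hy
  exact ringe_G_eq h1 (le_of_lt hy)

theorem ringe_F_contDiff {r₁ k m : ℝ} (h1 : 0 < r₁) :
    ContDiff ℝ 1 (fun x : E 2 => ringe_G r₁ k m ‖x‖) := by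
  rw [contDiff_iff_contDiffAt]
  intro x
  by_cases hx : x = 0
  · subst hx
    refine (contDiffAt_const (c := (0 : ℝ))).congr_of_eventuallyEq ?_
    filter_upwards [ball_mem_nhds (0 : E 2) (half_pos h1)] with y hy
    rw [mem_ball_zero_iff] at hy
    have h2 : ‖y‖ / r₁ < 1 / 2 := by
      rw [div_lt_div_iff₀ h1 two_pos]; linarith
    rw [ringe_G, Real.smoothTransition.zero_of_nonpos (by linarith), zero_mul]
  · exact (ringe_G_contDiffAt (norm_ne_zero_iff.mpr hx)).comp x (contDiffAt_norm ℝ hx)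

theorem ringe_F_fderiv {r₁ k m : ℝ} (h1 : 0 < r₁) {x : E 2} (hx : r₁ < ‖x‖) :
    fderiv ℝ (fun x : E 2 => ringe_G r₁ k m ‖x‖) x x =
      k ^ 2 * (1 - Real.tanh (k * (‖x‖ - m)) ^ 2) - k * Real.tanh (k * (‖x‖ - m)) / ‖x‖ := by
  have hx0 : x ≠ 0 := norm_ne_zero_iff.mp (h1.trans hx).ne'
  have hn : DifferentiableAt ℝ (fun x : E 2 => ‖x‖) x :=
    (contDiffAt_norm ℝ hx0 (n := 1)).differentiableAt (by norm_num)
  have h2 := (ringe_G_hasDerivAt (k := k) (m := m) h1 hx).comp_hasFDerivAt x hn.hasFDerivAt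
  have h3 : fderiv ℝ (fun x : E 2 => ringe_G r₁ k m ‖x‖) x = _ := h2.fderiv
  rw [h3, _root_.smul_apply, hn.fderiv_norm_self, smul_eq_mul]
  have hxn : ‖x‖ ≠ 0 := (h1.trans hx).ne'
  field_simp

theorem ringe_sum (x : E 2) : ∑ i : Fin 2, x i • (EuclideanSpace.single i (1 : ℝ) : E 2) = x := by
  have h := (EuclideanSpace.basisFun (Fin 2) ℝ).sum_repr x
  simpa [EuclideanSpace.basisFun_apply] using h

theorem ringe_divg {φ : E 2 → ℝ} {x : E 2} (hφ : DifferentiableAt ℝ φ x) :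
    divg (fun y => φ y • y) x = 2 * φ x + fderiv ℝ φ x x := by
  have h1 : HasFDerivAt (fun y => φ y • y)
      (φ x • ContinuousLinearMap.id ℝ (E 2) + (fderiv ℝ φ x).smulRight x) x :=
    hφ.hasFDerivAt.smul (hasFDerivAt_id x)
  unfold divg tr
  rw [h1.fderiv]
  have h2 : fderiv ℝ φ x x = ∑ i : Fin 2, fderiv ℝ φ x (EuclideanSpace.single i 1) * x i := by
    conv_lhs => rw [← ringe_sum x]
    rw [map_sum, ringe_sum]
    refine Finset.sum_congr rfl fun i _ => ?_
    rw [map_smul, smul_eq_mul, mul_comm]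
  rw [h2, Fin.sum_univ_two, Fin.sum_univ_two]
  simp
  ring

theorem ringe_divg_cont {X : E 2 → E 2} (hX : ContDiff ℝ 1 X) : Continuous (divg X) := by
  unfold divg tr
  refine continuous_finsetSum _ fun i _ => ?_
  exact (EuclideanSpace.proj i : E 2 →L[ℝ] ℝ).continuous.comp
    ((hX.continuous_fderiv one_ne_zero).clm_apply continuous_const)

/-- pointwise bound of the divergence -/
theorem ringe_div_le {r₁ k m : ℝ} (h1 : 0 < r₁) (hk : 0 < k) {u : E 2 → ℝ} (hu : ContDiff ℝ 1 u)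
    {x : E 2} (hx : r₁ < ‖x‖) :
    divg (fun y => (u y ^ 2 * ringe_G r₁ k m ‖y‖) • y) x ≤
      ‖fderiv ℝ u x‖ ^ 2 + (k ^ 2 + k / r₁) * u x ^ 2 := by
  have hu1 : DifferentiableAt ℝ u x := hu.differentiable one_ne_zero x
  have hF1 : DifferentiableAt ℝ (fun x : E 2 => ringe_G r₁ k m ‖x‖) x :=
    (ringe_F_contDiff h1).differentiable one_ne_zero x
  have hr0 : 0 < ‖x‖ := h1.trans hx
  have h2 : HasFDerivAt (fun y : E 2 => u y ^ 2) ((2 * u x) • fderiv ℝ u x) x := by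
    have := hu1.hasFDerivAt.pow 2
    simpa using this
  have h3 : HasFDerivAt (fun y : E 2 => u y ^ 2 * ringe_G r₁ k m ‖y‖)
      (u x ^ 2 • fderiv ℝ (fun x : E 2 => ringe_G r₁ k m ‖x‖) x +
        ringe_G r₁ k m ‖x‖ • ((2 * u x) • fderiv ℝ u x)) x := h2.mul hF1.hasFDerivAt
  rw [ringe_divg h3.differentiableAt, h3.fderiv, _root_.add_apply,
    _root_.smul_apply, _root_.smul_apply,
    _root_.smul_apply, ringe_F_fderiv h1 hx, ringe_G_eq h1 hx.le]
  simp only [smul_eq_mul]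
  set T : ℝ := Real.tanh (k * (‖x‖ - m)) with hT
  have hT1 : T ≤ 1 := ringe_tanh_le _
  set d : ℝ := fderiv ℝ u x x with hd
  have hd1 : |d| ≤ ‖fderiv ℝ u x‖ * ‖x‖ := by
    have := (fderiv ℝ u x).le_opNorm x
    rwa [Real.norm_eq_abs] at this
  set e : ℝ := d / ‖x‖ with he
  have he1 : |e| ≤ ‖fderiv ℝ u x‖ := by
    rw [he, abs_div, abs_of_pos hr0, div_le_iff₀ hr0]
    exact hd1
  have hde : d = e * ‖x‖ := by rw [he]; field_simp
  have h5 : 2 * (u x ^ 2 * (k * T / ‖x‖)) + (u x ^ 2 * (k ^ 2 * (1 - T ^ 2) - k * T / ‖x‖) +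
      k * T / ‖x‖ * (2 * u x * d)) =
      u x ^ 2 * (k * T / ‖x‖) + u x ^ 2 * (k ^ 2 * (1 - T ^ 2)) + 2 * (k * T * u x) * e := by
    rw [hde]; field_simp; ring
  rw [h5]
  have h6 : k * T / ‖x‖ ≤ k / r₁ := by
    calc k * T / ‖x‖ ≤ k * 1 / ‖x‖ := by gcongr
      _ = k / ‖x‖ := by rw [mul_one]
      _ ≤ k / r₁ := by gcongr
  have h7 : u x ^ 2 * (k * T / ‖x‖) ≤ u x ^ 2 * (k / r₁) :=
    mul_le_mul_of_nonneg_left h6 (sq_nonneg _)
  have h8 : e ^ 2 ≤ ‖fderiv ℝ u x‖ ^ 2 := by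
    rw [← sq_abs e]
    exact pow_le_pow_left₀ (abs_nonneg e) he1 2
  nlinarith [sq_nonneg (k * T * u x - e)]

/-- The energy inequality for a radial field. PROOF: let `f r = k tanh (k (r - (r₁+r₂)/2))` and let
`X = u² f(‖x‖) ‖x‖⁻¹ • x` for `‖x‖ > r₁/2`, cut off smoothly near the origin. `⟪X, ν⟫ = u² k tanh (k
(r₂-r₁)/2) ≥ β u²` on both circles. `divg X = 2 u f ⟪∇u, x/‖x‖⟫ + u² (f' + f/‖x‖) ≤
‖∇u‖² + u² (f² + f' + f/r)` and `f² + f' = k²`, `f / r ≤ k / r₁`. -/
theorem ring_energy {r₁ r₂ k β : ℝ} (h1 : 0 < r₁) (h12 : r₁ < r₂) (hk : 0 < k)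
    (hβ : β ≤ k * Real.tanh (k * ((r₂ - r₁) / 2))) {D : Domain 2}
    (hD : D.carrier = {x : E 2 | r₁ < ‖x‖ ∧ ‖x‖ < r₂})
    (hs : D.surface = sphereMeasure 2 r₂ + sphereMeasure 2 r₁)
    (hn2 : ∀ x, ‖x‖ = r₂ → D.normal x = r₂⁻¹ • x)
    (hn1 : ∀ x, ‖x‖ = r₁ → D.normal x = -(r₁⁻¹ • x)) :
    ((-(k ^ 2 + k / r₁) : ℝ) : EReal) ≤ D.robin (-β) := by
  have h2 : 0 < r₂ := h1.trans h12
  unfold Domain.robin
  refine le_sInf ?_
  rintro q ⟨u, hu, hpos, rfl⟩
  rw [EReal.coe_le_coe_iff]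
  unfold Domain.rayleigh
  rw [le_div_iff₀ hpos]
  set m : ℝ := (r₁ + r₂) / 2 with hm
  set c : ℝ := k * Real.tanh (k * ((r₂ - r₁) / 2)) with hc
  set X : E 2 → E 2 := fun y => (u y ^ 2 * ringe_G r₁ k m ‖y‖) • y with hX
  have hXc : ContDiff ℝ 1 X := ((hu.pow 2).mul (ringe_F_contDiff h1)).smul contDiff_id
  have hdiv := D.divergence X hXc
  -- the boundary integral
  have hae : ∀ᵐ x ∂D.surface, ⟪X x, D.normal x⟫ = c * u x ^ 2 := by
    rw [hs]
    have e2 : ∀ᵐ x ∂(sphereMeasure 2 r₂), ⟪X x, D.normal x⟫ = c * u x ^ 2 := by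
      rw [ae_iff]
      refine measure_mono_null ?_ (sphereMeasure_support 2 h2)
      intro x hx hx'
      apply hx
      rw [mem_sphere_zero_iff_norm] at hx'
      rw [hn2 x hx', hX]
      simp only
      rw [inner_smul_left, inner_smul_right, real_inner_self_eq_norm_sq, hx',
        ringe_G_eq h1 h12.le, hc]
      have h3 : r₂ - m = (r₂ - r₁) / 2 := by rw [hm]; ring
      rw [h3]
      simp only [conj_trivial]
      field_simp
    have e1 : ∀ᵐ x ∂(sphereMeasure 2 r₁), ⟪X x, D.normal x⟫ = c * u x ^ 2 := by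
      rw [ae_iff]
      refine measure_mono_null ?_ (sphereMeasure_support 2 h1)
      intro x hx hx'
      apply hx
      rw [mem_sphere_zero_iff_norm] at hx'
      rw [hn1 x hx', hX]
      simp only
      rw [inner_smul_left, inner_neg_right, inner_smul_right, real_inner_self_eq_norm_sq, hx',
        ringe_G_eq h1 le_rfl, hc]
      have h3 : k * (r₁ - m) = -(k * ((r₂ - r₁) / 2)) := by rw [hm]; ring
      rw [h3, ringe_tanh_neg]
      simp only [conj_trivial]
      field_simp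
    exact ae_add_measure_iff.mpr ⟨e2, e1⟩
  rw [integral_congr_ae hae, integral_const_mul] at hdiv
  -- the interior integral
  have hbdd := D.isBounded
  have hint : ∀ g : E 2 → ℝ, Continuous g → IntegrableOn g D.carrier := by
    intro g hg
    exact (hg.continuousOn.integrableOn_compact hbdd.isCompact_closure).mono_set subset_closure
  have hcu : Continuous fun x => u x ^ 2 := hu.continuous.pow 2
  have hcd : Continuous fun x => ‖fderiv ℝ u x‖ ^ 2 :=
    ((hu.continuous_fderiv one_ne_zero).norm).pow 2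
  have hle : ∫ x in D.carrier, divg X x ≤
      ∫ x in D.carrier, (‖fderiv ℝ u x‖ ^ 2 + (k ^ 2 + k / r₁) * u x ^ 2) := by
    refine setIntegral_mono_on (hint _ (ringe_divg_cont hXc))
      (hint _ (hcd.add (continuous_const.mul hcu))) D.isOpen.measurableSet ?_
    intro x hx
    rw [hD] at hx
    exact ringe_div_le h1 hk hu hx.1
  have hcc : Continuous fun x => (k ^ 2 + k / r₁) * u x ^ 2 := continuous_const.mul hcu
  rw [integral_add (hint _ hcd) (hint _ hcc), integral_const_mul, hdiv] at hle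
  have hus : 0 ≤ ∫ x, u x ^ 2 ∂D.surface := integral_nonneg fun x => sq_nonneg _
  have h9 : β * (∫ x, u x ^ 2 ∂D.surface) ≤ c * ∫ x, u x ^ 2 ∂D.surface :=
    mul_le_mul_of_nonneg_right hβ hus
  linarith

end Pool.Agent.RA
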