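import Pool.Agent.H.MP_1b807b_an.A.RingB
import Pool.Agent.H.MP_1b807b_an.A.RingC
import Pool.Agent.H.MP_1b807b_an.A.RingD
import Pool.Agent.H.MP_1b807b_an.A.RingE

/-! MP_1b807b_an, large parameter asymptotics in the plane, module RingF: the lower bound -/

set_option autoImplicit false

namespace Pool.Agent.RA

open MeasureTheory Metric Set Pool.Agent.RG
open scoped RealInnerProductSpace ENNReal Topology Pointwise

theorem ringf_tanh (x : ℝ) : 1 - 2 * Real.exp (-(2 * x)) ≤ Real.tanh x := by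
  rw [Real.tanh_eq_sinh_div_cosh, le_div_iff₀ (Real.cosh_pos x), Real.cosh_eq, Real.sinh_eq]
  have h1 : Real.exp (-(2 * x)) = Real.exp (-x) * Real.exp (-x) := by
    rw [← Real.exp_add]; congr 1; ring
  have h2 : Real.exp x * Real.exp (-x) = 1 := by
    rw [← Real.exp_add, add_neg_cancel, Real.exp_zero]
  rw [h1]
  have h3 := Real.exp_pos (-x)
  have h4 : 0 < Real.exp (-x) * Real.exp (-x) * Real.exp (-x) := by positivity
  have h5 : (1 - 2 * (Real.exp (-x) * Real.exp (-x))) * ((Real.exp x + Real.exp (-x)) / 2)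
      = (Real.exp x + Real.exp (-x)) / 2 - Real.exp (-x) * (Real.exp x * Real.exp (-x))
        - Real.exp (-x) * Real.exp (-x) * Real.exp (-x) := by ring
  rw [h5, h2]
  linarith

theorem ringf_vol {r₁ r₂ : ℝ} (h1 : 0 < r₁) (h12 : r₁ < r₂) :
    volume.real {x : E 2 | r₁ < ‖x‖ ∧ ‖x‖ < r₂} = Real.pi * (r₂ ^ 2 - r₁ ^ 2) := by
  have hset : {x : E 2 | r₁ < ‖x‖ ∧ ‖x‖ < r₂} = ball (0 : E 2) r₂ \ closedBall (0 : E 2) r₁ := by
    ext x
    simp only [mem_ofPred_eq, mem_sdiff, mem_ball_zero_iff, mem_closedBall_zero_iff, not_le]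
    exact and_comm
  have hb : ∀ r : ℝ, 0 < r → volume.real (ball (0 : E 2) r) = r ^ 2 * Real.pi := by
    intro r hr
    rw [measureReal_def, EuclideanSpace.volume_ball_fin_two, ENNReal.toReal_mul,
      ENNReal.toReal_pow, ENNReal.toReal_ofReal hr.le, ENNReal.toReal_ofReal Real.pi_pos.le]
  have hc : ∀ r : ℝ, 0 < r → volume.real (closedBall (0 : E 2) r) = r ^ 2 * Real.pi := by
    intro r hr
    rw [measureReal_def, EuclideanSpace.volume_closedBall_fin_two, ENNReal.toReal_mul,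
      ENNReal.toReal_pow, ENNReal.toReal_ofReal hr.le, ENNReal.toReal_ofReal Real.pi_pos.le]
  rw [hset, measureReal_sdiff (closedBall_subset_ball h12) measurableSet_closedBall
    (by finiteness), hb r₂ (h1.trans h12), hc r₁ h1]
  ring

theorem ringf_num {A ε : ℝ} (hA : 0 < A) (hε : 0 < ε) : ∃ β₀ : ℝ, ∀ β ≥ β₀,
    ∃ r₁ τ k : ℝ, 0 < r₁ ∧ 0 < τ ∧ 0 < k ∧ Real.pi * (τ * (2 * r₁ + τ)) = A ∧
      β ≤ k * Real.tanh (k * (τ / 2)) ∧
      k ^ 2 + k / r₁ ≤ β ^ 2 + (4 * Real.pi / A + ε) * Real.log β := by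
  have hpi := Real.pi_pos
  set e₁ : ℝ := ε * A / (16 * Real.pi) with he₁
  have he₁0 : 0 < e₁ := by positivity
  have hτ0 : Filter.Tendsto (fun β : ℝ => 2 * (1 + e₁) * (Real.log β / β)) Filter.atTop
      (𝓝 (2 * (1 + e₁) * 0)) :=
    (Real.isLittleO_log_id_atTop.tendsto_div_nhds_zero).const_mul _
  have hs0 : Filter.Tendsto (fun β : ℝ => β ^ (-(2 * e₁))) Filter.atTop (𝓝 0) :=
    tendsto_rpow_neg_atTop (by positivity)
  have hi0 : Filter.Tendsto (fun β : ℝ => (β ^ 2)⁻¹) Filter.atTop (𝓝 0) :=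
    (Filter.tendsto_pow_atTop (by norm_num)).inv_tendsto_atTop
  have hq0 : Filter.Tendsto (fun β : ℝ => β ^ (-(2 * e₁)) * (β ^ 2)⁻¹) Filter.atTop
      (𝓝 (0 * 0)) := hs0.mul hi0
  have hd0 : Filter.Tendsto (fun β : ℝ => 1 - Real.pi * (2 * (1 + e₁) * (Real.log β / β)) ^ 2 / A)
      Filter.atTop (𝓝 (1 - Real.pi * (2 * (1 + e₁) * 0) ^ 2 / A)) :=
    (((hτ0.pow 2).const_mul _).div_const _).const_sub _
  have hF0 : Filter.Tendsto (fun β : ℝ => (1 + e₁) * (1 + 4 * (β ^ (-(2 * e₁)) * (β ^ 2)⁻¹)) /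
      (1 - Real.pi * (2 * (1 + e₁) * (Real.log β / β)) ^ 2 / A))
      Filter.atTop (𝓝 ((1 + e₁) * (1 + 4 * (0 * 0)) /
        (1 - Real.pi * (2 * (1 + e₁) * 0) ^ 2 / A))) :=
    (((hq0.const_mul 4).const_add 1).const_mul (1 + e₁)).div hd0 (by simp)
  have ev1 : ∀ᶠ β : ℝ in Filter.atTop, (1 + e₁) * (1 + 4 * (β ^ (-(2 * e₁)) * (β ^ 2)⁻¹)) /
      (1 - Real.pi * (2 * (1 + e₁) * (Real.log β / β)) ^ 2 / A) < 1 + 2 * e₁ :=
    hF0.eventually_lt_const (by simp; linarith)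
  have ev2 : ∀ᶠ β : ℝ in Filter.atTop,
      0 < 1 - Real.pi * (2 * (1 + e₁) * (Real.log β / β)) ^ 2 / A :=
    hd0.eventually_const_lt (by simp)
  have ev3 : ∀ᶠ β : ℝ in Filter.atTop, β ^ (-(2 * e₁)) < ε / 24 :=
    hs0.eventually_lt_const (by positivity)
  have ev4 : ∀ᶠ β : ℝ in Filter.atTop, β ^ (-(2 * e₁)) * (β ^ 2)⁻¹ < 1 / 4 :=
    hq0.eventually_lt_const (by norm_num)
  obtain ⟨β₁, hβ₁⟩ := Filter.eventually_atTop.mp (ev1.and (ev2.and (ev3.and ev4)))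
  refine ⟨max β₁ 3, fun β hβ => ?_⟩
  obtain ⟨hF, hd, hs, hq⟩ := hβ₁ β (le_trans (le_max_left _ _) hβ)
  have hβ3 : 3 ≤ β := le_trans (le_max_right _ _) hβ
  have hβ0 : 0 < β := by linarith
  have hlog : 1 ≤ Real.log β := by
    rw [Real.le_log_iff_exp_le hβ0]
    exact (Real.exp_one_lt_d9.le.trans (by norm_num)).trans hβ3
  have hlog0 : 0 < Real.log β := by linarith
  set s : ℝ := β ^ (-(2 * e₁)) with hsdef
  have hs0 : 0 < s := Real.rpow_pos_of_pos hβ0 _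
  set q : ℝ := s * (β ^ 2)⁻¹ with hqdef
  have hqpos : 0 < q := by positivity
  set τ : ℝ := 2 * (1 + e₁) * (Real.log β / β) with hτdef
  have hτ : 0 < τ := by positivity
  set d : ℝ := 1 - Real.pi * τ ^ 2 / A with hddef
  have hβτ : β * τ = 2 * (1 + e₁) * Real.log β := by
    rw [hτdef]; field_simp
  have hqβ : β ^ 2 * q = s := by
    rw [hqdef]; field_simp
  have hexp : Real.exp (-(β * τ)) = q := by
    rw [hβτ, hqdef, hsdef, Real.rpow_def_of_pos hβ0]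
    have h1 : (β ^ 2)⁻¹ = Real.exp (-(2 * Real.log β)) := by
      rw [Real.exp_neg, two_mul, Real.exp_add, Real.exp_log hβ0, sq]
    rw [h1, ← Real.exp_add]
    congr 1
    ring
  refine ⟨A / (2 * Real.pi * τ) * d, τ, β * (1 + 4 * q), by positivity, hτ, by positivity, ?_, ?_,
    ?_⟩
  · rw [hddef]; field_simp; ring
  · have h1 := ringf_tanh (β * (1 + 4 * q) * (τ / 2))
    have h2 : Real.exp (-(2 * (β * (1 + 4 * q) * (τ / 2)))) ≤ q := by
      rw [← hexp]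
      apply Real.exp_le_exp.mpr
      have h3 : 0 < β * τ * (4 * q) := by positivity
      nlinarith [h3]
    have h4 : 1 - 2 * q ≤ Real.tanh (β * (1 + 4 * q) * (τ / 2)) := by linarith
    calc β ≤ β * (1 + 4 * q) * (1 - 2 * q) := by
          have h5 : β * (1 + 4 * q) * (1 - 2 * q) = β + β * (2 * q * (1 - 4 * q)) := by ring
          have h6 : 0 ≤ β * (2 * q * (1 - 4 * q)) := by
            have : 0 ≤ 1 - 4 * q := by linarith
            positivity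
          linarith
      _ ≤ β * (1 + 4 * q) * Real.tanh (β * (1 + 4 * q) * (τ / 2)) :=
          mul_le_mul_of_nonneg_left h4 (by positivity)
  · have h1 : (β * (1 + 4 * q)) ^ 2 = β ^ 2 + 8 * s + 16 * s * q := by
      rw [← hqβ]; ring
    have h2 : 16 * s * q ≤ 4 * s := by
      nlinarith [mul_pos hs0 hqpos]
    have h3 : β * (1 + 4 * q) / (A / (2 * Real.pi * τ) * d)
        = 4 * Real.pi / A * Real.log β * ((1 + e₁) * (1 + 4 * q) / d) := by
      have h4 : β * (1 + 4 * q) / (A / (2 * Real.pi * τ) * d)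
          = (β * τ) * (1 + 4 * q) * (2 * Real.pi) / (A * d) := by
        field_simp
      rw [h4, hβτ]
      field_simp
      ring
    have h5 : 4 * Real.pi / A * Real.log β * ((1 + e₁) * (1 + 4 * q) / d)
        ≤ 4 * Real.pi / A * Real.log β * (1 + 2 * e₁) :=
      mul_le_mul_of_nonneg_left hF.le (by positivity)
    have h6 : 4 * Real.pi / A * Real.log β * (1 + 2 * e₁)
        = 4 * Real.pi / A * Real.log β + ε / 2 * Real.log β := by
      rw [he₁]; field_simp; ring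
    have h7 : 12 * s ≤ ε / 2 * Real.log β := by
      have : ε / 2 * 1 ≤ ε / 2 * Real.log β := mul_le_mul_of_nonneg_left hlog (by positivity)
      linarith
    rw [h1, h3]
    linarith

/-- PROOF: `τ = 2 (1 + ε₁) log β / β`, `r₁ = A / (2 π τ) - τ / 2`, `r₂ = r₁ + τ`,
`k = β (1 + 4 β^(-2 - 2 ε₁))`; `tanh (k τ/2) ≥ 1 - 2 exp (-k τ) ≥ 1 - 2 β^(-2-2ε₁)` so
`k tanh (k τ / 2) ≥ β`; `k² - β² → 0` and `k / r₁ ≤ (1 + o(1)) 4 π (1 + ε₁) log β / A`. -/
theorem lower_bound {A ε : ℝ} (hA : 0 < A) (hε : 0 < ε) : ∃ β₀ : ℝ, ∀ β ≥ β₀,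
    ∃ D : Domain 2, Nonempty (JordanBoundary D) ∧ LocConn D.carrier ∧
      (∃ r₁ r₂ : ℝ, 0 < r₁ ∧ r₁ < r₂ ∧ D.carrier = {x : E 2 | r₁ < ‖x‖ ∧ ‖x‖ < r₂}) ∧
      volume.real D.carrier = A ∧
      ((-β ^ 2 - (4 * Real.pi / A + ε) * Real.log β : ℝ) : EReal) ≤ D.robin (-β) := by
  obtain ⟨β₀, h0⟩ := ringf_num hA hε
  refine ⟨β₀, fun β hβ => ?_⟩
  obtain ⟨r₁, τ, k, hr₁, hτ, hk, hvol, htanh, hle⟩ := h0 β hβ
  have h12 : r₁ < r₁ + τ := by linarith
  obtain ⟨D, hD, hs, hn2, hn1⟩ := exists_ring hr₁ h12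
  refine ⟨D, ring_jordan hr₁ h12 hD hs hn2 hn1, ?_, ⟨r₁, r₁ + τ, hr₁, h12, hD⟩, ?_, ?_⟩
  · rw [hD]
    exact ring_locc hr₁ h12
  · rw [hD, ringf_vol hr₁ h12, ← hvol]
    ring
  · have htanh' : β ≤ k * Real.tanh (k * ((r₁ + τ - r₁) / 2)) := by
      rw [add_sub_cancel_left]
      exact htanh
    refine le_trans ?_ (ring_energy hr₁ h12 hk htanh' hD hs hn2 hn1)
    rw [EReal.coe_le_coe_iff]
    linarith

end Pool.Agent.RA
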