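import Pool.Agent.H.MP_1b807b_an.A.UpperB
import Pool.Agent.H.MP_1b807b_an.A.RingF

/-! MP_1b807b_an, large parameter asymptotics in the plane, module Final -/

set_option autoImplicit false

namespace Pool.Agent.RA

open MeasureTheory Metric Set Pool.Agent.RG
open scoped RealInnerProductSpace ENNReal Topology Pointwise

theorem main (A ε : ℝ) (hA : 0 < A) (hε : 0 < ε) : ∃ β₀ : ℝ, ∀ β ≥ β₀,
    (∀ D : Domain 2, Nonempty (JordanBoundary D) → LocConn D.carrier →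
      volume.real D.carrier = A →
      D.robin (-β) ≤ ((-β ^ 2 - (4 * Real.pi / A - ε) * Real.log β : ℝ) : EReal)) ∧
    ∃ D : Domain 2, Nonempty (JordanBoundary D) ∧ LocConn D.carrier ∧
      (∃ r₁ r₂ : ℝ, 0 < r₁ ∧ r₁ < r₂ ∧ D.carrier = {x : E 2 | r₁ < ‖x‖ ∧ ‖x‖ < r₂}) ∧
      volume.real D.carrier = A ∧
      ((-β ^ 2 - (4 * Real.pi / A + ε) * Real.log β : ℝ) : EReal) ≤ D.robin (-β) := by
  obtain ⟨b1, h1⟩ := upper_bound hA hε
  obtain ⟨b2, h2⟩ := lower_bound hA hε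
  exact ⟨max b1 b2, fun β hβ => ⟨h1 β (le_trans (le_max_left _ _) hβ),
    h2 β (le_trans (le_max_right _ _) hβ)⟩⟩

end Pool.Agent.RA
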