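import Pool.Agent.H.MP_1b807b_an.A.Basic

/-! MP_1b807b_an, large parameter asymptotics in the plane, module Fub: Fubini for slices -/

set_option autoImplicit false

namespace Pool.Agent.RA

open MeasureTheory Metric Set Pool.Agent.RG
open scoped RealInnerProductSpace ENNReal Topology Pointwise

/-- the linear isometry `x ↦ x₀ dir θ + x₁ nrm θ` -/
noncomputable def fub_lin (θ : ℝ) : E 2 →ₗᵢ[ℝ] E 2 where
  toFun := fun x => x 0 • dir θ + x 1 • nrm θ
  map_add' := fun x y => by
    simp only [PiLp.add_apply, add_smul]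
    abel
  map_smul' := fun c x => by
    simp only [PiLp.smul_apply, smul_eq_mul, RingHom.id_apply, smul_add, smul_smul]
  norm_map' := fun x => by
    have h : ‖x 0 • dir θ + x 1 • nrm θ‖ ^ 2 = ‖x‖ ^ 2 := by
      rw [norm_sq_decomp θ, inner_dir_comb, inner_nrm_comb, norm_two]
    have h2 := (sq_eq_sq₀ (norm_nonneg _) (norm_nonneg _)).1 h
    exact h2

/-- the map `(p, y) ↦ p dir θ + y nrm θ` -/
noncomputable def fub_map (θ : ℝ) (q : ℝ × ℝ) : E 2 := q.1 • dir θ + q.2 • nrm θ

theorem fub_measurable (θ : ℝ) : Measurable (fub_map θ) := by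
  refine Continuous.measurable ?_
  unfold fub_map
  fun_prop

theorem fub_preserving (θ : ℝ) : MeasurePreserving (fub_map θ) := by
  have h1 : MeasurePreserving (fub_lin θ) :=
    ((fub_lin θ).toLinearIsometryEquiv rfl).measurePreserving
  have h2 := (EuclideanSpace.volume_preserving_symm_measurableEquiv_toLp (Fin 2)).symm
  have h3 := (volume_preserving_finTwoArrow ℝ).symm
  exact h1.comp (h2.comp h3)

/-- PROOF: the linear isometry `x ↦ (⟪dir θ, x⟫, ⟪nrm θ, x⟫)` of `E 2` onto itself is measure
preserving; compose with the measure preserving maps `E 2 ≃ Fin 2 → ℝ ≃ ℝ × ℝ`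
(`EuclideanSpace.volume_preserving_symm_measurableEquiv_toLp`, `MeasureTheory.volume_preserving_finTwoArrow`)
and use `Measure.prod_apply`. -/
theorem measurable_vol_slc (θ : ℝ) {M : Set (E 2)} (hM : MeasurableSet M) :
    Measurable (fun p => volume (slc θ M p)) :=
  measurable_measure_prodMk_left (fub_measurable θ hM)

theorem fub (θ : ℝ) {M : Set (E 2)} (hM : MeasurableSet M) :
    volume M = ∫⁻ p, volume (slc θ M p) := by
  rw [← (fub_preserving θ).measure_preimage hM.nullMeasurableSet, Measure.volume_eq_prod,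
    Measure.prod_apply (fub_measurable θ hM)]
  rfl

end Pool.Agent.RA
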