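import Pool.Agent.H.MP_1b807b_an.A.HalfDefs

/-! MP_1b807b_an, large parameter asymptotics in the plane, module HalfA: cutting connected open sets -/

set_option autoImplicit false

namespace Pool.Agent.RA

open MeasureTheory Metric Set Pool.Agent.RG
open scoped RealInnerProductSpace ENNReal Topology Pointwise

theorem halfA_shift {θ p ε : ℝ} {x : E 2} (hx : x ∈ ln θ p) (hε : 0 < ε) :
    x + (ε / 2) • dir θ ∈ ball x ε ∩ hpos θ p := by
  constructor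
  · rw [mem_ball, dist_eq_norm, add_sub_cancel_left, norm_smul, norm_dir, Real.norm_eq_abs,
      abs_of_pos (by linarith)]
    linarith
  · change p < ⟪dir θ, x + (ε / 2) • dir θ⟫
    rw [mem_ln] at hx
    rw [inner_add_right, inner_smul_right, inner_dir_dir, hx]
    linarith

theorem halfA_hpos_open (θ p : ℝ) : IsOpen (hpos θ p) :=
  isOpen_lt continuous_const (continuous_const.inner continuous_id)

theorem halfA_hneg_open (θ p : ℝ) : IsOpen (hneg θ p) :=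
  isOpen_lt (continuous_const.inner continuous_id) continuous_const

theorem halfA_hpos_convex (θ p : ℝ) : Convex ℝ (hpos θ p) := by
  have h := convex_halfSpace_gt (𝕜 := ℝ) (f := fun x : E 2 => ⟪dir θ, x⟫)
    ⟨fun x y => inner_add_right _ _ _, fun c x => by simp [inner_smul_right]⟩ p
  exact h

theorem halfA_trichotomy (θ p : ℝ) (x : E 2) : x ∈ hneg θ p ∨ x ∈ ln θ p ∨ x ∈ hpos θ p := by
  rcases lt_trichotomy ⟪dir θ, x⟫ p with h | h | h
  · exact Or.inl h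
  · exact Or.inr (Or.inl h)
  · exact Or.inr (Or.inr h)

theorem halfA_aux {Q V₁ V₂ : Set (E 2)} (hc : IsPreconnected Q) {θ p : ℝ}
    (hne : (Q ∩ ln θ p).Nonempty) (hV₁ : IsOpen V₁) (hV₂ : IsOpen V₂)
    (hcov : Q ∩ hpos θ p = V₁ ∪ V₂) (hdis : Disjoint V₁ V₂) (hne₂ : V₂.Nonempty)
    (hall : ∀ x ∈ Q ∩ ln θ p, ∃ ε > 0, ball x ε ⊆ Q ∧ ball x ε ∩ hpos θ p ⊆ V₁) : False := by
  set O₁ : Set (E 2) := {x | ∃ ε > 0, ball x ε ⊆ Q ∧ ball x ε ∩ hpos θ p ⊆ V₁} with hO₁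
  have hO₁o : IsOpen O₁ := by
    rw [Metric.isOpen_iff]
    rintro x ⟨ε, hε, h1, h2⟩
    refine ⟨ε / 2, by linarith, fun y hy => ⟨ε / 2, by linarith, ?_, ?_⟩⟩
    · refine Subset.trans (ball_subset_ball' ?_) h1
      rw [mem_ball] at hy
      linarith
    · refine Subset.trans (inter_subset_inter_left _ (ball_subset_ball' ?_)) h2
      rw [mem_ball] at hy
      linarith
  have h3 : Q ⊆ V₂ ∪ (V₁ ∪ O₁ ∪ hneg θ p) := by
    intro x hx
    rcases halfA_trichotomy θ p x with h | h | h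
    · exact Or.inr (Or.inr h)
    · exact Or.inr (Or.inl (Or.inr (hall x ⟨hx, h⟩)))
    · have : x ∈ V₁ ∪ V₂ := hcov ▸ ⟨hx, h⟩
      rcases this with h' | h'
      · exact Or.inr (Or.inl (Or.inl h'))
      · exact Or.inl h'
  have hsub : V₂ ⊆ Q ∩ hpos θ p := by rw [hcov]; exact subset_union_right
  obtain ⟨y, hy⟩ := hne₂
  obtain ⟨x, hx⟩ := hne
  obtain ⟨z, hzQ, hz2, hz⟩ := hc V₂ (V₁ ∪ O₁ ∪ hneg θ p) hV₂
    ((hV₁.union hO₁o).union (halfA_hneg_open θ p)) h3 ⟨y, (hsub hy).1, hy⟩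
    ⟨x, hx.1, Or.inl (Or.inr (hall x hx))⟩
  rcases hz with (hz | ⟨ε, hε, h1, h2⟩) | hz
  · exact disjoint_left.mp hdis hz hz2
  · exact disjoint_left.mp hdis (h2 ⟨mem_ball_self hε, (hsub hz2).2⟩) hz2
  · have h4 : p < ⟪dir θ, z⟫ := (hsub hz2).2
    have h5 : ⟪dir θ, z⟫ < p := hz
    linarith

/-- PROOF: suppose that `Q ∩ hpos` is the union of two disjoint non empty open sets `U₁`, `U₂`. For
`x ∈ Q ∩ ln` a small half disc around `x` in `hpos` is connected and contained in `Q ∩ hpos`, so it is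
contained in `U₁` or in `U₂`; the set of `x ∈ Q ∩ ln` with the first alternative is open in `Q ∩ ln`,
and so is the other one, so one of them, say the second one, is empty. Then
`U₂` and `Q \ U₂` are both open: `Q` is not connected. -/
theorem split_conn {Q : Set (E 2)} (hQ : IsOpen Q) (hc : IsPreconnected Q) {θ p : ℝ}
    (hl : IsPreconnected (Q ∩ ln θ p)) (hne : (Q ∩ ln θ p).Nonempty) :
    IsPreconnected (Q ∩ hpos θ p) := by
  intro U₁ U₂ hU₁ hU₂ hcov hn₁ hn₂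
  by_contra hemp
  rw [Set.not_nonempty_iff_eq_empty] at hemp
  set V₁ := Q ∩ hpos θ p ∩ U₁ with hV₁d
  set V₂ := Q ∩ hpos θ p ∩ U₂ with hV₂d
  have hQh : IsOpen (Q ∩ hpos θ p) := hQ.inter (halfA_hpos_open θ p)
  have hV₁ : IsOpen V₁ := hQh.inter hU₁
  have hV₂ : IsOpen V₂ := hQh.inter hU₂
  have hdis : Disjoint V₁ V₂ := by
    rw [Set.disjoint_left]
    rintro x ⟨hx, hx1⟩ ⟨-, hx2⟩
    have : x ∈ Q ∩ hpos θ p ∩ (U₁ ∩ U₂) := ⟨hx, hx1, hx2⟩
    rw [hemp] at this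
    exact this
  have hun : Q ∩ hpos θ p = V₁ ∪ V₂ := by
    rw [hV₁d, hV₂d, ← inter_union_distrib_left]
    exact (inter_eq_left.mpr hcov).symm
  -- half discs
  have hhalf : ∀ x ∈ Q ∩ ln θ p, (∃ ε > 0, ball x ε ⊆ Q ∧ ball x ε ∩ hpos θ p ⊆ V₁) ∨
      (∃ ε > 0, ball x ε ⊆ Q ∧ ball x ε ∩ hpos θ p ⊆ V₂) := by
    rintro x ⟨hxQ, hxl⟩
    obtain ⟨ε, hε, hball⟩ := Metric.isOpen_iff.mp hQ x hxQ
    have hpre : IsPreconnected (ball x ε ∩ hpos θ p) :=
      ((convex_ball x ε).inter (halfA_hpos_convex θ p)).isPreconnected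
    have hsub : ball x ε ∩ hpos θ p ⊆ V₁ ∪ V₂ := by
      rw [← hun]
      exact inter_subset_inter_left _ hball
    by_cases h1 : (ball x ε ∩ hpos θ p ∩ V₁).Nonempty
    · left
      refine ⟨ε, hε, hball, hpre.subset_left_of_subset_union hV₁ hV₂ hdis hsub h1⟩
    · right
      refine ⟨ε, hε, hball, fun y hy => ?_⟩
      rcases hsub hy with h | h
      · exact absurd ⟨y, hy, h⟩ h1
      · exact h
  have hopen : ∀ V : Set (E 2), IsOpen {x | ∃ ε > 0, ball x ε ⊆ Q ∧ ball x ε ∩ hpos θ p ⊆ V} := by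
    intro V
    rw [Metric.isOpen_iff]
    rintro x ⟨ε, hε, h1, h2⟩
    refine ⟨ε / 2, by linarith, fun y hy => ⟨ε / 2, by linarith, ?_, ?_⟩⟩
    · refine Subset.trans (ball_subset_ball' ?_) h1
      rw [mem_ball] at hy
      linarith
    · refine Subset.trans (inter_subset_inter_left _ (ball_subset_ball' ?_)) h2
      rw [mem_ball] at hy
      linarith
  by_cases hA : ∀ x ∈ Q ∩ ln θ p, ∃ ε > 0, ball x ε ⊆ Q ∧ ball x ε ∩ hpos θ p ⊆ V₁
  · exact halfA_aux hc hne hV₁ hV₂ hun hdis hn₂ hA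
  by_cases hB : ∀ x ∈ Q ∩ ln θ p, ∃ ε > 0, ball x ε ⊆ Q ∧ ball x ε ∩ hpos θ p ⊆ V₂
  · exact halfA_aux hc hne hV₂ hV₁ (by rw [hun, union_comm]) hdis.symm hn₁ hB
  push Not at hA hB
  obtain ⟨x, hx, hxA⟩ := hA
  obtain ⟨y, hy, hyB⟩ := hB
  have hx2 : ∃ ε > 0, ball x ε ⊆ Q ∧ ball x ε ∩ hpos θ p ⊆ V₂ := by
    rcases hhalf x hx with ⟨ε, hε, h1, h2⟩ | h
    · exact absurd h2 (hxA ε hε h1)
    · exact h
  have hy1 : ∃ ε > 0, ball y ε ⊆ Q ∧ ball y ε ∩ hpos θ p ⊆ V₁ := by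
    rcases hhalf y hy with h | ⟨ε, hε, h1, h2⟩
    · exact h
    · exact absurd h2 (hyB ε hε h1)
  obtain ⟨z, hz, ⟨ε₁, hε₁, -, hz1⟩, ⟨ε₂, hε₂, -, hz2⟩⟩ := hl _ _ (hopen V₁) (hopen V₂)
    (fun w hw => hhalf w hw) ⟨y, hy, hy1⟩ ⟨x, hx, hx2⟩
  have hm : 0 < min ε₁ ε₂ := lt_min hε₁ hε₂
  obtain ⟨h1, h2⟩ := halfA_shift hz.2 hm
  exact disjoint_left.mp hdis
    (hz1 ⟨ball_subset_ball (min_le_left _ _) h1, h2⟩)
    (hz2 ⟨ball_subset_ball (min_le_right _ _) h1, h2⟩)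

theorem split_nonempty {Q : Set (E 2)} (hQ : IsOpen Q) {θ p : ℝ} (hne : (Q ∩ ln θ p).Nonempty) :
    (Q ∩ hpos θ p).Nonempty := by
  obtain ⟨x, hxQ, hxl⟩ := hne
  obtain ⟨ε, hε, hball⟩ := Metric.isOpen_iff.mp hQ x hxQ
  obtain ⟨h1, h2⟩ := halfA_shift hxl hε
  exact ⟨_, hball h1, h2⟩

theorem split_conn_neg {Q : Set (E 2)} (hQ : IsOpen Q) (hc : IsPreconnected Q) {θ p : ℝ}
    (hl : IsPreconnected (Q ∩ ln θ p)) (hne : (Q ∩ ln θ p).Nonempty) :
    IsPreconnected (Q ∩ hneg θ p) := by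
  rw [hneg_eq]
  rw [ln_eq] at hl hne
  exact split_conn hQ hc hl hne

/-- A preconnected set that meets `Q` and is not contained in `Q` meets the frontier of `Q`. -/
theorem meets_frontier {A Q : Set (E 2)} (hA : IsPreconnected A) (h1 : (A ∩ Q).Nonempty)
    (h2 : ¬ A ⊆ Q) : (A ∩ frontier Q).Nonempty := by
  by_contra hcon
  rw [Set.not_nonempty_iff_eq_empty] at hcon
  have key : ∀ x ∈ A, x ∈ interior Q ∨ x ∈ (closure Q)ᶜ := by
    intro x hx
    by_contra h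
    push Not at h
    obtain ⟨ha, hb⟩ := h
    have : x ∈ A ∩ frontier Q := ⟨hx, not_notMem.mp hb, ha⟩
    rw [hcon] at this
    exact this
  obtain ⟨x, hxA, hxQ⟩ := h1
  obtain ⟨y, hyA, hyQ⟩ := Set.not_subset.mp h2
  have hx' : x ∈ interior Q := by
    rcases key x hxA with h | h
    · exact h
    · exact absurd (subset_closure hxQ) h
  have hy' : y ∈ (closure Q)ᶜ := by
    rcases key y hyA with h | h
    · exact absurd (interior_subset h) hyQ
    · exact h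
  obtain ⟨z, -, hz1, hz2⟩ := hA _ _ isOpen_interior isClosed_closure.isOpen_compl key
    ⟨x, hxA, hx'⟩ ⟨y, hyA, hy'⟩
  exact hz2 (subset_closure (interior_subset hz1))

end Pool.Agent.RA
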