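import Pool.Agent.H.MP_1b807b_an.A.HalfA

/-! MP_1b807b_an, large parameter asymptotics in the plane, module HalfB: four boundary points -/

set_option autoImplicit false

namespace Pool.Agent.RA

open MeasureTheory Metric Set Pool.Agent.RG
open scoped RealInnerProductSpace ENNReal Topology Pointwise

/-- going to the right in an open set of reals until the first point outside -/
theorem halfB_right {A : Set ℝ} (hA : IsOpen A) {y w : ℝ} (hy : y ∈ A) (hw : w ∉ A)
    (hyw : y ≤ w) : ∃ b, y < b ∧ b ≤ w ∧ b ∉ A ∧ ∀ t, y ≤ t → t < b → t ∈ A := by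
  set T : Set ℝ := Ici y ∩ Aᶜ with hT
  have hTc : IsClosed T := isClosed_Ici.inter hA.isClosed_compl
  have hTb : BddBelow T := ⟨y, fun t ht => ht.1⟩
  have hTn : T.Nonempty := ⟨w, hyw, hw⟩
  have hmem : sInf T ∈ T := hTc.csInf_mem hTn hTb
  refine ⟨sInf T, ?_, csInf_le hTb ⟨hyw, hw⟩, hmem.2, ?_⟩
  · rcases (show y ≤ sInf T from hmem.1).lt_or_eq with h | h
    · exact h
    · exact absurd (h ▸ hy) hmem.2
  · intro t h1 h2
    by_contra h3
    exact absurd (csInf_le hTb ⟨h1, h3⟩) (not_le.mpr h2)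

theorem halfB_left {A : Set ℝ} (hA : IsOpen A) {y w : ℝ} (hy : y ∈ A) (hw : w ∉ A)
    (hyw : w ≤ y) : ∃ a, a < y ∧ w ≤ a ∧ a ∉ A ∧ ∀ t, a < t → t ≤ y → t ∈ A := by
  have hA' : IsOpen ((fun t : ℝ => -t) ⁻¹' A) := hA.preimage continuous_neg
  obtain ⟨b, h1, h2, h3, h4⟩ := halfB_right (A := (fun t : ℝ => -t) ⁻¹' A) hA'
    (y := -y) (w := -w) (by simpa using hy) (by simpa using hw) (by linarith)
  refine ⟨-b, by linarith, by linarith, h3, fun t h5 h6 => ?_⟩
  have := h4 (-t) (by linarith) (by linarith)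
  simpa using this

theorem halfB_closure_right {A : Set ℝ} {y b : ℝ} (hyb : y < b)
    (h : ∀ t, y ≤ t → t < b → t ∈ A) : b ∈ closure A := by
  have h1 : Ico y b ⊆ A := fun t ht => h t ht.1 ht.2
  have h2 : b ∈ closure (Ico y b) := by
    rw [closure_Ico hyb.ne]
    exact ⟨hyb.le, le_rfl⟩
  exact closure_mono h1 h2

theorem halfB_closure_left {A : Set ℝ} {a y : ℝ} (hay : a < y)
    (h : ∀ t, a < t → t ≤ y → t ∈ A) : a ∈ closure A := by
  have h1 : Ioc a y ⊆ A := fun t ht => h t ht.1 ht.2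
  have h2 : a ∈ closure (Ioc a y) := by
    rw [closure_Ioc hay.ne]
    exact ⟨le_rfl, hay.le⟩
  exact closure_mono h1 h2

/-- PROOF: `A = slc θ Q p` is a bounded open set of real numbers which is not preconnected: there
are `y₁ < y₀ < y₂` with `y₁, y₂ ∈ A`, `y₀ ∉ A`. Let `(α, β)`, `(α', β')` be the components of `A` that
contain `y₁`, `y₂`; `β ≤ y₀ ≤ α'`. The four end points correspond to points of
`frontier Q ∩ ln θ p`, which are not in `U` (`bd` and the line misses `Sg`), so they are in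
`frontier U`. If `β = α'` this point would be isolated in `ln θ p \ U`, contradicting `hiso`. -/
theorem four_points {U Q Sg : Set (E 2)} (hU : IsOpen U) (hb : Bornology.IsBounded U)
    (hP : Piece U Q Sg) {θ p : ℝ}
    (hiso : ∀ z ∈ frontier U ∩ ln θ p, ∀ δ > 0,
      ∃ t : ℝ, 0 < |t| ∧ |t| < δ ∧ z + t • nrm θ ∉ U)
    (hS : ¬ (Sg ∩ ln θ p).Nonempty) (hnc : ¬ IsPreconnected (Q ∩ ln θ p)) :
    4 ≤ cnt (frontier U ∩ closure Q ∩ ln θ p) := by
  set A : Set ℝ := slc θ Q p with hAd
  have hA : IsOpen A := isOpen_slc hP.isOpen p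
  set io : ℝ → E 2 := fun y => p • dir θ + y • nrm θ with hio
  have hioc : Continuous io := by
    rw [hio]; fun_prop
  have hioinj : Function.Injective io := by
    intro a b hab
    have h1 := congrArg (fun x => ⟪nrm θ, x⟫) hab
    simp only [hio, inner_nrm_comb] at h1
    exact h1
  have himg : Q ∩ ln θ p = io '' A := by
    ext x
    constructor
    · rintro ⟨hxQ, hxl⟩
      obtain ⟨y, rfl⟩ := mem_ln_iff.mp hxl
      exact ⟨y, hxQ, rfl⟩
    · rintro ⟨y, hy, rfl⟩
      exact ⟨hy, inner_dir_comb θ p y⟩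
  have hAnc : ¬ IsPreconnected A := by
    intro h
    apply hnc
    rw [himg]
    exact h.image io hioc.continuousOn
  have hAbdd : ∃ C : ℝ, ∀ y ∈ A, |y| ≤ C := by
    obtain ⟨C, hC⟩ := isBounded_iff_forall_norm_le.mp (hb.subset hP.sub)
    refine ⟨C, fun y hy => ?_⟩
    have h1 := hC _ (mem_slc.mp hy)
    have h2 := abs_inner_nrm_le θ (p • dir θ + y • nrm θ)
    rw [inner_nrm_comb] at h2
    exact h2.trans h1
  obtain ⟨C, hC⟩ := hAbdd
  rw [isPreconnected_iff_ordConnected] at hAnc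
  have : ∃ y₁ ∈ A, ∃ y₂ ∈ A, ∃ y₀, y₁ ≤ y₀ ∧ y₀ ≤ y₂ ∧ y₀ ∉ A := by
    by_contra hcon
    push Not at hcon
    exact hAnc ⟨fun y₁ h1 y₂ h2 y₀ h0 => hcon y₁ h1 y₂ h2 y₀ h0.1 h0.2⟩
  obtain ⟨y₁, h1, y₂, h2, y₀, h10, h02, h0⟩ := this
  have hout₁ : -(C + 1) ∉ A := by
    intro h
    have := hC _ h
    have h3 := (hC _ h1)
    have h4 := abs_nonneg y₁
    rw [abs_neg, abs_of_nonneg (by linarith)] at this
    linarith
  have hout₂ : C + 1 ∉ A := by
    intro h
    have := hC _ h
    have h3 := (hC _ h1)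
    have h4 := abs_nonneg y₁
    rw [abs_of_nonneg (by linarith)] at this
    linarith
  have hy1C := abs_le.mp (hC _ h1)
  have hy2C := abs_le.mp (hC _ h2)
  obtain ⟨β, b1, b2, b3, b4⟩ := halfB_right hA h1 h0 h10
  obtain ⟨α, a1, a2, a3, a4⟩ := halfB_left hA h1 hout₁ (by linarith)
  obtain ⟨α', a1', a2', a3', a4'⟩ := halfB_left hA h2 h0 h02
  obtain ⟨β', b1', b2', b3', b4'⟩ := halfB_right hA h2 hout₂ (by linarith)
  have hcl : ∀ y ∈ closure A, io y ∈ closure Q := by
    intro y hy
    have h3 : io '' closure A ⊆ closure (io '' A) := image_closure_subset_closure_image hioc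
    have h4 : io '' A ⊆ Q := by
      rintro _ ⟨t, ht, rfl⟩
      exact ht
    exact closure_mono h4 (h3 ⟨y, hy, rfl⟩)
  have key : ∀ y ∈ closure A, y ∉ A → io y ∈ frontier U ∩ closure Q ∩ ln θ p := by
    intro y hy hyA
    have hl : io y ∈ ln θ p := inner_dir_comb θ p y
    have hcQ := hcl y hy
    have hfQ : io y ∈ frontier Q := by
      rw [hP.isOpen.frontier_eq]
      exact ⟨hcQ, hyA⟩
    have hnU : io y ∉ U := fun hyU => hS ⟨io y, hP.bd ⟨hyU, hfQ⟩, hl⟩
    refine ⟨⟨?_, hcQ⟩, hl⟩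
    rw [hU.frontier_eq]
    exact ⟨closure_mono hP.sub hcQ, hnU⟩
  have kα := key α (halfB_closure_left a1 a4) a3
  have kβ := key β (halfB_closure_right b1 b4) b3
  have kα' := key α' (halfB_closure_left a1' a4') a3'
  have kβ' := key β' (halfB_closure_right b1' b4') b3'
  have hne : β < α' := by
    rcases (b2.trans a2').lt_or_eq with h | h
    · exact h
    exfalso
    obtain ⟨t, ht0, ht, htU⟩ := hiso (io β) ⟨kβ.1.1, kβ.2⟩ (min (β - y₁) (y₂ - β))
      (lt_min (by linarith) (by linarith))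
    apply htU
    apply hP.sub
    have h3 : io β + t • nrm θ = io (β + t) := by
      simp only [hio, add_smul, add_assoc]
    rw [h3]
    have ht1 := lt_of_lt_of_le ht (min_le_left _ _)
    have ht2 := lt_of_lt_of_le ht (min_le_right _ _)
    rw [abs_lt] at ht1 ht2
    rcases lt_or_gt_of_ne (abs_pos.mp ht0) with h5 | h5
    · exact b4 (β + t) (by linarith) (by linarith)
    · exact a4' (β + t) (by linarith) (by linarith)
  -- four points
  have hsub : (({io α, io β, io α', io β'} : Finset (E 2)) : Set (E 2)) ⊆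
      frontier U ∩ closure Q ∩ ln θ p := by
    intro x hx
    simp only [Finset.coe_insert, Finset.coe_singleton, mem_insert_iff, mem_singleton_iff] at hx
    rcases hx with rfl | rfl | rfl | rfl
    · exact kα
    · exact kβ
    · exact kα'
    · exact kβ'
  have hab : α < β := by linarith
  have hab' : α' < β' := by linarith
  have hcard : ({io α, io β, io α', io β'} : Finset (E 2)).card = 4 := by
    have n1 : io α ≠ io β := fun h => (hab.ne (hioinj h))
    have n2 : io α ≠ io α' := fun h => ((hab.trans hne).ne (hioinj h))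
    have n3 : io α ≠ io β' := fun h => ((hab.trans (hne.trans hab')).ne (hioinj h))
    have n4 : io β ≠ io α' := fun h => (hne.ne (hioinj h))
    have n5 : io β ≠ io β' := fun h => ((hne.trans hab').ne (hioinj h))
    have n6 : io α' ≠ io β' := fun h => (hab'.ne (hioinj h))
    rw [Finset.card_insert_of_notMem (by simp [n1, n2, n3]),
      Finset.card_insert_of_notMem (by simp [n4, n5]),
      Finset.card_insert_of_notMem (by simp [n6]), Finset.card_singleton]
  have hen := Set.encard_le_encard hsub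
  rw [Set.encard_coe_eq_coe_finsetCard, hcard] at hen
  unfold cnt
  have h5 : ((4 : ℕ∞) : ℝ≥0∞) ≤
      (((frontier U ∩ closure Q ∩ ln θ p).encard : ℕ∞) : ℝ≥0∞) := by
    exact_mod_cast hen
  simpa using h5

end Pool.Agent.RA
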