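import Pool.Agent.H.MP_1b807b_an.A.Basic

/-! MP_1b807b_an, large parameter asymptotics in the plane, module HalfC: support functions -/

set_option autoImplicit false

namespace Pool.Agent.RA

open MeasureTheory Metric Set Pool.Agent.RG
open scoped RealInnerProductSpace ENNReal Topology Pointwise

theorem halfC_bdd {Q : Set (E 2)} (hb : Bornology.IsBounded Q) (θ : ℝ) :
    BddAbove ((fun x => ⟪dir θ, x⟫) '' Q) := by
  obtain ⟨C, hC⟩ := isBounded_iff_forall_norm_le.mp hb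
  refine ⟨C, ?_⟩
  rintro _ ⟨x, hx, rfl⟩
  exact (le_abs_self _).trans ((abs_inner_dir_le θ x).trans (hC x hx))

theorem halfC_lip {Q : Set (E 2)} {C : ℝ} (hC : ∀ x ∈ Q, ‖x‖ ≤ C) (hne : Q.Nonempty) (θ φ : ℝ) :
    hs Q θ ≤ hs Q φ + C * ‖dir θ - dir φ‖ := by
  have hb : Bornology.IsBounded Q := isBounded_iff_forall_norm_le.mpr ⟨C, hC⟩
  refine csSup_le (hne.image _) ?_
  rintro _ ⟨x, hx, rfl⟩
  have h1 : ⟪dir φ, x⟫ ≤ hs Q φ := le_csSup (halfC_bdd hb φ) ⟨x, hx, rfl⟩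
  have h2 : ⟪dir θ, x⟫ = ⟪dir φ, x⟫ + ⟪dir θ - dir φ, x⟫ := by
    rw [inner_sub_left]; ring
  have h3 : ⟪dir θ - dir φ, x⟫ ≤ ‖dir θ - dir φ‖ * ‖x‖ := real_inner_le_norm _ _
  have h4 : ‖dir θ - dir φ‖ * ‖x‖ ≤ ‖dir θ - dir φ‖ * C :=
    mul_le_mul_of_nonneg_left (hC x hx) (norm_nonneg _)
  change ⟪dir θ, x⟫ ≤ _
  rw [h2]
  linarith

/-- `hs` of a bounded set is continuous. PROOF: `|⟪dir θ - dir φ, x⟫| ≤ |θ - φ| M`. -/
theorem hs_continuous {Q : Set (E 2)} (hb : Bornology.IsBounded Q) (hne : Q.Nonempty) :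
    Continuous (hs Q) := by
  obtain ⟨C, hC⟩ := isBounded_iff_forall_norm_le.mp hb
  rw [continuous_iff_continuousAt]
  intro φ
  have h0 : Filter.Tendsto (fun θ => C * ‖dir θ - dir φ‖) (𝓝 φ) (𝓝 0) := by
    have h1 : Continuous fun θ => C * ‖dir θ - dir φ‖ := by
      have := continuous_dir
      fun_prop
    have h2 := h1.tendsto φ
    simpa using h2
  have h1 : ∀ θ, |hs Q θ - hs Q φ| ≤ C * ‖dir θ - dir φ‖ := by
    intro θ
    have h2 := halfC_lip hC hne θ φ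
    have h3 := halfC_lip hC hne φ θ
    rw [norm_sub_rev] at h3
    rw [abs_le]
    constructor <;> linarith
  rw [ContinuousAt, tendsto_iff_dist_tendsto_zero]
  refine squeeze_zero (fun θ => dist_nonneg) (fun θ => ?_) h0
  rw [Real.dist_eq]
  exact h1 θ

theorem hs_periodic (Q : Set (E 2)) : Function.Periodic (hs Q) (2 * Real.pi) := by
  intro θ
  unfold hs
  rw [dir_add_two_pi]

theorem le_hs {Q : Set (E 2)} (hb : Bornology.IsBounded Q) {x : E 2} (hx : x ∈ closure Q)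
    (θ : ℝ) : ⟪dir θ, x⟫ ≤ hs Q θ := by
  have h1 : IsClosed {y : E 2 | ⟪dir θ, y⟫ ≤ hs Q θ} :=
    isClosed_le (continuous_const.inner continuous_id) continuous_const
  exact closure_minimal (fun y hy => le_csSup (halfC_bdd hb θ) ⟨y, hy, rfl⟩) h1 hx

theorem exists_lt_hs {Q : Set (E 2)} (hne : Q.Nonempty) {θ c : ℝ}
    (h : c < hs Q θ) : ∃ x ∈ Q, c < ⟪dir θ, x⟫ := by
  obtain ⟨_, ⟨x, hx, rfl⟩, h2⟩ := exists_lt_of_lt_csSup (hne.image _) h
  exact ⟨x, hx, h2⟩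

theorem halfC_lt {Q : Set (E 2)} (hQ : IsOpen Q) (hb : Bornology.IsBounded Q) {x : E 2}
    (hx : x ∈ Q) (θ : ℝ) : ⟪dir θ, x⟫ < hs Q θ := by
  obtain ⟨ε, hε, hball⟩ := Metric.isOpen_iff.mp hQ x hx
  have h1 : x + (ε / 2) • dir θ ∈ ball x ε := by
    rw [mem_ball, dist_eq_norm, add_sub_cancel_left, norm_smul, norm_dir, Real.norm_eq_abs,
      abs_of_pos (by linarith)]
    linarith
  have h2 := le_hs hb (subset_closure (hball h1)) θ
  rw [inner_add_right, inner_smul_right, inner_dir_dir] at h2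
  linarith

/-- the projection of a connected open bounded set -/
theorem proj_eq {Q : Set (E 2)} (hQ : IsOpen Q) (hc : IsConnected Q)
    (hb : Bornology.IsBounded Q) (θ : ℝ) :
    {p | (Q ∩ ln θ p).Nonempty} = Ioo (-hs Q (θ + Real.pi)) (hs Q θ) := by
  ext p
  constructor
  · rintro ⟨x, hxQ, hxl⟩
    rw [mem_ln] at hxl
    have h1 := halfC_lt hQ hb hxQ θ
    have h2 := halfC_lt hQ hb hxQ (θ + Real.pi)
    rw [dir_add_pi, inner_neg_left] at h2
    rw [hxl] at h1 h2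
    exact ⟨by linarith, h1⟩
  · rintro ⟨h1, h2⟩
    obtain ⟨x, hx, hx2⟩ := exists_lt_hs hc.nonempty h2
    have h3 : -p < hs Q (θ + Real.pi) := by linarith
    obtain ⟨y, hy, hy2⟩ := exists_lt_hs hc.nonempty h3
    rw [dir_add_pi, inner_neg_left] at hy2
    have hf : ContinuousOn (fun x : E 2 => ⟪dir θ, x⟫) Q :=
      (continuous_const.inner continuous_id).continuousOn
    have h4 := hc.isPreconnected.intermediate_value hy hx hf
    obtain ⟨z, hz, hz2⟩ := h4 ⟨by linarith, hx2.le⟩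
    exact ⟨z, hz, hz2⟩

end Pool.Agent.RA
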