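import Pool.Agent.H.MP_1b807b_an.A.HalfB
import Pool.Agent.H.MP_1b807b_an.A.HalfC

/-! MP_1b807b_an, large parameter asymptotics in the plane, module HalfD: Crofton for pieces -/

set_option autoImplicit false

namespace Pool.Agent.RA

open MeasureTheory Metric Set Pool.Agent.RG
open scoped RealInnerProductSpace ENNReal Topology Pointwise

theorem halfD_slice {U : Set (E 2)} {lam : Measure (E 2)} (hg : GeoData U lam)
    {Q Sg : Set (E 2)} (hP : Piece U Q Sg) {b : ℝ} (hb : 0 ≤ b) {θ : ℝ}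
    (hbad : volume {p | (Q ∩ ln θ p).Nonempty ∧
      (IsPreconnected (Q ∩ ln θ p) ∨ (Sg ∩ ln θ p).Nonempty)} ≤ ENNReal.ofReal b) :
    4 * ENNReal.ofReal (hs Q θ + hs Q (θ + Real.pi) - b) ≤
      ∫⁻ p, cnt (frontier U ∩ closure Q ∩ ln θ p) := by
  have hQb : Bornology.IsBounded Q := hg.bdd.subset hP.sub
  set Bad : Set ℝ := {p | (Q ∩ ln θ p).Nonempty ∧
      (IsPreconnected (Q ∩ ln θ p) ∨ (Sg ∩ ln θ p).Nonempty)} with hBad
  set B : Set ℝ := toMeasurable volume Bad with hBd
  have hBm : MeasurableSet B := measurableSet_toMeasurable _ _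
  have hBv : volume B ≤ ENNReal.ofReal b := by
    rw [hBd, measure_toMeasurable]
    exact hbad
  set I : Set ℝ := Ioo (-hs Q (θ + Real.pi)) (hs Q θ) with hI
  have hIm : MeasurableSet (I \ B) := measurableSet_Ioo.diff hBm
  have h1 : ∀ᵐ p ∂(volume.restrict (I \ B)), (4 : ℝ≥0∞) ≤
      cnt (frontier U ∩ closure Q ∩ ln θ p) := by
    rw [ae_restrict_iff' hIm]
    filter_upwards [hg.noiso θ] with p hp hpI
    have hne : (Q ∩ ln θ p).Nonempty := by
      have : p ∈ {p | (Q ∩ ln θ p).Nonempty} := by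
        rw [proj_eq hP.isOpen hP.conn hQb θ]
        exact hpI.1
      exact this
    have hnB : p ∉ Bad := fun h => hpI.2 (subset_toMeasurable _ _ h)
    have h2 : ¬ IsPreconnected (Q ∩ ln θ p) := fun h => hnB ⟨hne, Or.inl h⟩
    have h3 : ¬ (Sg ∩ ln θ p).Nonempty := fun h => hnB ⟨hne, Or.inr h⟩
    exact four_points hg.isOpen hg.bdd hP hp h3 h2
  have h2 : ∫⁻ _p in I \ B, (4 : ℝ≥0∞) ≤ ∫⁻ p in I \ B, cnt (frontier U ∩ closure Q ∩ ln θ p) :=
    lintegral_mono_ae h1
  have h3 : ∫⁻ p in I \ B, cnt (frontier U ∩ closure Q ∩ ln θ p) ≤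
      ∫⁻ p, cnt (frontier U ∩ closure Q ∩ ln θ p) := setLIntegral_le_lintegral _ _
  rw [setLIntegral_const] at h2
  refine le_trans ?_ (h2.trans h3)
  gcongr
  have h4 : volume I = ENNReal.ofReal (hs Q θ + hs Q (θ + Real.pi)) := by
    rw [hI, Real.volume_Ioo]
    congr 1
    ring
  calc ENNReal.ofReal (hs Q θ + hs Q (θ + Real.pi) - b)
      = ENNReal.ofReal (hs Q θ + hs Q (θ + Real.pi)) - ENNReal.ofReal b :=
        ENNReal.ofReal_sub _ hb
    _ ≤ volume I - volume B := by
        rw [h4]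
        exact tsub_le_tsub_left hBv _
    _ ≤ volume (I \ B) := le_measure_sdiff

/-- PROOF: for `θ ∈ (0, π)` let `B` be a measurable set containing the bad set with the same
measure; for almost all `p` in `Ioo (-hs Q (θ+π)) (hs Q θ) \ B` (`proj_eq`) `four_points` gives
`4 ≤ cnt (frontier U ∩ closure Q ∩ ln θ p)` (`noiso`); so
`4 * ofReal (hs Q θ + hs Q (θ+π) - b) ≤ ∫⁻ p, cnt ..`. Integrate over `θ ∈ (0, π)`, use `crof` for
`closure Q`, and `∫_0^π (hs Q θ + hs Q (θ + π)) = HH Q`. -/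
theorem crofton_piece {U : Set (E 2)} {lam : Measure (E 2)} (hg : GeoData U lam)
    {Q Sg : Set (E 2)} (hP : Piece U Q Sg) {b : ℝ} (hb : 0 ≤ b)
    (hbad : ∀ θ ∈ Ioo 0 Real.pi, volume {p | (Q ∩ ln θ p).Nonempty ∧
      (IsPreconnected (Q ∩ ln θ p) ∨ (Sg ∩ ln θ p).Nonempty)} ≤ ENNReal.ofReal b) :
    ENNReal.ofReal (2 * (HH Q - Real.pi * b)) ≤ lam (closure Q) := by
  have hQb : Bornology.IsBounded Q := hg.bdd.subset hP.sub
  have hcont := hs_continuous hQb hP.conn.nonempty
  set g : ℝ → ℝ := fun θ => hs Q θ + hs Q (θ + Real.pi) - b with hgd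
  have hgc : Continuous g := by
    rw [hgd]
    fun_prop
  -- the integral of g
  have hint : ∫ θ in (0 : ℝ)..Real.pi, g θ = HH Q - Real.pi * b := by
    have i1 : IntervalIntegrable (fun θ => hs Q θ) volume 0 Real.pi := hcont.intervalIntegrable _ _
    have i2 : IntervalIntegrable (fun θ => hs Q (θ + Real.pi)) volume 0 Real.pi :=
      (hcont.comp (by fun_prop : Continuous fun θ : ℝ => θ + Real.pi)).intervalIntegrable _ _
    have e1 : ∫ θ in (0 : ℝ)..Real.pi, hs Q (θ + Real.pi) =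
        ∫ θ in Real.pi..(2 * Real.pi), hs Q θ := by
      rw [intervalIntegral.integral_comp_add_right (fun θ => hs Q θ) Real.pi]
      congr 1
      · ring
      · ring
    rw [hgd]
    rw [intervalIntegral.integral_sub (i1.add i2) (by simp), intervalIntegral.integral_add i1 i2,
      e1, intervalIntegral.integral_add_adjacent_intervals (hcont.intervalIntegrable _ _)
        (hcont.intervalIntegrable _ _)]
    simp [HH]
  have hle : ENNReal.ofReal (HH Q - Real.pi * b) ≤
      ∫⁻ θ in Ioo 0 Real.pi, ENNReal.ofReal (g θ) := by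
    rw [← hint, intervalIntegral.integral_of_le Real.pi_pos.le, integral_Ioc_eq_integral_Ioo]
    have hgi : IntegrableOn g (Ioo 0 Real.pi) :=
      (hgc.integrableOn_Icc (a := 0) (b := Real.pi)).mono_set Ioo_subset_Icc_self
    have hmax : IntegrableOn (fun θ => max (g θ) 0) (Ioo 0 Real.pi) :=
      ((hgc.max continuous_const).integrableOn_Icc (a := 0) (b := Real.pi)).mono_set
        Ioo_subset_Icc_self
    calc ENNReal.ofReal (∫ θ in Ioo 0 Real.pi, g θ)
        ≤ ENNReal.ofReal (∫ θ in Ioo 0 Real.pi, max (g θ) 0) := by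
          apply ENNReal.ofReal_le_ofReal
          exact integral_mono hgi hmax (fun θ => le_max_left _ _)
      _ = ∫⁻ θ in Ioo 0 Real.pi, ENNReal.ofReal (max (g θ) 0) := by
          exact ofReal_integral_eq_lintegral_ofReal hmax
            (Filter.Eventually.of_forall fun θ => le_max_right _ _)
      _ = ∫⁻ θ in Ioo 0 Real.pi, ENNReal.ofReal (g θ) := by
          congr 1
          funext θ
          rcases le_total 0 (g θ) with h | h
          · rw [max_eq_left h]
          · rw [max_eq_right h, ENNReal.ofReal_zero, ENNReal.ofReal_of_nonpos h]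
  have hsl : ∀ θ ∈ Ioo 0 Real.pi, 4 * ENNReal.ofReal (g θ) ≤
      ∫⁻ p, cnt (frontier U ∩ closure Q ∩ ln θ p) :=
    fun θ hθ => halfD_slice hg hP hb (hbad θ hθ)
  have h1 : ∫⁻ θ in Ioo 0 Real.pi, 4 * ENNReal.ofReal (g θ) ≤ 2 * lam (closure Q) :=
    (setLIntegral_mono' measurableSet_Ioo hsl).trans (hg.crof (closure Q) isClosed_closure)
  rw [lintegral_const_mul _ hgc.measurable.ennreal_ofReal] at h1
  have h2 : 4 * ENNReal.ofReal (HH Q - Real.pi * b) ≤ 2 * lam (closure Q) :=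
    (by gcongr : 4 * ENNReal.ofReal (HH Q - Real.pi * b) ≤
      4 * ∫⁻ θ in Ioo 0 Real.pi, ENNReal.ofReal (g θ)).trans h1
  have h3 : (4 : ℝ≥0∞) * ENNReal.ofReal (HH Q - Real.pi * b) =
      2 * ENNReal.ofReal (2 * (HH Q - Real.pi * b)) := by
    rw [ENNReal.ofReal_mul (by norm_num), ← mul_assoc]
    congr 1
    rw [ENNReal.ofReal_ofNat]
    norm_num
  rw [h3] at h2
  exact (ENNReal.mul_le_mul_iff_right (by norm_num) (by norm_num)).mp h2

end Pool.Agent.RA
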