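import Pool.Agent.H.MP_1b807b_an.A.Basic

/-! MP_1b807b_an, large parameter asymptotics in the plane, module HalfDefs: half planes, definitions -/

set_option autoImplicit false

namespace Pool.Agent.RA

open MeasureTheory Metric Set Pool.Agent.RG
open scoped RealInnerProductSpace ENNReal Topology Pointwise

/-- an open half plane -/
def hpos (θ p : ℝ) : Set (E 2) := {x | p < ⟪dir θ, x⟫}

/-- the opposite open half plane -/
def hneg (θ p : ℝ) : Set (E 2) := {x | ⟪dir θ, x⟫ < p}

theorem hneg_eq (θ p : ℝ) : hneg θ p = hpos (θ + Real.pi) (-p) := by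
  ext x; simp [hneg, hpos, dir_add_pi]

theorem hpos_eq (θ p : ℝ) : hpos θ p = hneg (θ + Real.pi) (-p) := by
  ext x; simp [hneg, hpos, dir_add_pi]

theorem ln_eq (θ p : ℝ) : ln θ p = ln (θ + Real.pi) (-p) := by
  ext x; simp [ln, dir_add_pi]

end Pool.Agent.RA
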