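import Pool.Agent.H.MP_1b807b_an.A.HullDefs

/-! MP_1b807b_an, large parameter asymptotics in the plane, module HullA: sectors -/

set_option autoImplicit false

namespace Pool.Agent.RA

open MeasureTheory Metric Set Pool.Agent.RG
open scoped RealInnerProductSpace ENNReal Topology Pointwise

theorem inner_cen {Q : Set (E 2)} {r φ a : ℝ} (hφ : 0 < φ) (hφ2 : φ < Real.pi / 2) (t : ℝ) :
    ⟪dir (a + t), cen Q r φ a⟫ =
      ((hs Q a - r) * Real.sin (φ - t) + (hs Q (a + φ) - r) * Real.sin t) / Real.sin φ := by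
  have hs0 : 0 < Real.sin φ := Real.sin_pos_of_pos_of_lt_pi hφ (by linarith [Real.pi_pos])
  have h1 : ⟪dir (a + t), cen Q r φ a⟫ = Real.cos t * (hs Q a - r) +
      Real.sin t * ((hs Q (a + φ) - r - Real.cos φ * (hs Q a - r)) / Real.sin φ) := by
    rw [dir_add, inner_add_left, real_inner_smul_left, real_inner_smul_left]
    unfold cen
    rw [inner_dir_comb, inner_nrm_comb]
  rw [h1, Real.sin_sub]
  field_simp
  ring

/-- The coordinates of a point in the oblique basis: the norm square, and the two inner products. -/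
private theorem hulla_aux {y : E 2} {a φ : ℝ} (hφ : 0 < φ) (hφ2 : φ < Real.pi / 2)
    (h1 : 0 ≤ ⟪nrm a, y⟫) (h2 : ⟪nrm (a + φ), y⟫ ≤ 0) :
    ∃ α γ : ℝ, 0 ≤ α ∧ 0 ≤ γ ∧ ⟪dir a, y⟫ = α + γ * Real.cos φ ∧
      ⟪dir (a + φ), y⟫ = α * Real.cos φ + γ ∧
      ‖y‖ ^ 2 = α ^ 2 + γ ^ 2 + 2 * α * γ * Real.cos φ := by
  have hs0 : 0 < Real.sin φ := Real.sin_pos_of_pos_of_lt_pi hφ (by linarith [Real.pi_pos])
  have hsc := Real.sin_sq_add_cos_sq φ
  rw [nrm_add, inner_sub_left, real_inner_smul_left, real_inner_smul_left] at h2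
  have hd : ⟪dir (a + φ), y⟫ = Real.cos φ * ⟪dir a, y⟫ + Real.sin φ * ⟪nrm a, y⟫ := by
    rw [dir_add, inner_add_left, real_inner_smul_left, real_inner_smul_left]
  have hn := norm_sq_decomp a y
  generalize ⟪dir a, y⟫ = P at *
  generalize ⟪nrm a, y⟫ = N at *
  have hN : Real.sin φ * (N / Real.sin φ) = N := by field_simp
  refine ⟨P - Real.cos φ * (N / Real.sin φ), N / Real.sin φ, ?_, div_nonneg h1 hs0.le, by ring,
    ?_, ?_⟩
  · have : Real.sin φ * (P - Real.cos φ * (N / Real.sin φ)) =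
        Real.sin φ * P - Real.cos φ * N := by
      linear_combination (-Real.cos φ) * hN
    have h3 : 0 ≤ Real.sin φ * (P - Real.cos φ * (N / Real.sin φ)) := by rw [this]; linarith
    exact nonneg_of_mul_nonneg_right h3 hs0
  · rw [hd]
    generalize N / Real.sin φ = M at *
    subst hN
    linear_combination M * hsc
  · rw [hn]
    generalize N / Real.sin φ = M at *
    subst hN
    linear_combination M ^ 2 * hsc

private theorem hulla_norm_le {y : E 2} {α γ φ : ℝ} (hα : 0 ≤ α) (hγ : 0 ≤ γ)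
    (hn : ‖y‖ ^ 2 = α ^ 2 + γ ^ 2 + 2 * α * γ * Real.cos φ) : ‖y‖ ≤ α + γ := by
  have hc := Real.cos_le_one φ
  have h : ‖y‖ ^ 2 ≤ (α + γ) ^ 2 := by
    rw [hn]
    nlinarith [mul_nonneg (mul_nonneg hα hγ) (sub_nonneg.2 hc)]
  exact le_of_not_gt fun hlt => by nlinarith [norm_nonneg y]

/-- Points of the sector with apex `x₀` between the directions `a` and `a + φ` that lie behind the
two lines. PROOF: `x - x₀ = α dir a + γ dir (a + φ)` with `α, γ ≥ 0`; `|x - x₀|² ≤ r (α + γ)` and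
`|x - x₀| ≥ ⟪x - x₀, dir (a + φ/2)⟫ = (α + γ) cos (φ/2)`. -/
theorem sector_norm {x₀ x : E 2} {a φ r : ℝ} (hφ : 0 < φ) (hφ2 : φ < Real.pi / 2)
    (h1 : 0 ≤ ⟪nrm a, x - x₀⟫) (h2 : ⟪nrm (a + φ), x - x₀⟫ ≤ 0)
    (h3 : ⟪dir a, x - x₀⟫ ≤ r) (h4 : ⟪dir (a + φ), x - x₀⟫ ≤ r) (hr : 0 ≤ r) :
    ‖x - x₀‖ * Real.cos (φ / 2) ≤ r := by
  obtain ⟨α, γ, hα, hγ, hP, hQ, hn⟩ := hulla_aux hφ hφ2 h1 h2
  rw [hP] at h3
  rw [hQ] at h4
  have hn0 := norm_nonneg (x - x₀)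
  generalize ‖x - x₀‖ = n at *
  have hc0 : 0 < Real.cos (φ / 2) :=
    Real.cos_pos_of_mem_Ioo ⟨by linarith [Real.pi_pos], by linarith [Real.pi_pos]⟩
  have hcc : Real.cos φ = 2 * Real.cos (φ / 2) ^ 2 - 1 := by
    rw [← Real.cos_two_mul]; congr 1; ring
  have hc1 := Real.cos_le_one φ
  have h5 : ((α + γ) * Real.cos (φ / 2)) ^ 2 ≤ n ^ 2 := by
    have h6 : n ^ 2 - ((α + γ) * Real.cos (φ / 2)) ^ 2 =
        (1 - Real.cos φ) * (α - γ) ^ 2 / 2 := by
      rw [hn, hcc]; ring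
    have h7 : 0 ≤ (1 - Real.cos φ) * (α - γ) ^ 2 / 2 := by
      have := mul_nonneg (sub_nonneg.2 hc1) (sq_nonneg (α - γ))
      linarith
    linarith
  have h8 : (α + γ) * Real.cos (φ / 2) ≤ n := by
    have h9 : 0 ≤ (α + γ) * Real.cos (φ / 2) := by positivity
    exact le_of_not_gt fun hlt => by nlinarith
  have h10 : n ^ 2 ≤ r * (α + γ) := by
    have e1 : n ^ 2 = α * (α + γ * Real.cos φ) + γ * (α * Real.cos φ + γ) := by rw [hn]; ring
    rw [e1]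
    nlinarith [mul_le_mul_of_nonneg_left h3 hα, mul_le_mul_of_nonneg_left h4 hγ]
  rcases hn0.eq_or_lt with h0 | hpos
  · rw [← h0]; linarith
  · have h11 : n * (n * Real.cos (φ / 2)) ≤ n * r := by
      calc n * (n * Real.cos (φ / 2)) = n ^ 2 * Real.cos (φ / 2) := by ring
        _ ≤ r * (α + γ) * Real.cos (φ / 2) := mul_le_mul_of_nonneg_right h10 hc0.le
        _ = r * ((α + γ) * Real.cos (φ / 2)) := by ring
        _ ≤ r * n := mul_le_mul_of_nonneg_left h8 hr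
        _ = n * r := by ring
    exact le_of_mul_le_mul_left h11 hpos

/-- PROOF: in the sector the angle with each of the two directions is at most `φ`:
`x - x₀ = α dir a + γ dir (a + φ)`, `⟪dir a, x - x₀⟫ = α + γ cos φ ≥ (α + γ) cos φ ≥ |x - x₀| cos φ`. -/
theorem sector_inner {x₀ x : E 2} {a φ : ℝ} (hφ : 0 < φ) (hφ2 : φ < Real.pi / 2)
    (h1 : 0 ≤ ⟪nrm a, x - x₀⟫) (h2 : ⟪nrm (a + φ), x - x₀⟫ ≤ 0) :
    ‖x - x₀‖ * Real.cos φ ≤ ⟪dir a, x - x₀⟫ ∧ ‖x - x₀‖ * Real.cos φ ≤ ⟪dir (a + φ), x - x₀⟫ := by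
  obtain ⟨α, γ, hα, hγ, hP, hQ, hn⟩ := hulla_aux hφ hφ2 h1 h2
  have hc0 : 0 ≤ Real.cos φ := Real.cos_nonneg_of_neg_pi_div_two_le_of_le (by linarith) hφ2.le
  have hc1 := Real.cos_le_one φ
  have hle := hulla_norm_le hα hγ hn
  have h5 : ‖x - x₀‖ * Real.cos φ ≤ (α + γ) * Real.cos φ := mul_le_mul_of_nonneg_right hle hc0
  rw [hP, hQ]
  constructor
  · nlinarith [mul_nonneg hα (sub_nonneg.2 hc1)]
  · nlinarith [mul_nonneg hγ (sub_nonneg.2 hc1)]

end Pool.Agent.RA
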