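import Pool.Agent.H.MP_1b807b_an.A.HullA
import Pool.Agent.H.MP_1b807b_an.A.HalfA
import Pool.Agent.H.MP_1b807b_an.A.HalfC

/-! MP_1b807b_an, large parameter asymptotics in the plane, module HullB: window estimate -/

set_option autoImplicit false

namespace Pool.Agent.RA

open MeasureTheory Metric Set Pool.Agent.RG
open scoped RealInnerProductSpace ENNReal Topology Pointwise

/-- PROOF: suppose `FF > m` and write `r' = R cos φ`, `x₀ = cen Q r' φ a`; there is `q ∈ Q` with
`⟪dir (a+t), q - x₀⟫ > r' + m` (`exists_lt_hs`, `inner_cen`). For `x ∈ closure Q` one has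
`⟪dir a, x - x₀⟫ ≤ r'`, `⟪dir (a+φ), x - x₀⟫ ≤ r'` (`le_hs`). Let
`W = {x | 0 < ⟪nrm a, x - x₀⟫ ∧ ⟪nrm (a+φ), x - x₀⟫ < 0}` (open). `q ∈ W`:
`dir (a+t) = cos t • dir a + sin t • nrm a` gives `sin t ⟪nrm a, q - x₀⟫ > r' (1 - cos t) ≥ 0`, and
similarly for the other side. Let `E' = connectedComponentIn (U \ closedBall x₀ r') q`. If
`E' ⊄ Q ∩ W` then by `meets_frontier` there is `y ∈ E'` in the frontier of `Q ∩ W`, so
`y ∈ closure Q ∩ closure W`, `y ∈ U`, `‖y - x₀‖ > r'`, and (`y ∉ W` or `y ∉ Q`). If `y ∉ W`, say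
`⟪nrm a, y - x₀⟫ = 0`: then `y - x₀ = c dir a` with `c ≥ 0` (from `⟪nrm (a+φ), y - x₀⟫ ≤ 0`), so
`‖y - x₀‖ = ⟪dir a, y - x₀⟫ ≤ r'`, contradiction. So `y ∉ Q`, `y ∈ frontier Q ∩ U ⊆ Sg`; by
`sector_inner` `⟪dir a, y - x₀⟫ > r' cos φ` and `⟪dir (a+φ), y - x₀⟫ > r' cos φ`, and
`⟪dir a, y - x₀⟫ ≤ ⟪dir a, z⟫ + ι - hs Q a + r'`, so `hs Q a - ⟪dir a, z⟫ < ι + r' (1 - cos φ)` and the
same for `a + φ`: contradiction to `hex`. Hence `E' ⊆ Q ∩ W ⊆ ball x₀ R` by `sector_norm`
(`r' / cos (φ/2) < R`): contradiction to `PP`. -/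
theorem hull_window {U Q Sg : Set (E 2)} (hP : Piece U Q Sg) (hQb : Bornology.IsBounded Q)
    {R m φ : ℝ} (hR : 0 < R) (hm : 0 ≤ m) (hφ : 0 < φ) (hφ2 : φ < Real.pi / 2) (hPP : PP U R m)
    {z : E 2} {ι : ℝ} (hSg : Sg ⊆ closedBall z ι) {a t : ℝ} (ht : t ∈ Ioo 0 φ)
    (hex : Sg = ∅ ∨ ι + R * Real.cos φ * (1 - Real.cos φ) < hs Q a - ⟪dir a, z⟫ ∨
      ι + R * Real.cos φ * (1 - Real.cos φ) < hs Q (a + φ) - ⟪dir (a + φ), z⟫) :
    FF Q (R * Real.cos φ) φ a t ≤ m := by
  by_contra hcon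
  rw [not_le] at hcon
  have hcos : 0 < Real.cos φ := Real.cos_pos_of_mem_Ioo ⟨by linarith [Real.pi_pos], hφ2⟩
  have hsin : 0 < Real.sin φ := Real.sin_pos_of_pos_of_lt_pi hφ (by linarith [Real.pi_pos])
  have hsint : 0 < Real.sin t :=
    Real.sin_pos_of_pos_of_lt_pi ht.1 (by linarith [ht.2, Real.pi_pos])
  have hcost : 0 < Real.cos t :=
    Real.cos_pos_of_mem_Ioo ⟨by linarith [Real.pi_pos, ht.1], by linarith [ht.2]⟩
  have hsint' : 0 < Real.sin (φ - t) :=
    Real.sin_pos_of_pos_of_lt_pi (by linarith [ht.2]) (by linarith [ht.1, Real.pi_pos])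
  have hcost' : 0 < Real.cos (φ - t) :=
    Real.cos_pos_of_mem_Ioo ⟨by linarith [Real.pi_pos, ht.2], by linarith [ht.1]⟩
  set r : ℝ := R * Real.cos φ with hr
  have hrpos : 0 < r := mul_pos hR hcos
  set x₀ : E 2 := cen Q r φ a with hx₀
  have hcen0 : ⟪dir a, x₀⟫ = hs Q a - r := by
    have h := inner_cen (Q := Q) (r := r) (a := a) hφ hφ2 0
    rw [add_zero, sub_zero, Real.sin_zero, mul_zero, add_zero, mul_div_assoc, div_self hsin.ne',
      mul_one] at h
    exact h
  have hcen1 : ⟪dir (a + φ), x₀⟫ = hs Q (a + φ) - r := by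
    have h := inner_cen (Q := Q) (r := r) (a := a) hφ hφ2 φ
    rw [sub_self, Real.sin_zero, mul_zero, zero_add, mul_div_assoc, div_self hsin.ne',
      mul_one] at h
    exact h
  have hcl0 : ∀ x ∈ closure Q, ⟪dir a, x - x₀⟫ ≤ r := by
    intro x hx
    rw [inner_sub_right, hcen0]
    linarith [le_hs hQb hx a]
  have hcl1 : ∀ x ∈ closure Q, ⟪dir (a + φ), x - x₀⟫ ≤ r := by
    intro x hx
    rw [inner_sub_right, hcen1]
    linarith [le_hs hQb hx (a + φ)]
  obtain ⟨q, hqQ, hq⟩ : ∃ q ∈ Q, r + m < ⟪dir (a + t), q - x₀⟫ := by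
    have h1 : r + m + ⟪dir (a + t), x₀⟫ < hs Q (a + t) := by
      have h := inner_cen (Q := Q) (r := r) (a := a) hφ hφ2 t
      unfold FF at hcon
      rw [← h] at hcon
      change _ < hs Q (a + t) - r - ⟪dir (a + t), x₀⟫ at hcon
      linarith
    obtain ⟨q, hqQ, hq⟩ := exists_lt_hs hP.conn.nonempty h1
    refine ⟨q, hqQ, ?_⟩
    rw [inner_sub_right]
    linarith
  set W : Set (E 2) := {x | 0 < ⟪nrm a, x - x₀⟫ ∧ ⟪nrm (a + φ), x - x₀⟫ < 0} with hW
  have hc0 : Continuous fun x : E 2 => (⟪nrm a, x - x₀⟫ : ℝ) :=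
    continuous_const.inner (continuous_id.sub continuous_const)
  have hc1 : Continuous fun x : E 2 => (⟪nrm (a + φ), x - x₀⟫ : ℝ) :=
    continuous_const.inner (continuous_id.sub continuous_const)
  have hWo : IsOpen W :=
    (isOpen_lt continuous_const hc0).inter (isOpen_lt hc1 continuous_const)
  have hWcl : closure W ⊆ {x | 0 ≤ ⟪nrm a, x - x₀⟫ ∧ ⟪nrm (a + φ), x - x₀⟫ ≤ 0} := by
    refine closure_minimal (fun x hx => ⟨hx.1.le, hx.2.le⟩) ?_
    exact (isClosed_le continuous_const hc0).inter (isClosed_le hc1 continuous_const)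
  have hqW : q ∈ W := by
    constructor
    · have h1 : ⟪dir (a + t), q - x₀⟫ =
          Real.cos t * ⟪dir a, q - x₀⟫ + Real.sin t * ⟪nrm a, q - x₀⟫ := by
        rw [dir_add, inner_add_left, real_inner_smul_left, real_inner_smul_left]
      have h2 := hcl0 q (subset_closure hqQ)
      have h3 : Real.cos t * ⟪dir a, q - x₀⟫ ≤ r := by
        calc Real.cos t * ⟪dir a, q - x₀⟫ ≤ Real.cos t * r :=
              mul_le_mul_of_nonneg_left h2 hcost.le
          _ ≤ 1 * r := mul_le_mul_of_nonneg_right (Real.cos_le_one t) hrpos.le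
          _ = r := one_mul r
      have h4 : 0 < Real.sin t * ⟪nrm a, q - x₀⟫ := by linarith
      exact (mul_pos_iff_of_pos_left hsint).1 h4
    · have h1 : ⟪dir (a + t), q - x₀⟫ =
          Real.cos (φ - t) * ⟪dir (a + φ), q - x₀⟫ -
            Real.sin (φ - t) * ⟪nrm (a + φ), q - x₀⟫ := by
        have h0 : a + t = (a + φ) + (-(φ - t)) := by ring
        rw [h0, dir_add, inner_add_left, real_inner_smul_left, real_inner_smul_left,
          Real.cos_neg, Real.sin_neg]
        ring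
      have h2 := hcl1 q (subset_closure hqQ)
      have h3 : Real.cos (φ - t) * ⟪dir (a + φ), q - x₀⟫ ≤ r := by
        calc Real.cos (φ - t) * ⟪dir (a + φ), q - x₀⟫ ≤ Real.cos (φ - t) * r :=
              mul_le_mul_of_nonneg_left h2 hcost'.le
          _ ≤ 1 * r := mul_le_mul_of_nonneg_right (Real.cos_le_one _) hrpos.le
          _ = r := one_mul r
      have h4 : 0 < Real.sin (φ - t) * (-⟪nrm (a + φ), q - x₀⟫) := by linarith
      have h5 := (mul_pos_iff_of_pos_left hsint').1 h4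
      linarith
  have hqd : r + m < dist q x₀ := by
    rw [dist_eq_norm]
    exact lt_of_lt_of_le hq ((le_abs_self _).trans (abs_inner_dir_le _ _))
  have hqU : q ∈ U \ closedBall x₀ r := by
    refine ⟨hP.sub hqQ, ?_⟩
    rw [mem_closedBall, not_le]
    linarith
  have hsubU : connectedComponentIn (U \ closedBall x₀ r) q ⊆ U \ closedBall x₀ r :=
    connectedComponentIn_subset _ _
  have hmain : connectedComponentIn (U \ closedBall x₀ r) q ⊆ Q ∩ W := by
    by_contra hnot
    obtain ⟨y, hyE, hyf⟩ := meets_frontier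
      (A := connectedComponentIn (U \ closedBall x₀ r) q) (Q := Q ∩ W)
      isPreconnected_connectedComponentIn
      ⟨q, mem_connectedComponentIn hqU, hqQ, hqW⟩ hnot
    have hyU := hsubU hyE
    have hyn : r < ‖y - x₀‖ := by
      have h := hyU.2
      rw [mem_closedBall, not_le, dist_eq_norm] at h
      exact h
    have hyclQ : y ∈ closure Q := closure_mono inter_subset_left hyf.1
    have hyclW := hWcl (closure_mono inter_subset_right hyf.1)
    have hyn2 : y ∉ Q ∩ W := by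
      have h := hyf.2
      rwa [(hP.isOpen.inter hWo).interior_eq] at h
    by_cases hyW : y ∈ W
    · have hyQ : y ∉ Q := fun h => hyn2 ⟨h, hyW⟩
      have hyS : y ∈ Sg := by
        refine hP.bd ⟨hyU.1, hyclQ, ?_⟩
        rwa [hP.isOpen.interior_eq]
      have hyz := hSg hyS
      rw [mem_closedBall, dist_eq_norm] at hyz
      obtain ⟨h1, h2⟩ := sector_inner hφ hφ2 hyclW.1 hyclW.2
      have h3 : r * Real.cos φ < ‖y - x₀‖ * Real.cos φ := mul_lt_mul_of_pos_right hyn hcos
      have h4 : ∀ θ : ℝ, ⟪dir θ, y⟫ ≤ ⟪dir θ, z⟫ + ι := by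
        intro θ
        have h5 := (le_abs_self _).trans (abs_inner_dir_le θ (y - z))
        rw [inner_sub_right] at h5
        linarith
      rw [inner_sub_right, hcen0] at h1
      rw [inner_sub_right, hcen1] at h2
      have h5 := h4 a
      have h6 := h4 (a + φ)
      rcases hex with hex | hex | hex
      · rw [hex] at hyS
        exact hyS
      · nlinarith
      · nlinarith
    · have hor : ⟪nrm a, y - x₀⟫ = 0 ∨ ⟪nrm (a + φ), y - x₀⟫ = 0 := by
        by_contra hno
        rw [not_or] at hno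
        exact hyW ⟨lt_of_le_of_ne hyclW.1 (Ne.symm hno.1), lt_of_le_of_ne hyclW.2 hno.2⟩
      rcases hor with h0 | h0
      · have h1 := norm_sq_decomp a (y - x₀)
        rw [h0] at h1
        have h2 := hcl0 y hyclQ
        have h3 := hyclW.2
        rw [nrm_add, inner_sub_left, real_inner_smul_left, real_inner_smul_left, h0] at h3
        have h4 : 0 ≤ ⟪dir a, y - x₀⟫ := by
          by_contra hneg
          rw [not_le] at hneg
          nlinarith
        nlinarith [norm_nonneg (y - x₀)]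
      · have h1 := norm_sq_decomp (a + φ) (y - x₀)
        rw [h0] at h1
        have h2 := hcl1 y hyclQ
        have h3 := hyclW.1
        have h30 : a = (a + φ) + (-φ) := by ring
        rw [h30, nrm_add, inner_sub_left, real_inner_smul_left, real_inner_smul_left, h0,
          Real.sin_neg] at h3
        have h4 : 0 ≤ ⟪dir (a + φ), y - x₀⟫ := by
          by_contra hneg
          rw [not_le] at hneg
          nlinarith
        nlinarith [norm_nonneg (y - x₀)]
  refine hPP x₀ r hrpos.le q (hP.sub hqQ) hqd ?_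
  intro x hx
  obtain ⟨hxQ, hxW⟩ := hmain hx
  have h1 := sector_norm hφ hφ2 hxW.1.le hxW.2.le (hcl0 x (subset_closure hxQ))
    (hcl1 x (subset_closure hxQ)) hrpos.le
  rw [mem_ball, dist_eq_norm]
  have hlt : Real.cos φ < Real.cos (φ / 2) :=
    Real.cos_lt_cos_of_nonneg_of_le_pi (by linarith) (by linarith [Real.pi_pos]) (by linarith)
  by_contra hge
  rw [not_lt] at hge
  have h2 : R * Real.cos (φ / 2) ≤ ‖x - x₀‖ * Real.cos (φ / 2) :=
    mul_le_mul_of_nonneg_right hge (hcos.trans hlt).le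
  have h3 : R * Real.cos φ < R * Real.cos (φ / 2) := mul_lt_mul_of_pos_left hlt hR
  linarith

end Pool.Agent.RA
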