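import Pool.Agent.H.MP_1b807b_an.A.HullDefs
import Pool.Agent.H.MP_1b807b_an.A.HalfC

/-! MP_1b807b_an, large parameter asymptotics in the plane, module HullC: exempt windows and the average -/

set_option autoImplicit false

namespace Pool.Agent.RA

open MeasureTheory Metric Set Pool.Agent.RG
open scoped RealInnerProductSpace ENNReal Topology Pointwise

theorem hullc_comb (a t φ : ℝ) : Real.sin φ • dir (a + t) =
    Real.sin (φ - t) • dir a + Real.sin t • dir (a + φ) := by
  rw [dir_add, dir_add, Real.sin_sub]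
  simp only [smul_add, smul_smul]
  have h := Real.sin_sq_add_cos_sq t
  ext i
  simp only [PiLp.add_apply, PiLp.smul_apply, smul_eq_mul]
  ring

theorem hullc_hs {Q : Set (E 2)} (hQb : Bornology.IsBounded Q) (hne : Q.Nonempty) {φ : ℝ}
    (hφ : 0 < φ) (hφ2 : φ < Real.pi / 2) {a t : ℝ} (ht : t ∈ Ioo 0 φ) :
    hs Q (a + t) ≤ (Real.sin (φ - t) * hs Q a + Real.sin t * hs Q (a + φ)) / Real.sin φ := by
  have hpi := Real.pi_pos
  have h0 : 0 < Real.sin φ := Real.sin_pos_of_pos_of_lt_pi hφ (by linarith)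
  have h1 : 0 ≤ Real.sin (φ - t) :=
    (Real.sin_pos_of_pos_of_lt_pi (by linarith [ht.2]) (by linarith [ht.1])).le
  have h2 : 0 ≤ Real.sin t := (Real.sin_pos_of_pos_of_lt_pi ht.1 (by linarith [ht.2])).le
  unfold hs
  refine csSup_le (hne.image _) ?_
  rintro _ ⟨x, hx, rfl⟩
  show ⟪dir (a + t), x⟫ ≤ _
  rw [le_div_iff₀ h0]
  have h3 := congrArg (fun v => ⟪v, x⟫) (hullc_comb a t φ)
  simp only [inner_add_left, inner_smul_left, conj_trivial] at h3
  have h4 := le_hs hQb (subset_closure hx) a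
  have h5 := le_hs hQb (subset_closure hx) (a + φ)
  unfold hs at h4 h5
  have h6 := mul_le_mul_of_nonneg_left h4 h1
  have h7 := mul_le_mul_of_nonneg_left h5 h2
  linarith

theorem hullc_trig {φ t : ℝ} (hφ : 0 < φ) (hφ2 : φ < Real.pi / 2) :
    (Real.sin (φ - t) + Real.sin t) / Real.sin φ = Real.cos (t - φ / 2) / Real.cos (φ / 2) := by
  have hpi := Real.pi_pos
  have h0 : 0 < Real.sin (φ / 2) := Real.sin_pos_of_pos_of_lt_pi (by linarith) (by linarith)
  have h1 : 0 < Real.cos (φ / 2) := Real.cos_pos_of_mem_Ioo ⟨by linarith, by linarith⟩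
  obtain ⟨u, rfl⟩ : ∃ u, φ = 2 * u := ⟨φ / 2, by ring⟩
  obtain ⟨w, rfl⟩ : ∃ w, t = u + w := ⟨t - u, by ring⟩
  have e1 : 2 * u / 2 = u := by ring
  rw [e1] at h0 h1 ⊢
  have e2 : 2 * u - (u + w) = u - w := by ring
  have e3 : u + w - u = w := by ring
  rw [e2, e3, Real.sin_sub, Real.sin_add, Real.sin_two_mul]
  field_simp
  ring

theorem hullc_isub {f g : ℝ → ℝ} (hf : Continuous f) (hg : Continuous g) {a b : ℝ} :
    ∫ x in a..b, (f x - g x) = (∫ x in a..b, f x) - ∫ x in a..b, g x :=
  intervalIntegral.integral_sub (hf.intervalIntegrable _ _) (hg.intervalIntegrable _ _)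

theorem hullc_iadd {f g : ℝ → ℝ} (hf : Continuous f) (hg : Continuous g) {a b : ℝ} :
    ∫ x in a..b, (f x + g x) = (∫ x in a..b, f x) + ∫ x in a..b, g x :=
  intervalIntegral.integral_add (hf.intervalIntegrable _ _) (hg.intervalIntegrable _ _)

/-- PROOF: `sin φ • dir (a + t) = sin (φ - t) • dir a + sin t • dir (a + φ)`, so
`sin φ * hs Q (a + t) ≤ sin (φ - t) * hs Q a + sin t * hs Q (a + φ)`, and
`sin (φ - t) + sin t = 2 sin (φ/2) cos (t - φ/2)`, `sin φ = 2 sin (φ/2) cos (φ/2)`. -/
theorem hull_exempt {Q : Set (E 2)} (hQb : Bornology.IsBounded Q) (hne : Q.Nonempty) {r φ : ℝ}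
    (hφ : 0 < φ) (hφ2 : φ < Real.pi / 2) {a t : ℝ} (ht : t ∈ Ioo 0 φ) :
    FF Q r φ a t ≤ r * (Real.cos (t - φ / 2) / Real.cos (φ / 2) - 1) := by
  have hpi := Real.pi_pos
  have h0 : 0 < Real.sin φ := Real.sin_pos_of_pos_of_lt_pi hφ (by linarith)
  have h1 := hullc_hs hQb hne hφ hφ2 (a := a) ht
  unfold FF
  rw [← hullc_trig hφ hφ2]
  have h2 : ((hs Q a - r) * Real.sin (φ - t) + (hs Q (a + φ) - r) * Real.sin t) / Real.sin φ =
      (Real.sin (φ - t) * hs Q a + Real.sin t * hs Q (a + φ)) / Real.sin φ -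
        r * ((Real.sin (φ - t) + Real.sin t) / Real.sin φ) := by
    field_simp
    ring
  rw [h2]
  linarith

/-- PROOF: Fubini and periodicity: `∫_a hs Q (a + t) = HH Q`; `∫_0^φ sin (φ - t) = ∫_0^φ sin t =
1 - cos φ` and `(1 - cos φ) / sin φ = tan (φ/2)`. -/
theorem hull_avg {Q : Set (E 2)} (hQb : Bornology.IsBounded Q) (hne : Q.Nonempty) {r φ : ℝ}
    (hφ : 0 < φ) (hφ2 : φ < Real.pi / 2) :
    ∫ a in (0 : ℝ)..(2 * Real.pi), ∫ t in (0 : ℝ)..φ, FF Q r φ a t =
      -((HH Q - 2 * Real.pi * r) * (2 * Real.tan (φ / 2) - φ)) := by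
  have hpi := Real.pi_pos
  have h0 : 0 < Real.sin φ := Real.sin_pos_of_pos_of_lt_pi hφ (by linarith)
  have hc : Continuous (hs Q) := hs_continuous hQb hne
  have hinner : ∀ a : ℝ, ∫ t in (0 : ℝ)..φ, FF Q r φ a t =
      (∫ t in (0 : ℝ)..φ, hs Q (a + t)) - r * φ -
        ((hs Q a - r) + (hs Q (a + φ) - r)) * ((1 - Real.cos φ) / Real.sin φ) := by
    intro a
    have e1 : ∀ t : ℝ, FF Q r φ a t = hs Q (a + t) - r -
        ((hs Q a - r) / Real.sin φ * Real.sin (φ - t) +
          (hs Q (a + φ) - r) / Real.sin φ * Real.sin t) := by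
      intro t
      unfold FF
      field_simp
    simp_rw [e1]
    have c1 : Continuous (fun t : ℝ => hs Q (a + t)) := hc.comp (by fun_prop)
    have c2 : Continuous (fun t : ℝ => (hs Q a - r) / Real.sin φ * Real.sin (φ - t)) := by
      fun_prop
    have c3 : Continuous (fun t : ℝ => (hs Q (a + φ) - r) / Real.sin φ * Real.sin t) := by
      fun_prop
    have c1' : Continuous (fun t : ℝ => hs Q (a + t) - r) := c1.sub continuous_const
    have c2' : Continuous (fun t : ℝ => (hs Q a - r) / Real.sin φ * Real.sin (φ - t) +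
        (hs Q (a + φ) - r) / Real.sin φ * Real.sin t) := c2.add c3
    rw [hullc_isub c1' c2', hullc_isub c1 (continuous_const (y := r)), hullc_iadd c2 c3,
      intervalIntegral.integral_const_mul, intervalIntegral.integral_const_mul]
    have e2 : ∫ t in (0 : ℝ)..φ, Real.sin (φ - t) = 1 - Real.cos φ := by
      rw [intervalIntegral.integral_comp_sub_left (fun t => Real.sin t) φ]
      simp
    have e3 : ∫ t in (0 : ℝ)..φ, Real.sin t = 1 - Real.cos φ := by simp
    rw [e2, e3]
    simp only [intervalIntegral.integral_const, sub_zero, smul_eq_mul]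
    ring
  simp_rw [hinner]
  have hshift : ∀ t : ℝ, ∫ a in (0 : ℝ)..(2 * Real.pi), hs Q (a + t) = HH Q := by
    intro t
    rw [intervalIntegral.integral_comp_add_right (fun x => hs Q x) t]
    have := (hs_periodic Q).intervalIntegral_add_eq t 0
    unfold HH
    rw [zero_add] at this
    rw [← this]
    congr 1 <;> ring
  have hswap : ∫ a in (0 : ℝ)..(2 * Real.pi), ∫ t in (0 : ℝ)..φ, hs Q (a + t) = φ * HH Q := by
    rw [intervalIntegral_intervalIntegral_swap]
    · simp_rw [hshift]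
      simp
    · have hcc : Continuous (Function.uncurry fun a t : ℝ => hs Q (a + t)) :=
        hc.comp (by fun_prop)
      refine (hcc.continuousOn.integrableOn_compact
        ((isCompact_uIcc (a := (0 : ℝ)) (b := 2 * Real.pi)).prod
          (isCompact_uIcc (a := (0 : ℝ)) (b := φ)))).mono_set ?_
      exact Set.prod_mono uIoc_subset_uIcc uIoc_subset_uIcc
  have c4 : Continuous (fun a : ℝ => ∫ t in (0 : ℝ)..φ, hs Q (a + t)) := by
    have e4 : (fun a : ℝ => ∫ t in (0 : ℝ)..φ, hs Q (a + t)) =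
        fun a : ℝ => (∫ x in (0 : ℝ)..(a + φ), hs Q x) - ∫ x in (0 : ℝ)..a, hs Q x := by
      funext a
      rw [intervalIntegral.integral_comp_add_left (fun x => hs Q x) a, add_zero,
        intervalIntegral.integral_interval_sub_left (hc.intervalIntegrable _ _)
          (hc.intervalIntegrable _ _)]
    rw [e4]
    have c5 : Continuous (fun b : ℝ => ∫ x in (0 : ℝ)..b, hs Q x) :=
      intervalIntegral.continuous_primitive (fun _ _ => hc.intervalIntegrable _ _) 0
    exact (c5.comp (by fun_prop)).sub c5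
  have c6 : Continuous (fun a : ℝ => ((hs Q a - r) + (hs Q (a + φ) - r)) *
      ((1 - Real.cos φ) / Real.sin φ)) :=
    ((hc.sub continuous_const).add ((hc.comp (by fun_prop)).sub continuous_const)).mul
      continuous_const
  have c4' : Continuous (fun a : ℝ => (∫ t in (0 : ℝ)..φ, hs Q (a + t)) - r * φ) :=
    c4.sub continuous_const
  have c7 : Continuous (fun a : ℝ => hs Q (a + φ)) := hc.comp (by fun_prop)
  have c8 : Continuous (fun a : ℝ => hs Q a - r) := hc.sub continuous_const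
  have c9 : Continuous (fun a : ℝ => hs Q (a + φ) - r) := c7.sub continuous_const
  rw [hullc_isub c4' c6, hullc_isub c4 (continuous_const (y := r * φ)), hswap,
    intervalIntegral.integral_mul_const, intervalIntegral.integral_mul_const, hullc_iadd c8 c9,
    hullc_isub hc (continuous_const (y := r)), hullc_isub c7 (continuous_const (y := r)),
    hshift φ]
  have e5 : ∫ a in (0 : ℝ)..(2 * Real.pi), hs Q a = HH Q := rfl
  rw [e5]
  simp only [intervalIntegral.integral_const, sub_zero, smul_eq_mul]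
  have h1 : 0 < Real.sin (φ / 2) := Real.sin_pos_of_pos_of_lt_pi (by linarith) (by linarith)
  have h2 : 0 < Real.cos (φ / 2) := Real.cos_pos_of_mem_Ioo ⟨by linarith, by linarith⟩
  have e6 : (1 - Real.cos φ) / Real.sin φ = Real.tan (φ / 2) := by
    have e7 : φ = 2 * (φ / 2) := by ring
    rw [Real.tan_eq_sin_div_cos]
    rw [div_eq_div_iff h0.ne' h2.ne']
    have e8 : Real.cos φ = 2 * Real.cos (φ / 2) ^ 2 - 1 := by
      conv_lhs => rw [e7]
      exact Real.cos_two_mul _
    have e9 : Real.sin φ = 2 * Real.sin (φ / 2) * Real.cos (φ / 2) := by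
      conv_lhs => rw [e7]
      exact Real.sin_two_mul _
    rw [e8, e9]
    have := Real.sin_sq_add_cos_sq (φ / 2)
    linear_combination (-2 * Real.cos (φ / 2)) * this
  rw [e6]
  ring

end Pool.Agent.RA
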