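import Pool.Agent.H.MP_1b807b_an.A.HullB
import Pool.Agent.H.MP_1b807b_an.A.HullC

/-! MP_1b807b_an, large parameter asymptotics in the plane, module HullD: hull of the whole set -/

set_option autoImplicit false

namespace Pool.Agent.RA

open MeasureTheory Metric Set Pool.Agent.RG
open scoped RealInnerProductSpace ENNReal Topology Pointwise

/-- PROOF: `hull_window` with `Sg = ∅` for all `a`, `t` and `hull_avg`. -/
theorem hull_whole {U : Set (E 2)} (hU : IsOpen U) (hc : IsConnected U)
    (hb : Bornology.IsBounded U) {R m φ : ℝ} (hR : 0 < R) (hm : 0 ≤ m) (hφ : 0 < φ)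
    (hφ2 : φ < Real.pi / 2) (hPP : PP U R m) :
    2 * Real.pi * (R * Real.cos φ) - 2 * Real.pi * φ * m / (2 * Real.tan (φ / 2) - φ) ≤ HH U := by
  have hP : Piece U U ∅ :=
    { isOpen := hU
      conn := hc
      sub := subset_rfl
      bd := by rw [hU.inter_frontier_eq] }
  have hne : U.Nonempty := hc.nonempty
  have hpi := Real.pi_pos
  have hle : ∀ a t : ℝ, t ∈ Ioo 0 φ → FF U (R * Real.cos φ) φ a t ≤ m := by
    intro a t ht
    exact hull_window hP hb hR hm hφ hφ2 hPP (z := 0) (ι := 0) (empty_subset _) ht (Or.inl rfl)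
  have hcont : Continuous (fun q : ℝ × ℝ => FF U (R * Real.cos φ) φ q.1 q.2) := by
    have h1 := hs_continuous hb hne
    unfold FF
    fun_prop
  have havg := hull_avg (Q := U) hb hne (r := R * Real.cos φ) hφ hφ2
  generalize HH U = H at havg ⊢
  generalize hg : (fun q : ℝ × ℝ => FF U (R * Real.cos φ) φ q.1 q.2) = g at hcont
  have hg' : ∀ a t : ℝ, FF U (R * Real.cos φ) φ a t = g (a, t) := by
    intro a t
    rw [← hg]
  simp only [hg'] at hle havg
  have hin : ∀ a : ℝ, ∫ t in (0 : ℝ)..φ, g (a, t) ≤ φ * m := by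
    intro a
    have h2 : Continuous fun t : ℝ => g (a, t) :=
      hcont.comp (Continuous.prodMk_right a)
    have h3 : ∫ t in (0 : ℝ)..φ, g (a, t) ≤ ∫ t in (0 : ℝ)..φ, m :=
      intervalIntegral.integral_mono_on_of_le_Ioo hφ.le (h2.intervalIntegrable _ _)
        intervalIntegrable_const (fun t ht => hle a t ht)
    rw [intervalIntegral.integral_const, sub_zero, smul_eq_mul] at h3
    exact h3
  have hout : ∫ a in (0 : ℝ)..(2 * Real.pi), ∫ t in (0 : ℝ)..φ, g (a, t) ≤
      2 * Real.pi * (φ * m) := by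
    have h2 : Continuous fun a : ℝ => ∫ t in (0 : ℝ)..φ, g (a, t) :=
      intervalIntegral.continuous_parametric_intervalIntegral_of_continuous'
        (f := fun a t => g (a, t)) hcont 0 φ
    have h3 : ∫ a in (0 : ℝ)..(2 * Real.pi), ∫ t in (0 : ℝ)..φ, g (a, t) ≤
        ∫ a in (0 : ℝ)..(2 * Real.pi), φ * m :=
      intervalIntegral.integral_mono_on (by positivity) (h2.intervalIntegrable _ _)
        intervalIntegrable_const (fun a _ => hin a)
    rw [intervalIntegral.integral_const, sub_zero, smul_eq_mul] at h3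
    exact h3
  rw [havg] at hout
  have hK : 0 < 2 * Real.tan (φ / 2) - φ := by
    have h4 := Real.lt_tan (x := φ / 2) (by positivity) (by linarith)
    linarith
  rw [sub_le_iff_le_add, ← sub_le_iff_le_add', le_div_iff₀ hK]
  nlinarith

end Pool.Agent.RA
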