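import Pool.Agent.H.MP_1b807b_an.A.Basic

/-! MP_1b807b_an, large parameter asymptotics in the plane, module HullDefs: the defect of the support function, definitions -/

set_option autoImplicit false

namespace Pool.Agent.RA

open MeasureTheory Metric Set Pool.Agent.RG
open scoped RealInnerProductSpace ENNReal Topology Pointwise

/-- the defect of the support function with respect to the circle of radius `r` that touches the two
supporting lines of directions `a` and `a + φ` -/
noncomputable def FF (Q : Set (E 2)) (r φ a t : ℝ) : ℝ :=
  hs Q (a + t) - r - ((hs Q a - r) * Real.sin (φ - t) + (hs Q (a + φ) - r) * Real.sin t) /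
    Real.sin φ

/-- the centre of this circle -/
noncomputable def cen (Q : Set (E 2)) (r φ a : ℝ) : E 2 :=
  (hs Q a - r) • dir a +
    ((hs Q (a + φ) - r - Real.cos φ * (hs Q a - r)) / Real.sin φ) • nrm a

end Pool.Agent.RA
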