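import Pool.Agent.H.MP_1b807b_an.A.HalfA
import Pool.Agent.H.MP_1b807b_an.A.HalfC

/-! MP_1b807b_an, large parameter asymptotics in the plane, module HullE: thin pieces -/

set_option autoImplicit false

namespace Pool.Agent.RA

open MeasureTheory Metric Set Pool.Agent.RG
open scoped RealInnerProductSpace ENNReal Topology Pointwise

/-- the case in which `Q` extends far in the direction `nrm θ` -/
theorem hulle_aux {U Q Sg : Set (E 2)} (hP : Piece U Q Sg) (hQb : Bornology.IsBounded Q)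
    {R m : ℝ} (hm : 0 < m) (hPP : PP U R m)
    {z : E 2} {ι s D₀ : ℝ} (hι : 0 < ι) (hs0 : 0 < s) (hSg : Sg ⊆ closedBall z ι)
    (hD : 16 * (s + m + ι) ≤ D₀) (hDR : 16 * (s + m + ι) ≤ R) (θ : ℝ)
    (hside : ∀ x ∈ closure Q, |⟪dir θ, x - z⟫| ≤ s)
    (hfar : ∃ x ∈ Q, D₀ / 5 ≤ ⟪nrm θ, x - z⟫) : False := by
  obtain ⟨x, hxQ, hx⟩ := hfar
  set V : ℝ := hs Q (θ + Real.pi / 2) - ⟪nrm θ, z⟫ with hV
  have hle : ∀ y ∈ closure Q, ⟪nrm θ, y - z⟫ ≤ V := by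
    intro y hy
    have h := le_hs hQb hy (θ + Real.pi / 2)
    rw [dir_add_half_pi] at h
    rw [inner_sub_right, hV]
    linarith
  have hVD : D₀ / 5 ≤ V := hx.trans (hle x (subset_closure hxQ))
  set ρ : ℝ := min V R / 2 with hρ
  have hρV : ρ ≤ V / 2 := by
    rw [hρ]
    linarith [min_le_left V R]
  have hρR : ρ ≤ R / 2 := by
    rw [hρ]
    linarith [min_le_right V R]
  have hρs : s + m < ρ := by
    rw [hρ]
    have : 2 * (s + m) < min V R := lt_min (by linarith) (by linarith)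
    linarith
  set x₀ : E 2 := z + (V - ρ) • nrm θ with hx₀
  have hn0 : ∀ y : E 2, ⟪nrm θ, y - x₀⟫ = ⟪nrm θ, y - z⟫ - (V - ρ) := by
    intro y
    have : y - x₀ = (y - z) - (V - ρ) • nrm θ := by rw [hx₀]; abel
    rw [this, inner_sub_right, inner_smul_right, inner_nrm_nrm, mul_one]
  have hd0 : ∀ y : E 2, ⟪dir θ, y - x₀⟫ = ⟪dir θ, y - z⟫ := by
    intro y
    have : y - x₀ = (y - z) - (V - ρ) • nrm θ := by rw [hx₀]; abel
    rw [this, inner_sub_right, inner_smul_right, inner_dir_nrm, mul_zero, sub_zero]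
  obtain ⟨q, hqQ, hq⟩ := exists_lt_hs (Q := Q) hP.conn.nonempty (θ := θ + Real.pi / 2)
    (c := hs Q (θ + Real.pi / 2) - (ρ - s - m)) (by linarith)
  rw [dir_add_half_pi] at hq
  have hq1 : s + m < ⟪nrm θ, q - x₀⟫ := by
    rw [hn0, inner_sub_right]
    linarith
  have hqd : s + m < dist q x₀ := by
    rw [dist_eq_norm]
    exact hq1.trans_le ((le_abs_self _).trans (abs_inner_nrm_le θ _))
  refine hPP x₀ s hs0.le q (hP.sub hqQ) hqd ?_
  set E' := connectedComponentIn (U \ closedBall x₀ s) q with hE'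
  have hqmem : q ∈ U \ closedBall x₀ s := by
    refine ⟨hP.sub hqQ, ?_⟩
    rw [mem_closedBall]
    linarith
  set W : Set (E 2) := {x | 0 < ⟪nrm θ, x - x₀⟫} with hW
  have hcont : Continuous fun x : E 2 => ⟪nrm θ, x - x₀⟫ := by fun_prop
  have hWo : IsOpen W := isOpen_lt continuous_const hcont
  have hsubU : E' ⊆ U \ closedBall x₀ s := connectedComponentIn_subset _ _
  have key : E' ⊆ Q ∩ W := by
    by_contra hnot
    obtain ⟨y, hyE, hyF⟩ := meets_frontier (A := E') (Q := Q ∩ W)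
      isPreconnected_connectedComponentIn
      ⟨q, mem_connectedComponentIn hqmem, hqQ, by
        show 0 < ⟪nrm θ, q - x₀⟫
        linarith⟩ hnot
    have hyc : y ∈ closure (Q ∩ W) := frontier_subset_closure hyF
    have hycQ : y ∈ closure Q := closure_mono inter_subset_left hyc
    have hyW : 0 ≤ ⟪nrm θ, y - x₀⟫ := by
      have h1 : closure (Q ∩ W) ⊆ {x | 0 ≤ ⟪nrm θ, x - x₀⟫} :=
        closure_minimal (fun x hx => (show (0 : ℝ) < ⟪nrm θ, x - x₀⟫ from hx.2).le)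
          (isClosed_le continuous_const hcont)
      exact h1 hyc
    have hyU := hsubU hyE
    have hys : s < ‖y - x₀‖ := by
      have := hyU.2
      rw [mem_closedBall, dist_eq_norm, not_le] at this
      exact this
    rcases hyW.lt_or_eq with hpos | hzero
    · have hyQ : y ∉ Q := by
        intro hyQ
        have hop : IsOpen (Q ∩ W) := hP.isOpen.inter hWo
        rw [hop.frontier_eq] at hyF
        exact hyF.2 ⟨hyQ, hpos⟩
      have hySg : y ∈ Sg := by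
        refine hP.bd ⟨hyU.1, ?_⟩
        rw [hP.isOpen.frontier_eq]
        exact ⟨hycQ, hyQ⟩
      have h1 := hSg hySg
      rw [mem_closedBall, dist_eq_norm] at h1
      have h2 := (le_abs_self _).trans (abs_inner_nrm_le θ (y - z))
      rw [hn0] at hpos
      linarith
    · have h1 := norm_sq_decomp θ (y - x₀)
      rw [← hzero, hd0] at h1
      have h2 := hside y hycQ
      have h3 : ‖y - x₀‖ ^ 2 ≤ s ^ 2 := by
        rw [h1, zero_pow two_ne_zero, add_zero, ← sq_abs]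
        exact pow_le_pow_left₀ (abs_nonneg _) h2 2
      have h4 : ‖y - x₀‖ ≤ s := by
        exact (pow_le_pow_iff_left₀ (norm_nonneg _) hs0.le two_ne_zero).mp h3
      linarith
  intro y hy
  obtain ⟨hyQ, hyW⟩ := key hy
  rw [mem_ball, dist_eq_norm]
  have h1 := norm_sq_decomp θ (y - x₀)
  have h2 := hside y (subset_closure hyQ)
  have h3 : 0 < ⟪nrm θ, y - x₀⟫ := hyW
  have h4 : ⟪nrm θ, y - x₀⟫ ≤ ρ := by
    rw [hn0]
    have := hle y (subset_closure hyQ)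
    linarith
  rw [hd0] at h1
  have h5 : ⟪dir θ, y - z⟫ ^ 2 ≤ s ^ 2 := by
    rw [← sq_abs]
    exact pow_le_pow_left₀ (abs_nonneg _) h2 2
  have h6 : ⟪nrm θ, y - x₀⟫ ^ 2 ≤ ρ ^ 2 := pow_le_pow_left₀ h3.le h4 2
  have h7 : ‖y - x₀‖ ^ 2 ≤ (s + ρ) ^ 2 := by nlinarith
  have h8 : ‖y - x₀‖ ≤ s + ρ :=
    (pow_le_pow_iff_left₀ (norm_nonneg _) (by linarith) two_ne_zero).mp h7
  linarith

/-- The far end of a thin piece. PROOF: `s = ι + R cos φ (1 - cos φ)`; suppose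
`hs Q θ - ⟪dir θ, z⟫ ≤ s` and `hs Q (θ+π) + ⟪dir θ, z⟫ ≤ s`, so `|⟪dir θ, x - z⟫| ≤ s` on `closure Q`.
There are `x, y ∈ Q` with `dist x y > D₀ / 2`; since `|⟪dir θ, x - y⟫| ≤ 2 s ≤ D₀ / 8` one of them, say
`x`, has `|⟪nrm θ, x - z⟫| ≥ D₀ / 5`; replacing `θ` by `θ + π` assume `⟪nrm θ, x - z⟫ ≥ D₀ / 5`. Let
`V = hs Q (θ + π/2) - ⟪nrm θ, z⟫ ≥ D₀ / 5`, `ρ = min V R / 2`, `x₀ = z + (V - ρ) • nrm θ`; choose
`q ∈ Q` with `⟪nrm θ, q - z⟫ > V - (ρ - s - m)` (note `ρ > s + m`), so `⟪nrm θ, q - x₀⟫ > s + m`. Let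
`W = {x | 0 < ⟪nrm θ, x - x₀⟫}` and `E' = connectedComponentIn (U \ closedBall x₀ s) q`. If
`E' ⊄ Q ∩ W` there is `y ∈ E' ∩ frontier (Q ∩ W)` (`meets_frontier`); `y ∈ closure Q`,
`‖y - x₀‖ > s`, `⟪nrm θ, y - x₀⟫ ≥ 0`. If `⟪nrm θ, y - x₀⟫ = 0` then `‖y - x₀‖ = |⟪dir θ, y - z⟫| ≤ s`,
contradiction; so `y ∉ Q`, `y ∈ Sg`, `ι ≥ ‖y - z‖ ≥ ⟪nrm θ, y - z⟫ ≥ V - ρ ≥ V / 2 ≥ D₀ / 10 > ι`,
contradiction. So `E' ⊆ Q ∩ W`, and there `‖x - x₀‖ ≤ ρ + s < R`: contradiction to `PP`. -/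
theorem hull_anti {U Q Sg : Set (E 2)} (hP : Piece U Q Sg) (hQb : Bornology.IsBounded Q)
    {R m φ : ℝ} (hR : 0 < R) (hm : 0 < m) (hφ : 0 < φ) (hφ2 : φ < Real.pi / 2) (hPP : PP U R m)
    {z : E 2} (hz : z ∈ closure Q) {ι : ℝ} (hι : 0 < ι) (hSg : Sg ⊆ closedBall z ι)
    (hD : 16 * (ι + R * Real.cos φ * (1 - Real.cos φ) + m + ι) ≤ diam Q)
    (hDR : 16 * (ι + R * Real.cos φ * (1 - Real.cos φ) + m + ι) ≤ R) (θ : ℝ) :
    ¬ (hs Q θ - ⟪dir θ, z⟫ ≤ ι + R * Real.cos φ * (1 - Real.cos φ) ∧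
      hs Q (θ + Real.pi) - ⟪dir (θ + Real.pi), z⟫ ≤ ι + R * Real.cos φ * (1 - Real.cos φ)) := by
  rintro ⟨h1, h2⟩
  set s : ℝ := ι + R * Real.cos φ * (1 - Real.cos φ) with hs_def
  have hcos : 0 < Real.cos φ := Real.cos_pos_of_mem_Ioo ⟨by linarith, hφ2⟩
  have hcos1 : Real.cos φ ≤ 1 := Real.cos_le_one φ
  have hs0 : 0 < s := by
    have : 0 ≤ R * Real.cos φ * (1 - Real.cos φ) :=
      mul_nonneg (mul_nonneg hR.le hcos.le) (by linarith)
    rw [hs_def]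
    linarith
  have hside : ∀ x ∈ closure Q, |⟪dir θ, x - z⟫| ≤ s := by
    intro x hx
    have a1 := le_hs hQb hx θ
    have a2 := le_hs hQb hx (θ + Real.pi)
    rw [dir_add_pi, inner_neg_left] at a2 h2
    rw [inner_sub_right, abs_le]
    constructor <;> linarith
  have hD1 : 16 * (s + m + ι) ≤ diam Q := hD
  have hDR1 : 16 * (s + m + ι) ≤ R := hDR
  have hD0 : 0 < diam Q := by linarith
  obtain ⟨x, hx, y, hy, hxy⟩ : ∃ x ∈ Q, ∃ y ∈ Q, diam Q / 2 < dist x y := by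
    by_contra hcon
    push Not at hcon
    have := Metric.diam_le_of_forall_dist_le (by linarith : 0 ≤ diam Q / 2)
      (fun x hx y hy => hcon x hx y hy)
    linarith
  have hxs := hside x (subset_closure hx)
  have hys := hside y (subset_closure hy)
  have hn : (2 / 5 * diam Q) ^ 2 < ⟪nrm θ, x - y⟫ ^ 2 := by
    have e1 := norm_sq_decomp θ (x - y)
    rw [← dist_eq_norm] at e1
    have e2 : ⟪dir θ, x - y⟫ = ⟪dir θ, x - z⟫ - ⟪dir θ, y - z⟫ := by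
      rw [← inner_sub_right]
      congr 1
      abel
    have e3 : |⟪dir θ, x - y⟫| ≤ diam Q / 8 := by
      rw [e2]
      refine (abs_sub _ _).trans ?_
      linarith
    have e4 : ⟪dir θ, x - y⟫ ^ 2 ≤ (diam Q / 8) ^ 2 := by
      rw [← sq_abs]
      exact pow_le_pow_left₀ (abs_nonneg _) e3 2
    have e5 : (diam Q / 2) ^ 2 < dist x y ^ 2 :=
      pow_lt_pow_left₀ hxy (by linarith) two_ne_zero
    nlinarith
  have hn' : 2 / 5 * diam Q < |⟪nrm θ, x - y⟫| := by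
    rw [← sq_abs ⟪nrm θ, x - y⟫] at hn
    exact lt_of_pow_lt_pow_left₀ 2 (abs_nonneg _) hn
  have hdiff : ⟪nrm θ, x - y⟫ = ⟪nrm θ, x - z⟫ - ⟪nrm θ, y - z⟫ := by
    rw [← inner_sub_right]
    congr 1
    abel
  have hone : ∃ w ∈ Q, diam Q / 5 ≤ |⟪nrm θ, w - z⟫| := by
    by_contra hcon
    push Not at hcon
    have c1 := hcon x hx
    have c2 := hcon y hy
    rw [hdiff] at hn'
    have := abs_sub ⟪nrm θ, x - z⟫ ⟪nrm θ, y - z⟫
    linarith
  obtain ⟨w, hw, hwn⟩ := hone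
  rcases le_abs.mp hwn with hwn | hwn
  · exact hulle_aux hP hQb hm hPP hι hs0 hSg hD1 hDR1 θ hside ⟨w, hw, hwn⟩
  · refine hulle_aux hP hQb hm hPP hι hs0 hSg hD1 hDR1 (θ + Real.pi) ?_ ⟨w, hw, ?_⟩
    · intro x hx
      rw [dir_add_pi, inner_neg_left, abs_neg]
      exact hside x hx
    · rw [nrm_add_pi, inner_neg_left]
      exact hwn

end Pool.Agent.RA
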