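import Pool.Agent.H.MP_1b807b_an.A.HullB
import Pool.Agent.H.MP_1b807b_an.A.HullC
import Pool.Agent.H.MP_1b807b_an.A.HullE

/-! MP_1b807b_an, large parameter asymptotics in the plane, module HullF: hull of a leaf -/

set_option autoImplicit false

namespace Pool.Agent.RA

open MeasureTheory Metric Set Pool.Agent.RG
open scoped RealInnerProductSpace ENNReal Topology Pointwise

theorem hullf_FF_continuous {Q : Set (E 2)} (hb : Bornology.IsBounded Q) (hne : Q.Nonempty)
    (r φ : ℝ) : Continuous (Function.uncurry fun a t : ℝ => FF Q r φ a t) := by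
  have h := hs_continuous hb hne
  unfold FF
  have h1 : Continuous fun x : ℝ × ℝ => hs Q (x.1 + x.2) := h.comp (by fun_prop)
  have h2 : Continuous fun x : ℝ × ℝ => hs Q x.1 := h.comp (by fun_prop)
  have h3 : Continuous fun x : ℝ × ℝ => hs Q (x.1 + φ) := h.comp (by fun_prop)
  change Continuous fun x : ℝ × ℝ => hs Q (x.1 + x.2) - r -
    ((hs Q x.1 - r) * Real.sin (φ - x.2) + (hs Q (x.1 + φ) - r) * Real.sin x.2) / Real.sin φ
  fun_prop

theorem hullf_integral (r φ : ℝ) :
    ∫ t in (0 : ℝ)..φ, r * (Real.cos (t - φ / 2) / Real.cos (φ / 2) - 1) =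
      r * (2 * Real.tan (φ / 2) - φ) := by
  rw [intervalIntegral.integral_const_mul, intervalIntegral.integral_sub
    (by apply Continuous.intervalIntegrable; fun_prop)
    (by apply Continuous.intervalIntegrable; fun_prop),
    intervalIntegral.integral_div, intervalIntegral.integral_comp_sub_right, integral_cos,
    intervalIntegral.integral_const, Real.tan_eq_sin_div_cos]
  have h1 : φ - φ / 2 = φ / 2 := by ring
  have h2 : (0 : ℝ) - φ / 2 = -(φ / 2) := by ring
  rw [h1, h2, Real.sin_neg, smul_eq_mul]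
  ring

/-- PROOF: let `s = ι + R cos φ (1 - cos φ)`, `A = {a ∈ [0, 2π) : hs Q a - ⟪dir a, z⟫ ≤ s}`. By
`hull_anti` and periodicity `A ∩ [0,π)` and `(A ∩ [π,2π)) - π` are disjoint, so `|A| ≤ π`. For
`a ∉ A` `hull_window` gives `FF ≤ m`, for `a ∈ A` `hull_exempt` gives the bound whose integral over
`t ∈ (0, φ)` is `R cos φ (2 tan (φ/2) - φ)`. With `hull_avg`
`(2 π r' - HH Q) κ ≤ 2 π φ m + π r' κ`, `κ = 2 tan (φ/2) - φ > 0`. -/
theorem hull_leaf {U Q Sg : Set (E 2)} (hP : Piece U Q Sg) (hQb : Bornology.IsBounded Q)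
    {R m φ : ℝ} (hR : 0 < R) (hm : 0 < m) (hφ : 0 < φ) (hφ2 : φ < Real.pi / 2) (hPP : PP U R m)
    {z : E 2} (hz : z ∈ closure Q) {ι : ℝ} (hι : 0 < ι) (hSg : Sg ⊆ closedBall z ι)
    (hD : 16 * (ι + R * Real.cos φ * (1 - Real.cos φ) + m + ι) ≤ diam Q)
    (hDR : 16 * (ι + R * Real.cos φ * (1 - Real.cos φ) + m + ι) ≤ R) :
    Real.pi * (R * Real.cos φ) - 2 * Real.pi * φ * m / (2 * Real.tan (φ / 2) - φ) ≤ HH Q := by
  have hpi := Real.pi_pos
  have hcos : 0 < Real.cos φ := Real.cos_pos_of_mem_Ioo ⟨by linarith, hφ2⟩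
  have hne : Q.Nonempty := hP.conn.nonempty
  have hκ : 0 < 2 * Real.tan (φ / 2) - φ := by
    have h1 := Real.lt_tan (x := φ / 2) (by linarith) (by linarith)
    linarith
  set r := R * Real.cos φ with hr
  have hr0 : 0 < r := mul_pos hR hcos
  set κ := 2 * Real.tan (φ / 2) - φ with hκd
  have hcont := hullf_FF_continuous hQb hne r φ
  have hct : ∀ a, Continuous fun t => FF Q r φ a t := fun a =>
    hcont.comp (f := fun t : ℝ => (a, t)) (by fun_prop)
  have hG : Continuous fun a => ∫ t in (0 : ℝ)..φ, FF Q r φ a t :=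
    intervalIntegral.continuous_parametric_intervalIntegral_of_continuous' hcont 0 φ
  have hE : ∀ a, ∫ t in (0 : ℝ)..φ, FF Q r φ a t ≤ r * κ := by
    intro a
    rw [hκd, ← hullf_integral]
    refine intervalIntegral.integral_mono_on_of_le_Ioo hφ.le ((hct a).intervalIntegrable _ _)
      (by apply Continuous.intervalIntegrable; fun_prop) fun t ht => ?_
    exact hull_exempt hQb hne hφ hφ2 ht
  have hW : ∀ a, ¬ (hs Q a - ⟪dir a, z⟫ ≤ ι + r * (1 - Real.cos φ)) →
      ∫ t in (0 : ℝ)..φ, FF Q r φ a t ≤ φ * m := by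
    intro a ha
    have h1 : ∫ _ in (0 : ℝ)..φ, m = φ * m := by
      rw [intervalIntegral.integral_const, sub_zero, smul_eq_mul]
    rw [← h1]
    refine intervalIntegral.integral_mono_on_of_le_Ioo hφ.le ((hct a).intervalIntegrable _ _)
      (by apply Continuous.intervalIntegrable; fun_prop) fun t ht => ?_
    exact hull_window hP hQb hR hm.le hφ hφ2 hPP hSg ht (Or.inr (Or.inl (not_le.1 ha)))
  have hpair : ∀ a, (∫ t in (0 : ℝ)..φ, FF Q r φ a t) +
      (∫ t in (0 : ℝ)..φ, FF Q r φ (a + Real.pi) t) ≤ 2 * (φ * m) + r * κ := by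
    intro a
    have h0 := hull_anti hP hQb hR hm hφ hφ2 hPP hz hι hSg hD hDR a
    have h1 : 0 ≤ φ * m := (mul_pos hφ hm).le
    by_cases h2 : hs Q a - ⟪dir a, z⟫ ≤ ι + r * (1 - Real.cos φ)
    · have h3 := hW (a + Real.pi) fun h3 => h0 ⟨h2, h3⟩
      have h4 := hE a
      linarith
    · have h3 := hW a h2
      have h4 := hE (a + Real.pi)
      linarith
  have hsplit : ∫ a in (0 : ℝ)..(2 * Real.pi), ∫ t in (0 : ℝ)..φ, FF Q r φ a t =
      ∫ a in (0 : ℝ)..Real.pi, ((∫ t in (0 : ℝ)..φ, FF Q r φ a t) +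
        (∫ t in (0 : ℝ)..φ, FF Q r φ (a + Real.pi) t)) := by
    have h1 := intervalIntegral.integral_comp_add_right (a := 0) (b := Real.pi)
      (fun a => ∫ t in (0 : ℝ)..φ, FF Q r φ a t) Real.pi
    have h2 : (0 : ℝ) + Real.pi = Real.pi := zero_add _
    have h3 : Real.pi + Real.pi = 2 * Real.pi := by ring
    rw [h2, h3] at h1
    have h4 := intervalIntegral.integral_add (μ := volume) (a := 0) (b := Real.pi)
      (hG.intervalIntegrable _ _)
      ((hG.comp (continuous_add_const Real.pi)).intervalIntegrable _ _)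
    refine Eq.trans ?_ h4.symm
    refine Eq.trans ?_ (congrArg
      (fun x => (∫ a in (0 : ℝ)..Real.pi, ∫ t in (0 : ℝ)..φ, FF Q r φ a t) + x) h1.symm)
    exact (intervalIntegral.integral_add_adjacent_intervals (hG.intervalIntegrable _ _)
      (hG.intervalIntegrable _ _)).symm
  have hle : ∫ a in (0 : ℝ)..(2 * Real.pi), ∫ t in (0 : ℝ)..φ, FF Q r φ a t ≤
      Real.pi * (2 * (φ * m) + r * κ) := by
    rw [hsplit]
    have h1 : ∫ _ in (0 : ℝ)..Real.pi, (2 * (φ * m) + r * κ) =
        Real.pi * (2 * (φ * m) + r * κ) := by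
      rw [intervalIntegral.integral_const, sub_zero, smul_eq_mul]
    rw [← h1]
    refine intervalIntegral.integral_mono_on hpi.le ?_ ?_ fun a _ => hpair a
    · exact ((hG.add (hG.comp (continuous_add_const Real.pi)))).intervalIntegrable _ _
    · apply Continuous.intervalIntegrable
      fun_prop
  rw [hull_avg hQb hne hφ hφ2] at hle
  have h5 : Real.pi * r - HH Q ≤ 2 * Real.pi * φ * m / κ := by
    rw [le_div_iff₀ hκ]
    nlinarith
  linarith

end Pool.Agent.RA
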