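import Pool.Agent.H.MP_1b807b_an.A.LeafDefs
import Pool.Agent.H.MP_1b807b_an.A.HalfA

/-! MP_1b807b_an, large parameter asymptotics in the plane, module LeafA: cutting a leaf -/

set_option autoImplicit false

namespace Pool.Agent.RA

open MeasureTheory Metric Set Pool.Agent.RG
open scoped RealInnerProductSpace ENNReal Topology Pointwise

theorem leafa_isOpen_hpos (θ p : ℝ) : IsOpen (hpos θ p) :=
  isOpen_lt continuous_const (continuous_const.inner continuous_id)

theorem leafa_isOpen_hneg (θ p : ℝ) : IsOpen (hneg θ p) :=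
  isOpen_lt (continuous_const.inner continuous_id) continuous_const

theorem leafa_closure_hpos {θ p : ℝ} {S : Set (E 2)} {x : E 2} (hS : S ⊆ hpos θ p)
    (hx : x ∈ closure S) : p ≤ ⟪dir θ, x⟫ := by
  have h1 : IsClosed {x : E 2 | p ≤ ⟪dir θ, x⟫} :=
    isClosed_le continuous_const (continuous_const.inner continuous_id)
  have h2 : S ⊆ {x : E 2 | p ≤ ⟪dir θ, x⟫} := fun y hy => le_of_lt (show p < ⟪dir θ, y⟫ from hS hy)
  exact closure_minimal h2 h1 hx

theorem leafa_closure_hneg {θ p : ℝ} {S : Set (E 2)} {x : E 2} (hS : S ⊆ hneg θ p)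
    (hx : x ∈ closure S) : ⟪dir θ, x⟫ ≤ p := by
  have h1 : IsClosed {x : E 2 | ⟪dir θ, x⟫ ≤ p} :=
    isClosed_le (continuous_const.inner continuous_id) continuous_const
  have h2 : S ⊆ {x : E 2 | ⟪dir θ, x⟫ ≤ p} := fun y hy => le_of_lt (show ⟪dir θ, y⟫ < p from hS hy)
  exact closure_minimal h2 h1 hx

theorem leafa_mem_slc {Q : Set (E 2)} {θ p : ℝ} {x : E 2} (hx : x ∈ Q ∩ ln θ p) :
    ⟪nrm θ, x⟫ ∈ slc θ Q p := by
  rw [mem_slc]
  have h1 : ⟪dir θ, x⟫ = p := hx.2
  have h2 := decomp θ x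
  rw [h1] at h2
  rw [h2]
  exact hx.1

theorem leafa_slc_eq (Q : Set (E 2)) (θ p : ℝ) :
    slc θ Q p = (fun x : E 2 => ⟪nrm θ, x⟫) '' (Q ∩ ln θ p) := by
  ext y
  constructor
  · intro hy
    exact ⟨p • dir θ + y • nrm θ, ⟨hy, inner_dir_comb θ p y⟩, inner_nrm_comb θ p y⟩
  · rintro ⟨x, hx, rfl⟩
    exact leafa_mem_slc hx

theorem leafa_preconn {Q : Set (E 2)} {θ p : ℝ} (hcn : IsPreconnected (Q ∩ ln θ p)) :
    IsPreconnected (slc θ Q p) := by
  rw [leafa_slc_eq]
  exact hcn.image _ (continuous_const.inner continuous_id).continuousOn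

theorem leafa_bdd {Q : Set (E 2)} (hb : Bornology.IsBounded Q) (θ p : ℝ) :
    Bornology.IsBounded (slc θ Q p) := by
  obtain ⟨M, hM⟩ := hb.exists_norm_le
  refine (isBounded_iff_forall_norm_le).2 ⟨M, ?_⟩
  intro y hy
  have h1 := hM _ hy
  have h2 := abs_inner_nrm_le θ (p • dir θ + y • nrm θ)
  rw [inner_nrm_comb] at h2
  exact h2.trans h1

/-- the closure of a connected slice has at most two points more -/
theorem leafa_ends {A : Set ℝ} (hA : IsPreconnected A) (hb : Bornology.IsBounded A) {y : ℝ}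
    (hy : y ∈ closure A) : y ∈ A ∨ y = sInf A ∨ y = sSup A := by
  by_contra hcon
  push Not at hcon
  obtain ⟨h1, h2, h3⟩ := hcon
  have hne : A.Nonempty := closure_nonempty_iff.1 ⟨y, hy⟩
  have hbb : BddBelow A := hb.bddBelow
  have hba : BddAbove A := hb.bddAbove
  have hle : sInf A ≤ y := by
    have h4 : IsClosed (Ici (sInf A)) := isClosed_Ici
    exact closure_minimal (fun a ha => csInf_le hbb ha) h4 hy
  have hge : y ≤ sSup A := by
    have h4 : IsClosed (Iic (sSup A)) := isClosed_Iic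
    exact closure_minimal (fun a ha => le_csSup hba ha) h4 hy
  have hlt : sInf A < y := lt_of_le_of_ne hle (Ne.symm h2)
  have hgt : y < sSup A := lt_of_le_of_ne hge h3
  obtain ⟨a, ha, ha2⟩ := exists_lt_of_csInf_lt hne hlt
  obtain ⟨b, hb1, hb2⟩ := exists_lt_of_lt_csSup hne hgt
  exact h1 (hA.ordConnected.out ha hb1 ⟨ha2.le, hb2.le⟩)

/-- the closure of a connected cut meets the frontier in at most two points -/
theorem leafa_finite {U Q : Set (E 2)} (hU : IsOpen U) (hQU : Q ⊆ U)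
    (hb : Bornology.IsBounded Q) {θ p : ℝ} (hcn : IsPreconnected (Q ∩ ln θ p)) :
    (closure (Q ∩ ln θ p) ∩ frontier U).Finite := by
  have hsub : closure (Q ∩ ln θ p) ∩ frontier U ⊆
      (fun y : ℝ => p • dir θ + y • nrm θ) '' {sInf (slc θ Q p), sSup (slc θ Q p)} := by
    rintro x ⟨hx, hxF⟩
    have hxl : ⟪dir θ, x⟫ = p := by
      have h1 : closure (Q ∩ ln θ p) ⊆ ln θ p := closure_minimal inter_subset_right (isClosed_ln θ p)
      exact h1 hx
    have hy : ⟪nrm θ, x⟫ ∈ closure (slc θ Q p) :=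
      map_mem_closure (continuous_const.inner continuous_id : Continuous fun x : E 2 => ⟪nrm θ, x⟫) hx
        (fun z hz => leafa_mem_slc hz)
    have hxe : p • dir θ + ⟪nrm θ, x⟫ • nrm θ = x := by
      have h2 := decomp θ x
      rwa [hxl] at h2
    rcases leafa_ends (leafa_preconn hcn) (leafa_bdd hb θ p) hy with h | h
    · exfalso
      rw [mem_slc, hxe] at h
      rw [hU.frontier_eq] at hxF
      exact hxF.2 (hQU h)
    · refine ⟨⟪nrm θ, x⟫, ?_, hxe⟩
      rcases h with h | h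
      · exact Or.inl h
      · exact Or.inr h
  exact ((Set.toFinite _).image _).subset hsub

theorem leafa_ln_closure_hpos {Q : Set (E 2)} (hQ : IsOpen Q) {θ p : ℝ} :
    Q ∩ ln θ p ⊆ closure (Q ∩ hpos θ p) := by
  rintro x ⟨hxQ, hxl⟩
  rw [Metric.mem_closure_iff]
  intro ε hε
  obtain ⟨r, hr, hsub⟩ := Metric.isOpen_iff.1 hQ x hxQ
  set t : ℝ := min (ε / 2) (r / 2) with ht
  have ht0 : 0 < t := lt_min (by positivity) (by positivity)
  have hd : dist x (x + t • dir θ) = t := by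
    rw [dist_eq_norm, sub_add_cancel_left, norm_neg, norm_smul, norm_dir, mul_one,
      Real.norm_of_nonneg ht0.le]
  refine ⟨x + t • dir θ, ⟨hsub ?_, ?_⟩, ?_⟩
  · rw [mem_ball, dist_comm, hd]
    have := min_le_right (ε / 2) (r / 2)
    linarith
  · change p < ⟪dir θ, x + t • dir θ⟫
    rw [inner_add_right, inner_smul_right, inner_dir_dir]
    have : ⟪dir θ, x⟫ = p := hxl
    linarith
  · rw [hd]
    have := min_le_left (ε / 2) (r / 2)
    linarith

/-- The cut of a piece by a line that misses `Sg`. PROOF: let `y ∈ U ∩ frontier (Q ∩ hpos θ p)`;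
`p ≤ ⟪dir θ, y⟫`, `y ∈ closure Q`. If `y ∈ Q` then `y ∉ hpos`, so `y ∈ Q ∩ ln θ p`. If `y ∉ Q` then
`y ∈ frontier Q ∩ U ⊆ Sg ⊆ hneg`, contradiction. Connectedness: `split_conn`. -/
theorem piece_cut {U Q Sg : Set (E 2)} (hP : Piece U Q Sg) {θ p : ℝ} (hS : Sg ⊆ hneg θ p)
    (hne : (Q ∩ ln θ p).Nonempty) (hcn : IsPreconnected (Q ∩ ln θ p)) :
    Piece U (Q ∩ hpos θ p) (closure (Q ∩ ln θ p)) := by
  have hopen : IsOpen (Q ∩ hpos θ p) := hP.isOpen.inter (leafa_isOpen_hpos θ p)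
  refine ⟨hopen, ⟨split_nonempty hP.isOpen hne, ?_⟩, inter_subset_left.trans hP.sub, ?_⟩
  · exact split_conn hP.isOpen hP.conn.isPreconnected hcn hne
  · rintro y ⟨hyU, hyF⟩
    rw [hopen.frontier_eq] at hyF
    have hyc : y ∈ closure Q := closure_mono inter_subset_left hyF.1
    have hyp : p ≤ ⟪dir θ, y⟫ := leafa_closure_hpos inter_subset_right hyF.1
    by_cases hyQ : y ∈ Q
    · have h1 : ¬ p < ⟪dir θ, y⟫ := fun h => hyF.2 ⟨hyQ, h⟩
      exact subset_closure ⟨hyQ, le_antisymm (not_lt.1 h1) hyp⟩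
    · exfalso
      have h1 : y ∈ frontier Q := by
        rw [hP.isOpen.frontier_eq]
        exact ⟨hyc, hyQ⟩
      have h2 : ⟪dir θ, y⟫ < p := hS (hP.bd ⟨hyU, h1⟩)
      linarith

/-- PROOF: `slc θ Q p` is a bounded open interval `(c, d)` with `d - c ≤ ι` (its volume is at most
the volume of `slc θ U p`); the closure of `Q ∩ ln θ p` is the closed segment and it has only two
points more, so `closure (Q ∩ ln θ p) ∩ frontier U` has at most two points. `piece_cut`. -/
theorem leaf_cut {U Q Sg : Set (E 2)} (hb : Bornology.IsBounded U) (hU : IsOpen U)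
    (hP : Piece U Q Sg) {θ p ι D₀ : ℝ} (hι : 0 ≤ ι) (hS : Sg ⊆ hneg θ p)
    (hne : (Q ∩ ln θ p).Nonempty) (hcn : IsPreconnected (Q ∩ ln θ p))
    (hlen : volume (slc θ U p) ≤ ENNReal.ofReal ι) (hbig : D₀ ≤ diam (Q ∩ hpos θ p)) :
    Leaf U (Q ∩ hpos θ p) (closure (Q ∩ ln θ p)) ι D₀ := by
  have hQb : Bornology.IsBounded Q := hb.subset hP.sub
  have hlb : Bornology.IsBounded (Q ∩ ln θ p) := hQb.subset inter_subset_left
  have hA := leafa_preconn hcn
  -- distances in the slice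
  have hdist : ∀ x ∈ Q ∩ ln θ p, ∀ y ∈ Q ∩ ln θ p, dist x y ≤ ι := by
    intro x hx y hy
    have hxs := leafa_mem_slc hx
    have hys := leafa_mem_slc hy
    have hsub : uIcc ⟪nrm θ, x⟫ ⟪nrm θ, y⟫ ⊆ slc θ U p := fun z hz =>
      hP.sub (hA.ordConnected.uIcc_subset hxs hys hz)
    have h1 := (measure_mono hsub).trans hlen
    rw [Real.volume_interval, ENNReal.ofReal_le_ofReal_iff hι] at h1
    have h2 : dist x y ^ 2 = (⟪nrm θ, y⟫ - ⟪nrm θ, x⟫) ^ 2 := by
      have e1 := decomp θ x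
      have e2 := decomp θ y
      have e3 : ⟪dir θ, x⟫ = p := hx.2
      have e4 : ⟪dir θ, y⟫ = p := hy.2
      rw [e3] at e1
      rw [e4] at e2
      have h3 := dist_comb θ p p ⟪nrm θ, x⟫ ⟪nrm θ, y⟫
      rw [e1, e2] at h3
      rw [h3]
      ring
    have h3 : dist x y = |⟪nrm θ, y⟫ - ⟪nrm θ, x⟫| := by
      rw [← abs_of_nonneg (dist_nonneg (x := x) (y := y))]
      exact (sq_eq_sq_iff_abs_eq_abs _ _).1 h2
    rw [h3]
    exact h1
  refine ⟨piece_cut hP hS hne hcn, ?_, hcn.closure, ?_, ?_, ?_, hbig⟩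
  · exact hlb.isCompact_closure
  · intro x hx y hy
    have h1 : diam (Q ∩ ln θ p) ≤ ι := diam_le_of_forall_dist_le hι hdist
    rw [← diam_closure] at h1
    exact (dist_le_diam_of_mem hlb.closure hx hy).trans h1
  · obtain ⟨x, hx⟩ := hne
    exact ⟨x, subset_closure hx, leafa_ln_closure_hpos hP.isOpen hx⟩
  · exact leafa_finite hU hP.sub hQb hcn

end Pool.Agent.RA
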