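import Pool.Agent.H.MP_1b807b_an.A.LeafA

/-! MP_1b807b_an, large parameter asymptotics in the plane, module LeafB: additivity -/

set_option autoImplicit false

namespace Pool.Agent.RA

open MeasureTheory Metric Set Pool.Agent.RG
open scoped RealInnerProductSpace ENNReal Topology Pointwise

/-- Additivity. PROOF: let `Q₊ = Q ∩ hpos`, `Q₋ = Q ∩ hneg`. `lam` is concentrated on `frontier U`
and has no atoms, so it is enough that `closure Q₊ ∩ closure Q₋ ∩ frontier U` is finite, and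
`closure (Q ∩ ln θ p) ∩ frontier U` is finite (end points of an interval). Let `z` be in the first set
but not in `closure (Q ∩ ln θ p)`; `z ∉ Sg` since `z ∈ closure Q₊`, `Sg ⊆ hneg`. Choose
`ε > 0` such that `ball z ε` misses `closure (Q ∩ ln θ p)`, and `V` from `locc`: `U ∩ V` is
preconnected, meets `Q₊` and `Q₋`, hence meets `frontier Q₊` (`meets_frontier`), at a point of
`U ∩ frontier Q₊ ⊆ closure (Q ∩ ln θ p)` (`piece_cut`): contradiction. -/
theorem leaf_add {U : Set (E 2)} {lam : Measure (E 2)} (hg : GeoData U lam) {Q Sg : Set (E 2)}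
    (hP : Piece U Q Sg) {θ p : ℝ} (hS : Sg ⊆ hneg θ p)
    (hne : (Q ∩ ln θ p).Nonempty) (hcn : IsPreconnected (Q ∩ ln θ p)) :
    lam (closure (Q ∩ hpos θ p)) + lam (closure (Q ∩ hneg θ p)) ≤ lam (closure Q) := by
  have hcut := piece_cut hP hS hne hcn
  have hfin := leafa_finite hg.isOpen hP.sub (hg.bdd.subset hP.sub) hcn
  have : NullSingletonClass lam := ⟨hg.point⟩
  have hkey : closure (Q ∩ hpos θ p) ∩ closure (Q ∩ hneg θ p) ∩ frontier U ⊆
      closure (Q ∩ ln θ p) ∩ frontier U := by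
    rintro z ⟨⟨hz1, hz2⟩, hzF⟩
    refine ⟨?_, hzF⟩
    by_contra hcon
    obtain ⟨ε, hε, hball⟩ := Metric.isOpen_iff.1 isClosed_closure.isOpen_compl z hcon
    obtain ⟨V, hV, hVb, hVc⟩ := hg.locc z hzF ε hε
    obtain ⟨x, hxV, hxQ⟩ := mem_closure_iff_nhds.1 hz1 V hV
    obtain ⟨y, hyV, hyQ⟩ := mem_closure_iff_nhds.1 hz2 V hV
    have h1 : ((U ∩ V) ∩ (Q ∩ hpos θ p)).Nonempty := ⟨x, ⟨hP.sub hxQ.1, hxV⟩, hxQ⟩
    have h2 : ¬ (U ∩ V) ⊆ Q ∩ hpos θ p := by
      intro hsub
      have h3 : p < ⟪dir θ, y⟫ := (hsub ⟨hP.sub hyQ.1, hyV⟩).2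
      have h4 : ⟪dir θ, y⟫ < p := hyQ.2
      linarith
    obtain ⟨w, ⟨hwU, hwV⟩, hwF⟩ := meets_frontier hVc h1 h2
    exact hball (hVb hwV) (hcut.bd ⟨hwU, hwF⟩)
  have hnull : lam (closure (Q ∩ hpos θ p) ∩ closure (Q ∩ hneg θ p)) = 0 := by
    have h1 : closure (Q ∩ hpos θ p) ∩ closure (Q ∩ hneg θ p) ⊆
        (closure (Q ∩ ln θ p) ∩ frontier U) ∪ (frontier U)ᶜ := by
      intro z hz
      by_cases hzF : z ∈ frontier U
      · exact Or.inl (hkey ⟨hz, hzF⟩)
      · exact Or.inr hzF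
    refine measure_mono_null h1 ?_
    exact measure_union_null (hfin.measure_zero lam) hg.supp
  have h2 := measure_union_add_inter (μ := lam) (closure (Q ∩ hpos θ p))
    (isClosed_closure (s := Q ∩ hneg θ p)).measurableSet
  rw [hnull, add_zero] at h2
  rw [← h2]
  exact measure_mono (union_subset (closure_mono inter_subset_left) (closure_mono inter_subset_left))

end Pool.Agent.RA
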