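import Pool.Agent.H.MP_1b807b_an.A.LeafA

/-! MP_1b807b_an, large parameter asymptotics in the plane, module LeafC: distance to the cut -/

set_option autoImplicit false

namespace Pool.Agent.RA

open MeasureTheory Metric Set Pool.Agent.RG
open scoped RealInnerProductSpace ENNReal Topology Pointwise

theorem leafc_ln_preconn (θ p : ℝ) : IsPreconnected (ln θ p) := by
  have h1 : ln θ p = (fun y : ℝ => p • dir θ + y • nrm θ) '' univ := by
    ext x
    rw [mem_ln_iff]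
    constructor
    · rintro ⟨y, hy⟩
      exact ⟨y, mem_univ _, hy.symm⟩
    · rintro ⟨y, -, hy⟩
      exact ⟨y, hy.symm⟩
  rw [h1]
  exact isPreconnected_univ.image _ (by fun_prop)

theorem leafc_ln_not_sub {Q : Set (E 2)} (hb : Bornology.IsBounded Q) (θ p : ℝ) :
    ¬ ln θ p ⊆ Q := by
  intro hsub
  obtain ⟨M, hM⟩ := hb.exists_norm_le
  have h1 := hM _ (hsub (inner_dir_comb θ p (|M| + 1) : _ ∈ ln θ p))
  have h2 := abs_inner_nrm_le θ (p • dir θ + (|M| + 1) • nrm θ)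
  rw [inner_nrm_comb, abs_of_pos (by positivity)] at h2
  have := le_abs_self M
  linarith

theorem leafc_lip (θ : ℝ) : LipschitzWith 1 (fun x : E 2 => ⟪dir θ, x⟫) := by
  refine LipschitzWith.of_dist_le_mul fun x y => ?_
  rw [NNReal.coe_one, one_mul, Real.dist_eq, dist_eq_norm, ← inner_sub_right]
  exact abs_inner_dir_le θ _

/-- PROOF: `Q₋ = Q ∩ hneg θ p` is connected (`split_conn_neg`) and has points with
`⟪dir θ, ·⟫` arbitrarily close to `p`, and, near `z`, points with `⟪dir θ, ·⟫ < p - d + ε`. So for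
`p' ∈ (p - d, p)` the line `ln θ p'` meets `Q₋`, and the bounded open set `slc θ Q₋ p'` has an end
point, which gives `y ∈ frontier Q₋ ∩ ln θ p'`, `y ∈ closure Q`. If `y ∈ U`: `y ∉ Q` (otherwise
`y ∈ Q₋`), so `y ∈ U ∩ frontier Q ⊆ Sg`, contradiction to `⟪dir θ, y⟫ > p - d`. So
`y ∈ frontier U ∩ closure Q₋`. Apply `proj` to `f = ⟪dir θ, ·⟫` and `C = closure Q₋`. -/
theorem leaf_dist {U : Set (E 2)} {lam : Measure (E 2)} (hg : GeoData U lam) {Q Sg : Set (E 2)}
    (hP : Piece U Q Sg) {θ p d : ℝ} (hd : 0 < d) (hS : ∀ x ∈ Sg, ⟪dir θ, x⟫ ≤ p - d)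
    (hmeets : (Sg ∩ closure Q).Nonempty)
    (hne : (Q ∩ ln θ p).Nonempty) (hcn : IsPreconnected (Q ∩ ln θ p)) :
    ENNReal.ofReal d ≤ lam (closure (Q ∩ hneg θ p)) := by
  have hfc : Continuous fun x : E 2 => ⟪dir θ, x⟫ := (leafc_lip θ).continuous
  have hQb : Bornology.IsBounded Q := hg.bdd.subset hP.sub
  have hm := split_conn_neg hP.isOpen hP.conn.isPreconnected hcn hne
  have hmo : IsOpen (Q ∩ hneg θ p) := hP.isOpen.inter (leafa_isOpen_hneg θ p)
  have hsub : Ioo (p - d) p ⊆ (fun x : E 2 => ⟪dir θ, x⟫) ''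
      (frontier U ∩ closure (Q ∩ hneg θ p)) := by
    rintro p' ⟨hp1, hp2⟩
    -- a point of `Q₋` with larger value
    obtain ⟨x0, hx0Q, hx0l⟩ := hne
    have hx0l' : ⟪dir θ, x0⟫ = p := hx0l
    obtain ⟨r, hr, hball⟩ := Metric.isOpen_iff.1 hP.isOpen x0 hx0Q
    set t : ℝ := min (r / 2) ((p - p') / 2) with ht
    have ht0 : 0 < t := lt_min (by positivity) (by linarith)
    have ht1 : t ≤ r / 2 := min_le_left _ _
    have ht2 : t ≤ (p - p') / 2 := min_le_right _ _
    have hv : ⟪dir θ, x0 - t • dir θ⟫ = p - t := by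
      rw [inner_sub_right, inner_smul_right, inner_dir_dir, hx0l', mul_one]
    have hxt : x0 - t • dir θ ∈ Q ∩ hneg θ p := by
      refine ⟨hball ?_, ?_⟩
      · rw [mem_ball, dist_eq_norm, sub_sub_cancel_left, norm_neg, norm_smul, norm_dir, mul_one,
          Real.norm_of_nonneg ht0.le]
        linarith
      · change ⟪dir θ, x0 - t • dir θ⟫ < p
        rw [hv]
        linarith
    -- a point of `Q₋` with smaller value
    obtain ⟨z, hzS, hzQ⟩ := hmeets
    have hz1 : ⟪dir θ, z⟫ < p' := lt_of_le_of_lt (hS z hzS) hp1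
    have hopen : IsOpen {x : E 2 | ⟪dir θ, x⟫ < p'} := isOpen_lt hfc continuous_const
    obtain ⟨q, hq1, hqQ⟩ := mem_closure_iff_nhds.1 hzQ _ (hopen.mem_nhds hz1)
    have hq1' : ⟪dir θ, q⟫ < p' := hq1
    have hq : q ∈ Q ∩ hneg θ p := ⟨hqQ, show ⟪dir θ, q⟫ < p by linarith⟩
    -- the line `ln θ p'` meets `Q₋`
    have himg := (hm.image _ hfc.continuousOn).ordConnected.out (mem_image_of_mem _ hq)
      (mem_image_of_mem _ hxt)
    obtain ⟨x', hx', hx'p⟩ := himg ⟨hq1'.le, by rw [hv]; linarith⟩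
    have h1 : (ln θ p' ∩ (Q ∩ hneg θ p)).Nonempty := ⟨x', hx'p, hx'⟩
    have h2 : ¬ ln θ p' ⊆ Q ∩ hneg θ p := fun h =>
      leafc_ln_not_sub hQb θ p' (h.trans inter_subset_left)
    obtain ⟨y, hyl, hyF⟩ := meets_frontier (leafc_ln_preconn θ p') h1 h2
    have hyl' : ⟪dir θ, y⟫ = p' := hyl
    rw [hmo.frontier_eq] at hyF
    have hyQ : y ∉ Q := fun h => hyF.2 ⟨h, show ⟪dir θ, y⟫ < p by rw [hyl']; exact hp2⟩
    have hycl : y ∈ closure Q := closure_mono inter_subset_left hyF.1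
    have hyU : y ∉ U := by
      intro hyU
      have h3 : y ∈ frontier Q := by
        rw [hP.isOpen.frontier_eq]
        exact ⟨hycl, hyQ⟩
      have h4 := hS y (hP.bd ⟨hyU, h3⟩)
      rw [hyl'] at h4
      linarith
    refine ⟨y, ⟨?_, hyF.1⟩, hyl'⟩
    rw [hg.isOpen.frontier_eq]
    exact ⟨closure_mono hP.sub hycl, hyU⟩
  have h5 := hg.proj _ (leafc_lip θ) (closure (Q ∩ hneg θ p)) isClosed_closure
  refine le_trans ?_ h5
  refine le_trans ?_ (measure_mono hsub)
  rw [Real.volume_Ioo]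
  exact ENNReal.ofReal_le_ofReal (by linarith)

end Pool.Agent.RA
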