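import Pool.Agent.H.MP_1b807b_an.A.LeafB
import Pool.Agent.H.MP_1b807b_an.A.LeafC
import Pool.Agent.H.MP_1b807b_an.A.HalfC

/-! MP_1b807b_an, large parameter asymptotics in the plane, module LeafD: exceptional lines -/

set_option autoImplicit false

namespace Pool.Agent.RA

open MeasureTheory Metric Set Pool.Agent.RG
open scoped RealInnerProductSpace ENNReal Topology Pointwise

/-- The measure of the exceptional lines of a nearly minimal leaf, one side. PROOF: let `Sg ⊆ hneg`.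
If `D₀ ≤ diam (Q ∩ hpos θ p)` then `leaf_cut` gives a leaf contained in `P₁`, so
`lam (closure Q₊) ≥ v ≥ lam (closure Q) - ε'` and by `leaf_add` `lam (closure Q₋) ≤ ε'`; by
`leaf_dist` there is a point `x ∈ Sg` with `⟪dir θ, x⟫ > p - ε' - η` for every `η > 0`; compactness.
If `diam (Q ∩ hpos θ p) < D₀` then `hs Q θ ≤ p + D₀` (points of `Q ∩ hpos` near a point of
`Q ∩ ln`). -/
theorem leaf_exc {U : Set (E 2)} {lam : Measure (E 2)} (hg : GeoData U lam) {Q Sg P₁ : Set (E 2)}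
    {ι D₀ v ε' : ℝ} (hι : 0 ≤ ι) (hD : 0 < D₀) (hε : 0 < ε') (hL : Leaf U Q Sg ι D₀) (hQ : Q ⊆ P₁)
    (hv : ∀ Q' Sg', Leaf U Q' Sg' ι D₀ → Q' ⊆ P₁ → ENNReal.ofReal v ≤ lam (closure Q'))
    (hnear : lam (closure Q) ≤ ENNReal.ofReal (v + ε')) (hv0 : 0 ≤ v)
    {θ p : ℝ} (hS : Sg ⊆ hneg θ p)
    (hne : (Q ∩ ln θ p).Nonempty) (hcn : IsPreconnected (Q ∩ ln θ p))
    (hlen : volume (slc θ U p) ≤ ENNReal.ofReal ι) :
    (∃ x ∈ Sg, p - ε' ≤ ⟪dir θ, x⟫) ∨ hs Q θ ≤ p + D₀ := by
  have hfc : Continuous fun x : E 2 => ⟪dir θ, x⟫ := continuous_const.inner continuous_id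
  have hQb : Bornology.IsBounded Q := hg.bdd.subset hL.piece.sub
  by_cases hbig : D₀ ≤ diam (Q ∩ hpos θ p)
  · left
    have hleaf := leaf_cut hg.bdd hg.isOpen hL.piece hι hS hne hcn hlen hbig
    have h1 := hv _ _ hleaf (inter_subset_left.trans hQ)
    have h2 := (leaf_add hg hL.piece hS hne hcn).trans hnear
    have h3 : lam (closure (Q ∩ hneg θ p)) ≤ ENNReal.ofReal ε' := by
      rw [ENNReal.ofReal_add hv0 hε.le] at h2
      have h4 : ENNReal.ofReal v + lam (closure (Q ∩ hneg θ p)) ≤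
          ENNReal.ofReal v + ENNReal.ofReal ε' := (add_le_add_left h1 _).trans h2
      exact (ENNReal.add_le_add_iff_left ENNReal.ofReal_ne_top).1 h4
    by_contra hcon
    push Not at hcon
    have hSne : Sg.Nonempty := hL.meets.left
    obtain ⟨x, hx, hmax⟩ := hL.compact.exists_isMaxOn hSne hfc.continuousOn
    have hx1 := hcon x hx
    have h5 : ENNReal.ofReal (p - ⟪dir θ, x⟫) ≤ lam (closure (Q ∩ hneg θ p)) := by
      refine leaf_dist hg hL.piece (by linarith) ?_ hL.meets hne hcn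
      intro y hy
      have h6 : ⟪dir θ, y⟫ ≤ ⟪dir θ, x⟫ := hmax hy
      linarith
    have h6 := h5.trans h3
    rw [ENNReal.ofReal_le_ofReal_iff hε.le] at h6
    linarith
  · right
    push Not at hbig
    by_contra hcon
    push Not at hcon
    obtain ⟨x, hxQ, hx⟩ := exists_lt_hs hL.piece.conn.nonempty hcon
    obtain ⟨x0, hx0⟩ := hne
    have hx0' : ⟪dir θ, x0⟫ = p := hx0.2
    have h1 : x ∈ Q ∩ hpos θ p := ⟨hxQ, show p < ⟪dir θ, x⟫ by linarith⟩
    have h2 := leafa_ln_closure_hpos hL.piece.isOpen hx0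
    have hb : Bornology.IsBounded (closure (Q ∩ hpos θ p)) := (hQb.subset inter_subset_left).closure
    have h3 := dist_le_diam_of_mem hb (subset_closure h1) h2
    rw [diam_closure] at h3
    have h4 := abs_inner_dir_le θ (x - x0)
    rw [inner_sub_right, hx0', ← dist_eq_norm] at h4
    have h5 := le_abs_self (⟪dir θ, x⟫ - p)
    linarith

end Pool.Agent.RA
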