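import Pool.Agent.H.MP_1b807b_an.A.HalfDefs

/-! MP_1b807b_an, large parameter asymptotics in the plane, module LeafDefs: leaves, definitions -/

set_option autoImplicit false

namespace Pool.Agent.RA

open MeasureTheory Metric Set Pool.Agent.RG
open scoped RealInnerProductSpace ENNReal Topology Pointwise

/-- a large piece of `U` cut off by a short segment -/
structure Leaf (U Q Sg : Set (E 2)) (ι D₀ : ℝ) : Prop where
  piece : Piece U Q Sg
  compact : IsCompact Sg
  conn : IsPreconnected Sg
  diamS : ∀ x ∈ Sg, ∀ y ∈ Sg, dist x y ≤ ι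
  meets : (Sg ∩ closure Q).Nonempty
  fin : (Sg ∩ frontier U).Finite
  large : D₀ ≤ diam Q

end Pool.Agent.RA
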