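import Pool.Agent.H.MP_1b807b_an.A.LeafD
import Pool.Agent.H.MP_1b807b_an.A.HalfD
import Pool.Agent.H.MP_1b807b_an.A.HullF
import Pool.Agent.H.MP_1b807b_an.A.Fub

/-! MP_1b807b_an, large parameter asymptotics in the plane, module LeafE: nearly minimal leaves -/

set_option autoImplicit false

namespace Pool.Agent.RA

open MeasureTheory Metric Set Pool.Agent.RG
open scoped RealInnerProductSpace ENNReal Topology Pointwise

theorem leafe_slc_pi (θ : ℝ) (S : Set (E 2)) (p : ℝ) : slc (θ + Real.pi) S (-p) = -slc θ S p := by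
  ext y
  simp only [slc, mem_setOf_eq, Set.mem_neg, dir_add_pi, nrm_add_pi, smul_neg, neg_smul, neg_neg]

theorem leafe_vol_pi (θ : ℝ) (S : Set (E 2)) (p : ℝ) :
    volume (slc (θ + Real.pi) S (-p)) = volume (slc θ S p) := by
  rw [leafe_slc_pi, Measure.measure_neg]

theorem leafe_markov {U : Set (E 2)} (hU : IsOpen U) (hb : Bornology.IsBounded U) (θ : ℝ) {ι : ℝ}
    (hι : 0 < ι) : volume {p | ENNReal.ofReal ι < volume (slc θ U p)} ≤
      ENNReal.ofReal (volume.real U / ι) := by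
  have h1 := measurable_vol_slc θ hU.measurableSet
  have h2 := meas_ge_le_lintegral_div (μ := volume) h1.aemeasurable
    (ε := ENNReal.ofReal ι) (by simpa using hι) ENNReal.ofReal_ne_top
  rw [← fub θ hU.measurableSet] at h2
  have h3 : volume U = ENNReal.ofReal (volume.real U) := by
    rw [Measure.real, ENNReal.ofReal_toReal hb.measure_lt_top.ne]
  rw [h3, ← ENNReal.ofReal_div_of_pos hι] at h2
  refine (measure_mono ?_).trans h2
  intro p hp
  exact le_of_lt (show ENNReal.ofReal ι < volume (slc θ U p) from hp)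

theorem leafe_proj {Sg : Set (E 2)} (hc : IsCompact Sg) {ι ε' : ℝ} (hne : Sg.Nonempty)
    (hd : ∀ x ∈ Sg, ∀ y ∈ Sg, dist x y ≤ ι) (θ : ℝ) :
    volume {p : ℝ | ∃ x ∈ Sg, |⟪dir θ, x⟫ - p| ≤ ε'} ≤ ENNReal.ofReal (ι + 2 * ε') := by
  obtain ⟨x₀, hx₀, hmin⟩ := hc.exists_isMinOn hne
    (f := fun x => ⟪dir θ, x⟫) (by fun_prop)
  have hsub : {p : ℝ | ∃ x ∈ Sg, |⟪dir θ, x⟫ - p| ≤ ε'} ⊆
      Icc (⟪dir θ, x₀⟫ - ε') (⟪dir θ, x₀⟫ + ι + ε') := by
    rintro p ⟨x, hx, hxp⟩
    have h1 : ⟪dir θ, x₀⟫ ≤ ⟪dir θ, x⟫ := hmin hx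
    have h2 : ⟪dir θ, x⟫ - ⟪dir θ, x₀⟫ ≤ ι := by
      rw [← inner_sub_right]
      calc ⟪dir θ, x - x₀⟫ ≤ ‖x - x₀‖ := (le_abs_self _).trans (abs_inner_dir_le θ _)
        _ = dist x x₀ := (dist_eq_norm _ _).symm
        _ ≤ ι := hd x hx x₀ hx₀
    rw [abs_le] at hxp
    constructor <;> linarith [hxp.1, hxp.2]
  refine (measure_mono hsub).trans ?_
  rw [Real.volume_Icc]
  apply ENNReal.ofReal_le_ofReal
  linarith

theorem leafe_sides {Sg : Set (E 2)} (hc : IsPreconnected Sg) {θ p : ℝ}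
    (h : ¬ (Sg ∩ ln θ p).Nonempty) : Sg ⊆ hneg θ p ∨ Sg ⊆ hpos θ p := by
  have ho1 : IsOpen (hneg θ p) := isOpen_lt (continuous_const.inner continuous_id) continuous_const
  have ho2 : IsOpen (hpos θ p) := isOpen_lt continuous_const (continuous_const.inner continuous_id)
  have hdis : Disjoint (hneg θ p) (hpos θ p) := by
    rw [Set.disjoint_left]
    intro x h1 h2
    exact lt_asymm (show ⟪dir θ, x⟫ < p from h1) (show p < ⟪dir θ, x⟫ from h2)
  have hcov : Sg ⊆ hneg θ p ∪ hpos θ p := by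
    intro x hx
    rcases lt_trichotomy ⟪dir θ, x⟫ p with h1 | h1 | h1
    · exact Or.inl h1
    · exact absurd ⟨x, hx, h1⟩ h
    · exact Or.inr h1
  exact hc.subset_or_subset ho1 ho2 hdis hcov

/-- PROOF: for `θ ∈ (0, π)` the set of bad `p` in `crofton_piece` is contained in the union of
`{p | ofReal ι < volume (slc θ U p)}` (measure `≤ |U| / ι` by Markov and `fub`), the set of `p` at
distance `≤ ε'` of the projection of `Sg` (contained in an interval of length `ι + 2 ε'`) and the two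
end intervals of length `D₀` of `Ioo (-hs Q (θ+π)) (hs Q θ)`; here `leaf_exc` is used for `(θ, p)` and
for `(θ + π, -p)`: if `ln θ p` misses `Sg` then `Sg` is in `hneg` or `hpos` (`conn`). `crofton_piece`
and `hull_leaf` (`z ∈ Sg ∩ closure Q`). -/
theorem leaf_near {U : Set (E 2)} {lam : Measure (E 2)} (hg : GeoData U lam) {Q Sg P₁ : Set (E 2)}
    {R m φ ι D₀ v ε' : ℝ} (hR : 0 < R) (hm : 0 < m) (hφ : 0 < φ) (hφ2 : φ < Real.pi / 2)
    (hPP : PP U R m) (hι : 0 < ι)
    (hD : 16 * (ι + R * Real.cos φ * (1 - Real.cos φ) + m + ι) ≤ D₀) (hDR : D₀ ≤ R)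
    (hε : 0 < ε') (hL : Leaf U Q Sg ι D₀) (hQ : Q ⊆ P₁)
    (hv : ∀ Q' Sg', Leaf U Q' Sg' ι D₀ → Q' ⊆ P₁ → ENNReal.ofReal v ≤ lam (closure Q'))
    (hnear : lam (closure Q) ≤ ENNReal.ofReal (v + ε')) (hv0 : 0 ≤ v) :
    ENNReal.ofReal (2 * (Real.pi * (R * Real.cos φ) -
      2 * Real.pi * φ * m / (2 * Real.tan (φ / 2) - φ) -
      Real.pi * (volume.real U / ι + (ι + 2 * ε') + 2 * D₀))) ≤ lam (closure Q) := by
  obtain ⟨z, hzS, hzQ⟩ := hL.meets
  have hQb : Bornology.IsBounded Q := hg.bdd.subset hL.piece.sub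
  have hcos0 : 0 < Real.cos φ := Real.cos_pos_of_mem_Ioo ⟨by linarith, hφ2⟩
  have hcos1 : Real.cos φ ≤ 1 := Real.cos_le_one φ
  have hD0 : 0 < D₀ := by
    have h1 : 0 ≤ R * Real.cos φ * (1 - Real.cos φ) :=
      mul_nonneg (by positivity) (by linarith)
    linarith
  have hSg : Sg ⊆ closedBall z ι := fun x hx => hL.diamS x hx z hzS
  have hhull := hull_leaf hL.piece hQb hR hm hφ hφ2 hPP hzQ hι hSg (hD.trans hL.large)
    (hD.trans hDR)
  set b := volume.real U / ι + (ι + 2 * ε') + 2 * D₀ with hb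
  have hvU : 0 ≤ volume.real U / ι := div_nonneg measureReal_nonneg hι.le
  have hb0 : 0 ≤ b := by rw [hb]; linarith
  have hcr := crofton_piece hg hL.piece (b := b) hb0 (fun θ _ => by
    have hsub : {p | (Q ∩ ln θ p).Nonempty ∧
        (IsPreconnected (Q ∩ ln θ p) ∨ (Sg ∩ ln θ p).Nonempty)} ⊆
        {p | ENNReal.ofReal ι < volume (slc θ U p)} ∪
        {p : ℝ | ∃ x ∈ Sg, |⟪dir θ, x⟫ - p| ≤ ε'} ∪
        Icc (hs Q θ - D₀) (hs Q θ) ∪
        Icc (-hs Q (θ + Real.pi)) (-hs Q (θ + Real.pi) + D₀) := by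
      rintro p ⟨hne, hp⟩
      obtain ⟨y, hyQ, hyp⟩ := hne
      have hp1 : p ≤ hs Q θ := by
        rw [← show ⟪dir θ, y⟫ = p from hyp]
        exact le_hs hQb (subset_closure hyQ) θ
      have hp2 : -hs Q (θ + Real.pi) ≤ p := by
        have := le_hs hQb (subset_closure hyQ) (θ + Real.pi)
        rw [dir_add_pi, inner_neg_left, show ⟪dir θ, y⟫ = p from hyp] at this
        linarith
      by_cases hSl : (Sg ∩ ln θ p).Nonempty
      · obtain ⟨x, hxS, hxp⟩ := hSl
        refine Or.inl (Or.inl (Or.inr ⟨x, hxS, ?_⟩))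
        rw [show ⟪dir θ, x⟫ = p from hxp, sub_self, abs_zero]
        exact hε.le
      have hcn : IsPreconnected (Q ∩ ln θ p) := hp.resolve_right hSl
      by_cases hvol : ENNReal.ofReal ι < volume (slc θ U p)
      · exact Or.inl (Or.inl (Or.inl hvol))
      rw [not_lt] at hvol
      rcases leafe_sides hL.conn hSl with hS | hS
      · rcases leaf_exc hg hι.le hD0 hε hL hQ hv hnear hv0 hS ⟨y, hyQ, hyp⟩ hcn hvol with
          ⟨x, hxS, hx⟩ | hx
        · refine Or.inl (Or.inl (Or.inr ⟨x, hxS, ?_⟩))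
          have h2 : ⟪dir θ, x⟫ < p := hS hxS
          rw [abs_le]; constructor <;> linarith
        · exact Or.inl (Or.inr ⟨by linarith, hp1⟩)
      · rw [hpos_eq] at hS
        rw [ln_eq] at hcn hyp
        rw [← leafe_vol_pi] at hvol
        rcases leaf_exc hg hι.le hD0 hε hL hQ hv hnear hv0 hS ⟨y, hyQ, hyp⟩ hcn hvol with
          ⟨x, hxS, hx⟩ | hx
        · refine Or.inl (Or.inl (Or.inr ⟨x, hxS, ?_⟩))
          have h2 : ⟪dir (θ + Real.pi), x⟫ < -p := hS hxS
          rw [dir_add_pi, inner_neg_left] at h2 hx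
          rw [abs_le]; constructor <;> linarith
        · exact Or.inr ⟨hp2, by linarith⟩
    refine (measure_mono hsub).trans ?_
    refine (measure_union_le _ _).trans ?_
    have e1 : volume (Icc (hs Q θ - D₀) (hs Q θ)) ≤ ENNReal.ofReal D₀ := by
      rw [Real.volume_Icc]; apply ENNReal.ofReal_le_ofReal; linarith
    have e2 : volume (Icc (-hs Q (θ + Real.pi)) (-hs Q (θ + Real.pi) + D₀)) ≤
        ENNReal.ofReal D₀ := by
      rw [Real.volume_Icc]; apply ENNReal.ofReal_le_ofReal; linarith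
    have e3 := leafe_markov hg.isOpen hg.bdd θ hι
    have e4 := leafe_proj (ε' := ε') hL.compact ⟨z, hzS⟩ hL.diamS θ
    calc volume ({p | ENNReal.ofReal ι < volume (slc θ U p)} ∪
          {p : ℝ | ∃ x ∈ Sg, |⟪dir θ, x⟫ - p| ≤ ε'} ∪ Icc (hs Q θ - D₀) (hs Q θ)) +
          volume (Icc (-hs Q (θ + Real.pi)) (-hs Q (θ + Real.pi) + D₀))
        ≤ (ENNReal.ofReal (volume.real U / ι) + ENNReal.ofReal (ι + 2 * ε') +
          ENNReal.ofReal D₀) + ENNReal.ofReal D₀ := by
          refine add_le_add ?_ e2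
          refine (measure_union_le _ _).trans (add_le_add ?_ e1)
          exact (measure_union_le _ _).trans (add_le_add e3 e4)
      _ = ENNReal.ofReal b := by
          rw [← ENNReal.ofReal_add hvU (by positivity), ← ENNReal.ofReal_add (by positivity) hD0.le,
            ← ENNReal.ofReal_add (by positivity) hD0.le]
          congr 1; rw [hb]; ring)
  refine (ENNReal.ofReal_le_ofReal ?_).trans hcr
  linarith

end Pool.Agent.RA
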