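import Pool.Agent.H.MP_1b807b_an.A.LeafE

/-! MP_1b807b_an, large parameter asymptotics in the plane, module LeafF: leaves -/

set_option autoImplicit false

namespace Pool.Agent.RA

open MeasureTheory Metric Set Pool.Agent.RG
open scoped RealInnerProductSpace ENNReal Topology Pointwise

/-- PROOF: let `v` be the infimum of `lam (closure Q)` over the leaves contained in `P₁`; take a leaf
with value `≤ v + ε'` and apply `leaf_near`; `closure Q ⊆ closure P₁`. -/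
theorem leaf_main {U : Set (E 2)} {lam : Measure (E 2)} (hg : GeoData U lam) {P₁ : Set (E 2)}
    {R m φ ι D₀ ε' : ℝ} (hR : 0 < R) (hm : 0 < m) (hφ : 0 < φ) (hφ2 : φ < Real.pi / 2)
    (hPP : PP U R m) (hι : 0 < ι)
    (hD : 16 * (ι + R * Real.cos φ * (1 - Real.cos φ) + m + ι) ≤ D₀) (hDR : D₀ ≤ R)
    (hε : 0 < ε') (hex : ∃ Q Sg, Leaf U Q Sg ι D₀ ∧ Q ⊆ P₁) :
    ENNReal.ofReal (2 * (Real.pi * (R * Real.cos φ) -
      2 * Real.pi * φ * m / (2 * Real.tan (φ / 2) - φ) -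
      Real.pi * (volume.real U / ι + (ι + 2 * ε') + 2 * D₀))) ≤ lam (closure P₁) := by
  set T : Set ℝ≥0∞ := {x | ∃ Q Sg, Leaf U Q Sg ι D₀ ∧ Q ⊆ P₁ ∧ x = lam (closure Q)} with hT
  obtain ⟨Q₀, Sg₀, hL₀, hQ₀⟩ := hex
  have hne : T.Nonempty := ⟨_, Q₀, Sg₀, hL₀, hQ₀, rfl⟩
  have hfin : sInf T ≠ ⊤ := by
    have h1 : sInf T ≤ lam (closure Q₀) := sInf_le ⟨Q₀, Sg₀, hL₀, hQ₀, rfl⟩
    have h2 : lam (closure Q₀) ≤ lam univ := measure_mono (subset_univ _)
    exact ne_top_of_le_ne_top hg.fin (h1.trans h2)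
  set v := (sInf T).toReal with hv
  have hvT : ENNReal.ofReal v = sInf T := ENNReal.ofReal_toReal hfin
  have hlt : sInf T < sInf T + ENNReal.ofReal ε' :=
    ENNReal.lt_add_right hfin (by simpa using hε)
  obtain ⟨x, ⟨Q, Sg, hL, hQ, rfl⟩, hx⟩ := exists_lt_of_csInf_lt hne hlt
  have hnear : lam (closure Q) ≤ ENNReal.ofReal (v + ε') := by
    rw [ENNReal.ofReal_add ENNReal.toReal_nonneg hε.le, hvT]
    exact hx.le
  refine (leaf_near hg hR hm hφ hφ2 hPP hι hD hDR hε hL hQ (v := v) ?_ hnear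
    ENNReal.toReal_nonneg).trans (measure_mono (closure_mono hQ))
  intro Q' Sg' hL' hQ'
  rw [hvT]
  exact sInf_le ⟨Q', Sg', hL', hQ', rfl⟩

end Pool.Agent.RA
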