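import Pool.Agent.H.MP_1b807b_an.A.LeafF
import Pool.Agent.H.MP_1b807b_an.A.HullD

/-! MP_1b807b_an, large parameter asymptotics in the plane, module LeafG: the geometric theorem with parameters -/

set_option autoImplicit false

namespace Pool.Agent.RA

open MeasureTheory Metric Set Pool.Agent.RG
open scoped RealInnerProductSpace ENNReal Topology Pointwise

/-- if the part of `U` beyond a line meeting `U` has diameter less than `D`, then the line is at
distance at most `D` of the supporting line -/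
theorem leafg_hs_le {U : Set (E 2)} (hU : IsOpen U) (hb : Bornology.IsBounded U) {θ p D : ℝ}
    (hne : (U ∩ ln θ p).Nonempty) (hD0 : 0 ≤ D) (hd : diam (U ∩ hpos θ p) ≤ D) :
    hs U θ ≤ p + D := by
  obtain ⟨y, hyU, hyp⟩ := hne
  have hyp' : ⟪dir θ, y⟫ = p := hyp
  unfold hs
  refine csSup_le ⟨_, y, hyU, rfl⟩ ?_
  rintro _ ⟨x, hx, rfl⟩
  change ⟪dir θ, x⟫ ≤ p + D
  by_cases hxp : ⟪dir θ, x⟫ ≤ p
  · linarith
  rw [not_le] at hxp
  obtain ⟨r, hr, hball⟩ := Metric.isOpen_iff.1 hU y hyU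
  by_contra hcon
  rw [not_le] at hcon
  set t : ℝ := min (r / 2) ((⟪dir θ, x⟫ - (p + D)) / 2) with ht
  have ht0 : 0 < t := lt_min (by linarith) (by linarith)
  have ht1 : t ≤ r / 2 := min_le_left _ _
  have ht2 : t ≤ (⟪dir θ, x⟫ - (p + D)) / 2 := min_le_right _ _
  have hy' : y + t • dir θ ∈ U := by
    apply hball
    rw [mem_ball, dist_eq_norm, add_sub_cancel_left, norm_smul, norm_dir, mul_one,
      Real.norm_eq_abs, abs_of_pos ht0]
    linarith
  have hyi : ⟪dir θ, y + t • dir θ⟫ = p + t := by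
    rw [inner_add_right, inner_smul_right, inner_dir_dir, hyp', mul_one]
  have hyh : y + t • dir θ ∈ hpos θ p := by
    change p < ⟪dir θ, y + t • dir θ⟫
    rw [hyi]; linarith
  have hdist : dist x (y + t • dir θ) ≤ diam (U ∩ hpos θ p) :=
    dist_le_diam_of_mem (hb.subset inter_subset_left) ⟨hx, hxp⟩ ⟨hy', hyh⟩
  have h1 : ⟪dir θ, x⟫ - (p + t) ≤ dist x (y + t • dir θ) := by
    rw [← hyi, ← inner_sub_right, dist_eq_norm]
    exact (le_abs_self _).trans (abs_inner_dir_le θ _)
  linarith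

/-- PROOF: Case I: there are `θ, p` with `U ∩ ln θ p` non empty and connected,
`volume (slc θ U p) ≤ ofReal ι`, `D₀ ≤ diam (U ∩ hpos θ p)` and `D₀ ≤ diam (U ∩ hneg θ p)`. Then
`leaf_cut` with `Q = U`, `Sg = ∅` for `(θ, p)` and `(θ + π, -p)` gives leaves `U ∩ hpos`, `U ∩ hneg`;
`leaf_main` with `P₁ = U ∩ hpos` and with `P₁ = U ∩ hneg`, `leaf_add` with `Q = U`.
Case II: otherwise for every `θ` the bad set of `crofton_piece` for `Q = U`, `Sg = ∅` is contained in
`{p | ofReal ι < volume (slc θ U p)}` and the two end intervals of length `D₀`; `hull_whole`. -/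
theorem geo_pre {U : Set (E 2)} {lam : Measure (E 2)} (hg : GeoData U lam)
    {R m φ ι D₀ ε' : ℝ} (hR : 0 < R) (hm : 0 < m) (hφ : 0 < φ) (hφ2 : φ < Real.pi / 2)
    (hPP : PP U R m) (hι : 0 < ι)
    (hD : 16 * (ι + R * Real.cos φ * (1 - Real.cos φ) + m + ι) ≤ D₀) (hDR : D₀ ≤ R)
    (hε : 0 < ε') :
    ENNReal.ofReal (4 * (Real.pi * (R * Real.cos φ) -
      2 * Real.pi * φ * m / (2 * Real.tan (φ / 2) - φ) -
      Real.pi * (volume.real U / ι + (ι + 2 * ε') + 2 * D₀))) ≤ lam univ := by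
  have hcos0 : 0 < Real.cos φ := Real.cos_pos_of_mem_Ioo ⟨by linarith, hφ2⟩
  have hcos1 : Real.cos φ ≤ 1 := Real.cos_le_one φ
  have hD0 : 0 < D₀ := by
    have h1 : 0 ≤ R * Real.cos φ * (1 - Real.cos φ) :=
      mul_nonneg (by positivity) (by linarith)
    linarith
  have hP : Piece U U ∅ := by
    refine ⟨hg.isOpen, hg.conn, subset_rfl, ?_⟩
    rw [hg.isOpen.frontier_eq]
    rintro x ⟨h1, h2⟩
    exact absurd h1 h2.2
  by_cases hI : ∃ θ p, (U ∩ ln θ p).Nonempty ∧ IsPreconnected (U ∩ ln θ p) ∧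
      volume (slc θ U p) ≤ ENNReal.ofReal ι ∧ D₀ ≤ diam (U ∩ hpos θ p) ∧
      D₀ ≤ diam (U ∩ hneg θ p)
  · obtain ⟨θ, p, hne, hcn, hlen, hb1, hb2⟩ := hI
    have L1 := leaf_cut hg.bdd hg.isOpen hP (θ := θ) (p := p) (D₀ := D₀) hι.le (empty_subset _)
      hne hcn hlen hb1
    have L2 := leaf_cut hg.bdd hg.isOpen hP (θ := θ + Real.pi) (p := -p) (D₀ := D₀) hι.le
      (empty_subset _) (by rwa [← ln_eq]) (by rwa [← ln_eq]) (by rwa [leafe_vol_pi])
      (by rwa [← hneg_eq])
    rw [← hneg_eq] at L2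
    have M1 := leaf_main hg hR hm hφ hφ2 hPP hι hD hDR hε (P₁ := U ∩ hpos θ p)
      ⟨_, _, L1, subset_rfl⟩
    have M2 := leaf_main hg hR hm hφ hφ2 hPP hι hD hDR hε (P₁ := U ∩ hneg θ p)
      ⟨_, _, L2, subset_rfl⟩
    have M3 := leaf_add hg hP (θ := θ) (p := p) (empty_subset _) hne hcn
    refine le_trans ?_ (M3.trans (measure_mono (subset_univ _)))
    refine le_trans ?_ (add_le_add M1 M2)
    refine le_trans (ENNReal.ofReal_le_ofReal (le_of_eq ?_)) ENNReal.ofReal_add_le
    ring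
  · have hvU : 0 ≤ volume.real U / ι := div_nonneg measureReal_nonneg hι.le
    set b := volume.real U / ι + (ι + 2 * ε') + 2 * D₀ with hb
    have hb0 : 0 ≤ b := by rw [hb]; linarith
    have hcr := crofton_piece hg hP (b := b) hb0 (fun θ _ => by
      have hsub : {p | (U ∩ ln θ p).Nonempty ∧
          (IsPreconnected (U ∩ ln θ p) ∨ ((∅ : Set (E 2)) ∩ ln θ p).Nonempty)} ⊆
          {p | ENNReal.ofReal ι < volume (slc θ U p)} ∪ Icc (hs U θ - D₀) (hs U θ) ∪
          Icc (-hs U (θ + Real.pi)) (-hs U (θ + Real.pi) + D₀) := by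
        rintro p ⟨hne, hp⟩
        have hcn : IsPreconnected (U ∩ ln θ p) := by
          rcases hp with hp | hp
          · exact hp
          · rw [empty_inter] at hp; exact absurd hp not_nonempty_empty
        obtain ⟨y, hyU, hyp⟩ := hne
        have hp1 : p ≤ hs U θ := by
          rw [← show ⟪dir θ, y⟫ = p from hyp]
          exact le_hs hg.bdd (subset_closure hyU) θ
        have hp2 : -hs U (θ + Real.pi) ≤ p := by
          have := le_hs hg.bdd (subset_closure hyU) (θ + Real.pi)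
          rw [dir_add_pi, inner_neg_left, show ⟪dir θ, y⟫ = p from hyp] at this
          linarith
        by_cases hvol : ENNReal.ofReal ι < volume (slc θ U p)
        · exact Or.inl (Or.inl hvol)
        rw [not_lt] at hvol
        by_cases h1 : D₀ ≤ diam (U ∩ hpos θ p)
        · have h2 : ¬ D₀ ≤ diam (U ∩ hneg θ p) := fun h2 =>
            hI ⟨θ, p, ⟨y, hyU, hyp⟩, hcn, hvol, h1, h2⟩
          rw [not_le] at h2
          have h3 : hs U (θ + Real.pi) ≤ -p + D₀ := by
            refine leafg_hs_le hg.isOpen hg.bdd ?_ hD0.le ?_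
            · rw [← ln_eq]; exact ⟨y, hyU, hyp⟩
            · rw [← hneg_eq]; exact h2.le
          exact Or.inr ⟨hp2, by linarith⟩
        · rw [not_le] at h1
          have h3 : hs U θ ≤ p + D₀ := leafg_hs_le hg.isOpen hg.bdd ⟨y, hyU, hyp⟩ hD0.le h1.le
          exact Or.inl (Or.inr ⟨by linarith, hp1⟩)
      refine (measure_mono hsub).trans ?_
      refine (measure_union_le _ _).trans ?_
      have e1 : volume (Icc (hs U θ - D₀) (hs U θ)) ≤ ENNReal.ofReal D₀ := by
        rw [Real.volume_Icc]; apply ENNReal.ofReal_le_ofReal; linarith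
      have e2 : volume (Icc (-hs U (θ + Real.pi)) (-hs U (θ + Real.pi) + D₀)) ≤
          ENNReal.ofReal D₀ := by
        rw [Real.volume_Icc]; apply ENNReal.ofReal_le_ofReal; linarith
      have e3 := leafe_markov hg.isOpen hg.bdd θ hι
      calc volume ({p | ENNReal.ofReal ι < volume (slc θ U p)} ∪ Icc (hs U θ - D₀) (hs U θ)) +
            volume (Icc (-hs U (θ + Real.pi)) (-hs U (θ + Real.pi) + D₀))
          ≤ (ENNReal.ofReal (volume.real U / ι) + ENNReal.ofReal D₀) + ENNReal.ofReal D₀ := by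
            refine add_le_add ?_ e2
            exact (measure_union_le _ _).trans (add_le_add e3 e1)
        _ = ENNReal.ofReal (volume.real U / ι + D₀ + D₀) := by
            rw [← ENNReal.ofReal_add hvU hD0.le, ← ENNReal.ofReal_add (by positivity) hD0.le]
        _ ≤ ENNReal.ofReal b := by
            apply ENNReal.ofReal_le_ofReal; rw [hb]; linarith)
    refine le_trans ?_ (hcr.trans (measure_mono (subset_univ _)))
    apply ENNReal.ofReal_le_ofReal
    have hw := hull_whole hg.isOpen hg.conn hg.bdd hR hm.le hφ hφ2 hPP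
    have htan : φ / 2 < Real.tan (φ / 2) := Real.lt_tan (by linarith) (by linarith)
    have hq : 0 ≤ 2 * Real.pi * φ * m / (2 * Real.tan (φ / 2) - φ) := by
      apply div_nonneg
      · have := Real.pi_pos; positivity
      · linarith
    have hpb : 0 ≤ Real.pi * b := mul_nonneg Real.pi_pos.le hb0
    linarith

end Pool.Agent.RA
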