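import Pool.Agent.H.MP_1b807b_an.A.LeafG

/-! MP_1b807b_an, large parameter asymptotics in the plane, module LeafH: the geometric theorem -/

set_option autoImplicit false

namespace Pool.Agent.RA

open MeasureTheory Metric Set Pool.Agent.RG
open scoped RealInnerProductSpace ENNReal Topology Pointwise

/-- The geometric theorem. PROOF: by `geo_pre` with `ι = ρ R`, `ε' = ρ R`, `m = δ R`,
`D₀ = 16 (2 ρ + δ + (1 - cos φ)) R`: first choose `φ` small, then `ρ`, then `δ ≤ ρ` with
`δ / (2 tan (φ/2) - φ)` small; `volume.real U / ι ≤ δ² R / ρ ≤ ρ R`. -/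
theorem geo {ε : ℝ} (hε : 0 < ε) : ∃ δ > 0, ∀ (R : ℝ) (U : Set (E 2)) (lam : Measure (E 2)),
    0 < R → GeoData U lam → volume U ≤ ENNReal.ofReal (δ ^ 2 * R ^ 2) → PP U R (δ * R) →
      ENNReal.ofReal ((4 * Real.pi - ε) * R) ≤ lam univ := by
  obtain ⟨a, ha, ha1, ha2⟩ : ∃ a : ℝ, 0 < a ∧ a ≤ 1 / 1000 ∧ a * 2200 ≤ ε := by
    refine ⟨min (1 / 1000) (ε / 2200), by positivity, min_le_left _ _, ?_⟩
    have := min_le_right (1 / 1000 : ℝ) (ε / 2200)
    linarith
  set φ := Real.sqrt a with hφdef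
  have hφ : 0 < φ := Real.sqrt_pos.2 ha
  have hφsq : φ ^ 2 = a := Real.sq_sqrt ha.le
  have hφ1 : φ < 1 := by nlinarith
  have hpi := Real.pi_gt_three
  have hpi4 := Real.pi_lt_four
  have hφ2 : φ < Real.pi / 2 := by linarith
  have hcos : 1 - φ ^ 2 / 2 ≤ Real.cos φ := Real.one_sub_sq_div_two_le_cos
  have hcos1 : Real.cos φ ≤ 1 := Real.cos_le_one φ
  have hcos0 : 0 < Real.cos φ := by nlinarith
  have hc : 1 - Real.cos φ ≤ a := by rw [hφsq] at hcos; linarith
  set κ := 2 * Real.tan (φ / 2) - φ with hκdef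
  have hκ : 0 < κ := by
    have := Real.lt_tan (x := φ / 2) (by linarith) (by linarith)
    rw [hκdef]; linarith
  set δ := min a (a * κ / φ) with hδdef
  have hδ : 0 < δ := lt_min ha (by positivity)
  have hδa : δ ≤ a := min_le_left _ _
  have hδκ : φ * δ / κ ≤ a := by
    have h1 : δ ≤ a * κ / φ := min_le_right _ _
    rw [div_le_iff₀ hκ]
    rw [le_div_iff₀ hφ] at h1
    linarith
  refine ⟨δ, hδ, fun R U lam hR hg hvol hPP => ?_⟩
  have hD : 16 * (a * R + R * Real.cos φ * (1 - Real.cos φ) + δ * R + a * R) ≤ 64 * a * R := by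
    have h1 : R * Real.cos φ * (1 - Real.cos φ) ≤ a * R := by
      have h2 : Real.cos φ * (1 - Real.cos φ) ≤ 1 * a :=
        mul_le_mul hcos1 hc (by linarith) (by norm_num)
      nlinarith
    nlinarith
  have hDR : 64 * a * R ≤ R := by nlinarith
  have key := geo_pre hg (R := R) (m := δ * R) (φ := φ) (ι := a * R) (D₀ := 64 * a * R)
    (ε' := a * R) hR (by positivity) hφ hφ2 hPP (by positivity) hD hDR (by positivity)
  refine le_trans (ENNReal.ofReal_le_ofReal ?_) key
  have hvr : volume.real U ≤ δ ^ 2 * R ^ 2 := by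
    rw [Measure.real]
    exact ENNReal.toReal_le_of_le_ofReal (by positivity) hvol
  have h3 : volume.real U / (a * R) ≤ a * R := by
    rw [div_le_iff₀ (by positivity)]
    have h4 : δ ^ 2 ≤ a ^ 2 := by nlinarith
    calc volume.real U ≤ δ ^ 2 * R ^ 2 := hvr
      _ ≤ a ^ 2 * R ^ 2 := by nlinarith [sq_nonneg R]
      _ = a * R * (a * R) := by ring
  have h5 : 2 * Real.pi * φ * (δ * R) / κ ≤ 2 * Real.pi * a * R := by
    have h6 : 2 * Real.pi * φ * (δ * R) / κ = 2 * Real.pi * R * (φ * δ / κ) := by ring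
    rw [h6]
    have h7 : 2 * Real.pi * R * (φ * δ / κ) ≤ 2 * Real.pi * R * a :=
      mul_le_mul_of_nonneg_left hδκ (by positivity)
    linarith
  have h8 : Real.pi * (R * (1 - a)) ≤ Real.pi * (R * Real.cos φ) := by
    apply mul_le_mul_of_nonneg_left _ (by linarith)
    apply mul_le_mul_of_nonneg_left _ hR.le
    linarith
  have h9 : Real.pi * (volume.real U / (a * R) + (a * R + 2 * (a * R)) + 2 * (64 * a * R)) ≤
      Real.pi * (132 * a * R) := by
    apply mul_le_mul_of_nonneg_left _ (by linarith)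
    linarith
  have h10 : Real.pi * a * R ≤ 4 * a * R := by
    have : 0 < a * R := by positivity
    nlinarith
  have h11 : a * R * 2200 ≤ ε * R := by nlinarith
  nlinarith
end Pool.Agent.RA
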