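import Mathlib

/-! MP_1b807b_an, large parameter asymptotics in the plane, module MV: counting pieces of a connected set -/

set_option autoImplicit false

namespace Pool.Agent.RA

open Set

/-- Let the connected set `S` be covered by closed sets `B 0, ..., B n`, non adjacent ones being
disjoint, and let `Φ i` be a locally constant function on `S ∩ B i` with exactly the values
`0, ..., nn i - 1`. Let `G i` be a finite subset of `S ∩ B i ∩ B (i+1)` such that each point of
`S ∩ B i ∩ B (i+1)` has the same values of `Φ i` and `Φ (i+1)` as some point of `G i`. Then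
`∑ nn i ≤ ∑ |G i| + 1`.
PROOF: the real functions `w` on `Σ i, Fin (nn i)` with `w (i, Φ i y) = w (i+1, Φ (i+1) y)` for all
`i` and `y ∈ G i` form a space of dimension at least `∑ nn i - ∑ |G i|`
(`LinearMap.finrank_range_add_finrank_ker`, the range is in a space of dimension `∑ |G i|`). For
such `w` the function `g x = w (i, Φ i x)` (`x ∈ S ∩ B i`) is well defined and locally constant on
`S` (finitely many closed pieces), hence constant; all pairs `(i, j)` are attained, so `w` is
constant and the dimension is at most `1`. -/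
theorem mv_core {X : Type*} [TopologicalSpace X] {S : Set X} (hS : IsPreconnected S) (n : ℕ)
    (B : Fin (n + 1) → Set X) (hB : ∀ i, IsClosed (B i)) (hcov : S ⊆ ⋃ i, B i)
    (hdis : ∀ i j : Fin (n + 1), (i : ℕ) + 1 < j → Disjoint (S ∩ B i) (B j))
    (Φ : Fin (n + 1) → X → ℕ) (hΦ : ∀ i, ContinuousOn (Φ i) (S ∩ B i))
    (nn : Fin (n + 1) → ℕ) (hatt : ∀ i, ∀ j < nn i, ∃ x ∈ S ∩ B i, Φ i x = j)
    (hlt : ∀ i, ∀ x ∈ S ∩ B i, Φ i x < nn i) (G : Fin n → Finset X)
    (hG : ∀ i, ∀ y ∈ G i, y ∈ S ∩ B i.castSucc ∩ B i.succ)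
    (hG' : ∀ i, ∀ x ∈ S ∩ B i.castSucc ∩ B i.succ, ∃ y ∈ G i,
      Φ i.castSucc x = Φ i.castSucc y ∧ Φ i.succ x = Φ i.succ y) :
    ∑ i, nn i ≤ (∑ i, (G i).card) + 1 := by
  classical
  let ι := Σ i : Fin (n + 1), Fin (nn i)
  let κ := Σ i : Fin n, {y // y ∈ G i}
  have h1 : ∀ (i : Fin n) (y : X), y ∈ G i → Φ i.castSucc y < nn i.castSucc := fun i y hy =>
    hlt _ y (hG i y hy).1
  have h2 : ∀ (i : Fin n) (y : X), y ∈ G i → Φ i.succ y < nn i.succ := fun i y hy =>
    hlt _ y ⟨(hG i y hy).1.1, (hG i y hy).2⟩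
  let L : (ι → ℝ) →ₗ[ℝ] (κ → ℝ) :=
    { toFun := fun w p => w ⟨p.1.castSucc, ⟨Φ p.1.castSucc p.2.1, h1 p.1 p.2.1 p.2.2⟩⟩ -
        w ⟨p.1.succ, ⟨Φ p.1.succ p.2.1, h2 p.1 p.2.1 p.2.2⟩⟩
      map_add' := by
        intro w w'
        funext p
        simp only [Pi.add_apply]
        ring
      map_smul' := by
        intro c w
        funext p
        simp only [Pi.smul_apply, smul_eq_mul, RingHom.id_apply]
        ring }
  have hker : LinearMap.ker L ≤ Submodule.span ℝ {(fun _ => 1 : ι → ℝ)} := by
    intro w hw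
    have hconst : ∀ p q : ι, w p = w q := by
      rintro ⟨i1, j1⟩ ⟨i2, j2⟩
      obtain ⟨x1, hx1, hv1⟩ := hatt i1 j1 j1.2
      obtain ⟨x2, hx2, hv2⟩ := hatt i2 j2 j2.2
      let W : Fin (n + 1) → ℕ → ℝ := fun i m => if h : m < nn i then w ⟨i, ⟨m, h⟩⟩ else 0
      have hW : ∀ (i : Fin (n + 1)) (m : ℕ) (h : m < nn i), W i m = w ⟨i, ⟨m, h⟩⟩ :=
        fun i m h => dif_pos h
      have hadj : ∀ (i : Fin n) (x : X), x ∈ S → x ∈ B i.castSucc → x ∈ B i.succ →
          W i.castSucc (Φ i.castSucc x) = W i.succ (Φ i.succ x) := by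
        intro i x hxS hxi hxi'
        obtain ⟨y, hy, hy1, hy2⟩ := hG' i x ⟨⟨hxS, hxi⟩, hxi'⟩
        rw [hy1, hy2, hW _ _ (h1 i y hy), hW _ _ (h2 i y hy)]
        have h3 : L w ⟨i, ⟨y, hy⟩⟩ = 0 := by
          rw [LinearMap.mem_ker.1 hw]
          rfl
        exact sub_eq_zero.1 h3
      have hlt' : ∀ (i j : Fin (n + 1)) (x : X), x ∈ S → x ∈ B i → x ∈ B j → (i : ℕ) < j →
          W i (Φ i x) = W j (Φ j x) := by
        intro i j x hxS hxi hxj hij
        rcases Nat.lt_or_ge ((i : ℕ) + 1) j with h3 | h3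
        · exact absurd hxj (Set.disjoint_left.1 (hdis i j h3) ⟨hxS, hxi⟩)
        · have hin : (i : ℕ) < n := by
            have := j.2
            omega
          have e1 : i = (⟨i, hin⟩ : Fin n).castSucc := rfl
          have e2 : j = (⟨i, hin⟩ : Fin n).succ := Fin.ext (by
            change (j : ℕ) = (i : ℕ) + 1
            omega)
          have h4 := hadj ⟨i, hin⟩ x hxS (e1 ▸ hxi) (e2 ▸ hxj)
          rw [← e2] at h4
          exact h4
      have hwd : ∀ (i j : Fin (n + 1)) (x : X), x ∈ S → x ∈ B i → x ∈ B j →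
          W i (Φ i x) = W j (Φ j x) := by
        intro i j x hxS hxi hxj
        rcases lt_trichotomy (i : ℕ) (j : ℕ) with h3 | h3 | h3
        · exact hlt' i j x hxS hxi hxj h3
        · rw [Fin.ext h3]
        · exact (hlt' j i x hxS hxj hxi h3).symm
      have hidx : ∀ x : S, ∃ i, (x : X) ∈ B i := fun x => Set.mem_iUnion.1 (hcov x.2)
      choose idx hidx using hidx
      let c : ℝ := w ⟨i1, j1⟩
      let g : S → Bool := fun x => decide (W (idx x) (Φ (idx x) x) = c)
      have hg : ∀ (i : Fin (n + 1)) (x : S), (x : X) ∈ B i →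
          g x = decide (W i (Φ i x) = c) := by
        intro i x hx
        change decide (W (idx x) (Φ (idx x) x) = c) = _
        rw [hwd (idx x) i x x.2 (hidx x) hx]
      have hgc : Continuous g := by
        refine (locallyFinite_of_finite fun i : Fin (n + 1) => (Subtype.val ⁻¹' B i : Set S)).continuous
          ?_ (fun i => (hB i).preimage continuous_subtype_val) ?_
        · apply Set.eq_univ_of_forall
          intro x
          exact Set.mem_iUnion.2 ⟨idx x, hidx x⟩
        · intro i
          have h3 : ContinuousOn (fun x : S => Φ i x) (Subtype.val ⁻¹' B i : Set S) :=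
            (hΦ i).comp continuous_subtype_val.continuousOn fun x hx => ⟨x.2, hx⟩
          have h4 : ContinuousOn (fun x : S => decide (W i (Φ i x) = c))
              (Subtype.val ⁻¹' B i : Set S) :=
            (continuous_of_discreteTopology (f := fun m : ℕ => decide (W i m = c))).comp_continuousOn
              h3
          exact h4.congr fun x hx => hg i x hx
      have hpre : PreconnectedSpace S := isPreconnected_iff_preconnectedSpace.1 hS
      have h3 : g ⟨x1, hx1.1⟩ = g ⟨x2, hx2.1⟩ :=
        isPreconnected_univ.constant hgc.continuousOn (Set.mem_univ _) (Set.mem_univ _)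
      have hv1' : (j1 : ℕ) < nn i1 := j1.2
      have hv2' : (j2 : ℕ) < nn i2 := j2.2
      have h4 : g ⟨x1, hx1.1⟩ = true := by
        rw [hg i1 _ hx1.2, decide_eq_true_iff]
        change W i1 (Φ i1 x1) = c
        rw [hv1, hW i1 _ hv1']
      rw [h4, eq_comm, hg i2 _ hx2.2, decide_eq_true_iff] at h3
      change W i2 (Φ i2 x2) = c at h3
      rw [hv2, hW i2 _ hv2'] at h3
      exact h3.symm
    rw [Submodule.mem_span_singleton]
    by_cases hne : Nonempty ι
    · obtain ⟨p0⟩ := hne
      refine ⟨w p0, ?_⟩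
      funext p
      rw [Pi.smul_apply, smul_eq_mul, mul_one]
      exact hconst p0 p
    · refine ⟨0, ?_⟩
      funext p
      exact absurd ⟨p⟩ hne
  have hk1 : Module.finrank ℝ (LinearMap.ker L) ≤ 1 := by
    refine (Submodule.finrank_mono hker).trans ?_
    exact (finrank_span_le_card _).trans (by simp)
  have hr : Module.finrank ℝ (LinearMap.range L) ≤ ∑ i, (G i).card := by
    refine (Submodule.finrank_le _).trans ?_
    rw [Module.finrank_fintype_fun_eq_card, Fintype.card_sigma]
    simp
  have hd := LinearMap.finrank_range_add_finrank_ker L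
  have hc : Module.finrank ℝ (ι → ℝ) = ∑ i, nn i := by
    rw [Module.finrank_fintype_fun_eq_card, Fintype.card_sigma]
    simp
  omega

end Pool.Agent.RA
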