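import Pool.Agent.H.MP_1b807b_an.A.RendA
import Pool.Agent.H.MP_1b807b_an.A.Fub

/-! MP_1b807b_an, large parameter asymptotics in the plane, module NNaddA: area of a sum with a segment -/

set_option autoImplicit false

namespace Pool.Agent.RA

open MeasureTheory Metric Set Pool.Agent.RG
open scoped RealInnerProductSpace ENNReal Topology Pointwise

/-- PROOF: `fub` for the difference of closed sets, the slices are
`(slc θ S p + Icc 0 h) \ slc θ S p`, and `vol_add_Icc`; `lintegral_const_mul'`. -/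
theorem area_add {S : Set (E 2)} (hS : IsClosed S) (θ : ℝ) {h : ℝ} (hh : 0 ≤ h) :
    volume ((S + segment ℝ 0 (h • nrm θ)) \ S) ≤ ENNReal.ofReal h * NN θ S := by
  have hcp : IsCompact (segment ℝ (0 : E 2) (h • nrm θ)) := by
    rw [segment_eq_image]
    exact isCompact_Icc.image (by fun_prop)
  have hcl : IsClosed (S + segment ℝ (0 : E 2) (h • nrm θ)) := hS.add_right_of_isCompact hcp
  have hM : MeasurableSet ((S + segment ℝ 0 (h • nrm θ)) \ S) :=
    hcl.measurableSet.diff hS.measurableSet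
  rw [fub θ hM]
  have h1 : ∀ p : ℝ, volume (slc θ ((S + segment ℝ 0 (h • nrm θ)) \ S) p) ≤
      ENNReal.ofReal h * cnt (rend (slc θ S p)) := by
    intro p
    refine (measure_mono ?_).trans (vol_add_Icc (isClosed_slc (θ := θ) hS p) hh)
    rintro y ⟨hy1, hy2⟩
    refine ⟨?_, hy2⟩
    obtain ⟨s, hs, u, ⟨a, b, ha, hb, hab, hu⟩, hsu⟩ := hy1
    have hb1 : b ≤ 1 := by linarith
    have hsu' : s = p • dir θ + (y - b * h) • nrm θ := by
      have e1 : s + u = p • dir θ + y • nrm θ := hsu
      have e2 : u = (b * h) • nrm θ := by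
        rw [← hu, smul_zero, zero_add, smul_smul]
      rw [e2] at e1
      have e3 : s = p • dir θ + y • nrm θ - (b * h) • nrm θ := eq_sub_of_add_eq e1
      rw [e3, sub_smul]
      abel
    refine ⟨y - b * h, ?_, b * h, ⟨mul_nonneg hb hh, mul_le_of_le_one_left hh hb1⟩, by ring⟩
    rw [mem_slc, ← hsu']
    exact hs
  calc ∫⁻ p, volume (slc θ ((S + segment ℝ 0 (h • nrm θ)) \ S) p)
      ≤ ∫⁻ p, ENNReal.ofReal h * cnt (rend (slc θ S p)) := lintegral_mono h1
    _ = ENNReal.ofReal h * NN θ S := by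
        rw [lintegral_const_mul' _ _ ENNReal.ofReal_ne_top]
        rfl

end Pool.Agent.RA
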