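import Pool.Agent.H.MP_1b807b_an.A.Basic

/-! MP_1b807b_an, large parameter asymptotics in the plane, module RendB: cuts -/

set_option autoImplicit false

namespace Pool.Agent.RA

open MeasureTheory Metric Set Pool.Agent.RG
open scoped RealInnerProductSpace ENNReal Topology Pointwise

/-- PROOF: take the `n` smallest of `n` given right endpoints `b 0 < ... < b (n-1)` and choose
`c i ∈ (b i, min (b i + ε) (b (i+1))) \ A`. -/
theorem exists_cuts {A : Set ℝ} {n : ℕ} (hn : (n : ℕ∞) ≤ (rend A).encard) :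
    ∃ b c : Fin n → ℝ, (∀ i, b i ∈ A) ∧ (∀ i, c i ∉ A) ∧ (∀ i, b i < c i) ∧
      (∀ i j, i < j → c i < b j) := by
  classical
  obtain ⟨T, hTA, hT⟩ := Set.exists_subset_encard_eq hn
  have hTf : T.Finite := Set.finite_of_encard_eq_coe hT
  have hcard : hTf.toFinset.card = n := by
    have h1 := hTf.encard_eq_coe_toFinset_card
    rw [hT] at h1
    exact (Nat.cast_injective h1).symm
  set b : Fin n → ℝ := fun i => hTf.toFinset.orderEmbOfFin hcard i with hb
  have hbT : ∀ i, b i ∈ rend A := by
    intro i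
    have h1 := Finset.orderEmbOfFin_mem hTf.toFinset hcard i
    rw [Set.Finite.mem_toFinset] at h1
    exact hTA h1
  have hmono : StrictMono b := (hTf.toFinset.orderEmbOfFin hcard).strictMono
  choose ε hε hεA using fun i => (hbT i).2
  set m : Fin n → ℝ := fun i => min (b i + ε i)
    (if h : (i : ℕ) + 1 < n then b ⟨i + 1, h⟩ else b i + 1) with hm
  have hbm : ∀ i, b i < m i := by
    intro i
    rw [hm]
    refine lt_min (lt_add_of_pos_right _ (hε i)) ?_
    split_ifs with h
    · exact hmono (Fin.lt_def.2 (Nat.lt_succ_self _))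
    · exact lt_add_one _
  refine ⟨b, fun i => (b i + m i) / 2, fun i => (hbT i).1, fun i => ?_, fun i => ?_,
    fun i j hij => ?_⟩
  · refine hεA i _ (by linarith [hbm i]) ?_
    have h1 : m i ≤ b i + ε i := min_le_left _ _
    linarith [hbm i]
  · show b i < (b i + m i) / 2
    linarith [hbm i]
  · show (b i + m i) / 2 < b j
    have hlt : (i : ℕ) + 1 < n := lt_of_le_of_lt (Nat.succ_le_of_lt (Fin.lt_def.1 hij)) j.2
    have h1 : m i ≤ b ⟨i + 1, hlt⟩ := by
      refine (min_le_right _ _).trans ?_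
      rw [dif_pos hlt]
    have h2 : b ⟨i + 1, hlt⟩ ≤ b j := hmono.monotone (Fin.le_def.2 (Nat.succ_le_of_lt
      (Fin.lt_def.1 hij)))
    linarith [hbm i]

end Pool.Agent.RA
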