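import Pool.Agent.H.MP_1b807b_an.A.Basic

/-! MP_1b807b_an, large parameter asymptotics in the plane, module StripA: slices of a sum with a segment -/

set_option autoImplicit false

namespace Pool.Agent.RA

open MeasureTheory Metric Set Pool.Agent.RG
open scoped RealInnerProductSpace ENNReal Topology Pointwise

/-- The slice of `S + segment` is a projection of a strip of `S`. -/
theorem slc_add_segment {S : Set (E 2)} {θ : ℝ} {v : E 2} (hv : 0 < ⟪dir θ, v⟫) (p : ℝ) :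
    slc θ (S + segment ℝ 0 v) p = (fun x : E 2 => ⟪nrm θ, x⟫ +
      ⟪nrm θ, v⟫ / ⟪dir θ, v⟫ * (p - ⟪dir θ, x⟫)) ''
        (S ∩ {x | p - ⟪dir θ, v⟫ ≤ ⟪dir θ, x⟫ ∧ ⟪dir θ, x⟫ ≤ p}) := by
  obtain ⟨a, ha⟩ : ∃ a, a = ⟪dir θ, v⟫ := ⟨_, rfl⟩
  obtain ⟨b, hb⟩ : ∃ b, b = ⟪nrm θ, v⟫ := ⟨_, rfl⟩
  have hv0 : v = a • dir θ + b • nrm θ := by rw [ha, hb, decomp]
  rw [← ha] at hv ⊢
  rw [← hb]
  ext y
  rw [mem_slc]
  constructor
  · intro hy
    obtain ⟨x, hx, w, hw, hxw⟩ := Set.mem_add.1 hy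
    rw [segment_eq_image'] at hw
    obtain ⟨t, ⟨ht0, ht1⟩, rfl⟩ := hw
    simp only [sub_zero, zero_add] at hxw
    have h1 := congrArg (fun z => ⟪dir θ, z⟫) hxw
    have h2 := congrArg (fun z => ⟪nrm θ, z⟫) hxw
    simp only [inner_add_right, inner_smul_right, ← ha, ← hb, inner_dir_dir, inner_dir_nrm,
      inner_nrm_dir, inner_nrm_nrm, mul_one, mul_zero, add_zero, zero_add] at h1 h2
    refine ⟨x, ⟨hx, ?_, ?_⟩, ?_⟩
    · show p - a ≤ ⟪dir θ, x⟫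
      nlinarith
    · show ⟪dir θ, x⟫ ≤ p
      nlinarith
    · show ⟪nrm θ, x⟫ + b / a * (p - ⟪dir θ, x⟫) = y
      have h3 : p - ⟪dir θ, x⟫ = t * a := by linarith
      rw [h3]
      field_simp
      linarith
  · rintro ⟨x, ⟨hx, h1, h2⟩, h3⟩
    have h1' : p - a ≤ ⟪dir θ, x⟫ := h1
    have h2' : ⟪dir θ, x⟫ ≤ p := h2
    have h3' : ⟪nrm θ, x⟫ + b / a * (p - ⟪dir θ, x⟫) = y := h3
    refine Set.mem_add.2 ⟨x, hx, ((p - ⟪dir θ, x⟫) / a) • v, ?_, ?_⟩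
    · rw [segment_eq_image']
      refine ⟨(p - ⟪dir θ, x⟫) / a, ⟨?_, ?_⟩, by simp⟩
      · exact div_nonneg (by linarith) hv.le
      · rw [div_le_one hv]
        linarith
    · obtain ⟨X, hX⟩ : ∃ X, X = ⟪dir θ, x⟫ := ⟨_, rfl⟩
      obtain ⟨Y, hY⟩ : ∃ Y, Y = ⟪nrm θ, x⟫ := ⟨_, rfl⟩
      have hx0 : x = X • dir θ + Y • nrm θ := by rw [hX, hY, decomp]
      rw [← hX] at h3' ⊢
      rw [← hY] at h3'
      have h4 : (p - X) / a * a = p - X := by field_simp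
      have h5 : (p - X) / a * b = b / a * (p - X) := by ring
      rw [← h3', hv0, hx0, smul_add, smul_smul, smul_smul, h4, h5, sub_smul, add_smul]
      abel

end Pool.Agent.RA
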