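import Pool.Agent.H.MP_1b807b_an.A.RendA
import Pool.Agent.H.MP_1b807b_an.A.RendB
import Pool.Agent.H.MP_1b807b_an.A.MV
import Pool.Agent.H.MP_1b807b_an.A.StripA

/-! MP_1b807b_an, large parameter asymptotics in the plane, module StripB: strips, compact case -/

set_option autoImplicit false

namespace Pool.Agent.RA

open MeasureTheory Metric Set Pool.Agent.RG
open scoped RealInnerProductSpace ENNReal Topology Pointwise

/-- the projection along `v` onto the line `ln θ q` -/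
private noncomputable def stripb_pr (θ : ℝ) (v : E 2) (q : ℝ) (x : E 2) : ℝ :=
  ⟪nrm θ, x⟫ + ⟪nrm θ, v⟫ / ⟪dir θ, v⟫ * (q - ⟪dir θ, x⟫)

/-- the strip left of the line `ln θ q` -/
private def stripb_B (θ a q : ℝ) : Set (E 2) := {x | q - a ≤ ⟪dir θ, x⟫ ∧ ⟪dir θ, x⟫ ≤ q}

private theorem stripb_closed (θ a q : ℝ) : IsClosed (stripb_B θ a q) := by
  have h1 : IsClosed {x : E 2 | q - a ≤ ⟪dir θ, x⟫} :=
    isClosed_le continuous_const (continuous_const.inner continuous_id)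
  have h2 : IsClosed {x : E 2 | ⟪dir θ, x⟫ ≤ q} :=
    isClosed_le (continuous_const.inner continuous_id) continuous_const
  exact h1.inter h2

private theorem stripb_cont (θ : ℝ) (v : E 2) (q : ℝ) : Continuous (stripb_pr θ v q) := by
  unfold stripb_pr
  fun_prop

/-- the counting function of the cuts -/
private theorem stripb_count {S : Set (E 2)} {θ : ℝ} {v : E 2} (hv : 0 < ⟪dir θ, v⟫) (q : ℝ)
    (n : ℕ) (hn : (n : ℕ∞) ≤ (rend (slc θ (S + segment ℝ 0 v) q)).encard) :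
    ∃ (Φ : E 2 → ℕ) (nn : ℕ), n ≤ nn ∧ ContinuousOn Φ (S ∩ stripb_B θ ⟪dir θ, v⟫ q) ∧
      (∀ j < nn, ∃ x ∈ S ∩ stripb_B θ ⟪dir θ, v⟫ q, Φ x = j) ∧
      ∀ x ∈ S ∩ stripb_B θ ⟪dir θ, v⟫ q, Φ x < nn := by
  classical
  obtain ⟨b, c, hb, hc, hbc, hcb⟩ := exists_cuts hn
  rw [slc_add_segment hv q] at hb hc
  have hle : ∀ x : E 2, (Finset.univ.filter fun i => c i < stripb_pr θ v q x).card ≤ n := by
    intro x
    refine (Finset.card_le_univ _).trans ?_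
    rw [Fintype.card_fin]
  have hatt : ∀ j < n, ∃ x ∈ S ∩ stripb_B θ ⟪dir θ, v⟫ q,
      (Finset.univ.filter fun i => c i < stripb_pr θ v q x).card = j := by
    intro j hj
    obtain ⟨x, hx, hxb⟩ := hb ⟨j, hj⟩
    refine ⟨x, hx, ?_⟩
    have h1 : (Finset.univ.filter fun i => c i < stripb_pr θ v q x) =
        Finset.Iio (⟨j, hj⟩ : Fin n) := by
      ext i
      rw [Finset.mem_filter, Finset.mem_Iio]
      have h2 : stripb_pr θ v q x = b ⟨j, hj⟩ := hxb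
      rw [h2]
      constructor
      · rintro ⟨-, h⟩
        by_contra hlt
        rw [not_lt] at hlt
        rcases hlt.eq_or_lt with h3 | h3
        · rw [h3] at h
          exact absurd (hbc i) (not_lt.2 h.le)
        · have h4 := hcb _ _ h3
          have h5 := hbc ⟨j, hj⟩
          have h6 := hbc i
          linarith
      · intro h
        exact ⟨Finset.mem_univ _, hcb _ _ h⟩
    rw [h1, Fin.card_Iio]
  have hcont : ContinuousOn (fun x => (Finset.univ.filter fun i => c i < stripb_pr θ v q x).card)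
      (S ∩ stripb_B θ ⟪dir θ, v⟫ q) := by
    intro x hx
    refine ContinuousAt.continuousWithinAt ?_
    have h1 : ∀ᶠ y in 𝓝 x, ∀ i, (c i < stripb_pr θ v q y ↔ c i < stripb_pr θ v q x) := by
      rw [Filter.eventually_all]
      intro i
      have hne : stripb_pr θ v q x ≠ c i := by
        intro h
        exact hc i ⟨x, hx, h⟩
      rcases lt_or_gt_of_ne hne with h | h
      · filter_upwards [(stripb_cont θ v q).continuousAt.eventually_lt continuousAt_const h]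
          with y hy
        exact ⟨fun h' => absurd h' (not_lt.2 hy.le), fun h' => absurd h' (not_lt.2 h.le)⟩
      · filter_upwards [continuousAt_const.eventually_lt (stripb_cont θ v q).continuousAt h]
          with y hy
        exact ⟨fun _ => h, fun _ => hy⟩
    refine (continuousAt_const (y := (Finset.univ.filter fun i =>
      c i < stripb_pr θ v q x).card)).congr ?_
    filter_upwards [h1] with y hy
    congr 1
    ext i
    rw [Finset.mem_filter, Finset.mem_filter, hy i]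
  by_cases h : ∃ x ∈ S ∩ stripb_B θ ⟪dir θ, v⟫ q,
      (Finset.univ.filter fun i => c i < stripb_pr θ v q x).card = n
  · refine ⟨_, n + 1, Nat.le_succ n, hcont, ?_, fun x hx => Nat.lt_succ_of_le (hle x)⟩
    intro j hj
    rcases (Nat.lt_succ_iff_lt_or_eq.1 hj) with h1 | h1
    · exact hatt j h1
    · rw [h1]
      exact h
  · refine ⟨_, n, le_rfl, hcont, hatt, fun x hx => lt_of_le_of_ne (hle x) fun h' => h ⟨x, hx, h'⟩⟩

/-- a point of the slice can be joined inside the slice to a right endpoint -/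
private theorem stripb_join {S : Set (E 2)} (hS : IsCompact S) {θ q : ℝ}
    (hfin : (rend (slc θ S q)).Finite) {x : E 2} (hx : x ∈ S) (hxq : ⟪dir θ, x⟫ = q) :
    ∃ y ∈ rend (slc θ S q), ∀ Φ : E 2 → ℕ, ContinuousOn Φ (S ∩ ln θ q) →
      Φ x = Φ (q • dir θ + y • nrm θ) := by
  have hxe : q • dir θ + ⟪nrm θ, x⟫ • nrm θ = x := by
    conv_rhs => rw [← decomp θ x]
    rw [hxq]
  have hxs : ⟪nrm θ, x⟫ ∈ slc θ S q := by
    rw [mem_slc, hxe]
    exact hx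
  rcases exists_rend (isClosed_slc hS.isClosed q) hfin hxs with ⟨b, hb, hxb, hsub⟩ | h
  · refine ⟨b, hb, fun Φ hΦ => ?_⟩
    have hpre : IsPreconnected ((fun y : ℝ => q • dir θ + y • nrm θ) '' Icc ⟪nrm θ, x⟫ b) :=
      isPreconnected_Icc.image _ (by fun_prop)
    have hss : (fun y : ℝ => q • dir θ + y • nrm θ) '' Icc ⟪nrm θ, x⟫ b ⊆ S ∩ ln θ q := by
      rintro _ ⟨y, hy, rfl⟩
      exact ⟨hsub hy, inner_dir_comb θ q y⟩
    refine hpre.constant (hΦ.mono hss) ?_ ?_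
    · exact ⟨⟪nrm θ, x⟫, ⟨le_rfl, hxb⟩, hxe⟩
    · exact ⟨b, ⟨hxb, le_rfl⟩, rfl⟩
  · exfalso
    obtain ⟨C, hC⟩ := hS.isBounded.exists_norm_le
    have h1 : max ⟪nrm θ, x⟫ (C + 1) ∈ slc θ S q := h (Set.mem_Ici.2 (le_max_left _ _))
    have h2 := hC _ h1
    have h3 := abs_inner_nrm_le θ (q • dir θ + (max ⟪nrm θ, x⟫ (C + 1)) • nrm θ)
    rw [inner_nrm_comb] at h3
    have h4 := le_abs_self (max ⟪nrm θ, x⟫ (C + 1))
    have h5 := le_max_right ⟪nrm θ, x⟫ (C + 1)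
    linarith

private theorem stripb_core {S : Set (E 2)} (hS : IsCompact S) (hc : IsPreconnected S) {θ : ℝ}
    {v : E 2} (hv : 0 < ⟪dir θ, v⟫) (p : ℝ) (K : ℕ)
    (hK : ∀ x ∈ S, p - K * ⟪dir θ, v⟫ ≤ ⟪dir θ, x⟫ ∧ ⟪dir θ, x⟫ ≤ p + K * ⟪dir θ, v⟫)
    (hfin : ∀ k : ℤ, (rend (slc θ S (p + k * ⟪dir θ, v⟫))).Finite)
    (n : Fin (2 * K + 1 + 1) → ℕ) (hn : ∀ i, (n i : ℕ∞) ≤
      (rend (slc θ (S + segment ℝ 0 v)
        (p + ((((i : ℕ) : ℤ) - K : ℤ) : ℝ) * ⟪dir θ, v⟫))).encard) :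
    ∑ i, n i ≤ (∑ i : Fin (2 * K + 1), (hfin (((i : ℕ) : ℤ) - K)).toFinset.card) + 1 := by
  classical
  choose Φ nn h1 h2 h3 h4 using fun i : Fin (2 * K + 1 + 1) => stripb_count (S := S) hv
    (p + ((((i : ℕ) : ℤ) - K : ℤ) : ℝ) * ⟪dir θ, v⟫) (n i) (hn i)
  have hmain := mv_core hc (2 * K + 1)
    (fun i => stripb_B θ ⟪dir θ, v⟫ (p + ((((i : ℕ) : ℤ) - K : ℤ) : ℝ) * ⟪dir θ, v⟫))
    (fun i => stripb_closed _ _ _) ?_ ?_ Φ h2 nn h3 h4
    (fun i => (hfin (((i : ℕ) : ℤ) - K)).toFinset.image fun y =>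
      (p + ((((i : ℕ) : ℤ) - K : ℤ) : ℝ) * ⟪dir θ, v⟫) • dir θ + y • nrm θ) ?_ ?_
  · refine (Finset.sum_le_sum fun i _ => h1 i).trans (hmain.trans ?_)
    exact Nat.add_le_add_right (Finset.sum_le_sum fun i _ => Finset.card_image_le) 1
  · intro x hx
    obtain ⟨hx1, hx2⟩ := hK x hx
    have ht0 : 0 ≤ (⟪dir θ, x⟫ - p) / ⟪dir θ, v⟫ + K := by
      rw [← sub_nonneg] at hx1
      have h5 : (⟪dir θ, x⟫ - p) / ⟪dir θ, v⟫ + K =
          (⟪dir θ, x⟫ - (p - K * ⟪dir θ, v⟫)) / ⟪dir θ, v⟫ := by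
        field_simp
        ring
      rw [h5]
      exact div_nonneg hx1 hv.le
    have ht1 : (⟪dir θ, x⟫ - p) / ⟪dir θ, v⟫ + K ≤ (2 * K : ℕ) := by
      have h5 : (⟪dir θ, x⟫ - p) / ⟪dir θ, v⟫ ≤ K := by
        rw [div_le_iff₀ hv]
        linarith
      push_cast
      linarith
    have hi : ⌈(⟪dir θ, x⟫ - p) / ⟪dir θ, v⟫ + K⌉₊ ≤ 2 * K := Nat.ceil_le.2 ht1
    have hle := Nat.le_ceil ((⟪dir θ, x⟫ - p) / ⟪dir θ, v⟫ + K)
    have hlt := Nat.ceil_lt_add_one ht0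
    have hcan : (⟪dir θ, x⟫ - p) / ⟪dir θ, v⟫ * ⟪dir θ, v⟫ = ⟪dir θ, x⟫ - p :=
      div_mul_cancel₀ _ hv.ne'
    refine Set.mem_iUnion.2 ⟨⟨⌈(⟪dir θ, x⟫ - p) / ⟪dir θ, v⟫ + K⌉₊, by omega⟩, ?_, ?_⟩
    · show p + (((⌈(⟪dir θ, x⟫ - p) / ⟪dir θ, v⟫ + K⌉₊ : ℤ) - K : ℤ) : ℝ) * ⟪dir θ, v⟫
        - ⟪dir θ, v⟫ ≤ ⟪dir θ, x⟫
      push_cast
      nlinarith
    · show ⟪dir θ, x⟫ ≤ p + (((⌈(⟪dir θ, x⟫ - p) / ⟪dir θ, v⟫ + K⌉₊ : ℤ) - K : ℤ) : ℝ) *
        ⟪dir θ, v⟫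
      push_cast
      nlinarith
  · intro i j hij
    rw [Set.disjoint_left]
    rintro x ⟨-, hx⟩ hx'
    have h5 : ⟪dir θ, x⟫ ≤ p + ((((i : ℕ) : ℤ) - K : ℤ) : ℝ) * ⟪dir θ, v⟫ := hx.2
    have h6 : p + ((((j : ℕ) : ℤ) - K : ℤ) : ℝ) * ⟪dir θ, v⟫ - ⟪dir θ, v⟫ ≤ ⟪dir θ, x⟫ := hx'.1
    have h7 : ((i : ℕ) : ℝ) + 1 < ((j : ℕ) : ℝ) := by exact_mod_cast hij
    push_cast at h5 h6
    nlinarith
  · intro i y hy
    rw [Finset.mem_image] at hy
    obtain ⟨z, hz, rfl⟩ := hy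
    rw [Set.Finite.mem_toFinset] at hz
    refine ⟨⟨hz.1, ?_, ?_⟩, ?_, ?_⟩
    · show _ - _ ≤ ⟪dir θ, _⟫
      rw [inner_dir_comb, Fin.val_castSucc]
      linarith
    · show ⟪dir θ, _⟫ ≤ _
      rw [inner_dir_comb, Fin.val_castSucc]
    · show _ - _ ≤ ⟪dir θ, _⟫
      rw [inner_dir_comb, Fin.val_succ]
      push_cast
      linarith
    · show ⟪dir θ, _⟫ ≤ _
      rw [inner_dir_comb, Fin.val_succ]
      push_cast
      linarith
  · intro i x hx
    obtain ⟨⟨hxS, hxa⟩, hxb⟩ := hx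
    have h5 : ⟪dir θ, x⟫ ≤ p + ((((i.castSucc : ℕ) : ℤ) - K : ℤ) : ℝ) * ⟪dir θ, v⟫ := hxa.2
    have h6 : p + ((((i.succ : ℕ) : ℤ) - K : ℤ) : ℝ) * ⟪dir θ, v⟫ - ⟪dir θ, v⟫ ≤ ⟪dir θ, x⟫ :=
      hxb.1
    rw [Fin.val_castSucc] at h5
    rw [Fin.val_succ] at h6
    have h7 : ⟪dir θ, x⟫ = p + ((((i : ℕ) : ℤ) - K : ℤ) : ℝ) * ⟪dir θ, v⟫ := by
      push_cast at h5 h6 ⊢
      linarith
    obtain ⟨y, hy, hyΦ⟩ := stripb_join hS (hfin (((i : ℕ) : ℤ) - K)) hxS h7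
    refine ⟨_, Finset.mem_image.2 ⟨y, (Set.Finite.mem_toFinset _).2 hy, rfl⟩, ?_, ?_⟩
    · refine hyΦ _ ((h2 i.castSucc).mono ?_)
      rintro z ⟨hz, hz'⟩
      rw [mem_ln] at hz'
      refine ⟨hz, ?_, ?_⟩
      · show _ - _ ≤ ⟪dir θ, _⟫
        rw [hz', Fin.val_castSucc]
        linarith
      · show ⟪dir θ, _⟫ ≤ _
        rw [hz', Fin.val_castSucc]
    · refine hyΦ _ ((h2 i.succ).mono ?_)
      rintro z ⟨hz, hz'⟩
      rw [mem_ln] at hz'
      refine ⟨hz, ?_, ?_⟩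
      · show _ - _ ≤ ⟪dir θ, _⟫
        rw [hz', Fin.val_succ]
        push_cast
        linarith
      · show ⟪dir θ, _⟫ ≤ _
        rw [hz', Fin.val_succ]
        push_cast
        linarith

/-- sums of extended cardinalities as suprema of sums of natural numbers -/
private theorem stripb_sup {ι : Type*} [Fintype ι] (s : ι → ℕ∞) (C : ℕ)
    (h : ∀ n : ι → ℕ, (∀ i, (n i : ℕ∞) ≤ s i) → ∑ i, n i ≤ C) :
    ∑ i, ((s i : ℕ∞) : ℝ≥0∞) ≤ C := by
  classical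
  have hfin : ∀ i, s i ≠ ⊤ := by
    intro i hi
    have h1 := h (fun j => if j = i then C + 1 else 0) (fun j => by
      by_cases hj : j = i
      · rw [if_pos hj, hj, hi]
        exact le_top
      · rw [if_neg hj]
        exact bot_le)
    rw [Finset.sum_ite_eq' Finset.univ i, if_pos (Finset.mem_univ i)] at h1
    omega
  have h1 := h (fun i => (s i).toNat) fun i => (ENat.natCast_toNat (hfin i)).le
  have h2 : ∀ i, ((s i : ℕ∞) : ℝ≥0∞) = (((s i).toNat : ℕ) : ℝ≥0∞) := by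
    intro i
    conv_lhs => rw [← ENat.natCast_toNat (hfin i)]
    rfl
  calc ∑ i, ((s i : ℕ∞) : ℝ≥0∞) = ∑ i, (((s i).toNat : ℕ) : ℝ≥0∞) :=
        Finset.sum_congr rfl fun i _ => h2 i
    _ = ((∑ i, (s i).toNat : ℕ) : ℝ≥0∞) := by rw [Nat.cast_sum]
    _ ≤ C := by exact_mod_cast h1

/-- PROOF: write `a = ⟪dir θ, v⟫`. If some `rend` on the right is infinite the right side is `⊤`.
Let `K` be so large that `S ⊆ {p - K a < ⟪dir θ, x⟫ < p + K a}`; all terms with `|k| > K` vanish on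
both sides (empty slices). Apply `mv_core` with the strips
`B_k = {p + (k-1) a ≤ ⟪dir θ, x⟫ ≤ p + k a}`, `k = -K, ..., K+1`. For each strip let `n_k` be a
natural number `≤ encard (rend (slc θ (S + segment) (p + k a)))`, `c` the cuts of `exists_cuts` and
`Φ_k x` the number of `i` with `c i < ` the projection of `x` along `v` (`slc_add_segment`); it is
locally constant since the cuts are not attained; its values are `0, ..., n_k - 1` (attained at
points over the `b i`) and possibly `n_k`. For the line between `B_k` and `B_{k+1}` take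
`G_k = ` the points over `rend (slc θ S (p + k a))`; by `exists_rend` each point of
`S ∩ B_k ∩ B_{k+1}` can be joined inside this set to a point of `G_k` (the slice is bounded), so
`Φ_k`, `Φ_{k+1}` agree there. So `∑ n_k ≤ ∑ |G_k| + 1`; take the supremum over the `n_k`. -/
theorem strip_compact {S : Set (E 2)} (hS : IsCompact S) (hc : IsPreconnected S) {θ : ℝ} {v : E 2}
    (hv : 0 < ⟪dir θ, v⟫) (p : ℝ) :
    ∑' k : ℤ, cnt (rend (slc θ (S + segment ℝ 0 v) (p + k * ⟪dir θ, v⟫))) ≤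
      (∑' k : ℤ, cnt (rend (slc θ S (p + k * ⟪dir θ, v⟫)))) + 1 := by
  classical
  by_cases hfin : ∀ k : ℤ, (rend (slc θ S (p + k * ⟪dir θ, v⟫))).Finite
  swap
  · push Not at hfin
    obtain ⟨k, hk⟩ := hfin
    have h1 : cnt (rend (slc θ S (p + k * ⟪dir θ, v⟫))) = ⊤ := by
      rw [cnt, Set.Infinite.encard_eq hk]
      rfl
    have h2 := ENNReal.le_tsum (f := fun k : ℤ => cnt (rend (slc θ S (p + k * ⟪dir θ, v⟫)))) k
    simp only [h1, top_le_iff] at h2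
    rw [h2, top_add]
    exact le_top
  obtain ⟨C, hC⟩ := hS.isBounded.exists_norm_le
  rw [ENNReal.tsum_eq_iSup_sum]
  refine iSup_le fun s => ?_
  obtain ⟨K0, hK0⟩ := exists_nat_ge ((|C| + |p|) / ⟪dir θ, v⟫)
  obtain ⟨K, hK1, hK2⟩ : ∃ K : ℕ, K0 ≤ K ∧ ∀ k ∈ s, |k| ≤ K := by
    refine ⟨max K0 (s.sup fun k => k.natAbs), le_max_left _ _, fun k hk => ?_⟩
    have h1 : k.natAbs ≤ s.sup fun k => k.natAbs := Finset.le_sup (f := fun k : ℤ => k.natAbs) hk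
    have h2 := le_max_right K0 (s.sup fun k => k.natAbs)
    rw [Int.abs_eq_natAbs]
    exact_mod_cast h1.trans h2
  have hKa : |C| + |p| ≤ K * ⟪dir θ, v⟫ := by
    rw [div_le_iff₀ hv] at hK0
    refine hK0.trans ?_
    exact mul_le_mul_of_nonneg_right (by exact_mod_cast hK1) hv.le
  have hKS : ∀ x ∈ S, p - K * ⟪dir θ, v⟫ ≤ ⟪dir θ, x⟫ ∧ ⟪dir θ, x⟫ ≤ p + K * ⟪dir θ, v⟫ := by
    intro x hx
    have h1 := abs_le.1 ((abs_inner_dir_le θ x).trans (hC x hx))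
    have h2 := le_abs_self C
    have h3 := abs_le.1 (le_refl |p|)
    constructor <;> linarith [h1.1, h1.2, h3.1, h3.2]
  set f : ℤ → ℝ≥0∞ := fun k => cnt (rend (slc θ (S + segment ℝ 0 v) (p + k * ⟪dir θ, v⟫)))
    with hf
  set g : ℤ → ℝ≥0∞ := fun k => cnt (rend (slc θ S (p + k * ⟪dir θ, v⟫))) with hg
  have h1 : ∑ k ∈ s, f k ≤ ∑ i : Fin (2 * K + 1 + 1), f (((i : ℕ) : ℤ) - K) := by
    have hinj : Function.Injective (fun i : Fin (2 * K + 1 + 1) => ((i : ℕ) : ℤ) - K) := by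
      intro i j hij
      have : (i : ℕ) = (j : ℕ) := by
        have h2 : ((i : ℕ) : ℤ) - K = ((j : ℕ) : ℤ) - K := hij
        omega
      exact Fin.ext this
    have h2 : ∑ i : Fin (2 * K + 1 + 1), f (((i : ℕ) : ℤ) - K) =
        ∑ k ∈ Finset.univ.map ⟨_, hinj⟩, f k := by
      rw [Finset.sum_map]
      rfl
    rw [h2]
    refine Finset.sum_le_sum_of_subset ?_
    intro k hk
    have h3 := abs_le.1 (hK2 k hk)
    rw [Finset.mem_map]
    refine ⟨⟨(k + K).toNat, by omega⟩, Finset.mem_univ _, ?_⟩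
    show (((k + K).toNat : ℕ) : ℤ) - K = k
    omega
  have h2 : ((∑ i : Fin (2 * K + 1), (hfin (((i : ℕ) : ℤ) - K)).toFinset.card : ℕ) : ℝ≥0∞) ≤
      ∑' k, g k := by
    have hinj : Function.Injective (fun i : Fin (2 * K + 1) => ((i : ℕ) : ℤ) - K) := by
      intro i j hij
      have : (i : ℕ) = (j : ℕ) := by
        have h2 : ((i : ℕ) : ℤ) - K = ((j : ℕ) : ℤ) - K := hij
        omega
      exact Fin.ext this
    have h3 : ∑ i : Fin (2 * K + 1), g (((i : ℕ) : ℤ) - K) =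
        ∑ k ∈ Finset.univ.map ⟨_, hinj⟩, g k := by
      rw [Finset.sum_map]
      rfl
    refine le_trans (le_of_eq ?_) (h3.le.trans (ENNReal.sum_le_tsum _))
    rw [Nat.cast_sum]
    refine Finset.sum_congr rfl fun i _ => ?_
    rw [hg]
    simp only [cnt]
    rw [(hfin (((i : ℕ) : ℤ) - K)).encard_eq_coe_toFinset_card]
    rfl
  refine h1.trans ?_
  have h3 := stripb_sup (fun i : Fin (2 * K + 1 + 1) =>
    (rend (slc θ (S + segment ℝ 0 v)
      (p + ((((i : ℕ) : ℤ) - K : ℤ) : ℝ) * ⟪dir θ, v⟫))).encard) _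
    (fun n hn => stripb_core hS hc hv p K hKS hfin n hn)
  refine le_trans (le_of_eq ?_) (h3.trans ?_)
  · rfl
  · rw [Nat.cast_add, Nat.cast_one]
    exact add_le_add_left h2 1

end Pool.Agent.RA
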