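import Pool.Agent.H.MP_1b807b_an.A.RendA
import Pool.Agent.H.MP_1b807b_an.A.RendB
import Pool.Agent.H.MP_1b807b_an.A.MV
import Pool.Agent.H.MP_1b807b_an.A.StripA

/-! MP_1b807b_an, large parameter asymptotics in the plane, module StripC: strips, cobounded case -/

set_option autoImplicit false

namespace Pool.Agent.RA

open MeasureTheory Metric Set Pool.Agent.RG
open scoped RealInnerProductSpace ENNReal Topology Pointwise

/-- the number of cuts below `y` -/
noncomputable def stripc_cnt {n : ℕ} (c : Fin n → ℝ) (y : ℝ) : ℕ := ∑ i, if c i < y then 1 else 0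

theorem stripc_cnt_le {n : ℕ} (c : Fin n → ℝ) (y : ℝ) : stripc_cnt c y ≤ n := by
  unfold stripc_cnt
  refine (Finset.sum_le_sum (g := fun _ => 1) fun i _ => ?_).trans ?_
  · split_ifs <;> simp
  · simp

theorem stripc_cnt_top {n : ℕ} (c : Fin n → ℝ) {y : ℝ} (h : ∀ i, c i < y) :
    stripc_cnt c y = n := by
  unfold stripc_cnt
  rw [Finset.sum_congr rfl (fun i _ => if_pos (h i))]
  simp

theorem stripc_cnt_val {n : ℕ} {b c : Fin n → ℝ} (h1 : ∀ i, b i < c i)
    (h2 : ∀ i j, i < j → c i < b j) (j : Fin n) : stripc_cnt c (b j) = j := by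
  unfold stripc_cnt
  have h3 : ∀ i, c i < b j ↔ i < j := by
    intro i
    refine ⟨fun h => ?_, h2 i j⟩
    by_contra hji
    rw [not_lt] at hji
    rcases hji.eq_or_lt with h4 | h4
    · subst h4
      exact absurd h (not_lt.2 (h1 j).le)
    · have := h2 j i h4
      linarith [h1 j, h1 i]
  rw [Finset.sum_congr rfl (fun i _ => by rw [if_congr (h3 i) rfl rfl])]
  rw [Finset.sum_boole, Finset.filter_gt_eq_Iio, Fin.card_Iio]
  rfl

theorem stripc_cont {X : Type*} [TopologicalSpace X] {T : Set X} {f : X → ℝ}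
    (hf : ContinuousOn f T) {n : ℕ} (c : Fin n → ℝ) (h : ∀ x ∈ T, ∀ i, f x ≠ c i) :
    ContinuousOn (fun x => stripc_cnt c (f x)) T := by
  unfold stripc_cnt
  refine continuousOn_finset_sum _ fun i _ => ?_
  intro x hx
  rcases (h x hx i).lt_or_gt with h1 | h1
  · have h2 : ∀ᶠ y in 𝓝[T] x, f y < c i := (hf x hx).eventually_lt_const h1
    refine (continuousWithinAt_const (b := 0)).congr_of_eventuallyEq ?_ ?_
    · filter_upwards [h2] with y hy
      rw [if_neg (not_lt.2 hy.le)]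
    · rw [if_neg (not_lt.2 h1.le)]
  · have h2 : ∀ᶠ y in 𝓝[T] x, c i < f y := (hf x hx).eventually_const_lt h1
    refine (continuousWithinAt_const (b := 1)).congr_of_eventuallyEq ?_ ?_
    · filter_upwards [h2] with y hy
      rw [if_pos hy]
    · rw [if_pos h1]

theorem stripc_rend_univ : rend (univ : Set ℝ) = ∅ := by
  rw [eq_empty_iff_forall_notMem]
  rintro b ⟨-, ε, hε, h⟩
  exact h (b + ε / 2) (by linarith) (by linarith) (mem_univ _)

/-- the strips and the two half planes -/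
def stripc_B (θ p a : ℝ) (K : ℕ) (i : Fin (2 * K + 1 + 1)) : Set (E 2) :=
  {x | ((i : ℕ) = 0 ∨ p + (((i : ℕ) : ℤ) - K : ℤ) * a - a ≤ ⟪dir θ, x⟫) ∧
    ((i : ℕ) = 2 * K + 1 ∨ ⟪dir θ, x⟫ ≤ p + (((i : ℕ) : ℤ) - K : ℤ) * a)}

theorem stripc_B_closed (θ p a : ℝ) (K : ℕ) (i : Fin (2 * K + 1 + 1)) :
    IsClosed (stripc_B θ p a K i) := by
  have hc : Continuous fun x : E 2 => ⟪dir θ, x⟫ := continuous_const.inner continuous_id
  refine IsClosed.inter (s₁ := {x : E 2 | (i : ℕ) = 0 ∨ p + (((i : ℕ) : ℤ) - K : ℤ) * a - a ≤ ⟪dir θ, x⟫})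
    (s₂ := {x : E 2 | (i : ℕ) = 2 * K + 1 ∨ ⟪dir θ, x⟫ ≤ p + (((i : ℕ) : ℤ) - K : ℤ) * a}) ?_ ?_
  · exact isClosed_const.union (isClosed_le continuous_const hc)
  · exact isClosed_const.union (isClosed_le hc continuous_const)

theorem stripc_B_cov (θ p : ℝ) {a : ℝ} (ha : 0 < a) (K : ℕ) (x : E 2) :
    ∃ i, x ∈ stripc_B θ p a K i := by
  set t := ⟪dir θ, x⟫ with ht
  rcases le_or_gt t (p - K * a) with h1 | h1
  · refine ⟨⟨0, by omega⟩, Or.inl rfl, Or.inr ?_⟩
    rw [← ht]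
    push_cast
    linarith
  rcases le_or_gt (p + K * a) t with h2 | h2
  · refine ⟨⟨2 * K + 1, by omega⟩, Or.inr ?_, Or.inl rfl⟩
    rw [← ht]
    push_cast
    linarith
  · set m : ℤ := ⌈(t - p) / a⌉ with hm
    have m1 : (t - p) / a ≤ m := Int.le_ceil _
    have m2 : (m : ℝ) < (t - p) / a + 1 := Int.ceil_lt_add_one _
    rw [div_le_iff₀ ha] at m1
    have m2' : (m : ℝ) * a < (t - p) + a := by
      have := mul_lt_mul_of_pos_right m2 ha
      rwa [add_mul, div_mul_cancel₀ _ ha.ne', one_mul] at this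
    have hmK : m ≤ K := by
      rw [hm, Int.ceil_le, div_le_iff₀ ha]
      push_cast
      linarith
    have hmK' : -(K : ℤ) < m := by
      have h3 : ((-(K : ℤ) : ℤ) : ℝ) < m := by
        refine lt_of_lt_of_le ?_ (Int.le_ceil _)
        rw [lt_div_iff₀ ha]
        push_cast
        linarith
      exact_mod_cast h3
    have hi : (((m + K).toNat : ℕ) : ℤ) = m + K := Int.toNat_of_nonneg (by omega)
    refine ⟨⟨(m + K).toNat, by omega⟩, Or.inr ?_, Or.inr ?_⟩
    · rw [← ht, hi]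
      push_cast
      linarith
    · rw [← ht, hi]
      push_cast
      linarith

theorem stripc_B_line {θ p a : ℝ} (ha : 0 < a) {K : ℕ} (i : Fin (2 * K + 1)) {x : E 2} :
    x ∈ stripc_B θ p a K i.castSucc ∩ stripc_B θ p a K i.succ ↔
      ⟪dir θ, x⟫ = p + (((i : ℕ) : ℤ) - K : ℤ) * a := by
  have hi := i.2
  constructor
  · rintro ⟨⟨-, h1⟩, ⟨h2, -⟩⟩
    rw [Fin.val_castSucc] at h1
    rw [Fin.val_succ] at h2
    have h1' := h1.resolve_left (by omega)
    have h2' := h2.resolve_left (by omega)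
    refine le_antisymm h1' ?_
    push_cast at h2' ⊢
    linarith
  · intro h
    refine ⟨⟨Or.inr ?_, Or.inr ?_⟩, ⟨Or.inr ?_, Or.inr ?_⟩⟩
    · rw [h, Fin.val_castSucc]
      linarith
    · rw [h, Fin.val_castSucc]
    · rw [h, Fin.val_succ]
      push_cast
      linarith
    · rw [h, Fin.val_succ]
      push_cast
      linarith

/-- the core inequality -/
theorem stripc_core {S : Set (E 2)} (hS : IsClosed S) (hc : IsPreconnected S) {R : ℝ} (hR : 0 < R)
    (hb : ∀ x : E 2, R ≤ ‖x‖ → x ∈ S) {θ : ℝ} {v : E 2} (hv : 0 < ⟪dir θ, v⟫) (p : ℝ) (K : ℕ)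
    (hfin : ∀ k : ℤ, (rend (slc θ S (p + k * ⟪dir θ, v⟫))).Finite) (n : ℤ → ℕ)
    (hn : ∀ k : ℤ, (n k : ℕ∞) ≤
      (rend (slc θ (S + segment ℝ 0 v) (p + k * ⟪dir θ, v⟫))).encard) :
    ∑ i ∈ Finset.range (2 * K), n ((i : ℤ) + 1 - K) ≤
      ∑ i ∈ Finset.range (2 * K + 1), (rend (slc θ S (p + ((i : ℤ) - K : ℤ) * ⟪dir θ, v⟫))).ncard := by
  classical
  set a := ⟪dir θ, v⟫ with ha
  choose b c hbA hcA hbc hcb using fun k : ℤ => exists_cuts (hn k)
  -- the projection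
  let pr : ℤ → E 2 → ℝ := fun k x => ⟪nrm θ, x⟫ + ⟪nrm θ, v⟫ / a * ((p + k * a) - ⟪dir θ, x⟫)
  have hprc : ∀ k, Continuous (pr k) := fun k =>
    (continuous_const.inner continuous_id).add (continuous_const.mul
      (continuous_const.sub (continuous_const.inner continuous_id)))
  have hslc : ∀ k : ℤ, slc θ (S + segment ℝ 0 v) (p + k * a) = pr k ''
      (S ∩ {x | (p + k * a) - a ≤ ⟪dir θ, x⟫ ∧ ⟪dir θ, x⟫ ≤ p + k * a}) := fun k =>
    slc_add_segment hv (p + k * a)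
  -- the point at height `y` of the line `q`
  let pt : ℝ → ℝ → E 2 := fun q y => q • dir θ + y • nrm θ
  have hpt1 : ∀ q y, ⟪dir θ, pt q y⟫ = q := fun q y => inner_dir_comb θ q y
  have hpt2 : ∀ q y, ⟪nrm θ, pt q y⟫ = y := fun q y => inner_nrm_comb θ q y
  have hptS : ∀ q y, R ≤ y → pt q y ∈ S := by
    intro q y hy
    refine hb _ (hy.trans ?_)
    have := abs_inner_nrm_le θ (pt q y)
    rw [hpt2] at this
    exact (le_abs_self y).trans this
  let Φ : Fin (2 * K + 1 + 1) → E 2 → ℕ := fun i x =>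
    if (i : ℕ) = 0 ∨ (i : ℕ) = 2 * K + 1 then 0
    else stripc_cnt (c (((i : ℕ) : ℤ) - K)) (pr (((i : ℕ) : ℤ) - K) x)
  let nn : Fin (2 * K + 1 + 1) → ℕ := fun i =>
    if (i : ℕ) = 0 ∨ (i : ℕ) = 2 * K + 1 then 1 else n (((i : ℕ) : ℤ) - K) + 1
  let G : Fin (2 * K + 1) → Finset (E 2) := fun i =>
    (insert R (hfin (((i : ℕ) : ℤ) - K)).toFinset).image (pt (p + (((i : ℕ) : ℤ) - K : ℤ) * a))
  have hΦ0 : ∀ i : Fin (2 * K + 1 + 1), ((i : ℕ) = 0 ∨ (i : ℕ) = 2 * K + 1) → ∀ x, Φ i x = 0 :=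
    fun i hi x => if_pos hi
  have hΦ1 : ∀ i : Fin (2 * K + 1 + 1), ¬ ((i : ℕ) = 0 ∨ (i : ℕ) = 2 * K + 1) → ∀ x, Φ i x =
      stripc_cnt (c (((i : ℕ) : ℤ) - K)) (pr (((i : ℕ) : ℤ) - K) x) := fun i hi x => if_neg hi
  have hnn0 : ∀ i : Fin (2 * K + 1 + 1), ((i : ℕ) = 0 ∨ (i : ℕ) = 2 * K + 1) → nn i = 1 :=
    fun i hi => if_pos hi
  have hnn1 : ∀ i : Fin (2 * K + 1 + 1), ¬ ((i : ℕ) = 0 ∨ (i : ℕ) = 2 * K + 1) →
      nn i = n (((i : ℕ) : ℤ) - K) + 1 := fun i hi => if_neg hi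
  have hstrip : ∀ i : Fin (2 * K + 1 + 1), ¬ ((i : ℕ) = 0 ∨ (i : ℕ) = 2 * K + 1) →
      S ∩ stripc_B θ p a K i = S ∩ {x | (p + (((i : ℕ) : ℤ) - K : ℤ) * a) - a ≤ ⟪dir θ, x⟫ ∧
        ⟪dir θ, x⟫ ≤ p + (((i : ℕ) : ℤ) - K : ℤ) * a} := by
    intro i hi
    rw [not_or] at hi
    ext x
    refine and_congr_right fun _ => ?_
    exact ⟨fun h => ⟨h.1.resolve_left hi.1, h.2.resolve_left hi.2⟩, fun h => ⟨Or.inr h.1, Or.inr h.2⟩⟩
  have hΦc : ∀ i, ContinuousOn (Φ i) (S ∩ stripc_B θ p a K i) := by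
    intro i
    by_cases hi : (i : ℕ) = 0 ∨ (i : ℕ) = 2 * K + 1
    · have : Φ i = fun _ => 0 := funext (hΦ0 i hi)
      rw [this]
      exact continuousOn_const
    · have : Φ i = fun x => stripc_cnt (c (((i : ℕ) : ℤ) - K)) (pr (((i : ℕ) : ℤ) - K) x) :=
        funext (hΦ1 i hi)
      rw [this, hstrip i hi]
      refine stripc_cont (hprc _).continuousOn _ fun x hx j h => ?_
      refine hcA (((i : ℕ) : ℤ) - K) j ?_
      rw [hslc, ← h]
      exact mem_image_of_mem _ hx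
  have hmv := mv_core hc (2 * K + 1) (stripc_B θ p a K) (stripc_B_closed θ p a K)
    (fun x _ => mem_iUnion.2 (stripc_B_cov θ p hv K x)) ?_ Φ hΦc nn ?_ ?_ G ?_ ?_
  · -- the count
    have hcard : ∀ i, (G i).card ≤
        (rend (slc θ S (p + (((i : ℕ) : ℤ) - K : ℤ) * a))).ncard + 1 := by
      intro i
      refine Finset.card_image_le.trans ((Finset.card_insert_le _ _).trans ?_)
      rw [Set.ncard_eq_toFinset_card _ (hfin _)]
    have h1 : ∑ i, nn i = ∑ i ∈ Finset.range (2 * K), (n ((i : ℤ) + 1 - K) + 1) + 2 := by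
      rw [Fin.sum_univ_succ, Fin.sum_univ_castSucc, hnn0 0 (Or.inl rfl),
        hnn0 (Fin.last (2 * K)).succ (Or.inr rfl), ← Fin.sum_univ_eq_sum_range
          (fun i => n ((i : ℤ) + 1 - K) + 1)]
      have : ∀ i : Fin (2 * K), nn i.castSucc.succ = n (((i : ℕ) : ℤ) + 1 - K) + 1 := by
        intro i
        have hi := i.2
        rw [hnn1]
        · simp only [Fin.val_succ, Fin.val_castSucc]
          push_cast
          rfl
        · simp only [Fin.val_succ, Fin.val_castSucc]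
          omega
      rw [Finset.sum_congr rfl fun i _ => this i]
      omega
    have h2 : ∑ i, (G i).card ≤ ∑ i ∈ Finset.range (2 * K + 1),
        ((rend (slc θ S (p + ((i : ℤ) - K : ℤ) * a))).ncard + 1) := by
      rw [← Fin.sum_univ_eq_sum_range
        (fun i => (rend (slc θ S (p + ((i : ℤ) - K : ℤ) * a))).ncard + 1)]
      exact Finset.sum_le_sum fun i _ => hcard i
    rw [h1] at hmv
    rw [Finset.sum_add_distrib] at hmv h2
    simp only [Finset.sum_const, Finset.card_range, smul_eq_mul, mul_one] at hmv h2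
    omega
  · -- disjointness
    intro i j hij
    rw [Set.disjoint_left]
    rintro x ⟨-, -, h1⟩ ⟨h2, -⟩
    have hj := j.2
    have h1' := h1.resolve_left (by omega)
    have h2' := h2.resolve_left (by omega)
    have h3 : (((i : ℕ) : ℤ) : ℝ) + 2 ≤ (((j : ℕ) : ℤ) : ℝ) := by
      have : ((i : ℕ) : ℤ) + 2 ≤ ((j : ℕ) : ℤ) := by omega
      exact_mod_cast this
    have h4 := mul_le_mul_of_nonneg_right h3 hv.le
    push_cast at h1' h2' h4
    have h5 : (0 : ℝ) < a := hv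
    nlinarith
  · -- values are attained
    intro i j hj
    by_cases hi : (i : ℕ) = 0 ∨ (i : ℕ) = 2 * K + 1
    · rw [hnn0 i hi] at hj
      have hj0 : j = 0 := by omega
      subst hj0
      rcases hi with hi | hi
      · refine ⟨pt (p + (((i : ℕ) : ℤ) - K : ℤ) * a) R, ⟨hptS _ _ le_rfl, Or.inl hi, Or.inr ?_⟩,
          hΦ0 i (Or.inl hi) _⟩
        rw [hpt1]
      · refine ⟨pt (p + (((i : ℕ) : ℤ) - K : ℤ) * a) R, ⟨hptS _ _ le_rfl, Or.inr ?_, Or.inl hi⟩,
          hΦ0 i (Or.inr hi) _⟩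
        rw [hpt1]
        linarith
    · rw [hnn1 i hi] at hj
      rw [hstrip i hi]
      rcases Nat.lt_succ_iff_lt_or_eq.1 hj with h1 | h1
      · have h2 := hbA (((i : ℕ) : ℤ) - K) ⟨j, h1⟩
        rw [hslc] at h2
        obtain ⟨x, hx, hxb⟩ := h2
        refine ⟨x, hx, ?_⟩
        rw [hΦ1 i hi, hxb, stripc_cnt_val (hbc _) (hcb _)]
      · set y : ℝ := R + ∑ l, |c (((i : ℕ) : ℤ) - K) l| with hy
        have hyR : R ≤ y := by
          have : 0 ≤ ∑ l, |c (((i : ℕ) : ℤ) - K) l| := Finset.sum_nonneg fun l _ => abs_nonneg _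
          linarith
        refine ⟨pt (p + (((i : ℕ) : ℤ) - K : ℤ) * a) y, ⟨hptS _ _ hyR, ?_, ?_⟩, ?_⟩
        · rw [hpt1]
          linarith
        · rw [hpt1]
        · rw [hΦ1 i hi, h1]
          refine stripc_cnt_top _ fun l => ?_
          have h3 : pr (((i : ℕ) : ℤ) - K) (pt (p + (((i : ℕ) : ℤ) - K : ℤ) * a) y) = y := by
            simp only [pr, hpt1, hpt2]
            ring
          rw [h3]
          have h4 : |c (((i : ℕ) : ℤ) - K) l| ≤ ∑ l, |c (((i : ℕ) : ℤ) - K) l| :=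
            Finset.single_le_sum (f := fun l => |c (((i : ℕ) : ℤ) - K) l|)
              (fun l _ => abs_nonneg _) (Finset.mem_univ l)
          linarith [le_abs_self (c (((i : ℕ) : ℤ) - K) l)]
  · -- values are bounded
    intro i x _
    by_cases hi : (i : ℕ) = 0 ∨ (i : ℕ) = 2 * K + 1
    · rw [hnn0 i hi, hΦ0 i hi]
      exact one_pos
    · rw [hnn1 i hi, hΦ1 i hi]
      exact Nat.lt_succ_of_le (stripc_cnt_le _ _)
  · -- `G`
    intro i y hy
    obtain ⟨t, ht, rfl⟩ := Finset.mem_image.1 hy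
    have h1 := (stripc_B_line hv i (θ := θ) (p := p)
      (x := pt (p + (((i : ℕ) : ℤ) - K : ℤ) * a) t)).2 (hpt1 _ _)
    refine ⟨⟨?_, h1.1⟩, h1.2⟩
    rcases Finset.mem_insert.1 ht with h2 | h2
    · rw [h2]
      exact hptS _ _ le_rfl
    · rw [Set.Finite.mem_toFinset] at h2
      exact h2.1
  · -- `G'`
    rintro i x ⟨⟨hxS, hx1⟩, hx2⟩
    have hxl := (stripc_B_line hv i).1 ⟨hx1, hx2⟩
    set q := p + (((i : ℕ) : ℤ) - K : ℤ) * a with hq
    set y0 := ⟪nrm θ, x⟫ with hy0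
    have hxpt : pt q y0 = x := by
      have := decomp θ x
      rw [hxl] at this
      exact this
    have hy0m : y0 ∈ slc θ S q := by
      rw [← hxpt] at hxS
      exact hxS
    have hclS := isClosed_slc (θ := θ) hS q
    -- a point of `G i` joined to `x`
    have hex : ∃ y1 ∈ insert R (hfin (((i : ℕ) : ℤ) - K)).toFinset, uIcc y0 y1 ⊆ slc θ S q := by
      rcases exists_rend hclS (hfin (((i : ℕ) : ℤ) - K)) hy0m with ⟨b', hb', hle, hsub⟩ | hsub
      · refine ⟨b', Finset.mem_insert_of_mem ((Set.Finite.mem_toFinset _).2 hb'), ?_⟩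
        rwa [uIcc_of_le hle]
      · refine ⟨R, Finset.mem_insert_self _ _, ?_⟩
        rcases le_total y0 R with h1 | h1
        · rw [uIcc_of_le h1]
          exact fun t ht => hsub ht.1
        · rw [uIcc_of_ge h1]
          exact fun t ht => hptS q t ht.1
    obtain ⟨y1, hy1, hsub⟩ := hex
    have hP : IsPreconnected (pt q '' uIcc y0 y1) := by
      refine isPreconnected_uIcc.image _ (Continuous.continuousOn ?_)
      exact continuous_const.add (continuous_id.smul continuous_const)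
    have hPS : pt q '' uIcc y0 y1 ⊆ S := by
      rintro _ ⟨t, ht, rfl⟩
      exact hsub ht
    have hPB : ∀ z ∈ pt q '' uIcc y0 y1,
        z ∈ stripc_B θ p a K i.castSucc ∩ stripc_B θ p a K i.succ := by
      rintro _ ⟨t, ht, rfl⟩
      exact (stripc_B_line hv i).2 (hpt1 _ _)
    have hx0 : x ∈ pt q '' uIcc y0 y1 := ⟨y0, left_mem_uIcc, hxpt⟩
    have hx1' : pt q y1 ∈ pt q '' uIcc y0 y1 := mem_image_of_mem _ right_mem_uIcc
    refine ⟨pt q y1, Finset.mem_image_of_mem _ hy1, ?_, ?_⟩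
    · exact hP.constant ((hΦc i.castSucc).mono fun z hz => ⟨hPS hz, (hPB z hz).1⟩) hx0 hx1'
    · exact hP.constant ((hΦc i.succ).mono fun z hz => ⟨hPS hz, (hPB z hz).2⟩) hx0 hx1'

/-- PROOF: as `strip_compact`, with the strips `k = -K+1, ..., K` between the lines `-K, ..., K`,
and in addition the two closed half planes `{⟪dir θ, x⟫ ≤ p - K a}` and `{⟪dir θ, x⟫ ≥ p + K a}`
(contained in `S`, `Φ = 0`, `nn = 1`), where `K` is so large that the complement of `S` lies in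
`{p - (K-1) a < ⟪dir θ, x⟫ < p + (K-1) a}`. The slices of `S` and of `S + segment` contain a half
line `[y, ∞)`: so for a strip with `n_k` cuts all values `0, ..., n_k` are attained (`nn = n_k+1`),
and on a line one takes `G_k` = the points over `rend` and one point of the upper half line
(`exists_rend`). `mv_core`: `∑ (n_k + 1) + 2 ≤ ∑ (|rend| + 1) + 1` with `2K` strips and `2K+1`
lines: `∑ n_k ≤ ∑ |rend|`. -/
theorem strip_cobdd {S : Set (E 2)} (hS : IsClosed S) (hc : IsPreconnected S)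
    (hb : Bornology.IsBounded Sᶜ) {θ : ℝ} {v : E 2} (hv : 0 < ⟪dir θ, v⟫) (p : ℝ) :
    ∑' k : ℤ, cnt (rend (slc θ (S + segment ℝ 0 v) (p + k * ⟪dir θ, v⟫))) ≤
      ∑' k : ℤ, cnt (rend (slc θ S (p + k * ⟪dir θ, v⟫))) := by
  classical
  by_cases hfin : ∀ k : ℤ, (rend (slc θ S (p + k * ⟪dir θ, v⟫))).Finite
  swap
  · push Not at hfin
    obtain ⟨k, hk⟩ := hfin
    refine le_top.trans ((le_of_eq ?_).trans
      (ENNReal.le_tsum (f := fun k : ℤ => cnt (rend (slc θ S (p + k * ⟪dir θ, v⟫)))) k))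
    have hk' : (rend (slc θ S (p + k * ⟪dir θ, v⟫))).Infinite := hk
    simp only [cnt]
    rw [hk'.encard_eq]
    rfl
  obtain ⟨C, hC⟩ := isBounded_iff_forall_norm_le.1 hb
  set R : ℝ := |C| + 1 with hRdef
  have hR : 0 < R := by positivity
  have hbS : ∀ x : E 2, R ≤ ‖x‖ → x ∈ S := by
    intro x hx
    by_contra hxS
    have := hC x hxS
    linarith [le_abs_self C]
  set a := ⟪dir θ, v⟫ with ha
  obtain ⟨K, hK⟩ := exists_nat_gt ((R + |p|) / a)
  rw [div_lt_iff₀ hv] at hK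
  -- far away slices are full
  have hfull : ∀ k : ℤ, (K : ℤ) ≤ |k| → ∀ y, y ∈ slc θ S (p + k * a) := by
    intro k hk y
    refine hbS _ ?_
    have h1 := abs_inner_dir_le θ ((p + k * a) • dir θ + y • nrm θ)
    rw [inner_dir_comb] at h1
    refine le_trans ?_ h1
    have h2 : (K : ℝ) * a ≤ |(k : ℝ) * a| := by
      rw [abs_mul, abs_of_pos hv]
      refine mul_le_mul_of_nonneg_right ?_ hv.le
      exact_mod_cast hk
    have h3 : |(k : ℝ) * a| ≤ |p + k * a| + |p| := by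
      have := abs_sub (p + k * a) p
      rwa [add_sub_cancel_left] at this
    linarith
  have hfull1 : ∀ k : ℤ, (K : ℤ) ≤ |k| → rend (slc θ (S + segment ℝ 0 v) (p + k * a)) = ∅ := by
    intro k hk
    have : slc θ (S + segment ℝ 0 v) (p + k * a) = univ := by
      refine eq_univ_of_forall fun y => ?_
      have h1 : (p + k * a) • dir θ + y • nrm θ ∈ S := hfull k hk y
      refine ⟨_, h1, 0, left_mem_segment ℝ 0 v, ?_⟩
      simp
    rw [this, stripc_rend_univ]
  set M : ℕ := ∑ i ∈ Finset.range (2 * K + 1), (rend (slc θ S (p + ((i : ℤ) - K : ℤ) * a))).ncard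
    with hM
  let n : ℤ → ℕ := fun k =>
    if (rend (slc θ (S + segment ℝ 0 v) (p + k * a))).Finite then
      (rend (slc θ (S + segment ℝ 0 v) (p + k * a))).ncard else M + 1
  have hn : ∀ k : ℤ, (n k : ℕ∞) ≤ (rend (slc θ (S + segment ℝ 0 v) (p + k * a))).encard := by
    intro k
    by_cases h : (rend (slc θ (S + segment ℝ 0 v) (p + k * a))).Finite
    · simp only [n, if_pos h]
      rw [h.cast_ncard_eq]
    · rw [Set.Infinite.encard_eq h]
      exact le_top
  have hcore := stripc_core hS hc hR hbS hv p K hfin n hn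
  rw [← ha, ← hM] at hcore
  have hfin2 : ∀ i ∈ Finset.range (2 * K),
      cnt (rend (slc θ (S + segment ℝ 0 v) (p + ((i : ℤ) + 1 - K : ℤ) * a))) =
        ((n ((i : ℤ) + 1 - K) : ℕ) : ℝ≥0∞) := by
    intro i hi
    have h1 : n ((i : ℤ) + 1 - K) ≤ M :=
      (Finset.single_le_sum (f := fun i : ℕ => n ((i : ℤ) + 1 - K)) (fun _ _ => Nat.zero_le _)
        hi).trans hcore
    have h2 : (rend (slc θ (S + segment ℝ 0 v) (p + ((i : ℤ) + 1 - K : ℤ) * a))).Finite := by
      by_contra h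
      simp only [n, if_neg h] at h1
      omega
    simp only [n, if_pos h2, cnt]
    rw [← h2.cast_ncard_eq]
    rfl
  let e1 : ℕ ↪ ℤ := ⟨fun i => (i : ℤ) + 1 - K, fun i j h => by
    have : (i : ℤ) + 1 - K = (j : ℤ) + 1 - K := h
    omega⟩
  let e2 : ℕ ↪ ℤ := ⟨fun i => (i : ℤ) - K, fun i j h => by
    have : (i : ℤ) - K = (j : ℤ) - K := h
    omega⟩
  have hL : ∑' k : ℤ, cnt (rend (slc θ (S + segment ℝ 0 v) (p + k * a))) =
      ∑ i ∈ Finset.range (2 * K),
        cnt (rend (slc θ (S + segment ℝ 0 v) (p + ((i : ℤ) + 1 - K : ℤ) * a))) := by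
    rw [tsum_eq_sum (s := (Finset.range (2 * K)).map e1), Finset.sum_map]
    · rfl
    · intro k hk
      have hk2 : (K : ℤ) ≤ |k| := by
        by_contra hlt
        rw [not_le, abs_lt] at hlt
        refine hk (Finset.mem_map.2 ⟨(k - 1 + K).toNat, ?_, ?_⟩)
        · rw [Finset.mem_range]
          omega
        · change (((k - 1 + K).toNat : ℕ) : ℤ) + 1 - K = k
          omega
      rw [hfull1 k hk2]
      simp [cnt]
  have hRR : ∑ i ∈ Finset.range (2 * K + 1), cnt (rend (slc θ S (p + ((i : ℤ) - K : ℤ) * a))) ≤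
      ∑' k : ℤ, cnt (rend (slc θ S (p + k * a))) := by
    have := ENNReal.sum_le_tsum (f := fun k : ℤ => cnt (rend (slc θ S (p + k * a))))
      ((Finset.range (2 * K + 1)).map e2)
    rw [Finset.sum_map] at this
    exact this
  rw [hL, Finset.sum_congr rfl hfin2]
  refine le_trans ?_ hRR
  have h3 : ∀ i : ℕ, cnt (rend (slc θ S (p + ((i : ℤ) - K : ℤ) * a))) =
      (((rend (slc θ S (p + ((i : ℤ) - K : ℤ) * a))).ncard : ℕ) : ℝ≥0∞) := by
    intro i
    simp only [cnt]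
    rw [← (hfin ((i : ℤ) - K)).cast_ncard_eq]
    rfl
  rw [Finset.sum_congr rfl fun i _ => h3 i, ← Nat.cast_sum, ← Nat.cast_sum]
  exact Nat.cast_le.2 hcore

end Pool.Agent.RA
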