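import Pool.Agent.H.MP_1b807b_an.A.RendC
import Pool.Agent.H.MP_1b807b_an.A.StripB
import Pool.Agent.H.MP_1b807b_an.A.StripC

/-! MP_1b807b_an, large parameter asymptotics in the plane, module NNaddB: NN of a sum with a segment -/

set_option autoImplicit false

namespace Pool.Agent.RA

open MeasureTheory Metric Set Pool.Agent.RG
open scoped RealInnerProductSpace ENNReal Topology Pointwise

theorem nnaddb_fold {f : ℝ → ℝ≥0∞} (hf : Measurable f) {a : ℝ} (ha : 0 < a) :
    ∫⁻ p, f p = ∫⁻ p in Ico 0 a, ∑' k : ℤ, f (p + k * a) := by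
  have h1 : (⋃ n : ℤ, Ico (n • a) ((n + 1) • a)) = univ := iUnion_Ico_zsmul ha
  rw [← setLIntegral_univ, ← h1, lintegral_iUnion (fun n => measurableSet_Ico)
    (pairwise_disjoint_Ico_zsmul a)]
  have h0 : ∀ k : ℤ, AEMeasurable (fun p : ℝ => f (p + k * a)) (volume.restrict (Ico 0 a)) :=
    fun k => (hf.comp (measurable_id.add_const ((k : ℝ) * a))).aemeasurable
  rw [lintegral_tsum h0]
  refine tsum_congr fun k => ?_
  have h2 := (measurePreserving_add_right (volume : Measure ℝ) ((k : ℝ) * a)).setLIntegral_comp_preimage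
    (s := Ico (k • a) ((k + 1) • a)) measurableSet_Ico hf
  rw [← h2]
  have h3 : (fun x : ℝ => x + (k : ℝ) * a) ⁻¹' Ico (k • a) ((k + 1) • a) = Ico 0 a := by
    ext x
    simp only [mem_preimage, mem_Ico, zsmul_eq_mul, Int.cast_add, Int.cast_one, add_mul, one_mul]
    constructor
    · rintro ⟨h4, h5⟩
      exact ⟨by linarith, by linarith⟩
    · rintro ⟨h4, h5⟩
      exact ⟨by linarith, by linarith⟩
  rw [h3]

theorem nnaddb_segment (v : E 2) : IsCompact (segment ℝ 0 v) := by
  rw [segment_eq_image']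
  exact isCompact_Icc.image (by fun_prop)

/-- PROOF: with `a = ⟪dir θ, v⟫`, `NN θ S = ∫_{p ∈ [0,a)} ∑' k, cnt (rend (slc θ S (p + k a)))`
(partition of the line into the intervals `[k a, (k+1) a)`, measurability by `measurable_rend`; for
the closed set `S + segment` likewise), and `strip_compact`. -/
theorem NN_add_compact {S : Set (E 2)} (hS : IsCompact S) (hc : IsPreconnected S) {θ : ℝ} {v : E 2}
    (hv : 0 < ⟪dir θ, v⟫) :
    NN θ (S + segment ℝ 0 v) ≤ NN θ S + ENNReal.ofReal ⟪dir θ, v⟫ := by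
  have h1 : IsClosed (S + segment ℝ 0 v) := (hS.add (nnaddb_segment v)).isClosed
  rw [NN, NN, nnaddb_fold (measurable_rend θ h1) hv, nnaddb_fold (measurable_rend θ hS.isClosed) hv]
  calc ∫⁻ p in Ico 0 ⟪dir θ, v⟫, ∑' k : ℤ, cnt (rend (slc θ (S + segment ℝ 0 v)
          (p + k * ⟪dir θ, v⟫)))
      ≤ ∫⁻ p in Ico 0 ⟪dir θ, v⟫, ((∑' k : ℤ, cnt (rend (slc θ S (p + k * ⟪dir θ, v⟫)))) + 1) :=
        lintegral_mono fun p => strip_compact hS hc hv p
    _ = _ := by
        rw [lintegral_add_right _ measurable_const, setLIntegral_const, one_mul, Real.volume_Ico,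
          sub_zero]

theorem NN_add_cobdd {S : Set (E 2)} (hS : IsClosed S) (hc : IsPreconnected S)
    (hb : Bornology.IsBounded Sᶜ) {θ : ℝ} {v : E 2} (hv : 0 < ⟪dir θ, v⟫) :
    NN θ (S + segment ℝ 0 v) ≤ NN θ S := by
  have h1 : IsClosed (S + segment ℝ 0 v) := hS.add_right_of_isCompact (nnaddb_segment v)
  rw [NN, NN, nnaddb_fold (measurable_rend θ h1) hv, nnaddb_fold (measurable_rend θ hS) hv]
  exact lintegral_mono fun p => strip_cobdd hS hc hb hv p

end Pool.Agent.RA
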