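import Pool.Agent.H.MP_1b807b_an.A.DlenA

/-! MP_1b807b_an, large parameter asymptotics in the plane, module NoIsoA: localising the surface integral -/

set_option autoImplicit false

namespace Pool.Agent.RA

open MeasureTheory Metric Set Pool.Agent.RG
open scoped RealInnerProductSpace ENNReal Topology Pointwise

variable {D : Domain 2} (J : JordanBoundary D)

include J

theorem noisoa_injOn (j : Fin J.N) (a : ℝ) : InjOn (J.curve j) (Ico a (a + J.len j)) := by
  intro x hx y hy hxy
  obtain ⟨m, hm, -⟩ := existsUnique_sub_zsmul_mem_Ico (J.len_pos j) x 0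
  obtain ⟨n, hn, -⟩ := existsUnique_sub_zsmul_mem_Ico (J.len_pos j) y 0
  rw [zero_add] at hm hn
  have h1 : J.curve j (x - m • J.len j) = J.curve j (y - n • J.len j) := by
    rw [(J.periodic j).sub_zsmul_eq, (J.periodic j).sub_zsmul_eq, hxy]
  have h2 : x - m • J.len j = y - n • J.len j := J.injOn j hm hn h1
  rw [zsmul_eq_mul, zsmul_eq_mul] at h2
  have h3 : x - y = ((m - n : ℤ) : ℝ) * J.len j := by push_cast; linarith
  have hL := J.len_pos j
  have h4 : |x - y| < J.len j := by
    rw [abs_lt]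
    constructor
    · linarith [hx.1, hy.2]
    · linarith [hx.2, hy.1]
  rw [h3, abs_mul, abs_of_pos hL] at h4
  have h5 : |((m - n : ℤ) : ℝ)| < 1 := by
    by_contra h6
    rw [not_lt] at h6
    have := mul_le_mul_of_nonneg_right h6 hL.le
    linarith
  have h6 : m - n = 0 := by
    rw [← Int.cast_abs] at h5
    exact Int.abs_lt_one_iff.1 (by exact_mod_cast h5)
  rw [h6, Int.cast_zero, zero_mul] at h3
  linarith

theorem noisoa_ae (j : Fin J.N) :
    ∀ᵐ s' : ℝ, D.normal (J.curve j s') = rot (deriv (J.curve j) s') := by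
  have h0 := J.normal_eq j
  rw [ae_iff] at h0 ⊢
  set B : Set ℝ := {s' | ¬ D.normal (J.curve j s') = rot (deriv (J.curve j) s')} with hB
  rw [Measure.restrict_apply' measurableSet_Ico] at h0
  have hderiv : ∀ (n : ℤ) (x : ℝ), deriv (J.curve j) (x - n • J.len j) =
      deriv (J.curve j) x := by
    intro n x
    have h1 : (fun y => J.curve j (y - n • J.len j)) = J.curve j :=
      funext fun y => (J.periodic j).sub_zsmul_eq n
    have h2 := deriv_comp_sub_const (J.curve j) (n • J.len j) x
    rw [h1] at h2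
    exact h2.symm
  have hper : ∀ (n : ℤ) (x : ℝ), x ∈ B → x - n • J.len j ∈ B := by
    intro n x hx
    rw [hB, mem_setOf_eq] at hx ⊢
    rwa [hderiv, (J.periodic j).sub_zsmul_eq]
  have hsub : B ⊆ ⋃ n : ℤ, (fun x => x + (-(n • J.len j))) ⁻¹' (B ∩ Ico 0 (J.len j)) := by
    intro x hx
    obtain ⟨m, hm, -⟩ := existsUnique_sub_zsmul_mem_Ico (J.len_pos j) x 0
    rw [zero_add] at hm
    refine mem_iUnion.2 ⟨m, ?_⟩
    rw [mem_preimage, ← sub_eq_add_neg]
    exact ⟨hper m x hx, hm⟩
  refine measure_mono_null hsub (measure_iUnion_null fun n => ?_)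
  rw [measure_preimage_add_right]
  exact h0

theorem noisoa_sep (j : Fin J.N) (s : ℝ) {δ' : ℝ} (hδ : 0 < δ') :
    ∃ ρ > 0, (∀ i, i ≠ j → ∀ s', J.curve i s' ∉ ball (J.curve j s) ρ) ∧
      ∀ s' ∈ Icc (s + δ') (s - δ' + J.len j), J.curve j s' ∉ ball (J.curve j s) ρ := by
  have hc : ∀ i, Continuous (J.curve i) := fun i => (J.lipschitz i).continuous
  let K : Set (E 2) := (⋃ i ∈ {i | i ≠ j}, J.curve i '' Icc 0 (J.len i)) ∪
    J.curve j '' Icc (s + δ') (s - δ' + J.len j)
  have hK : IsCompact K :=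
    ((toFinite _).isCompact_biUnion fun i _ => isCompact_Icc.image (hc i)).union
      (isCompact_Icc.image (hc j))
  have hnot : J.curve j s ∈ Kᶜ := by
    rintro (h1 | h1)
    · rw [mem_iUnion₂] at h1
      obtain ⟨i, hi, y, -, hy⟩ := h1
      exact disjoint_left.1 (J.disjoint i j hi) ⟨y, rfl⟩ ⟨s, hy.symm⟩
    · obtain ⟨y, hy, hys⟩ := h1
      have hL := J.len_pos j
      have h2 : y = s := by
        refine noisoa_injOn J j s ⟨?_, ?_⟩ ⟨le_rfl, ?_⟩ hys
        · linarith [hy.1]
        · linarith [hy.2]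
        · linarith
      linarith [hy.1]
  obtain ⟨ρ, hρ, hball⟩ := Metric.isOpen_iff.1 hK.isClosed.isOpen_compl _ hnot
  refine ⟨ρ, hρ, fun i hi s' hs' => ?_, fun s' hs' hb => ?_⟩
  · refine hball hs' (Or.inl ?_)
    obtain ⟨y, hy, hys⟩ := (J.periodic i).exists_mem_Ico₀ (J.len_pos i) s'
    rw [mem_iUnion₂]
    exact ⟨i, hi, y, ⟨hy.1, hy.2.le⟩, hys.symm⟩
  · exact hball hb (Or.inr ⟨s', hs', rfl⟩)

theorem noisoa_bdd {z : E 2} {ρ : ℝ} {X : E 2 → E 2} (hX : Continuous X)
    (h0 : ∀ x, x ∉ ball z ρ → X x = 0) : ∃ C : ℝ, ∀ x, ‖X x‖ ≤ C := by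
  obtain ⟨C, hC⟩ := (isCompact_closedBall z ρ).exists_bound_of_continuousOn hX.continuousOn
  refine ⟨max C 0, fun x => ?_⟩
  by_cases hx : x ∈ ball z ρ
  · exact (hC x (ball_subset_closedBall hx)).trans (le_max_left _ _)
  · rw [h0 x hx, norm_zero]
    exact le_max_right _ _

/-- Near a boundary point the surface integral is an integral over a small parameter interval.
PROOF: the set of the pairs `(i, s')`, `s' ∈ [0, len i]`, with `(i ≠ j)` or
`s'` at distance `≥ δ'` from `s + ℤ len j` is compact and `curve i s' ≠ curve j s` on it (injectivity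
and periodicity, disjointness), so the distance to `curve j s` has a positive minimum `ρ` on it.
`surface_eq`, `normal_eq`, `integral_map`; for the `j`-th curve use the periodicity of the
integrand to integrate over `[s - len j / 2, s + len j / 2)` instead of `[0, len j)`
(`Function.Periodic.intervalIntegral_add_eq`). -/
theorem near_surface {j : Fin J.N} (s : ℝ) {δ' : ℝ} (hδ : 0 < δ') (hδ2 : 2 * δ' < J.len j) :
    ∃ ρ > 0, ∀ X : E 2 → E 2, Continuous X → (∀ x, x ∉ ball (J.curve j s) ρ → X x = 0) →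
      ∫ x, ⟪X x, D.normal x⟫ ∂D.surface =
        ∫ s' in (s - δ')..(s + δ'), ⟪X (J.curve j s'), rot (deriv (J.curve j) s')⟫ := by
  obtain ⟨ρ, hρ, hsep1, hsep2⟩ := noisoa_sep J j s hδ
  refine ⟨ρ, hρ, fun X hX hX0 => ?_⟩
  have hL := J.len_pos j
  have hc : ∀ i, Continuous (J.curve i) := fun i => (J.lipschitz i).continuous
  obtain ⟨C, hC⟩ := noisoa_bdd J hX hX0
  let f : E 2 → ℝ := fun x => ⟪X x, D.normal x⟫
  have hfm : Measurable f := hX.measurable.inner D.measurable_normal
  have hfin : IsFiniteMeasure D.surface := D.isFinite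
  have hfi : Integrable f D.surface := by
    refine Integrable.of_bound hfm.aestronglyMeasurable C ?_
    filter_upwards [D.norm_normal] with x hx
    calc ‖f x‖ ≤ ‖X x‖ * ‖D.normal x‖ := norm_inner_le_norm _ _
      _ ≤ C := by rw [hx, mul_one]; exact hC x
  have h1 : ∫ x, f x ∂D.surface =
      ∑ i, ∫ x, f x ∂((volume.restrict (Ico 0 (J.len i))).map (J.curve i)) := by
    have hfi' := hfi
    rw [J.surface_eq] at hfi'
    rw [J.surface_eq]
    exact integral_finset_sum_measure (integrable_finset_sum_measure.1 hfi')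
  have h2 : ∀ i, ∫ x, f x ∂((volume.restrict (Ico 0 (J.len i))).map (J.curve i)) =
      ∫ s' in Ico 0 (J.len i), f (J.curve i s') := fun i =>
    integral_map (hc i).measurable.aemeasurable hfm.aestronglyMeasurable
  have h3 : ∫ x, f x ∂D.surface = ∫ s' in Ico 0 (J.len j), f (J.curve j s') := by
    rw [h1, Finset.sum_eq_single j]
    · exact h2 j
    · intro i _ hi
      rw [h2 i]
      have h4 : ∀ s', f (J.curve i s') = 0 := by
        intro s'
        change ⟪X (J.curve i s'), D.normal (J.curve i s')⟫ = 0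
        rw [hX0 _ (hsep1 i hi s'), inner_zero_left]
      simp only [h4, integral_zero]
    · intro hj
      exact absurd (Finset.mem_univ j) hj
  have hper : Function.Periodic (fun s' => f (J.curve j s')) (J.len j) := by
    intro x
    change f (J.curve j (x + J.len j)) = f (J.curve j x)
    rw [J.periodic j]
  have h5 : ∫ s' in Ico 0 (J.len j), f (J.curve j s') =
      ∫ s' in (s - δ')..(s - δ' + J.len j), f (J.curve j s') := by
    rw [integral_Ico_eq_integral_Ioo, ← integral_Ioc_eq_integral_Ioo,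
      ← intervalIntegral.integral_of_le hL.le]
    have h6 := hper.intervalIntegral_add_eq 0 (s - δ')
    rw [zero_add] at h6
    exact h6
  change ∫ x, f x ∂D.surface = _
  rw [h3, h5, intervalIntegral.integral_of_le (by linarith),
    intervalIntegral.integral_of_le (by linarith)]
  rw [setIntegral_eq_of_subset_of_forall_diff_eq_zero (s := Ioc (s - δ') (s + δ'))
    measurableSet_Ioc (Ioc_subset_Ioc_right (by linarith))]
  · refine integral_congr_ae ?_
    filter_upwards [ae_restrict_of_ae (noisoa_ae J j)] with x hx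
    change ⟪X (J.curve j x), D.normal (J.curve j x)⟫ = _
    rw [hx]
  · rintro x ⟨hx1, hx2⟩
    have hx3 : s + δ' < x := by
      by_contra h7
      exact hx2 ⟨hx1.1, not_lt.1 h7⟩
    change ⟪X (J.curve j x), D.normal (J.curve j x)⟫ = 0
    rw [hX0 _ (hsep2 x ⟨hx3.le, hx1.2⟩), inner_zero_left]

end Pool.Agent.RA
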