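import Pool.Agent.H.MP_1b807b_an.A.NoIsoA
import Pool.Agent.H.MP_1b807b_an.A.Fub

/-! MP_1b807b_an, large parameter asymptotics in the plane, module NoIsoB: the argument near a boundary point -/

set_option autoImplicit false

namespace Pool.Agent.RA

open MeasureTheory Metric Set Pool.Agent.RG
open scoped RealInnerProductSpace ENNReal Topology Pointwise

theorem noisob_hasDerivAt {c : ℝ → E 2} (v : E 2) {s : ℝ} (hs : DifferentiableAt ℝ c s) :
    HasDerivAt (fun s => ⟪v, c s⟫) ⟪v, deriv c s⟫ s :=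
  ((innerSL ℝ v).hasFDerivAt (x := c s)).comp_hasDerivAt s hs.hasDerivAt

/-- the fundamental theorem for `Φ f * ψ y` along a curve, when `Φ f * ψ' y = 0` -/
theorem noisob_ibp {c : ℝ → E 2} (hc : LipschitzWith 1 c) (θ : ℝ) {Φ ψ : ℝ → ℝ}
    (hΦ : ContDiff ℝ 1 Φ) (hψ : ContDiff ℝ 1 ψ) {a b : ℝ} (hab : a ≤ b)
    (h0 : ∀ s ∈ Ioo a b, Φ ⟪dir θ, c s⟫ * deriv ψ ⟪nrm θ, c s⟫ = 0) :
    IntervalIntegrable (fun s => deriv Φ ⟪dir θ, c s⟫ * ψ ⟪nrm θ, c s⟫ *
      ⟪dir θ, deriv c s⟫) volume a b ∧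
    ∫ s in a..b, deriv Φ ⟪dir θ, c s⟫ * ψ ⟪nrm θ, c s⟫ * ⟪dir θ, deriv c s⟫ =
      Φ ⟪dir θ, c b⟫ * ψ ⟪nrm θ, c b⟫ - Φ ⟪dir θ, c a⟫ * ψ ⟪nrm θ, c a⟫ := by
  have hG : ContDiff ℝ 1 (fun x : E 2 => Φ ⟪dir θ, x⟫ * ψ ⟪nrm θ, x⟫) :=
    (hΦ.comp (contDiff_const.inner ℝ contDiff_id)).mul
      (hψ.comp (contDiff_const.inner ℝ contDiff_id))
  have hL : LocallyLipschitz (fun s => Φ ⟪dir θ, c s⟫ * ψ ⟪nrm θ, c s⟫) :=
    hG.locallyLipschitz.comp hc.locallyLipschitz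
  obtain ⟨K, hK⟩ := (hL.locallyLipschitzOn (s := uIcc a b)).exists_lipschitzOnWith_of_compact
    isCompact_uIcc
  have hAC := hK.absolutelyContinuousOnInterval
  have hae : ∀ᵐ s : ℝ, s ∈ uIoc a b → deriv (fun s => Φ ⟪dir θ, c s⟫ * ψ ⟪nrm θ, c s⟫) s =
      deriv Φ ⟪dir θ, c s⟫ * ψ ⟪nrm θ, c s⟫ * ⟪dir θ, deriv c s⟫ := by
    have hb : ∀ᵐ s : ℝ, s ≠ b := by
      have := (measure_eq_zero_iff_ae_notMem (μ := (volume : Measure ℝ)) (s := {b})).1
        Real.volume_singleton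
      simpa using this
    filter_upwards [hc.ae_differentiableAt_real, hb] with s hs hsb hsm
    rw [uIoc_of_le hab] at hsm
    have hs0 := h0 s ⟨hsm.1, lt_of_le_of_ne hsm.2 hsb⟩
    have h1 := noisob_hasDerivAt (dir θ) hs
    have h2 := noisob_hasDerivAt (nrm θ) hs
    have h3 := ((hΦ.differentiable one_ne_zero ⟪dir θ, c s⟫).hasDerivAt.comp s h1).mul
      ((hψ.differentiable one_ne_zero ⟪nrm θ, c s⟫).hasDerivAt.comp s h2)
    refine h3.deriv.trans ?_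
    simp only [Function.comp_apply]
    linear_combination ⟪nrm θ, deriv c s⟫ * hs0
  constructor
  · exact hAC.intervalIntegrable_deriv.congr_ae
      ((ae_restrict_iff' measurableSet_uIoc).2 hae)
  · rw [← hAC.integral_deriv_eq_sub]
    refine (intervalIntegral.integral_congr_ae ?_).symm
    exact hae

theorem noisob_divg {g : E 2 → ℝ} (hg : ContDiff ℝ 1 g) (v x : E 2) :
    divg (fun x => g x • v) x = fderiv ℝ g x v := by
  have h1 : HasFDerivAt (fun x => g x • v) ((fderiv ℝ g x).smulRight v) x :=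
    ((hg.differentiable one_ne_zero x).hasFDerivAt).smul_const v
  rw [divg, h1.fderiv, tr, Fin.sum_univ_two]
  simp only [ContinuousLinearMap.smulRight_apply, PiLp.smul_apply, smul_eq_mul]
  have h2 : v = v 0 • EuclideanSpace.single (0 : Fin 2) (1 : ℝ) +
      v 1 • EuclideanSpace.single (1 : Fin 2) (1 : ℝ) := by
    ext i
    fin_cases i <;> simp
  conv_rhs => rw [h2]
  rw [map_add, map_smul, map_smul, smul_eq_mul, smul_eq_mul]
  ring

theorem noisob_int {g : E 2 → ℝ} (hg : ContDiff ℝ 1 g) (hs : HasCompactSupport g) (v : E 2) :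
    ∫ x, fderiv ℝ g x v = 0 := by
  have hc : Continuous (fun x => fderiv ℝ g x v) :=
    (hg.continuous_fderiv one_ne_zero).clm_apply continuous_const
  have hs' : HasCompactSupport (fun x => fderiv ℝ g x v) := by
    refine (hs.fderiv (𝕜 := ℝ)).mono' ?_
    intro x hx
    refine subset_tsupport _ ?_
    intro h
    apply hx
    show fderiv ℝ g x v = 0
    rw [h]
    rfl
  have h1 := integral_mul_fderiv_eq_neg_fderiv_mul_of_integrable (μ := (volume : Measure (E 2)))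
    (f := fun _ : E 2 => (1 : ℝ)) (g := g) (v := v) ?_ ?_ ?_
    (fun x _ => differentiableAt_const _) (fun x _ => hg.differentiable one_ne_zero x)
  · simpa using h1
  · simp
  · simpa using hc.integrable_of_hasCompactSupport hs'
  · simpa using hg.continuous.integrable_of_hasCompactSupport hs

theorem noisob_eta {p w : ℝ} (hw : 0 < w) : ∃ H : ℝ → ℝ, ContDiff ℝ 2 H ∧
    (∀ u, u ≤ p - w → H u = 0) ∧ (∀ u, p + w ≤ u → H u = 1) ∧
    (∀ u, w < |u - p| → deriv H u = 0) := by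
  have h0 : ∀ u, u ≤ p - w → Real.smoothTransition ((u - p + w) / (2 * w)) = 0 := by
    intro u hu
    apply Real.smoothTransition.zero_of_nonpos
    exact div_nonpos_of_nonpos_of_nonneg (by linarith) (by linarith)
  have h1 : ∀ u, p + w ≤ u → Real.smoothTransition ((u - p + w) / (2 * w)) = 1 := by
    intro u hu
    apply Real.smoothTransition.one_of_one_le
    rw [le_div_iff₀ (by linarith)]
    linarith
  refine ⟨fun u => Real.smoothTransition ((u - p + w) / (2 * w)), ?_, h0, h1, ?_⟩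
  · exact (Real.smoothTransition.contDiff (n := 2)).comp (by fun_prop)
  · intro u hu
    rcases lt_abs.1 hu with h | h
    · have h2 : (fun u => Real.smoothTransition ((u - p + w) / (2 * w))) =ᶠ[𝓝 u]
          fun _ => (1 : ℝ) := by
        filter_upwards [Ioi_mem_nhds (show p + w < u by linarith)] with z hz
        exact h1 z (le_of_lt hz)
      rw [h2.deriv_eq, deriv_const]
    · have h2 : (fun u => Real.smoothTransition ((u - p + w) / (2 * w))) =ᶠ[𝓝 u]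
          fun _ => (0 : ℝ) := by
        filter_upwards [Iio_mem_nhds (show u < p - w by linarith)] with z hz
        exact h0 z (le_of_lt hz)
      rw [h2.deriv_eq, deriv_const]

theorem noisob_psi (y₀ : ℝ) {r : ℝ} (hr : 0 < r) : ∃ ψ : ℝ → ℝ, ContDiff ℝ 1 ψ ∧ ψ y₀ = 1 ∧
    (∀ t, 2 * r ≤ |t - y₀| → ψ t = 0) ∧
    (∀ t, deriv ψ t ≠ 0 → r ≤ |t - y₀| ∧ |t - y₀| ≤ 2 * r) := by
  let ψ : ContDiffBump y₀ := ⟨r, 2 * r, hr, by linarith⟩
  have h0 : ∀ t, 2 * r ≤ |t - y₀| → ψ t = 0 := fun t ht => ψ.zero_of_le_dist ht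
  refine ⟨ψ, ψ.contDiff, ψ.one_of_mem_closedBall (mem_closedBall_self hr.le), h0, ?_⟩
  intro t ht
  constructor
  · by_contra hlt
    rw [not_le] at hlt
    apply ht
    have h1 : (ψ : ℝ → ℝ) =ᶠ[𝓝 t] 1 := ψ.eventuallyEq_one_of_mem_ball hlt
    rw [h1.deriv_eq]
    exact deriv_const _ _
  · by_contra hlt
    rw [not_le] at hlt
    apply ht
    have h1 : (ψ : ℝ → ℝ) =ᶠ[𝓝 t] fun _ => (0 : ℝ) := by
      have h2 : ∀ᶠ z in 𝓝 t, 2 * r < |z - y₀| :=
        (continuous_abs.comp (continuous_id.sub continuous_const)).continuousAt.eventually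
          (lt_mem_nhds hlt)
      filter_upwards [h2] with z hz
      exact h0 z hz.le
    rw [h1.deriv_eq, deriv_const]

/-- the field `deriv H (⟪dir θ, x⟫) * ψ (⟪nrm θ, x⟫)` -/
theorem noisob_field {θ p y₀ w r ρ : ℝ} (hw : 0 < w) (hr : 0 < r) (hwr : w ≤ r) (hrρ : 4 * r ≤ ρ)
    {H ψ : ℝ → ℝ} (hH : ContDiff ℝ 2 H) (hHd : ∀ u, w < |u - p| → deriv H u = 0)
    (hψ : ContDiff ℝ 1 ψ) (hψ0 : ∀ t, 2 * r ≤ |t - y₀| → ψ t = 0)
    (hψd : ∀ t, deriv ψ t ≠ 0 → r ≤ |t - y₀| ∧ |t - y₀| ≤ 2 * r) {U : Set (E 2)}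
    (hU : ∀ u t, |u - p| ≤ w → r ≤ |t - y₀| → |t - y₀| ≤ 2 * r → u • dir θ + t • nrm θ ∈ U) :
    ContDiff ℝ 1 (fun x : E 2 => deriv H ⟪dir θ, x⟫ * ψ ⟪nrm θ, x⟫) ∧
    (∀ x, x ∉ ball (p • dir θ + y₀ • nrm θ) ρ → deriv H ⟪dir θ, x⟫ * ψ ⟪nrm θ, x⟫ = 0) ∧
    ∫ x in U, divg (fun x => (deriv H ⟪dir θ, x⟫ * ψ ⟪nrm θ, x⟫) • nrm θ) x = 0 := by
  have hH1 : ContDiff ℝ 1 (deriv H) := by
    have h := (contDiff_succ_iff_deriv (𝕜 := ℝ) (n := 1) (f := H)).1 (by simpa using! hH)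
    exact h.2.2
  have hg : ContDiff ℝ 1 (fun x : E 2 => deriv H ⟪dir θ, x⟫ * ψ ⟪nrm θ, x⟫) :=
    (hH1.comp (contDiff_const.inner ℝ contDiff_id)).mul
      (hψ.comp (contDiff_const.inner ℝ contDiff_id))
  have hz : ∀ x, x ∉ ball (p • dir θ + y₀ • nrm θ) ρ →
      deriv H ⟪dir θ, x⟫ * ψ ⟪nrm θ, x⟫ = 0 := by
    intro x hx
    by_contra hne
    obtain ⟨h1, h2⟩ := mul_ne_zero_iff.1 hne
    apply hx
    have h3 : |⟪dir θ, x⟫ - p| ≤ w := by
      by_contra h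
      exact h1 (hHd _ (not_le.1 h))
    have h4 : |⟪nrm θ, x⟫ - y₀| < 2 * r := by
      by_contra h
      exact h2 (hψ0 _ (not_lt.1 h))
    have h5 := dist_comb θ ⟪dir θ, x⟫ p ⟪nrm θ, x⟫ y₀
    rw [decomp] at h5
    rw [mem_ball]
    have h6 : (⟪dir θ, x⟫ - p) ^ 2 ≤ w ^ 2 := sq_le_sq' (by linarith [abs_le.1 h3])
      (abs_le.1 h3).2
    have h7 : (⟪nrm θ, x⟫ - y₀) ^ 2 ≤ (2 * r) ^ 2 := sq_le_sq' (by linarith [abs_lt.1 h4])
      (abs_lt.1 h4).2.le
    have h8 : dist x (p • dir θ + y₀ • nrm θ) ^ 2 < ρ ^ 2 := by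
      rw [h5]
      nlinarith
    exact lt_of_pow_lt_pow_left₀ 2 (by linarith) h8
  refine ⟨hg, hz, ?_⟩
  simp_rw [noisob_divg hg]
  rw [setIntegral_eq_integral_of_forall_compl_eq_zero]
  · refine noisob_int hg (HasCompactSupport.intro
      (isCompact_closedBall (p • dir θ + y₀ • nrm θ) ρ) fun x hx => ?_) (nrm θ)
    exact hz x fun h => hx (ball_subset_closedBall h)
  · intro x hx
    have h1 : HasDerivAt (fun t : ℝ => x + t • nrm θ) (nrm θ) 0 := by
      have h2 := (hasDerivAt_id (0 : ℝ)).smul_const (nrm θ)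
      rw [one_smul] at h2
      exact h2.const_add x
    have h2 : HasDerivAt (fun t : ℝ => deriv H ⟪dir θ, x + t • nrm θ⟫ *
        ψ ⟪nrm θ, x + t • nrm θ⟫) (fderiv ℝ (fun x : E 2 => deriv H ⟪dir θ, x⟫ *
          ψ ⟪nrm θ, x⟫) x (nrm θ)) 0 := by
      have h3 := (hg.differentiable one_ne_zero (x + (0 : ℝ) • nrm θ)).hasFDerivAt
      have h4 := h3.comp_hasDerivAt (0 : ℝ) h1
      rw [zero_smul, add_zero] at h4
      exact h4
    have h3 : HasDerivAt (fun t : ℝ => deriv H ⟪dir θ, x + t • nrm θ⟫ *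
        ψ ⟪nrm θ, x + t • nrm θ⟫) (deriv H ⟪dir θ, x⟫ * deriv ψ ⟪nrm θ, x⟫) 0 := by
      have h4 : (fun t : ℝ => deriv H ⟪dir θ, x + t • nrm θ⟫ * ψ ⟪nrm θ, x + t • nrm θ⟫) =
          fun t : ℝ => deriv H ⟪dir θ, x⟫ * ψ (⟪nrm θ, x⟫ + t) := by
        funext t
        rw [inner_add_right, inner_add_right, inner_smul_right, inner_smul_right, inner_dir_nrm,
          inner_nrm_nrm, mul_zero, add_zero, mul_one]
      rw [h4]
      have h5 : HasDerivAt ψ (deriv ψ ⟪nrm θ, x⟫) (⟪nrm θ, x⟫ + 0) := by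
        rw [add_zero]
        exact (hψ.differentiable one_ne_zero _).hasDerivAt
      exact (h5.comp_const_add _ _).const_mul _
    rw [h2.unique h3]
    by_contra hne
    obtain ⟨h6, h7⟩ := mul_ne_zero_iff.1 hne
    have h8 : |⟪dir θ, x⟫ - p| ≤ w := by
      by_contra h
      exact h6 (hHd _ (not_le.1 h))
    have h9 := hψd _ h7
    have h10 := hU _ _ h8 h9.1 h9.2
    rw [decomp] at h10
    exact hx h10

variable {D : Domain 2} (J : JordanBoundary D)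

include J

theorem noisob_pos {θ p : ℝ} {j : Fin J.N} {s : ℝ}
    (hp : ⟪dir θ, J.curve j s⟫ = p)
    (hd : DifferentiableAt ℝ (fun s' => ⟪dir θ, J.curve j s'⟫) s)
    (hd' : 0 < deriv (fun s' => ⟪dir θ, J.curve j s'⟫) s) {δ : ℝ} (hδ : 0 < δ) :
    ∃ t : ℝ, 0 < |t| ∧ |t| < δ ∧ J.curve j s + t • nrm θ ∉ D.carrier := by
  by_contra hcon
  push Not at hcon
  obtain ⟨y₀, hy₀⟩ : ∃ y₀, y₀ = ⟪nrm θ, J.curve j s⟫ := ⟨_, rfl⟩
  have hz : p • dir θ + y₀ • nrm θ = J.curve j s := by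
    rw [← hp, hy₀, decomp]
  -- signs
  obtain ⟨δ₁, hδ₁, hneg, hpos⟩ : ∃ δ₁ > 0, (∀ s', s - δ₁ < s' → s' < s →
      ⟪dir θ, J.curve j s'⟫ < p) ∧ (∀ s', s < s' → s' < s + δ₁ → p < ⟪dir θ, J.curve j s'⟫) := by
    have h1 := hd.hasDerivAt.tendsto_slope
    have h2 := h1.eventually (lt_mem_nhds hd')
    rw [eventually_nhdsWithin_iff, Metric.eventually_nhds_iff] at h2
    obtain ⟨ε, hε, h3⟩ := h2
    refine ⟨ε, hε, fun s' h4 h5 => ?_, fun s' h4 h5 => ?_⟩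
    · have h6 := h3 (y := s') (by rw [Real.dist_eq, abs_lt]; constructor <;> linarith)
        (ne_of_lt h5)
      rw [slope_def_field, hp] at h6
      have h7 : s' - s < 0 := by linarith
      by_contra h8
      exact absurd h6 (not_lt.2 (div_nonpos_of_nonneg_of_nonpos (by linarith) h7.le))
    · have h6 := h3 (y := s') (by rw [Real.dist_eq, abs_lt]; constructor <;> linarith)
        (ne_of_gt h4)
      rw [slope_def_field, hp] at h6
      have h7 : 0 < s' - s := by linarith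
      have h8 := (div_pos_iff_of_pos_right h7).1 h6
      linarith
  have hL := J.len_pos j
  obtain ⟨δ', hδ'0, hδ'1, hδ'2⟩ : ∃ δ', 0 < δ' ∧ δ' < δ₁ ∧ 2 * δ' < J.len j := by
    refine ⟨min (δ₁ / 2) (J.len j / 4), lt_min (by linarith) (by linarith), ?_, ?_⟩
    · exact (min_le_left _ _).trans_lt (by linarith)
    · have := min_le_right (δ₁ / 2) (J.len j / 4)
      linarith
  obtain ⟨ρ, hρ, hX⟩ := near_surface J s hδ'0 hδ'2
  obtain ⟨r, hr, hr1, hr2⟩ : ∃ r, 0 < r ∧ 4 * r ≤ ρ ∧ 4 * r ≤ δ := by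
    refine ⟨min ρ δ / 4, by positivity, ?_, ?_⟩
    · have := min_le_left ρ δ
      linarith
    · have := min_le_right ρ δ
      linarith
  -- the rectangles
  obtain ⟨w₁, hw₁, hrect⟩ : ∃ w₁ > 0, ∀ u t, |u - p| ≤ w₁ → r ≤ |t - y₀| → |t - y₀| ≤ 2 * r →
      u • dir θ + t • nrm θ ∈ D.carrier := by
    have hcl : IsClosed {t : ℝ | r ≤ |t - y₀| ∧ |t - y₀| ≤ 2 * r} :=
      (isClosed_le continuous_const (by fun_prop : Continuous fun t : ℝ => |t - y₀|)).inter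
        (isClosed_le (by fun_prop : Continuous fun t : ℝ => |t - y₀|) continuous_const)
    have hK : IsCompact {t : ℝ | r ≤ |t - y₀| ∧ |t - y₀| ≤ 2 * r} := by
      refine (isCompact_closedBall y₀ (2 * r)).of_isClosed_subset hcl ?_
      rintro t ⟨-, ht⟩
      exact ht
    have hK' := hK.image (f := fun t : ℝ => p • dir θ + t • nrm θ) (by fun_prop)
    obtain ⟨w₁, hw₁, h1⟩ := hK'.exists_cthickening_subset_open D.isOpen (by
      rintro _ ⟨t, ⟨ht1, ht2⟩, rfl⟩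
      have h2 := hcon (t - y₀) (lt_of_lt_of_le hr ht1) (by linarith)
      rw [← hz] at h2
      have h3 : p • dir θ + y₀ • nrm θ + (t - y₀) • nrm θ = p • dir θ + t • nrm θ := by
        rw [sub_smul]
        abel
      rwa [h3] at h2)
    refine ⟨w₁, hw₁, fun u t hu ht1 ht2 => h1 ?_⟩
    refine mem_cthickening_of_dist_le _ (p • dir θ + t • nrm θ) _ _ ⟨t, ⟨ht1, ht2⟩, rfl⟩ ?_
    have h2 := dist_comb θ u p t t
    rw [sub_self, zero_pow two_ne_zero, add_zero] at h2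
    have h3 : dist (u • dir θ + t • nrm θ) (p • dir θ + t • nrm θ) = |u - p| := by
      rw [← abs_of_nonneg (dist_nonneg (x := u • dir θ + t • nrm θ)
        (y := p • dir θ + t • nrm θ))]
      exact (sq_eq_sq_iff_abs_eq_abs _ _).1 h2
    rw [h3]
    exact hu
  have hfm : ⟪dir θ, J.curve j (s - δ')⟫ < p := hneg _ (by linarith) (by linarith)
  have hfp : p < ⟪dir θ, J.curve j (s + δ')⟫ := hpos _ (by linarith) (by linarith)
  obtain ⟨w, hw, hwr, hww, hwm, hwp⟩ : ∃ w, 0 < w ∧ w ≤ r ∧ w ≤ w₁ ∧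
      ⟪dir θ, J.curve j (s - δ')⟫ ≤ p - w ∧ p + w ≤ ⟪dir θ, J.curve j (s + δ')⟫ := by
    refine ⟨min (min r w₁) (min (p - ⟪dir θ, J.curve j (s - δ')⟫)
      (⟪dir θ, J.curve j (s + δ')⟫ - p)), ?_, ?_, ?_, ?_, ?_⟩
    · exact lt_min (lt_min hr hw₁) (lt_min (by linarith) (by linarith))
    · exact (min_le_left _ _).trans (min_le_left _ _)
    · exact (min_le_left _ _).trans (min_le_right _ _)
    · have := (min_le_right (min r w₁) (min (p - ⟪dir θ, J.curve j (s - δ')⟫)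
        (⟪dir θ, J.curve j (s + δ')⟫ - p))).trans (min_le_left _ _)
      linarith
    · have := (min_le_right (min r w₁) (min (p - ⟪dir θ, J.curve j (s - δ')⟫)
        (⟪dir θ, J.curve j (s + δ')⟫ - p))).trans (min_le_right _ _)
      linarith
  obtain ⟨H, hH, hH0, hH1, hHd⟩ := noisob_eta (p := p) hw
  obtain ⟨ψ, hψ, hψ1, hψ0, hψd⟩ := noisob_psi y₀ hr
  obtain ⟨hg, hgz, hint⟩ := noisob_field hw hr hwr hr1 hH hHd hψ hψ0 hψd
    (U := D.carrier) (fun u t hu => hrect u t (hu.trans hww))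
  have hXc : ContDiff ℝ 1 (fun x : E 2 => (deriv H ⟪dir θ, x⟫ * ψ ⟪nrm θ, x⟫) • nrm θ) :=
    hg.smul contDiff_const
  have hdiv := D.divergence _ hXc
  rw [hint, hX _ hXc.continuous (fun x hx => by
    rw [← hz] at hx
    show (deriv H ⟪dir θ, x⟫ * ψ ⟪nrm θ, x⟫) • nrm θ = 0
    rw [hgz x hx, zero_smul])] at hdiv
  -- points of the curve are not in the rectangles
  have hcurve : ∀ s', deriv ψ ⟪nrm θ, J.curve j s'⟫ ≠ 0 → w < |⟪dir θ, J.curve j s'⟫ - p| := by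
    intro s' h1
    by_contra h2
    obtain ⟨h3, h4⟩ := hψd _ h1
    have h5 := hrect _ _ ((not_lt.1 h2).trans hww) h3 h4
    rw [decomp] at h5
    have h6 : J.curve j s' ∈ frontier D.carrier := by
      rw [J.frontier_eq]
      exact mem_iUnion.2 ⟨j, mem_range_self s'⟩
    exact D.isOpen.frontier_eq ▸ h6 |>.2 h5
  have hlip := J.lipschitz j
  have hHc : ContDiff ℝ 1 H := hH.of_le one_le_two
  obtain ⟨hi1, hI1⟩ := noisob_ibp hlip θ hHc hψ (a := s - δ') (b := s) (by linarith) (by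
    intro s' hs'
    by_cases h1 : deriv ψ ⟪nrm θ, J.curve j s'⟫ = 0
    · rw [h1, mul_zero]
    · have h2 := hcurve s' h1
      have h3 := hneg s' (by linarith [hs'.1]) hs'.2
      rw [abs_of_neg (by linarith)] at h2
      rw [hH0 _ (by linarith), zero_mul])
  obtain ⟨hi2, hI2⟩ := noisob_ibp hlip θ (hHc.sub (contDiff_const (c := (1 : ℝ)))) hψ (a := s)
    (b := s + δ') (by linarith) (by
    intro s' hs'
    by_cases h1 : deriv ψ ⟪nrm θ, J.curve j s'⟫ = 0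
    · rw [h1, mul_zero]
    · have h2 := hcurve s' h1
      have h3 := hpos s' hs'.1 (by linarith [hs'.2])
      rw [abs_of_pos (by linarith)] at h2
      rw [hH1 _ (by linarith), sub_self, zero_mul])
  have hder : deriv (fun x => H x - 1) = deriv H := by
    funext x
    exact deriv_sub_const _
  rw [hder] at hi2 hI2
  rw [hp, ← hy₀, hψ1, hH0 _ hwm] at hI1
  rw [hp, ← hy₀, hψ1, hH1 _ hwp] at hI2
  have hrot : ∀ v : E 2, ⟪nrm θ, rot v⟫ = -⟪dir θ, v⟫ := by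
    intro v
    rw [inner_nrm, inner_dir]
    simp [rot]
  have hRHS : ∫ s' in (s - δ')..(s + δ'),
      ⟪(deriv H ⟪dir θ, J.curve j s'⟫ * ψ ⟪nrm θ, J.curve j s'⟫) • nrm θ,
        rot (deriv (J.curve j) s')⟫ = -1 := by
    have h1 : ∀ s' : ℝ, ⟪(deriv H ⟪dir θ, J.curve j s'⟫ * ψ ⟪nrm θ, J.curve j s'⟫) • nrm θ,
        rot (deriv (J.curve j) s')⟫ = -(deriv H ⟪dir θ, J.curve j s'⟫ *
          ψ ⟪nrm θ, J.curve j s'⟫ * ⟪dir θ, deriv (J.curve j) s'⟫) := by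
      intro s'
      rw [real_inner_smul_left, hrot]
      ring
    simp_rw [h1]
    rw [intervalIntegral.integral_neg, ← intervalIntegral.integral_add_adjacent_intervals hi1 hi2,
      hI1, hI2]
    ring
  rw [hRHS] at hdiv
  norm_num at hdiv

/-- The argument near a boundary point. PROOF: write `f = ⟪dir θ, curve j ·⟫`, `y = ⟪nrm θ, curve j ·⟫`,
`z = curve j s`, `y₀ = y s`, and assume `f'(s) > 0` (the other case is symmetric) and that
`z + t • nrm θ ∈ D` for `0 < |t| < δ`. Choose `δ' > 0` with `2 δ' < len j`, `f < p` on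
`[s - δ', s)` and `f > p` on `(s, s + δ']`; take `ρ` from `near_surface`, `r = min ρ δ / 4`, and `ψ`
smooth on the line with `ψ = 1` for `|t - y₀| ≤ r`, `ψ = 0` for `|t - y₀| ≥ 2 r`. The segments
`{p} × {r ≤ |t - y₀| ≤ 2 r}` (coordinates `⟪dir θ, ·⟫`, `⟪nrm θ, ·⟫`) are compact subsets of the open
set `D`, so for some `w > 0` the rectangles `{|p' - p| ≤ w} × {r ≤ |t - y₀| ≤ 2 r}` are in `D`; take
`w < r`, `w < p - f (s - δ')`, `w < f (s + δ') - p`. Let `Η` be smooth and increasing with `Η = 0` for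
`p' ≤ p - w`, `Η = 1` for `p' ≥ p + w`, `η = Η'`. Divergence theorem for
`X x = (η ⟪dir θ, x⟫ * ψ ⟪nrm θ, x⟫) • nrm θ`: the left side is `∫_D η ψ'`, and `η ψ' ≠ 0` only in
the rectangles, so it is `∫_{ℝ²} η ψ' = 0` (Fubini, `∫ ψ' = 0`). The right side is
`- ∫_{s-δ'}^{s+δ'} η(f) ψ(y) f'` (`⟪nrm θ, rot v⟫ = - ⟪dir θ, v⟫`). Integration by parts for
Lipschitz functions (`AbsolutelyContinuousOnInterval.integral_deriv_eq_sub` for `Η(f) ψ(y)`):
`∫ η(f) f' ψ(y) = [Η(f) ψ(y)] - ∫ Η(f) ψ'(y) y'`. Boundary points are not in the rectangles, so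
where `ψ'(y) ≠ 0` one has `|f - p| ≥ w`, i.e. `Η(f) = 0` on `[s-δ', s)` and `Η(f) = 1` on
`(s, s+δ']`. So the last integral is `ψ(y(s+δ')) - ψ(y(s)) = ψ(y(s+δ')) - 1` and the bracket is
`ψ(y(s+δ'))`: the right side is `-1`. Contradiction. -/
theorem not_isolated_near {θ p : ℝ} {j : Fin J.N} {s : ℝ}
    (hp : ⟪dir θ, J.curve j s⟫ = p)
    (hd : DifferentiableAt ℝ (fun s' => ⟪dir θ, J.curve j s'⟫) s)
    (hd' : deriv (fun s' => ⟪dir θ, J.curve j s'⟫) s ≠ 0) {δ : ℝ} (hδ : 0 < δ) :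
    ∃ t : ℝ, 0 < |t| ∧ |t| < δ ∧ J.curve j s + t • nrm θ ∉ D.carrier := by
  rcases lt_or_gt_of_ne hd' with h | h
  · have h1 : (fun s' => ⟪dir (θ + Real.pi), J.curve j s'⟫) =
        fun s' => -⟪dir θ, J.curve j s'⟫ := by
      funext s'
      rw [dir_add_pi, inner_neg_left]
    obtain ⟨t, ht1, ht2, ht3⟩ := noisob_pos J (θ := θ + Real.pi) (p := -p) (j := j) (s := s)
      (by rw [dir_add_pi, inner_neg_left, hp]) (by rw [h1]; exact hd.fun_neg)
      (by rw [h1, deriv.fun_neg]; linarith) hδ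
    refine ⟨-t, by rwa [abs_neg], by rwa [abs_neg], ?_⟩
    rw [nrm_add_pi, smul_neg] at ht3
    rwa [neg_smul]
  · exact noisob_pos J hp hd h hδ

end Pool.Agent.RA
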