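import Pool.Agent.H.MP_1b807b_an.A.AreaA
import Pool.Agent.H.MP_1b807b_an.A.AreaB
import Pool.Agent.H.MP_1b807b_an.A.DlenA
import Pool.Agent.H.MP_1b807b_an.A.NoIsoB

/-! MP_1b807b_an, large parameter asymptotics in the plane, module NoIsoC: no isolated points, finiteness -/

set_option autoImplicit false

namespace Pool.Agent.RA

open MeasureTheory Metric Set Pool.Agent.RG
open scoped RealInnerProductSpace ENNReal Topology Pointwise

variable {D : Domain 2} (J : JordanBoundary D)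

include J

theorem noisoc_lip (θ : ℝ) (j : Fin J.N) :
    LipschitzWith 1 (fun s => ⟪dir θ, J.curve j s⟫) := by
  refine LipschitzWith.of_dist_le_mul fun s t => ?_
  rw [NNReal.coe_one, one_mul, Real.dist_eq, ← inner_sub_right]
  refine (abs_inner_dir_le θ _).trans ?_
  rw [← dist_eq_norm]
  have h := (J.lipschitz j).dist_le_mul s t
  rwa [NNReal.coe_one, one_mul] at h

theorem noisoc_fin (θ : ℝ) (j : Fin J.N) : ∀ᵐ p : ℝ,
    (Ico 0 (J.len j) ∩ (fun s => ⟪dir θ, J.curve j s⟫) ⁻¹' {p}).Finite := by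
  have hf := noisoc_lip J θ j
  have h1 := area_one hf 0 (J.len j) isClosed_univ
  have h2 : ∫⁻ p, cnt (Ico 0 (J.len j) ∩ univ ∩ (fun s => ⟪dir θ, J.curve j s⟫) ⁻¹' {p}) ≠ ⊤ := by
    refine ne_top_of_le_ne_top ?_ h1.2
    have h3 : ∫⁻ s in Ico 0 (J.len j) ∩ univ,
        ENNReal.ofReal |deriv (fun s => ⟪dir θ, J.curve j s⟫) s| ≤
          ∫⁻ s in Ico 0 (J.len j) ∩ univ, 1 := by
      refine lintegral_mono fun s => ?_
      have h4 := norm_deriv_le_of_lipschitz (x₀ := s) hf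
      rw [Real.norm_eq_abs] at h4
      exact ENNReal.ofReal_le_one.2 h4
    refine ne_top_of_le_ne_top ?_ h3
    rw [setLIntegral_one, inter_univ, Real.volume_Ico]
    exact ENNReal.ofReal_ne_top
  filter_upwards [ae_lt_top h1.1 h2] with p hp
  rw [inter_univ] at hp
  rw [← Set.encard_ne_top_iff]
  intro h5
  unfold cnt at hp
  rw [h5] at hp
  exact absurd hp (by simp)

/-- PROOF: `∫ cnt (frontier ∩ ln θ p) dp ≤ dl univ θ < ∞`; the function
`p ↦ ∑ j, cnt (Ico 0 (len j) ∩ f_j ⁻¹' {p})` is measurable with finite integral (`area_one`), so it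
is finite for almost every `p`. -/
theorem ae_finite (θ : ℝ) : ∀ᵐ p : ℝ, (frontier D.carrier ∩ ln θ p).Finite := by
  have h1 : ∀ᵐ p : ℝ, ∀ j,
      (Ico 0 (J.len j) ∩ (fun s => ⟪dir θ, J.curve j s⟫) ⁻¹' {p}).Finite :=
    ae_all_iff.2 fun j => noisoc_fin J θ j
  filter_upwards [h1] with p hp
  refine (Set.finite_iUnion fun j => (hp j).image (J.curve j)).subset ?_
  rintro z ⟨hz1, hz2⟩
  obtain ⟨j, s, hs, rfl⟩ := (mem_frontier_iff J).1 hz1
  exact mem_iUnion.2 ⟨j, s, ⟨hs, hz2⟩, rfl⟩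

/-- PROOF: `ae_regular` for the finitely many functions `s ↦ ⟪dir θ, curve j s⟫` and
`not_isolated_near`. -/
theorem no_isolated (θ : ℝ) : ∀ᵐ p : ℝ, ∀ z ∈ frontier D.carrier ∩ ln θ p, ∀ δ > 0,
    ∃ t : ℝ, 0 < |t| ∧ |t| < δ ∧ z + t • nrm θ ∉ D.carrier := by
  have h1 : ∀ᵐ p : ℝ, ∀ j, ∀ s, ⟪dir θ, J.curve j s⟫ = p →
      DifferentiableAt ℝ (fun s => ⟪dir θ, J.curve j s⟫) s ∧
        deriv (fun s => ⟪dir θ, J.curve j s⟫) s ≠ 0 :=
    ae_all_iff.2 fun j => ae_regular (noisoc_lip J θ j)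
  filter_upwards [h1] with p hp z hz δ hδ
  obtain ⟨j, s, _, rfl⟩ := (mem_frontier_iff J).1 hz.1
  have h2 := hp j s hz.2
  exact not_isolated_near J hz.2 h2.1 h2.2 hδ

end Pool.Agent.RA
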