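import Pool.Agent.H.MP_1b807b_an.A.Basic

/-! MP_1b807b_an, large parameter asymptotics in the plane, module RendA: right endpoints -/

set_option autoImplicit false

namespace Pool.Agent.RA

open MeasureTheory Metric Set Pool.Agent.RG
open scoped RealInnerProductSpace ENNReal Topology Pointwise

/-- the last point of `A` before a point `z ∉ A` -/
private theorem renda_last {A : Set ℝ} (hA : IsClosed A) {a z : ℝ} (ha : a ∈ A) (haz : a ≤ z)
    (hz : z ∉ A) : ∃ b ∈ rend A, a ≤ b ∧ b < z := by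
  have hne : (A ∩ Iic z).Nonempty := ⟨a, ha, haz⟩
  have hbd : BddAbove (A ∩ Iic z) := ⟨z, fun y hy => hy.2⟩
  have hmem : sSup (A ∩ Iic z) ∈ A ∩ Iic z := (hA.inter isClosed_Iic).csSup_mem hne hbd
  have hlt : sSup (A ∩ Iic z) < z := by
    refine lt_of_le_of_ne hmem.2 fun h => hz ?_
    rw [← h]
    exact hmem.1
  refine ⟨sSup (A ∩ Iic z), ⟨hmem.1, z - sSup (A ∩ Iic z), sub_pos.2 hlt, ?_⟩, ?_, hlt⟩
  · intro y hy1 hy2 hyA
    have h1 : y ≤ sSup (A ∩ Iic z) := le_csSup hbd ⟨hyA, by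
      show y ≤ z
      linarith⟩
    linarith
  · exact le_csSup hbd ⟨ha, haz⟩

/-- PROOF: for `h = 0` the left side is `0`. For `y ∈ (A + [0,h]) \ A` put
`b = sSup (A ∩ Iic y)`: `b ∈ A`, `b < y`, `(b, y) ∩ A = ∅`, so `b ∈ rend A` and `y ∈ Ioc b (b+h)`.
So the set is covered by the `Ioc b (b+h)`, `b ∈ rend A`; if `rend A` is infinite the right side is
`⊤`, otherwise use finite subadditivity. -/
theorem vol_add_Icc {A : Set ℝ} (hA : IsClosed A) {h : ℝ} (hh : 0 ≤ h) :
    volume ((A + Icc 0 h) \ A) ≤ ENNReal.ofReal h * cnt (rend A) := by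
  have hsub : (A + Icc 0 h) \ A ⊆ ⋃ b ∈ rend A, Ioc b (b + h) := by
    rintro y ⟨⟨a, ha, t, ht, rfl⟩, hyA⟩
    have hyA' : a + t ∉ A := hyA
    obtain ⟨b, hb, hab, hby⟩ := renda_last hA ha (by linarith [ht.1]) hyA'
    exact mem_biUnion hb ⟨hby, by show a + t ≤ b + h; linarith [ht.2]⟩
  by_cases hfin : (rend A).Finite
  · have h1 : ⋃ b ∈ rend A, Ioc b (b + h) = ⋃ b ∈ hfin.toFinset, Ioc b (b + h) := by
      ext y
      simp
    calc volume ((A + Icc 0 h) \ A) ≤ volume (⋃ b ∈ hfin.toFinset, Ioc b (b + h)) := by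
          rw [← h1]
          exact measure_mono hsub
      _ ≤ ∑ b ∈ hfin.toFinset, volume (Ioc b (b + h)) := measure_biUnion_finset_le _ _
      _ = ∑ _b ∈ hfin.toFinset, ENNReal.ofReal h := by
          refine Finset.sum_congr rfl fun b _ => ?_
          rw [Real.volume_Ioc, add_sub_cancel_left]
      _ = ENNReal.ofReal h * cnt (rend A) := by
          rw [Finset.sum_const, nsmul_eq_mul, mul_comm, cnt, hfin.encard_eq_coe_toFinset_card,
            ENat.toENNReal_coe]
  · rcases hh.eq_or_lt with rfl | hpos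
    · have h1 : (A + Icc (0 : ℝ) 0) \ A = ∅ := by
        rw [eq_empty_iff_forall_notMem]
        rintro y ⟨⟨a, ha, t, ht, rfl⟩, hyA⟩
        apply hyA
        have h2 : t = 0 := le_antisymm ht.2 ht.1
        show a + t ∈ A
        rw [h2, add_zero]
        exact ha
      rw [h1, measure_empty]
      exact zero_le
    · have h1 : cnt (rend A) = ⊤ := by
        rw [cnt, Set.Infinite.encard_eq hfin, ENat.toENNReal_top]
      rw [h1, ENNReal.mul_top (by
        rw [Ne, ENNReal.ofReal_eq_zero, not_le]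
        exact hpos)]
      exact le_top

/-- PROOF: suppose `Ici x ⊄ A` and let `b = sSup {y | Icc x y ⊆ A}`; `Icc x b ⊆ A`. If
`b ∉ rend A`, then for every `ε > 0` there is `y ∈ A ∩ (b, b+ε)`, and `z ∈ (b,y) \ A` by definition
of `b`; `sSup (A ∩ Iic z)` lies in `rend A ∩ (b, b+ε)` or is `b`; in the second case `b ∈ rend A`.
So `rend A` has points in every `(b, b+ε)`: it is infinite. -/
theorem exists_rend {A : Set ℝ} (hA : IsClosed A) (hfin : (rend A).Finite) {x : ℝ} (hx : x ∈ A) :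
    (∃ b ∈ rend A, x ≤ b ∧ Icc x b ⊆ A) ∨ Ici x ⊆ A := by
  by_cases h : Ici x ⊆ A
  · exact Or.inr h
  · left
    rw [Set.not_subset] at h
    obtain ⟨z, hxz, hzA⟩ := h
    obtain ⟨b0, hb0, hxb0, _⟩ := renda_last hA hx hxz hzA
    obtain ⟨b, ⟨hb, hxb⟩, hmin⟩ := Set.exists_min_image (rend A ∩ Ici x) id
      (hfin.subset inter_subset_left) ⟨b0, hb0, hxb0⟩
    refine ⟨b, hb, hxb, ?_⟩
    intro y hy
    by_contra hyA
    obtain ⟨b', hb', hxb', hby⟩ := renda_last hA hx hy.1 hyA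
    have h1 : b ≤ b' := hmin b' ⟨hb', hxb'⟩
    linarith [hy.2]

end Pool.Agent.RA
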