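import Pool.Agent.H.MP_1b807b_an.A.Basic

/-! MP_1b807b_an, large parameter asymptotics in the plane, module RendC: measurability of the number of right endpoints -/

set_option autoImplicit false

namespace Pool.Agent.RA

open MeasureTheory Metric Set Pool.Agent.RG
open scoped RealInnerProductSpace ENNReal Topology Pointwise

theorem rendc_exists {A : Set ℝ} (hA : IsClosed A) {a c : ℝ} :
    (∃ b ∈ rend A, a < b ∧ b < c) ↔
      ∃ q : ℚ, (q : ℝ) ≤ c ∧ (q : ℝ) ∉ A ∧ (A ∩ Ioo a (q : ℝ)).Nonempty := by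
  constructor
  · rintro ⟨b, ⟨hbA, ε, hε, hb⟩, hab, hbc⟩
    obtain ⟨q, hq1, hq2⟩ := exists_rat_btwn (lt_min (lt_add_of_pos_right b hε) hbc)
    have h1 := lt_min_iff.1 hq2
    exact ⟨q, h1.2.le, hb q hq1 h1.1, b, hbA, hab, hq1⟩
  · rintro ⟨q, hqc, hqA, x, hxA, hax, hxq⟩
    have hne : (A ∩ Iic (q : ℝ)).Nonempty := ⟨x, hxA, hxq.le⟩
    have hbdd : BddAbove (A ∩ Iic (q : ℝ)) := ⟨q, fun y hy => hy.2⟩
    have hmem : sSup (A ∩ Iic (q : ℝ)) ∈ A ∩ Iic (q : ℝ) :=
      (hA.inter isClosed_Iic).csSup_mem hne hbdd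
    have hlt : sSup (A ∩ Iic (q : ℝ)) < q := by
      refine lt_of_le_of_ne hmem.2 ?_
      intro h
      exact hqA (h ▸ hmem.1)
    refine ⟨sSup (A ∩ Iic (q : ℝ)), ⟨hmem.1, q - sSup (A ∩ Iic (q : ℝ)), sub_pos.2 hlt, ?_⟩, ?_, ?_⟩
    · intro y hy1 hy2 hyA
      have h1 : y < q := by linarith
      exact absurd (le_csSup hbdd ⟨hyA, h1.le⟩) (not_le.2 hy1)
    · exact lt_of_lt_of_le hax (le_csSup hbdd ⟨hxA, hxq.le⟩)
    · exact lt_of_lt_of_le hlt hqc

theorem rendc_count {R : Set ℝ} {n : ℕ} {c : ℝ} :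
    ((n + 1 : ℕ) : ℕ∞) ≤ (R ∩ Iio c).encard ↔
      ∃ c' : ℚ, (∃ b ∈ R, (c' : ℝ) < b ∧ b < c) ∧ (n : ℕ∞) ≤ (R ∩ Iio (c' : ℝ)).encard := by
  constructor
  · intro h
    obtain ⟨t, ht, htc⟩ := Set.exists_subset_encard_eq h
    have hfin : t.Finite := Set.finite_of_encard_eq_coe htc
    have hne : t.Nonempty := by
      rw [← Set.encard_ne_zero, htc]
      simp
    obtain ⟨b, hb, hmax⟩ := Set.exists_max_image t id hfin hne
    obtain ⟨b', hb', hmax'⟩ := Set.exists_max_image (insert (b - 1) (t \ {b})) id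
      ((hfin.subset Set.sdiff_subset).insert _) ⟨b - 1, Set.mem_insert _ _⟩
    have hlt : b' < b := by
      rcases hb' with rfl | hb'
      · linarith
      · exact lt_of_le_of_ne (hmax b' hb'.1) hb'.2
    obtain ⟨q, hq1, hq2⟩ := exists_rat_btwn hlt
    refine ⟨q, ⟨b, (ht hb).1, hq2, (ht hb).2⟩, ?_⟩
    have h1 : t \ {b} ⊆ R ∩ Iio (q : ℝ) := by
      intro y hy
      exact ⟨(ht hy.1).1, lt_of_le_of_lt (hmax' y (Set.mem_insert_of_mem _ hy)) hq1⟩
    refine le_trans ?_ (Set.encard_le_encard h1)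
    have h2 : (insert b (t \ {b})).encard = (t \ {b}).encard + 1 :=
      Set.encard_insert_of_notMem (fun h => h.2 rfl)
    rw [Set.insert_sdiff_singleton, Set.insert_eq_of_mem hb, htc] at h2
    push_cast at h2
    have h3 : (n : ℕ∞) = (t \ {b}).encard := by
      have h4 : (1 : ℕ∞) ≠ ⊤ := by simp
      exact ENat.add_left_injective_of_ne_top h4 h2
    exact h3.le
  · rintro ⟨c', ⟨b, hbR, hcb, hbc⟩, h⟩
    have h1 : insert b (R ∩ Iio (c' : ℝ)) ⊆ R ∩ Iio c := by
      intro y hy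
      rcases hy with rfl | hy
      · exact ⟨hbR, hbc⟩
      · exact ⟨hy.1, lt_trans (lt_trans hy.2 hcb) hbc⟩
    refine le_trans ?_ (Set.encard_le_encard h1)
    rw [Set.encard_insert_of_notMem (fun h => absurd h.2 (not_lt.2 hcb.le))]
    push_cast
    gcongr

theorem rendc_closed (θ : ℝ) {S : Set (E 2)} (hS : IsClosed S) (a b : ℝ) :
    IsClosed {p | (slc θ S p ∩ Icc a b).Nonempty} := by
  rw [← isOpen_compl_iff, isOpen_iff_mem_nhds]
  intro p hp
  have h1 : ∀ y ∈ Icc a b, ∀ᶠ z : ℝ × ℝ in 𝓝 (p, y), z.1 • dir θ + z.2 • nrm θ ∉ S := by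
    intro y hy
    have h2 : Continuous (fun z : ℝ × ℝ => z.1 • dir θ + z.2 • nrm θ) := by fun_prop
    refine (hS.isOpen_compl.preimage h2).mem_nhds ?_
    intro h3
    exact hp ⟨y, h3, hy⟩
  have h3 := isCompact_Icc.eventually_forall_of_forall_eventually
    (P := fun x y => x • dir θ + y • nrm θ ∉ S) h1
  filter_upwards [h3] with x hx
  rintro ⟨y, hy, hy'⟩
  exact hx y hy' hy

theorem rendc_proj (θ : ℝ) {S : Set (E 2)} (hS : IsClosed S) (a b : ℝ) :
    MeasurableSet {p | (slc θ S p ∩ Ioo a b).Nonempty} := by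
  have h : {p | (slc θ S p ∩ Ioo a b).Nonempty} =
      ⋃ k : ℕ, {p | (slc θ S p ∩ Icc (a + 1 / ((k : ℝ) + 1)) (b - 1 / ((k : ℝ) + 1))).Nonempty} := by
    ext p
    simp only [mem_ofPred_eq, mem_iUnion]
    constructor
    · rintro ⟨y, hy, hay, hyb⟩
      obtain ⟨k, hk⟩ := exists_nat_one_div_lt (lt_min (sub_pos.2 hay) (sub_pos.2 hyb))
      have h1 := lt_min_iff.1 hk
      refine ⟨k, y, hy, ?_, ?_⟩
      · linarith [h1.1]
      · linarith [h1.2]
    · rintro ⟨k, y, hy, h1, h2⟩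
      have h3 : 0 < 1 / ((k : ℝ) + 1) := by positivity
      exact ⟨y, hy, by linarith, by linarith⟩
  rw [h]
  exact MeasurableSet.iUnion fun k => (rendc_closed θ hS _ _).measurableSet

theorem rendc_point (θ : ℝ) {S : Set (E 2)} (hS : IsClosed S) (c : ℝ) :
    MeasurableSet {p | c ∉ slc θ S p} := by
  have h2 : Continuous (fun p : ℝ => p • dir θ + c • nrm θ) := by fun_prop
  exact (hS.isOpen_compl.preimage h2).measurableSet

theorem rendc_between (θ : ℝ) {S : Set (E 2)} (hS : IsClosed S) (a c : ℝ) :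
    MeasurableSet {p | ∃ b ∈ rend (slc θ S p), a < b ∧ b < c} := by
  have h : {p | ∃ b ∈ rend (slc θ S p), a < b ∧ b < c} =
      ⋃ q : ℚ, {p | (q : ℝ) ≤ c ∧ (q : ℝ) ∉ slc θ S p ∧ (slc θ S p ∩ Ioo a (q : ℝ)).Nonempty} := by
    ext p
    simp only [mem_ofPred_eq, mem_iUnion]
    exact rendc_exists (isClosed_slc hS p)
  rw [h]
  refine MeasurableSet.iUnion fun q => ?_
  by_cases hq : (q : ℝ) ≤ c
  · have h1 : {p | (q : ℝ) ≤ c ∧ (q : ℝ) ∉ slc θ S p ∧ (slc θ S p ∩ Ioo a (q : ℝ)).Nonempty} =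
        {p | (q : ℝ) ∉ slc θ S p} ∩ {p | (slc θ S p ∩ Ioo a (q : ℝ)).Nonempty} := by
      ext p
      exact ⟨fun h => h.2, fun h => ⟨hq, h⟩⟩
    rw [h1]
    exact (rendc_point θ hS _).inter (rendc_proj θ hS _ _)
  · have h1 : {p | (q : ℝ) ≤ c ∧ (q : ℝ) ∉ slc θ S p ∧ (slc θ S p ∩ Ioo a (q : ℝ)).Nonempty} =
        ∅ := by
      ext p
      exact ⟨fun h => hq h.1, fun h => h.elim⟩
    rw [h1]
    exact MeasurableSet.empty

theorem rendc_Iio (θ : ℝ) {S : Set (E 2)} (hS : IsClosed S) (n : ℕ) : ∀ c : ℚ,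
    MeasurableSet {p | (n : ℕ∞) ≤ (rend (slc θ S p) ∩ Iio (c : ℝ)).encard} := by
  induction n with
  | zero =>
    intro c
    have h : {p | ((0 : ℕ) : ℕ∞) ≤ (rend (slc θ S p) ∩ Iio (c : ℝ)).encard} = univ := by
      ext p
      simp
    rw [h]
    exact MeasurableSet.univ
  | succ n ih =>
    intro c
    have h : {p | ((n + 1 : ℕ) : ℕ∞) ≤ (rend (slc θ S p) ∩ Iio (c : ℝ)).encard} =
        ⋃ c' : ℚ, ({p | ∃ b ∈ rend (slc θ S p), (c' : ℝ) < b ∧ b < c} ∩
          {p | (n : ℕ∞) ≤ (rend (slc θ S p) ∩ Iio (c' : ℝ)).encard}) := by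
      ext p
      simp only [mem_ofPred_eq, mem_iUnion, mem_inter_iff]
      exact rendc_count
    rw [h]
    exact MeasurableSet.iUnion fun c' => (rendc_between θ hS _ _).inter (ih c')

theorem rendc_all (θ : ℝ) {S : Set (E 2)} (hS : IsClosed S) (n : ℕ) :
    MeasurableSet {p | (n : ℕ∞) ≤ (rend (slc θ S p)).encard} := by
  have h : {p | (n : ℕ∞) ≤ (rend (slc θ S p)).encard} =
      ⋃ c : ℚ, {p | (n : ℕ∞) ≤ (rend (slc θ S p) ∩ Iio (c : ℝ)).encard} := by
    ext p
    simp only [mem_ofPred_eq, mem_iUnion]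
    constructor
    · intro h
      obtain ⟨t, ht, htc⟩ := Set.exists_subset_encard_eq h
      have hfin : t.Finite := Set.finite_of_encard_eq_coe htc
      obtain ⟨B, hB⟩ := hfin.bddAbove
      obtain ⟨q, hq⟩ := exists_rat_gt B
      refine ⟨q, ?_⟩
      rw [← htc]
      exact Set.encard_le_encard fun y hy => ⟨ht hy, lt_of_le_of_lt (hB hy) hq⟩
    · rintro ⟨c, hc⟩
      exact hc.trans (Set.encard_le_encard inter_subset_left)
  rw [h]
  exact MeasurableSet.iUnion fun c => rendc_Iio θ hS n c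

theorem rendc_sup (m : ℕ∞) :
    (m : ℝ≥0∞) = ⨆ n : ℕ, (if (n : ℕ∞) ≤ m then (n : ℝ≥0∞) else 0) := by
  apply le_antisymm
  · induction m using ENat.recTopCoe with
    | top =>
      simp only [le_top, if_true]
      rw [ENNReal.iSup_natCast]
      simp
    | coe k =>
      refine le_trans ?_ (le_iSup _ k)
      simp
  · refine iSup_le fun n => ?_
    split_ifs with h
    · have := ENat.toENNReal_le.2 h
      simpa using this
    · exact zero_le

/-- PROOF: for closed `A` one has `n ≤ (rend A).encard` iff there are rational numbers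
`c 0 < ... < c (n-1)` outside `A` with `A ∩ (c (i-1), c i) ≠ ∅` for all `i < n` (`c (-1) = -∞`).
For fixed `c` the set of `p` with `c i ∉ slc θ S p` is open and the set of `p` with
`slc θ S p ∩ (c, c') ≠ ∅` is the projection of a countable union of closed sets
`S ∩ {k ≤ |⟪dir θ, x⟫| ...}` which are compact after cutting with balls, so it is a countable union
of compact sets. Conclude with `measurable` of `{p | n ≤ encard}` for all `n`. -/
theorem measurable_rend (θ : ℝ) {S : Set (E 2)} (hS : IsClosed S) :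
    Measurable (fun p => cnt (rend (slc θ S p))) := by
  have h : (fun p => cnt (rend (slc θ S p))) = fun p => ⨆ n : ℕ,
      Set.indicator {p | (n : ℕ∞) ≤ (rend (slc θ S p)).encard} (fun _ => (n : ℝ≥0∞)) p := by
    funext p
    unfold cnt
    rw [rendc_sup]
    refine iSup_congr fun n => ?_
    simp only [Set.indicator, mem_ofPred_eq]
  rw [h]
  exact Measurable.iSup fun n => measurable_const.indicator (rendc_all θ hS n)

end Pool.Agent.RA
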