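import Pool.Agent.H.MP_1b807b_an.A.Basic
import Pool.Agent.H.MP_1b807b_an.G.GaussBall

/-! MP_1b807b_an, large parameter asymptotics in the plane, module RingA: circles -/

set_option autoImplicit false

namespace Pool.Agent.RA

open MeasureTheory Metric Set Pool.Agent.RG
open scoped RealInnerProductSpace ENNReal Topology Pointwise

theorem ringa_set (A : Set (E 2)) :
    Ioo (0 : ℝ) 1 • ((↑) '' ((↑) ⁻¹' A : Set (sphere (0 : E 2) 1)) : Set (E 2)) =
      {x : E 2 | (0 < ‖x‖ ∧ ‖x‖ < 1) ∧ ‖x‖⁻¹ • x ∈ A} := by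
  ext x
  constructor
  · rintro ⟨r, hr, _, ⟨ω, hω, rfl⟩, rfl⟩
    have h1 : ‖(ω : E 2)‖ = 1 := mem_sphere_zero_iff_norm.1 ω.2
    have h2 : ‖r • (ω : E 2)‖ = r := by
      rw [norm_smul, h1, mul_one, Real.norm_eq_abs, abs_of_pos hr.1]
    show (0 < ‖r • (ω : E 2)‖ ∧ ‖r • (ω : E 2)‖ < 1) ∧ ‖r • (ω : E 2)‖⁻¹ • r • (ω : E 2) ∈ A
    rw [h2, smul_smul, inv_mul_cancel₀ hr.1.ne', one_smul]
    exact ⟨hr, hω⟩
  · rintro ⟨hx, hxA⟩
    have h1 : ‖‖x‖⁻¹ • x‖ = 1 := by
      rw [norm_smul, norm_inv, norm_norm, inv_mul_cancel₀ hx.1.ne']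
    refine ⟨‖x‖, hx, ‖x‖⁻¹ • x, ⟨⟨‖x‖⁻¹ • x, mem_sphere_zero_iff_norm.2 h1⟩, hxA, rfl⟩, ?_⟩
    show ‖x‖ • ‖x‖⁻¹ • x = x
    rw [smul_smul, mul_inv_cancel₀ hx.1.ne', one_smul]

theorem ringa_polar (r θ : ℝ) :
    Complex.orthonormalBasisOneI.repr (Complex.polarCoord.symm (r, θ)) = r • dir θ := by
  ext i
  rw [Complex.polarCoord_symm_apply]
  fin_cases i
  · simp [Complex.orthonormalBasisOneI_repr_apply, dir, Complex.cos_ofReal_re,
      Complex.sin_ofReal_re]
  · simp [Complex.orthonormalBasisOneI_repr_apply, dir, Complex.cos_ofReal_re,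
      Complex.sin_ofReal_re]

theorem ringa_half : ∫⁻ r in Ioi (0 : ℝ), (Iio (1 : ℝ)).indicator (fun r => ENNReal.ofReal r) r =
    ENNReal.ofReal (1 / 2) := by
  rw [setLIntegral_indicator measurableSet_Iio, inter_comm, Ioi_inter_Iio,
    ← ofReal_integral_eq_lintegral_ofReal]
  · congr 1
    rw [← integral_Ioc_eq_integral_Ioo, ← intervalIntegral.integral_of_le zero_le_one]
    simp
  · exact (continuous_id.integrableOn_Icc (a := (0 : ℝ)) (b := 1)).mono_set Ioo_subset_Icc_self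
  · filter_upwards [ae_restrict_mem measurableSet_Ioo] with r hr using hr.1.le

theorem ringa_vol {A : Set (E 2)} (hA : MeasurableSet A) :
    volume {x : E 2 | (0 < ‖x‖ ∧ ‖x‖ < 1) ∧ ‖x‖⁻¹ • x ∈ A} =
      ENNReal.ofReal (1 / 2) * volume (dir ⁻¹' A ∩ Ioo (-Real.pi) Real.pi) := by
  have hT : MeasurableSet {x : E 2 | (0 < ‖x‖ ∧ ‖x‖ < 1) ∧ ‖x‖⁻¹ • x ∈ A} := by
    refine MeasurableSet.inter ?_ ?_
    · exact (measurableSet_lt measurable_const measurable_norm).inter
        (measurableSet_lt measurable_norm measurable_const)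
    · exact (measurable_norm.inv.smul measurable_id) hA
  have hdir : Measurable dir := continuous_dir.measurable
  rw [← lintegral_indicator_one hT]
  have h1 := (Complex.orthonormalBasisOneI.repr.measurePreserving).lintegral_comp_emb
    (Complex.orthonormalBasisOneI.repr.toHomeomorph.measurableEmbedding)
    ({x : E 2 | (0 < ‖x‖ ∧ ‖x‖ < 1) ∧ ‖x‖⁻¹ • x ∈ A}.indicator (1 : E 2 → ℝ≥0∞))
  rw [← h1, ← Complex.lintegral_comp_polarCoord_symm, polarCoord_target]
  have h2 : ∀ p ∈ Ioi (0 : ℝ) ×ˢ Ioo (-Real.pi) Real.pi, ENNReal.ofReal p.1 •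
      ({x : E 2 | (0 < ‖x‖ ∧ ‖x‖ < 1) ∧ ‖x‖⁻¹ • x ∈ A}.indicator (1 : E 2 → ℝ≥0∞)
        (Complex.orthonormalBasisOneI.repr (Complex.polarCoord.symm p))) =
      (Iio (1 : ℝ)).indicator (fun r => ENNReal.ofReal r) p.1 *
        (dir ⁻¹' A).indicator (1 : ℝ → ℝ≥0∞) p.2 := by
    rintro ⟨r, θ⟩ ⟨hr, -⟩
    have hr0 : 0 < r := hr
    rw [ringa_polar]
    have h3 : ‖r • dir θ‖ = r := by
      rw [norm_smul, norm_dir, mul_one, Real.norm_eq_abs, abs_of_pos hr0]
    have h4 : r • dir θ ∈ {x : E 2 | (0 < ‖x‖ ∧ ‖x‖ < 1) ∧ ‖x‖⁻¹ • x ∈ A} ↔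
        r < 1 ∧ dir θ ∈ A := by
      rw [Set.mem_ofPred_eq, h3, smul_smul, inv_mul_cancel₀ hr0.ne', one_smul]
      tauto
    by_cases h5 : r < 1
    · by_cases h6 : dir θ ∈ A
      · rw [indicator_of_mem (h4.2 ⟨h5, h6⟩), indicator_of_mem (show r ∈ Iio (1 : ℝ) from h5),
          indicator_of_mem (show θ ∈ dir ⁻¹' A from h6)]
        simp
      · rw [indicator_of_notMem (fun h => h6 (h4.1 h).2),
          indicator_of_notMem (show θ ∉ dir ⁻¹' A from h6)]
        simp
    · rw [indicator_of_notMem (fun h => h5 (h4.1 h).1),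
        indicator_of_notMem (show r ∉ Iio (1 : ℝ) from h5)]
      simp
  rw [setLIntegral_congr_fun (measurableSet_Ioi.prod measurableSet_Ioo) h2,
    Measure.volume_eq_prod, ← Measure.prod_restrict, lintegral_prod_mul, ringa_half,
    lintegral_indicator_one (hdir hA), Measure.restrict_apply (hdir hA)]
  · exact (Measurable.indicator (by fun_prop) measurableSet_Iio).aemeasurable
  · exact (Measurable.indicator measurable_one (hdir hA)).aemeasurable

theorem ringa_period {A : Set (E 2)} (hA : MeasurableSet A) :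
    volume (dir ⁻¹' A ∩ Ioo (-Real.pi) Real.pi) =
      volume (dir ⁻¹' A ∩ Ico 0 (2 * Real.pi)) := by
  have hπ := Real.pi_pos
  have hdir : Measurable dir := continuous_dir.measurable
  have hm : MeasurableSet (dir ⁻¹' A) := hdir hA
  have e1 : dir ⁻¹' A ∩ Ioo (-Real.pi) Real.pi =
      (dir ⁻¹' A ∩ Ioo (-Real.pi) 0) ∪ (dir ⁻¹' A ∩ Ico 0 Real.pi) := by
    rw [← inter_union_distrib_left, Ioo_union_Ico_eq_Ioo (by linarith) hπ.le]
  have e2 : dir ⁻¹' A ∩ Ico 0 (2 * Real.pi) =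
      (dir ⁻¹' A ∩ Ico Real.pi (2 * Real.pi)) ∪ (dir ⁻¹' A ∩ Ico 0 Real.pi) := by
    rw [← inter_union_distrib_left, union_comm, Ico_union_Ico_eq_Ico hπ.le (by linarith)]
  have e3 : volume (dir ⁻¹' A ∩ Ico Real.pi (2 * Real.pi)) =
      volume (dir ⁻¹' A ∩ Ioo Real.pi (2 * Real.pi)) := by
    refine measure_congr ?_
    exact (ae_eq_refl _).inter Ioo_ae_eq_Ico.symm
  have e4 : volume (dir ⁻¹' A ∩ Ioo Real.pi (2 * Real.pi)) =
      volume (dir ⁻¹' A ∩ Ioo (-Real.pi) 0) := by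
    have h1 := measure_preimage_add_right volume (2 * Real.pi)
      (dir ⁻¹' A ∩ Ioo Real.pi (2 * Real.pi))
    rw [← h1]
    congr 1
    ext θ
    simp only [mem_preimage, mem_inter_iff, mem_Ioo, dir_add_two_pi]
    constructor
    · rintro ⟨h2, h3, h4⟩
      exact ⟨h2, by linarith, by linarith⟩
    · rintro ⟨h2, h3, h4⟩
      exact ⟨h2, by linarith, by linarith⟩
  rw [e1, e2, measure_union _ (hm.inter measurableSet_Ico),
    measure_union _ (hm.inter measurableSet_Ico), e3, e4]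
  · refine disjoint_left.2 fun θ h1 h2 => ?_
    have h3 := h1.2.1
    have h4 := h2.2.2
    linarith
  · refine disjoint_left.2 fun θ h1 h2 => ?_
    have h3 := h1.2.2
    have h4 := h2.2.1
    linarith

theorem ringa_one : ((volume : Measure (E 2)).toSphere).map (fun ω : sphere (0 : E 2) 1 => (ω : E 2))
    = (volume.restrict (Ico 0 (2 * Real.pi))).map dir := by
  have hdir : Measurable dir := continuous_dir.measurable
  refine Measure.ext fun A hA => ?_
  rw [Measure.map_apply measurable_subtype_coe hA, Measure.map_apply hdir hA,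
    Measure.restrict_apply (hdir hA), Measure.toSphere_apply' _ (measurable_subtype_coe hA),
    ringa_set, ringa_vol hA, ringa_period hA, ← mul_assoc]
  have h1 : Module.finrank ℝ (E 2) = 2 := by simp
  rw [h1]
  have h2 : ((2 : ℕ) : ℝ≥0∞) * ENNReal.ofReal (1 / 2) = 1 := by
    rw [one_div, ENNReal.ofReal_inv_of_pos two_pos]
    simp
    exact ENNReal.mul_inv_cancel (by norm_num) (by norm_num)
  rw [h2, one_mul]

theorem ringa_scale {R : ℝ} (hR : 0 < R) :
    (volume.restrict (Ico 0 (2 * Real.pi * R))).map (fun s : ℝ => s / R) =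
      ENNReal.ofReal R • volume.restrict (Ico 0 (2 * Real.pi)) := by
  have hme : Measurable fun s : ℝ => s / R := by fun_prop
  refine Measure.ext fun B hB => ?_
  rw [Measure.map_apply hme hB, Measure.restrict_apply (hme hB), Measure.smul_apply,
    Measure.restrict_apply hB, smul_eq_mul]
  have h1 : (fun s : ℝ => s / R) ⁻¹' B ∩ Ico 0 (2 * Real.pi * R) =
      (fun s : ℝ => R⁻¹ * s) ⁻¹' (B ∩ Ico 0 (2 * Real.pi)) := by
    ext s
    simp only [mem_inter_iff, mem_preimage, mem_Ico, div_eq_inv_mul]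
    constructor
    · rintro ⟨h2, h3, h4⟩
      refine ⟨h2, by positivity, ?_⟩
      rw [inv_mul_lt_iff₀ hR]
      linarith
    · rintro ⟨h2, h3, h4⟩
      refine ⟨h2, ?_, ?_⟩
      · have := mul_nonneg hR.le h3
        rwa [mul_inv_cancel_left₀ hR.ne'] at this
      · rw [inv_mul_lt_iff₀ hR] at h4
        linarith
  rw [h1, Real.volume_preimage_mul_left (inv_ne_zero hR.ne'), inv_inv, abs_of_pos hR]

/-- PROOF: for continuous `h` on the unit circle integrate `x ↦ h (x/‖x‖)` over the unit ball in two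
ways: `MeasureTheory.Measure.toSphere` polar coordinates and `Complex`/`ℝ × ℝ` polar coordinates
(`integral_comp_polarCoord_symm`); or: both measures have the same integrals; scaling by `R`. -/
theorem sphere_param {R : ℝ} (hR : 0 < R) : sphereMeasure 2 R =
    (volume.restrict (Ico 0 (2 * Real.pi * R))).map (fun s : ℝ => R • dir (s / R)) := by
  have hdir : Measurable dir := continuous_dir.measurable
  have hsm : Measurable fun x : E 2 => R • x := by fun_prop
  have hdv : Measurable fun s : ℝ => s / R := by fun_prop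
  have h1 : (volume.restrict (Ico 0 (2 * Real.pi * R))).map (fun s : ℝ => R • dir (s / R)) =
      (((volume.restrict (Ico 0 (2 * Real.pi * R))).map (fun s : ℝ => s / R)).map dir).map
        (fun x : E 2 => R • x) := by
    rw [Measure.map_map hdir hdv, Measure.map_map hsm (hdir.comp hdv)]
    rfl
  rw [h1, ringa_scale hR, Measure.map_smul, Measure.map_smul, ← ringa_one,
    Measure.map_map hsm measurable_subtype_coe]
  unfold sphereMeasure
  rw [show (2 : ℕ) - 1 = 1 from rfl, pow_one]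
  rfl

end Pool.Agent.RA
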