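import Pool.Agent.H.MP_1b807b_an.A.Basic
import Pool.Agent.H.MP_1b807b_an.G.GaussBall

/-! MP_1b807b_an, large parameter asymptotics in the plane, module RingB: annuli as domains -/

set_option autoImplicit false

namespace Pool.Agent.RA

open MeasureTheory Metric Set Pool.Agent.RG
open scoped RealInnerProductSpace ENNReal Topology Pointwise

private theorem ringb_polar (x : E 2) : ∃ θ : ℝ, x = ‖x‖ • dir θ := by
  set z : ℂ := ⟨x 0, x 1⟩ with hz
  have hn : ‖z‖ = ‖x‖ := by
    have h1 : ‖z‖ ^ 2 = ‖x‖ ^ 2 := by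
      rw [norm_two, ← Complex.normSq_eq_norm_sq, Complex.normSq_apply]
      ring
    exact (sq_eq_sq₀ (norm_nonneg _) (norm_nonneg _)).1 h1
  refine ⟨Complex.arg z, ?_⟩
  have h2 := Complex.norm_mul_cos_arg z
  have h3 := Complex.norm_mul_sin_arg z
  rw [hn] at h2 h3
  ext i
  fin_cases i
  · show x 0 = ‖x‖ * Real.cos (Complex.arg z)
    rw [h2]
  · show x 1 = ‖x‖ * Real.sin (Complex.arg z)
    rw [h3]

private theorem ringb_conn {r₁ r₂ : ℝ} (h1 : 0 < r₁) (h12 : r₁ < r₂) :
    IsConnected {x : E 2 | r₁ < ‖x‖ ∧ ‖x‖ < r₂} := by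
  have h : {x : E 2 | r₁ < ‖x‖ ∧ ‖x‖ < r₂} =
      (fun p : ℝ × ℝ => p.1 • dir p.2) '' (Ioo r₁ r₂ ×ˢ univ) := by
    ext x
    constructor
    · intro hx
      obtain ⟨θ, hθ⟩ := ringb_polar x
      exact ⟨(‖x‖, θ), ⟨hx, mem_univ _⟩, hθ.symm⟩
    · rintro ⟨⟨r, θ⟩, ⟨hr, -⟩, rfl⟩
      have hr' : r₁ < r ∧ r < r₂ := hr
      have hn : ‖r • dir θ‖ = r := by
        rw [norm_smul, norm_dir, mul_one, Real.norm_of_nonneg (h1.trans hr'.1).le]
      show r₁ < ‖r • dir θ‖ ∧ ‖r • dir θ‖ < r₂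
      rw [hn]
      exact hr'
  rw [h]
  refine IsConnected.image ?_ _ ?_
  · exact (isConnected_Ioo h12).prod isConnected_univ
  · exact (continuous_fst.smul (continuous_dir.comp continuous_snd)).continuousOn

private theorem ringb_frontier {r₁ r₂ : ℝ} (h1 : 0 < r₁) (h12 : r₁ < r₂)
    (ho : IsOpen {x : E 2 | r₁ < ‖x‖ ∧ ‖x‖ < r₂}) {x : E 2} (hx : ‖x‖ = r₁ ∨ ‖x‖ = r₂) :
    x ∈ frontier {x : E 2 | r₁ < ‖x‖ ∧ ‖x‖ < r₂} := by
  rw [ho.frontier_eq]
  refine ⟨?_, ?_⟩
  · have hpos : 0 < ‖x‖ := by rcases hx with hx | hx <;> rw [hx] <;> linarith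
    have hc : Filter.Tendsto (fun t : ℝ => t • x) (𝓝 1) (𝓝 x) := by
      have h2 : Continuous fun t : ℝ => t • x := by fun_prop
      have h3 := h2.tendsto 1
      rwa [one_smul] at h3
    have hnorm : ∀ t : ℝ, 0 < t → ‖t • x‖ = t * ‖x‖ := fun t ht => by
      rw [norm_smul, Real.norm_of_nonneg ht.le]
    rcases hx with hx | hx
    · have hc' := hc.mono_left (nhdsWithin_le_nhds (s := Ioi (1 : ℝ)))
      refine mem_closure_of_tendsto hc' ?_
      have h4 : Ioo (1 : ℝ) (r₂ / r₁) ∈ 𝓝[>] (1 : ℝ) :=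
        Ioo_mem_nhdsGT ((one_lt_div h1).2 h12)
      filter_upwards [h4] with t ht
      show r₁ < ‖t • x‖ ∧ ‖t • x‖ < r₂
      rw [hnorm t (by linarith [ht.1]), hx]
      refine ⟨by nlinarith [ht.1], ?_⟩
      exact (lt_div_iff₀ h1).1 ht.2
    · have hc' := hc.mono_left (nhdsWithin_le_nhds (s := Iio (1 : ℝ)))
      refine mem_closure_of_tendsto hc' ?_
      have h2 : 0 < r₂ := h1.trans h12
      have h4 : Ioo (r₁ / r₂) (1 : ℝ) ∈ 𝓝[<] (1 : ℝ) :=
        Ioo_mem_nhdsLT ((div_lt_one h2).2 h12)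
      filter_upwards [h4] with t ht
      show r₁ < ‖t • x‖ ∧ ‖t • x‖ < r₂
      have ht0 : 0 < t := lt_trans (div_pos h1 h2) ht.1
      rw [hnorm t ht0, hx]
      refine ⟨(div_lt_iff₀ h2).1 ht.1, by nlinarith [ht.2]⟩
  · rintro ⟨h3, h4⟩
    rcases hx with hx | hx <;> linarith

private theorem ringb_ae {R : ℝ} (hR : 0 < R) : ∀ᵐ x ∂(sphereMeasure 2 R), ‖x‖ = R := by
  rw [ae_iff]
  refine measure_mono_null ?_ (sphereMeasure_support 2 hR)
  intro x hx hx'
  exact hx (mem_sphere_zero_iff_norm.1 hx')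

private theorem ringb_divg_cont {X : E 2 → E 2} (hX : ContDiff ℝ 1 X) : Continuous (divg X) := by
  unfold divg tr
  refine continuous_finsetSum _ fun i _ => ?_
  exact (EuclideanSpace.proj i : E 2 →L[ℝ] ℝ).continuous.comp
    ((hX.continuous_fderiv one_ne_zero).clm_apply continuous_const)

private theorem ringb_int {R : ℝ} (hR : 0 < R) {f : E 2 → ℝ} (hf : Continuous f) :
    Integrable f (sphereMeasure 2 R) := by
  haveI := sphereMeasure_finite 2 R
  obtain ⟨C, hC⟩ := (isCompact_sphere (0 : E 2) R).exists_bound_of_continuousOn hf.continuousOn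
  refine Integrable.mono' (integrable_const C) hf.aestronglyMeasurable ?_
  filter_upwards [ringb_ae hR] with x hx
  exact hC x (mem_sphere_zero_iff_norm.2 hx)

private theorem ringb_vol {r₁ r₂ : ℝ} (h1 : 0 < r₁) (h12 : r₁ < r₂) {f : E 2 → ℝ}
    (hf : Continuous f) : ∫ x in {x : E 2 | r₁ < ‖x‖ ∧ ‖x‖ < r₂}, f x =
      (∫ x in ball (0 : E 2) r₂, f x) - ∫ x in ball (0 : E 2) r₁, f x := by
  have hi : IntegrableOn f (closedBall (0 : E 2) r₂) :=
    hf.continuousOn.integrableOn_compact (isCompact_closedBall _ _)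
  have hu : ball (0 : E 2) r₂ = {x : E 2 | r₁ < ‖x‖ ∧ ‖x‖ < r₂} ∪ closedBall (0 : E 2) r₁ := by
    ext x
    rw [mem_ball_zero_iff, mem_union, mem_closedBall_zero_iff]
    constructor
    · intro h
      rcases lt_or_ge r₁ ‖x‖ with h3 | h3
      · exact Or.inl ⟨h3, h⟩
      · exact Or.inr h3
    · rintro (h | h)
      · exact h.2
      · linarith
  have hd : Disjoint {x : E 2 | r₁ < ‖x‖ ∧ ‖x‖ < r₂} (closedBall (0 : E 2) r₁) := by
    rw [Set.disjoint_left]
    rintro x ⟨h3, -⟩ h4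
    rw [mem_closedBall_zero_iff] at h4
    linarith
  have hs1 : {x : E 2 | r₁ < ‖x‖ ∧ ‖x‖ < r₂} ⊆ closedBall (0 : E 2) r₂ := fun x hx => by
    rw [mem_closedBall_zero_iff]
    exact hx.2.le
  have h3 := setIntegral_union hd measurableSet_closedBall (hi.mono_set hs1)
    (hi.mono_set (closedBall_subset_closedBall h12.le))
  have h4 : ∫ x in closedBall (0 : E 2) r₁, f x = ∫ x in ball (0 : E 2) r₁, f x := by
    apply setIntegral_congr_set
    rw [← ball_union_sphere]
    have h5 : (sphere (0 : E 2) r₁ : Set (E 2)) =ᵐ[volume] (∅ : Set (E 2)) :=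
      ae_eq_empty.2 (Measure.addHaar_sphere volume (0 : E 2) r₁)
    have h6 := (Filter.EventuallyEq.refl (ae (volume : Measure (E 2)))
      (ball (0 : E 2) r₁)).union h5
    rwa [union_empty] at h6
  rw [hu, h3, h4]
  ring

/-- The annulus. PROOF: the divergence theorem is the difference of `gauss_ball` for the two radii;
connectedness: image of a connected set of polar coordinates. -/
theorem exists_ring {r₁ r₂ : ℝ} (h1 : 0 < r₁) (h12 : r₁ < r₂) : ∃ D : Domain 2,
    D.carrier = {x : E 2 | r₁ < ‖x‖ ∧ ‖x‖ < r₂} ∧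
    D.surface = sphereMeasure 2 r₂ + sphereMeasure 2 r₁ ∧
    (∀ x, ‖x‖ = r₂ → D.normal x = r₂⁻¹ • x) ∧ (∀ x, ‖x‖ = r₁ → D.normal x = -(r₁⁻¹ • x)) := by
  classical
  have h2 : 0 < r₂ := h1.trans h12
  have ho : IsOpen {x : E 2 | r₁ < ‖x‖ ∧ ‖x‖ < r₂} :=
    (isOpen_lt continuous_const continuous_norm).inter (isOpen_lt continuous_norm continuous_const)
  haveI f1 := sphereMeasure_finite 2 r₁
  haveI f2 := sphereMeasure_finite 2 r₂
  set N : E 2 → E 2 := fun x => if ‖x‖ < (r₁ + r₂) / 2 then -(r₁⁻¹ • x) else r₂⁻¹ • x with hN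
  have hN2 : ∀ x, ‖x‖ = r₂ → N x = r₂⁻¹ • x := fun x hx => by
    rw [hN]
    exact if_neg (by rw [hx]; linarith)
  have hN1 : ∀ x, ‖x‖ = r₁ → N x = -(r₁⁻¹ • x) := fun x hx => by
    rw [hN]
    exact if_pos (by rw [hx]; linarith)
  refine ⟨{ carrier := {x : E 2 | r₁ < ‖x‖ ∧ ‖x‖ < r₂}
            isOpen := ho
            isConnected := ringb_conn h1 h12
            isBounded := (isBounded_ball (x := (0 : E 2)) (r := r₂)).subset fun x hx => by
              rw [mem_ball_zero_iff]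
              exact hx.2
            surface := sphereMeasure 2 r₂ + sphereMeasure 2 r₁
            isFinite := inferInstance
            support := ?_
            normal := N
            measurable_normal := ?_
            norm_normal := ?_
            divergence := ?_ }, rfl, rfl, hN2, hN1⟩
  · rw [Measure.add_apply, add_eq_zero]
    constructor
    · refine measure_mono_null (compl_subset_compl.2 fun x hx => ?_)
        (sphereMeasure_support 2 h2)
      exact ringb_frontier h1 h12 ho (Or.inr (mem_sphere_zero_iff_norm.1 hx))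
    · refine measure_mono_null (compl_subset_compl.2 fun x hx => ?_)
        (sphereMeasure_support 2 h1)
      exact ringb_frontier h1 h12 ho (Or.inl (mem_sphere_zero_iff_norm.1 hx))
  · refine Measurable.ite (measurableSet_lt measurable_norm measurable_const) ?_ ?_
    · fun_prop
    · fun_prop
  · rw [ae_add_measure_iff]
    constructor
    · filter_upwards [ringb_ae h2] with x hx
      rw [hN2 x hx, norm_smul, hx, Real.norm_of_nonneg (inv_nonneg.2 h2.le),
        inv_mul_cancel₀ h2.ne']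
    · filter_upwards [ringb_ae h1] with x hx
      rw [hN1 x hx, norm_neg, norm_smul, hx, Real.norm_of_nonneg (inv_nonneg.2 h1.le),
        inv_mul_cancel₀ h1.ne']
  · intro X hX
    have c2 : Continuous fun x : E 2 => ⟪X x, r₂⁻¹ • x⟫ :=
      hX.continuous.inner (continuous_const_smul _)
    have c1 : Continuous fun x : E 2 => ⟪X x, r₁⁻¹ • x⟫ :=
      hX.continuous.inner (continuous_const_smul _)
    have e2 : (fun x => ⟪X x, N x⟫) =ᵐ[sphereMeasure 2 r₂] fun x => ⟪X x, r₂⁻¹ • x⟫ := by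
      filter_upwards [ringb_ae h2] with x hx
      rw [hN2 x hx]
    have e1 : (fun x => ⟪X x, N x⟫) =ᵐ[sphereMeasure 2 r₁] fun x => -⟪X x, r₁⁻¹ • x⟫ := by
      filter_upwards [ringb_ae h1] with x hx
      rw [hN1 x hx, inner_neg_right]
    rw [ringb_vol h1 h12 (ringb_divg_cont hX), gauss_ball (by norm_num) h2 hX,
      gauss_ball (by norm_num) h1 hX,
      integral_add_measure ((ringb_int h2 c2).congr e2.symm)
        ((ringb_int h1 c1).neg.congr e1.symm), integral_congr_ae e2, integral_congr_ae e1,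
      integral_neg]
    ring

end Pool.Agent.RA
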