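import Pool.Agent.H.MP_1b807b_an.A.Basic

/-! MP_1b807b_an, large parameter asymptotics in the plane, module ZonB: Riemann sums -/

set_option autoImplicit false

namespace Pool.Agent.RA

open MeasureTheory Metric Set Pool.Agent.RG
open scoped RealInnerProductSpace ENNReal Topology Pointwise

/-- Riemann sums of a periodic Lipschitz function. PROOF: on each interval
`[k π/m, (k+1) π/m]` the function differs from its left value by at most `K |x - k π/m|`. -/
theorem riemann {K : ℝ} {f : ℝ → ℝ} (hf : ∀ x y, |f x - f y| ≤ K * |x - y|) {m : ℕ} (hm : 0 < m) :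
    |Real.pi / m * ∑ k ∈ Finset.range m, f (k * Real.pi / m) - ∫ x in (0 : ℝ)..Real.pi, f x| ≤
      K * Real.pi ^ 2 / (2 * m) := by
  have hK : 0 ≤ K := by
    have h1 := hf 0 1
    have h2 := (abs_nonneg (f 0 - f 1)).trans h1
    simpa using h2
  have hcont : Continuous f := by
    have h1 : LipschitzWith (Real.toNNReal K) f := by
      refine LipschitzWith.of_dist_le_mul fun x y => ?_
      rw [Real.dist_eq, Real.dist_eq, Real.coe_toNNReal K hK]
      exact hf x y
    exact h1.continuous
  have hm' : (0 : ℝ) < m := by exact_mod_cast hm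
  set a : ℕ → ℝ := fun k => k * Real.pi / m with ha
  have hstep : ∀ k, a (k + 1) - a k = Real.pi / m := by
    intro k
    simp only [ha]
    push_cast
    ring
  have hle : ∀ k, a k ≤ a (k + 1) := by
    intro k
    have h1 : 0 < Real.pi / m := div_pos Real.pi_pos hm'
    linarith [hstep k]
  have h0 : a 0 = 0 := by simp [ha]
  have hme : a m = Real.pi := by
    simp only [ha]
    field_simp
  have hsum : ∑ k ∈ Finset.range m, ∫ x in a k..a (k + 1), f x = ∫ x in (0 : ℝ)..Real.pi, f x := by
    rw [intervalIntegral.sum_integral_adjacent_intervals fun k _ => hcont.intervalIntegrable _ _,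
      h0, hme]
  have hone : ∀ k, |Real.pi / m * f (a k) - ∫ x in a k..a (k + 1), f x| ≤
      K * (Real.pi / m) ^ 2 / 2 := by
    intro k
    have h1 : Real.pi / m * f (a k) - ∫ x in a k..a (k + 1), f x =
        ∫ x in a k..a (k + 1), (f (a k) - f x) := by
      rw [intervalIntegral.integral_sub (continuous_const.intervalIntegrable _ _)
        (hcont.intervalIntegrable _ _), intervalIntegral.integral_const, smul_eq_mul, hstep]
    have h2 : ∫ x in a k..a (k + 1), K * (x - a k) = K * (Real.pi / m) ^ 2 / 2 := by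
      have hid : IntervalIntegrable (fun x : ℝ => x) volume (a k) (a (k + 1)) :=
        continuous_id.intervalIntegrable _ _
      have h3 : ∫ x in a k..a (k + 1), x = (a (k + 1) ^ 2 - a k ^ 2) / 2 := integral_id
      have h5 : a (k + 1) = a k + Real.pi / m := by linarith [hstep k]
      rw [intervalIntegral.integral_const_mul, intervalIntegral.integral_sub
        hid (continuous_const.intervalIntegrable _ _),
        intervalIntegral.integral_const, smul_eq_mul, h3, h5]
      ring
    rw [h1, ← h2]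
    refine (intervalIntegral.abs_integral_le_integral_abs (hle k)).trans ?_
    refine intervalIntegral.integral_mono_on (hle k)
      ((continuous_const.sub hcont).abs.intervalIntegrable _ _)
      ((continuous_const.mul (continuous_id.sub continuous_const)).intervalIntegrable _ _) ?_
    intro x hx
    have h6 := hf (a k) x
    rw [abs_sub_comm (a k) x, abs_of_nonneg (sub_nonneg.2 hx.1)] at h6
    exact h6
  have htot : Real.pi / m * ∑ k ∈ Finset.range m, f (k * Real.pi / m) -
      ∫ x in (0 : ℝ)..Real.pi, f x =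
      ∑ k ∈ Finset.range m, (Real.pi / m * f (a k) - ∫ x in a k..a (k + 1), f x) := by
    rw [Finset.sum_sub_distrib, hsum, Finset.mul_sum]
  rw [htot]
  calc |∑ k ∈ Finset.range m, (Real.pi / m * f (a k) - ∫ x in a k..a (k + 1), f x)|
      ≤ ∑ k ∈ Finset.range m, |Real.pi / m * f (a k) - ∫ x in a k..a (k + 1), f x| :=
        Finset.abs_sum_le_sum_abs _ _
    _ ≤ ∑ _k ∈ Finset.range m, K * (Real.pi / m) ^ 2 / 2 := Finset.sum_le_sum fun k _ => hone k
    _ = K * Real.pi ^ 2 / (2 * m) := by
        rw [Finset.sum_const, Finset.card_range, nsmul_eq_mul]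
        field_simp

theorem zonb_sin_lip (x y : ℝ) : |Real.sin x - Real.sin y| ≤ |x - y| := by
  rw [Real.sin_sub_sin, abs_mul, abs_mul, abs_two]
  have h1 : |Real.cos ((x + y) / 2)| ≤ 1 := Real.abs_cos_le_one _
  have h2 : |Real.sin ((x - y) / 2)| ≤ |(x - y) / 2| := Real.abs_sin_le_abs
  have h3 : |(x - y) / 2| = |x - y| / 2 := by rw [abs_div, abs_two]
  rw [h3] at h2
  have h4 : 0 ≤ |Real.sin ((x - y) / 2)| := abs_nonneg _
  nlinarith [abs_nonneg (Real.cos ((x + y) / 2))]

/-- PROOF: the sum is `∑_{j=1}^{m-1} (m-j) sin (j π/m) = (m/2) ∑_{j=0}^{m-1} sin (j π/m)` (replace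
`j` by `m-j`) and `riemann` for `sin` gives `(m/2) (m/π) (2 + π²/(2m)) ≤ m²/π + m`. -/
theorem sin_sum_le {m : ℕ} (hm : 0 < m) :
    ∑ k ∈ Finset.range m, ∑ i ∈ Finset.range k, Real.sin ((k - i : ℝ) * Real.pi / m) ≤
      (m : ℝ) ^ 2 / Real.pi + m := by
  have hm' : (0 : ℝ) < m := by exact_mod_cast hm
  set g : ℕ → ℝ := fun j => Real.sin (j * Real.pi / m) with hg
  set S : ℕ → ℝ := fun k => ∑ j ∈ Finset.range k, g (j + 1) with hS
  have hinner : ∀ k : ℕ, ∑ i ∈ Finset.range k, Real.sin ((k - i : ℝ) * Real.pi / m) = S k := by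
    intro k
    rw [hS]
    simp only
    rw [← Finset.sum_range_reflect]
    refine Finset.sum_congr rfl fun i hi => ?_
    have h1 : i < k := Finset.mem_range.1 hi
    have h2 : (k : ℝ) - ((k - 1 - i : ℕ) : ℝ) = ((i + 1 : ℕ) : ℝ) := by
      rw [← Nat.cast_sub (by omega)]
      congr 1
      omega
    rw [h2]
  have hsym : ∀ j, j ≤ m → g (m - j) = g j := by
    intro j hj
    simp only [hg]
    rw [Nat.cast_sub hj]
    have h1 : ((m : ℝ) - j) * Real.pi / m = Real.pi - j * Real.pi / m := by
      field_simp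
    rw [h1, Real.sin_pi_sub]
  have hT : S (m - 1) = ∑ j ∈ Finset.range m, g j := by
    obtain ⟨n, rfl⟩ : ∃ n, m = n + 1 := ⟨m - 1, by omega⟩
    rw [Finset.sum_range_succ']
    have h1 : g 0 = 0 := by simp [hg]
    rw [h1, add_zero]
    rfl
  have hpair : ∀ k ∈ Finset.range m, S k + S (m - 1 - k) = S (m - 1) := by
    intro k hk
    have hkm : k < m := Finset.mem_range.1 hk
    obtain ⟨l, hl⟩ : ∃ l, m - 1 = k + l := ⟨m - 1 - k, by omega⟩
    have hl2 : m - 1 - k = l := by omega
    rw [hl2, hl]
    have h1 : S (k + l) = S k + ∑ x ∈ Finset.range l, g (k + x + 1) := by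
      rw [hS]
      simp only
      rw [Finset.sum_range_add]
    rw [h1]
    congr 1
    rw [hS]
    simp only
    rw [← Finset.sum_range_reflect]
    refine Finset.sum_congr rfl fun x hx => ?_
    have hxl : x < l := Finset.mem_range.1 hx
    have h2 : l - 1 - x + 1 = m - (k + x + 1) := by omega
    rw [h2, hsym _ (by omega)]
  have htwo : 2 * ∑ k ∈ Finset.range m, S k = m * S (m - 1) := by
    have h1 : ∑ k ∈ Finset.range m, S (m - 1 - k) = ∑ k ∈ Finset.range m, S k :=
      Finset.sum_range_reflect S m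
    have h2 : ∑ k ∈ Finset.range m, (S k + S (m - 1 - k)) = m * S (m - 1) := by
      rw [Finset.sum_congr rfl hpair, Finset.sum_const, Finset.card_range, nsmul_eq_mul]
    rw [Finset.sum_add_distrib, h1] at h2
    linarith
  have hR := riemann (K := 1) (f := Real.sin) (fun x y => by
    rw [one_mul]
    exact zonb_sin_lip x y) hm
  rw [integral_sin, Real.cos_zero, Real.cos_pi] at hR
  have hsum : ∑ k ∈ Finset.range m, Real.sin (k * Real.pi / m) = S (m - 1) := hT.symm
  rw [hsum] at hR
  have h3 := (abs_le.1 hR).2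
  have h4 : S (m - 1) ≤ 2 * m / Real.pi + Real.pi / 2 := by
    have hpi := Real.pi_pos
    have h5 : Real.pi / m * S (m - 1) ≤ 2 + Real.pi ^ 2 / (2 * m) := by
      have h6 : (1 : ℝ) * Real.pi ^ 2 / (2 * m) = Real.pi ^ 2 / (2 * m) := by rw [one_mul]
      linarith
    have h7 : S (m - 1) = (m / Real.pi) * (Real.pi / m * S (m - 1)) := by
      field_simp
    rw [h7]
    calc (m / Real.pi) * (Real.pi / m * S (m - 1))
        ≤ (m / Real.pi) * (2 + Real.pi ^ 2 / (2 * m)) :=
          mul_le_mul_of_nonneg_left h5 (by positivity)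
      _ = 2 * m / Real.pi + Real.pi / 2 := by field_simp
  rw [Finset.sum_congr rfl fun k _ => hinner k]
  have h8 : ∑ k ∈ Finset.range m, S k = m / 2 * S (m - 1) := by linarith
  rw [h8]
  have hpi4 := Real.pi_lt_four
  calc (m : ℝ) / 2 * S (m - 1) ≤ m / 2 * (2 * m / Real.pi + Real.pi / 2) :=
        mul_le_mul_of_nonneg_left h4 (by positivity)
    _ = (m : ℝ) ^ 2 / Real.pi + m * (Real.pi / 4) := by
        have hpi := Real.pi_pos
        field_simp
        ring
    _ ≤ (m : ℝ) ^ 2 / Real.pi + m := by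
        have h9 : (m : ℝ) * (Real.pi / 4) ≤ m * 1 :=
          mul_le_mul_of_nonneg_left (by linarith) hm'.le
        linarith

end Pool.Agent.RA
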