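import Pool.Agent.H.MP_1b807b_an.A.ZonDefs
import Pool.Agent.H.MP_1b807b_an.A.ZonB

/-! MP_1b807b_an, large parameter asymptotics in the plane, module ZonC: the zonotope contains a disc -/

set_option autoImplicit false

namespace Pool.Agent.RA

open MeasureTheory Metric Set Pool.Agent.RG
open scoped RealInnerProductSpace ENNReal Topology Pointwise

theorem zonc_convex (m : ℕ) (τ : ℝ) (j : ℕ) : Convex ℝ (zon m τ j) := by
  unfold zon
  induction j with
  | zero =>
    rw [Finset.sum_range_zero, ← Set.singleton_zero]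
    exact convex_singleton _
  | succ j ih =>
    rw [Finset.sum_range_succ]
    exact ih.add (convex_segment _ _)

theorem zonc_compact (m : ℕ) (τ : ℝ) (j : ℕ) : IsCompact (zon m τ j) := by
  unfold zon
  induction j with
  | zero => simp
  | succ j ih =>
    rw [Finset.sum_range_succ]
    refine ih.add ?_
    rw [segment_eq_image]
    exact isCompact_Icc.image (by fun_prop)

theorem zonc_polar (v : E 2) : ∃ φ : ℝ, v = ‖v‖ • dir φ := by
  by_cases hv : v = 0
  · exact ⟨0, by simp [hv]⟩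
  set z : ℂ := ⟨v 0, v 1⟩ with hz
  have hn : ‖z‖ = ‖v‖ := by
    have h1 : ‖z‖ ^ 2 = ‖v‖ ^ 2 := by
      rw [norm_two, ← Complex.normSq_eq_norm_sq, Complex.normSq_mk]
      ring
    exact (pow_left_inj₀ (norm_nonneg _) (norm_nonneg _) two_ne_zero).mp h1
  have hz0 : z ≠ 0 := by
    intro h
    rw [h, norm_zero] at hn
    exact hv (norm_eq_zero.mp hn.symm)
  refine ⟨Complex.arg z, ?_⟩
  have hpos : ‖v‖ ≠ 0 := fun h => hv (norm_eq_zero.mp h)
  ext i
  fin_cases i
  · simp only [Fin.zero_eta, PiLp.smul_apply, smul_eq_mul, dir_zero]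
    rw [Complex.cos_arg hz0, hn]
    field_simp
    rfl
  · simp only [Fin.mk_one, PiLp.smul_apply, smul_eq_mul, dir_one]
    rw [Complex.sin_arg, hn]
    field_simp
    rfl

theorem zonc_integral (φ : ℝ) : ∫ x in (0 : ℝ)..Real.pi, |Real.sin (φ - x)| = 2 := by
  rw [intervalIntegral.integral_comp_sub_left (fun y => |Real.sin y|) φ]
  have hper : Function.Periodic (fun y : ℝ => |Real.sin y|) Real.pi := by
    intro y
    show |Real.sin (y + Real.pi)| = |Real.sin y|
    rw [Real.sin_add_pi, abs_neg]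
  have h := hper.intervalIntegral_add_eq (φ - Real.pi) 0
  rw [sub_add_cancel, zero_add] at h
  rw [sub_zero, h]
  have h2 : ∫ x in (0 : ℝ)..Real.pi, |Real.sin x| = ∫ x in (0 : ℝ)..Real.pi, Real.sin x := by
    refine intervalIntegral.integral_congr fun x hx => ?_
    rw [uIcc_of_le Real.pi_pos.le] at hx
    exact abs_of_nonneg (Real.sin_nonneg_of_mem_Icc hx)
  rw [h2, integral_sin]
  norm_num

theorem zonc_sum (φ : ℝ) {m : ℕ} (hm : 0 < m) :
    2 * (m / Real.pi - 1) ≤ ∑ k ∈ Finset.range m, |Real.sin (φ - k * Real.pi / m)| := by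
  have hm' : (0 : ℝ) < m := Nat.cast_pos.mpr hm
  have h := riemann (K := 1) (f := fun x => |Real.sin (φ - x)|) (fun x y => by
    rw [one_mul]
    refine (abs_abs_sub_abs_le_abs_sub _ _).trans ?_
    have h0 := Real.abs_sin_sub_sin_le (φ - x) (φ - y)
    have h1 : φ - x - (φ - y) = -(x - y) := by ring
    rwa [h1, abs_neg] at h0) hm
  rw [zonc_integral, abs_le] at h
  have h1 := h.1
  set s := ∑ k ∈ Finset.range m, |Real.sin (φ - k * Real.pi / m)| with hs
  have hpi := Real.pi_pos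
  have h3 : 2 - 1 * Real.pi ^ 2 / (2 * m) ≤ Real.pi / m * s := by linarith
  have h4 : m / Real.pi * (2 - 1 * Real.pi ^ 2 / (2 * m)) ≤ s := by
    have := mul_le_mul_of_nonneg_left h3 (div_nonneg hm'.le hpi.le)
    have e : m / Real.pi * (Real.pi / m * s) = s := by field_simp
    linarith
  have h5 : m / Real.pi * (2 - 1 * Real.pi ^ 2 / (2 * m)) = 2 * (m / Real.pi) - Real.pi / 2 := by
    field_simp
  rw [h5] at h4
  linarith [Real.pi_le_four]


theorem zonc_max (φ : ℝ) {m : ℕ} {τ : ℝ} (hτ : 0 < τ) :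
    ∃ a ∈ zon m τ m, ⟪dir φ, a⟫ =
      τ / 2 * (∑ k ∈ Finset.range m, |Real.sin (φ - k * Real.pi / m)| +
        ∑ k ∈ Finset.range m, Real.sin (φ - k * Real.pi / m)) := by
  classical
  have _ := hτ
  refine ⟨∑ k ∈ Finset.range m, (if 0 ≤ Real.sin (φ - k * Real.pi / m) then
    τ • nrm (k * Real.pi / m) else 0), ?_, ?_⟩
  · unfold zon
    refine Set.finsetSum_mem_finsetSum _ _ _ fun k _ => ?_
    split_ifs
    · exact right_mem_segment _ _ _
    · exact left_mem_segment _ _ _
  · rw [inner_sum, ← Finset.sum_add_distrib, Finset.mul_sum]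
    refine Finset.sum_congr rfl fun k _ => ?_
    split_ifs with h
    · rw [inner_smul_right, inner_dir_nrm', abs_of_nonneg h]
      ring
    · rw [inner_zero_right, abs_of_neg (not_le.mp h)]
      ring

theorem zonc_zc (φ : ℝ) (m : ℕ) (τ : ℝ) :
    ⟪dir φ, zc m τ⟫ = τ / 2 * ∑ k ∈ Finset.range m, Real.sin (φ - k * Real.pi / m) := by
  unfold zc
  rw [inner_smul_right, inner_sum]
  simp only [inner_dir_nrm']

/-- The centred zonotope contains the disc of radius `τ (m/π - 1)`. PROOF: if `x` is not in the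
compact convex set `zon m τ m - zc m τ` there is a unit vector `dir φ` and a real number strictly
between `⟪dir φ, x⟫` and the maximum of `⟪dir φ, ·⟫` on it, which is
`(τ/2) ∑ |⟪dir φ, nrm (k π/m)⟫| = (τ/2) ∑ |sin (φ - k π/m)| ≥ τ (m/π - 1)` by `riemann` applied to
`x ↦ |sin (φ - x)|` (`∫_0^π |sin (φ - x)| = 2`). -/
theorem ball_sub_zon {m : ℕ} (hm : 0 < m) {τ t : ℝ} (hτ : 0 < τ) (ht : t ≤ τ * (m / Real.pi - 1)) :
    closedBall (0 : E 2) t ⊆ (fun x => x - zc m τ) '' zon m τ m := by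
  intro x hx
  rw [mem_closedBall_zero_iff] at hx
  by_contra hcon
  have hx' : x + zc m τ ∉ zon m τ m := fun h => hcon ⟨x + zc m τ, h, add_sub_cancel_right _ _⟩
  obtain ⟨f, u, hf1, hf2⟩ := geometric_hahn_banach_closed_point (zonc_convex m τ m)
    (zonc_compact m τ m).isClosed hx'
  set v := (InnerProductSpace.toDual ℝ (E 2)).symm f with hv
  have hfv : ∀ y, f y = ⟪v, y⟫ := fun y => by
    rw [hv, InnerProductSpace.toDual_symm_apply]
  obtain ⟨φ, hφ⟩ := zonc_polar v
  obtain ⟨a, ha, hae⟩ := zonc_max φ (m := m) hτ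
  have h1 := hf1 a ha
  have h2 := h1.trans hf2
  rw [hfv, hfv, hφ, inner_smul_left, inner_smul_left, conj_trivial] at h2
  have hvn : 0 ≤ ‖v‖ := norm_nonneg v
  have h3 : ⟪dir φ, a⟫ < ⟪dir φ, x + zc m τ⟫ := by
    by_contra hh
    exact absurd (mul_le_mul_of_nonneg_left (not_lt.mp hh) hvn) (not_le.mpr h2)
  rw [hae, inner_add_right, zonc_zc] at h3
  have h4 := (le_abs_self _).trans (abs_inner_dir_le φ x)
  have h5 := zonc_sum φ hm
  have h6 : τ / 2 * (2 * (m / Real.pi - 1)) ≤
      τ / 2 * ∑ k ∈ Finset.range m, |Real.sin (φ - k * Real.pi / m)| :=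
    mul_le_mul_of_nonneg_left h5 (by linarith)
  nlinarith

end Pool.Agent.RA
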