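import Pool.Agent.H.MP_1b807b_an.A.ZonA
import Pool.Agent.H.MP_1b807b_an.A.ZonC

/-! MP_1b807b_an, large parameter asymptotics in the plane, module TubeA: tube inequality, compact case -/

set_option autoImplicit false

namespace Pool.Agent.RA

open MeasureTheory Metric Set Pool.Agent.RG
open scoped RealInnerProductSpace ENNReal Topology Pointwise

theorem tubea_zero_mem (m : ℕ) (τ : ℝ) (j : ℕ) : (0 : E 2) ∈ zon m τ j := by
  unfold zon
  induction j with
  | zero => simp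
  | succ j ih =>
    rw [Finset.sum_range_succ]
    exact Set.mem_add.2 ⟨0, ih, 0, left_mem_segment ℝ 0 _, add_zero 0⟩

theorem tubea_sub (S : Set (E 2)) (m : ℕ) (τ : ℝ) (j : ℕ) : S ⊆ S + zon m τ j := fun x hx =>
  Set.mem_add.2 ⟨x, hx, 0, tubea_zero_mem m τ j, add_zero x⟩

theorem tubea_trans {S : Set (E 2)} (hS : IsClosed S) (hne : S.Nonempty) {m : ℕ} (hm : 0 < m)
    {τ t : ℝ} (hτ : 0 < τ) (ht : t ≤ τ * (m / Real.pi - 1)) :
    {x | infDist x S ≤ t} ⊆ (fun x => x + zc m τ) ⁻¹' (S + zon m τ m) := by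
  intro x hx
  obtain ⟨y, hy, hxy⟩ := hS.exists_infDist_eq_dist hne x
  have h1 : x - y ∈ closedBall (0 : E 2) t := by
    rw [mem_closedBall_zero_iff, ← dist_eq_norm, ← hxy]
    exact hx
  obtain ⟨z, hz, hzx⟩ := ball_sub_zon hm hτ ht h1
  refine Set.mem_add.2 ⟨y, hy, z, hz, ?_⟩
  have h2 : z - zc m τ = x - y := hzx
  change y + z = x + zc m τ
  rw [sub_eq_iff_eq_add] at h2
  rw [h2]
  abel

theorem tubea_tau {t : ℝ} :
    Filter.Tendsto (fun m : ℕ => t / ((m : ℝ) / Real.pi - 1) * (m / Real.pi)) Filter.atTop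
      (𝓝 t) := by
  have h1 : Filter.Tendsto (fun m : ℕ => (m : ℝ) / Real.pi - 1) Filter.atTop Filter.atTop :=
    Filter.tendsto_atTop_add_const_right _ _
      (tendsto_natCast_atTop_atTop.atTop_div_const Real.pi_pos)
  have h2 : Filter.Tendsto (fun m : ℕ => t + t / ((m : ℝ) / Real.pi - 1)) Filter.atTop
      (𝓝 (t + 0)) := tendsto_const_nhds.add (h1.const_div_atTop t)
  rw [add_zero] at h2
  refine h2.congr' ?_
  filter_upwards [h1.eventually_gt_atTop 0] with m hm
  have h3 : (m : ℝ) / Real.pi = ((m : ℝ) / Real.pi - 1) + 1 := by ring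
  have h4 : t / ((m : ℝ) / Real.pi - 1) * (m / Real.pi) =
      t / ((m : ℝ) / Real.pi - 1) * (((m : ℝ) / Real.pi - 1) + 1) := by rw [← h3]
  rw [h4, mul_add, mul_one, div_mul_cancel₀ _ hm.ne']

theorem tubea_vol {S : Set (E 2)} (hS : IsCompact S) (hne : S.Nonempty) {m : ℕ} (hm : 0 < m)
    {τ t : ℝ} (hτ : 0 < τ) (ht : t ≤ τ * (m / Real.pi - 1)) (ht0 : 0 ≤ t) :
    volume ({x | infDist x S ≤ t} \ S) ≤ volume ((S + zon m τ m) \ S) := by
  have hsub : S ⊆ {x | infDist x S ≤ t} := fun x hx => by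
    change infDist x S ≤ t
    rw [infDist_zero_of_mem hx]
    exact ht0
  have hfin : volume S ≠ ⊤ := hS.measure_lt_top.ne
  have hmeas : NullMeasurableSet S volume := hS.measurableSet.nullMeasurableSet
  rw [measure_sdiff hsub hmeas hfin, measure_sdiff (tubea_sub S m τ m) hmeas hfin]
  refine tsub_le_tsub_right ?_ _
  refine (measure_mono (tubea_trans hS.isClosed hne hm hτ ht)).trans ?_
  rw [measure_preimage_add_right]

/-- PROOF: for `t = 0` the left side is zero. For `t > 0` and large `m` put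
`τ = t / (m/π - 1)`; `{infDist ≤ t} = S + closedBall 0 t ⊆ S + (zon m τ m - zc m τ)` (`ball_sub_zon`)
and this set has the same finite volume as `S + zon m τ m ⊇ S`; both contain `S`, so
`|{infDist ≤ t} \ S| ≤ |(S + zon) \ S|`, and by `zon_area_compact`, `riemann`, `sin_sum_le` this is
`≤ (τ/2) ∑ Lm (k π/m) + τ² (m²/π + m) ≤ (τ/2) (m/π) (2 l + K π²/(2m)) + τ² (m²/π + m)`, which tends
to `l t + π t²` as `m → ∞` (`τ m/π → t`). -/
theorem tube_compact {S : Set (E 2)} (hS : IsCompact S) (hc : IsConnected S) {Lm : ℝ → ℝ}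
    {l K : ℝ} (hL : ∀ x y, |Lm x - Lm y| ≤ K * |x - y|)
    (hN : ∀ θ, NN θ S ≤ ENNReal.ofReal (Lm θ / 2)) (h0 : ∀ θ, 0 ≤ Lm θ)
    (hint : ∫ θ in (0 : ℝ)..Real.pi, Lm θ ≤ 2 * l) {t : ℝ} (ht : 0 ≤ t) :
    volume ({x | infDist x S ≤ t} \ S) ≤ ENNReal.ofReal (l * t + Real.pi * t ^ 2) := by
  rcases ht.eq_or_lt with h | h
  · subst h
    have h1 : {x | infDist x S ≤ 0} \ S = ∅ := by
      rw [Set.sdiff_eq_empty]
      intro x hx
      have h2 : infDist x S = 0 := le_antisymm hx infDist_nonneg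
      exact (hS.isClosed.mem_iff_infDist_zero hc.nonempty).2 h2
    rw [h1, measure_empty]
    exact zero_le
  set F : ℕ → ℝ := fun m => (t / ((m : ℝ) / Real.pi - 1) * (m / Real.pi)) / 2 *
    (2 * l + K * Real.pi ^ 2 / (2 * m)) +
    (t / ((m : ℝ) / Real.pi - 1) * (m / Real.pi)) ^ 2 * (Real.pi + Real.pi ^ 2 / m) with hF
  have hFt : Filter.Tendsto F Filter.atTop (𝓝 (l * t + Real.pi * t ^ 2)) := by
    have e1 : l * t + Real.pi * t ^ 2 = t / 2 * (2 * l + 0) + t ^ 2 * (Real.pi + 0) := by ring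
    rw [e1]
    have h2 : Filter.Tendsto (fun m : ℕ => K * Real.pi ^ 2 / (2 * (m : ℝ))) Filter.atTop (𝓝 0) :=
      (Filter.Tendsto.const_mul_atTop two_pos tendsto_natCast_atTop_atTop).const_div_atTop _
    have h3 : Filter.Tendsto (fun m : ℕ => Real.pi ^ 2 / (m : ℝ)) Filter.atTop (𝓝 0) :=
      tendsto_natCast_atTop_atTop.const_div_atTop _
    exact ((tubea_tau.div_const 2).mul (tendsto_const_nhds.add h2)).add
      ((tubea_tau.pow 2).mul (tendsto_const_nhds.add h3))
  refine ge_of_tendsto ((ENNReal.continuous_ofReal.tendsto _).comp hFt) ?_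
  have hat : Filter.Tendsto (fun m : ℕ => (m : ℝ) / Real.pi - 1) Filter.atTop Filter.atTop :=
    Filter.tendsto_atTop_add_const_right _ _
      (tendsto_natCast_atTop_atTop.atTop_div_const Real.pi_pos)
  filter_upwards [hat.eventually_gt_atTop 0, Filter.eventually_gt_atTop 0] with m hm1 hm
  have hm' : (0 : ℝ) < m := by exact_mod_cast hm
  have hτ : 0 < t / ((m : ℝ) / Real.pi - 1) := div_pos h hm1
  set τ := t / ((m : ℝ) / Real.pi - 1) with hτd
  have hτt : t ≤ τ * (m / Real.pi - 1) := by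
    rw [hτd, div_mul_cancel₀ _ hm1.ne']
  refine (tubea_vol hS hc.nonempty hm hτ hτt ht).trans ?_
  refine (zon_area_compact hS hc.isPreconnected hm hτ).trans ?_
  have hs1 : ∑ k ∈ Finset.range m, NN (k * Real.pi / m) S ≤
      ENNReal.ofReal (∑ k ∈ Finset.range m, Lm (k * Real.pi / m) / 2) := by
    rw [ENNReal.ofReal_sum_of_nonneg fun k _ => div_nonneg (h0 _) zero_le_two]
    exact Finset.sum_le_sum fun k _ => hN _
  have hs2 := sin_sum_le hm
  have hR := (abs_le.1 (riemann hL hm)).2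
  have hs0 : 0 ≤ ∑ k ∈ Finset.range m, Lm (k * Real.pi / m) / 2 :=
    Finset.sum_nonneg fun k _ => div_nonneg (h0 _) zero_le_two
  have hpi := Real.pi_pos
  have hs3 : ∑ k ∈ Finset.range m, Lm (k * Real.pi / m) ≤
      m / Real.pi * (2 * l + K * Real.pi ^ 2 / (2 * m)) := by
    have e2 : ∑ k ∈ Finset.range m, Lm (k * Real.pi / m) =
        m / Real.pi * (Real.pi / m * ∑ k ∈ Finset.range m, Lm (k * Real.pi / m)) := by
      have e0 : (m : ℝ) / Real.pi * (Real.pi / m) = 1 := by field_simp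
      rw [← mul_assoc, e0, one_mul]
    rw [e2]
    exact mul_le_mul_of_nonneg_left (by linarith) (by positivity)
  calc ENNReal.ofReal τ * (∑ k ∈ Finset.range m, NN (k * Real.pi / m) S) +
      ENNReal.ofReal (τ ^ 2 * ∑ k ∈ Finset.range m, ∑ i ∈ Finset.range k,
        Real.sin ((k - i : ℝ) * Real.pi / m))
      ≤ ENNReal.ofReal τ * ENNReal.ofReal (∑ k ∈ Finset.range m, Lm (k * Real.pi / m) / 2) +
        ENNReal.ofReal (τ ^ 2 * ((m : ℝ) ^ 2 / Real.pi + m)) :=
        add_le_add (mul_le_mul' le_rfl hs1)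
          (ENNReal.ofReal_le_ofReal (mul_le_mul_of_nonneg_left hs2 (sq_nonneg τ)))
    _ = ENNReal.ofReal (τ * (∑ k ∈ Finset.range m, Lm (k * Real.pi / m) / 2) +
        τ ^ 2 * ((m : ℝ) ^ 2 / Real.pi + m)) := by
        rw [← ENNReal.ofReal_mul hτ.le, ← ENNReal.ofReal_add (mul_nonneg hτ.le hs0)
          (by positivity)]
    _ ≤ ENNReal.ofReal (F m) := by
        refine ENNReal.ofReal_le_ofReal ?_
        have e3 : ∑ k ∈ Finset.range m, Lm (k * Real.pi / m) / 2 =
            (∑ k ∈ Finset.range m, Lm (k * Real.pi / m)) / 2 := by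
          rw [Finset.sum_div]
        rw [e3, hF]
        simp only
        rw [← hτd]
        have e4 : τ ^ 2 * ((m : ℝ) ^ 2 / Real.pi + m) =
            (τ * (m / Real.pi)) ^ 2 * (Real.pi + Real.pi ^ 2 / m) := by
          field_simp
        have e5 : τ * (m / Real.pi) / 2 * (2 * l + K * Real.pi ^ 2 / (2 * m)) =
            τ * ((m / Real.pi * (2 * l + K * Real.pi ^ 2 / (2 * m))) / 2) := by
          ring
        rw [e4, e5]
        refine add_le_add (mul_le_mul_of_nonneg_left ?_ hτ.le) le_rfl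
        linarith

end Pool.Agent.RA
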