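import Pool.Agent.H.MP_1b807b_an.A.CompC
import Pool.Agent.H.MP_1b807b_an.A.CompD
import Pool.Agent.H.MP_1b807b_an.A.NoIsoC

/-! MP_1b807b_an, large parameter asymptotics in the plane, module TubeUUA: right endpoints and boundary points -/

set_option autoImplicit false

namespace Pool.Agent.RA

open MeasureTheory Metric Set Pool.Agent.RG
open scoped RealInnerProductSpace ENNReal Topology Pointwise

/-- the right endpoints are in the frontier -/
theorem tubeuua_rend {A : Set ℝ} (hA : IsClosed A) : rend A ⊆ frontier A := by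
  rintro b ⟨hb, ε, hε, hb'⟩
  rw [hA.frontier_eq]
  refine ⟨hb, fun hint => ?_⟩
  obtain ⟨r, hr, hball⟩ := Metric.mem_nhds_iff.1 (mem_interior_iff_mem_nhds.1 hint)
  have hm : 0 < min ε r := lt_min hε hr
  have h1 : min ε r ≤ ε := min_le_left _ _
  have h2 : min ε r ≤ r := min_le_right _ _
  refine hb' (b + min ε r / 2) (by linarith) (by linarith) (hball ?_)
  rw [mem_ball, Real.dist_eq, add_sub_cancel_left, abs_of_pos (by linarith)]
  linarith

/-- the left endpoints of a set of real numbers -/
def tubeuua_L (A : Set ℝ) : Set ℝ := {b | b ∈ A ∧ ∃ ε > 0, ∀ y, b - ε < y → y < b → y ∉ A}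

theorem tubeuua_lend {A : Set ℝ} (hA : IsClosed A) : tubeuua_L A ⊆ frontier A := by
  rintro b ⟨hb, ε, hε, hb'⟩
  rw [hA.frontier_eq]
  refine ⟨hb, fun hint => ?_⟩
  obtain ⟨r, hr, hball⟩ := Metric.mem_nhds_iff.1 (mem_interior_iff_mem_nhds.1 hint)
  have hm : 0 < min ε r := lt_min hε hr
  have h1 : min ε r ≤ ε := min_le_left _ _
  have h2 : min ε r ≤ r := min_le_right _ _
  refine hb' (b - min ε r / 2) (by linarith) (by linarith) (hball ?_)
  rw [mem_ball, Real.dist_eq, abs_sub_comm, sub_sub_cancel, abs_of_pos (by linarith)]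
  linarith

theorem tubeuua_next {A : Set ℝ} (hA : IsClosed A) {b : ℝ} (hb : b ∈ rend A)
    (hne : (A ∩ Ioi b).Nonempty) :
    sInf (A ∩ Ioi b) ∈ tubeuua_L A ∧ b < sInf (A ∩ Ioi b) := by
  obtain ⟨hbA, ε, hε, hb'⟩ := hb
  have heq : A ∩ Ioi b = A ∩ Ici (b + ε) := by
    ext y
    constructor
    · rintro ⟨h1, h2⟩
      refine ⟨h1, ?_⟩
      by_contra h3
      rw [mem_Ici, not_le] at h3
      exact hb' y h2 h3 h1
    · rintro ⟨h1, h2⟩
      exact ⟨h1, lt_of_lt_of_le (lt_add_of_pos_right b hε) h2⟩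
  have hcl : IsClosed (A ∩ Ioi b) := by
    rw [heq]
    exact hA.inter isClosed_Ici
  have hbd : BddBelow (A ∩ Ioi b) := ⟨b, fun y hy => hy.2.le⟩
  have h1 : sInf (A ∩ Ioi b) ∈ A ∩ Ioi b := hcl.csInf_mem hne hbd
  refine ⟨⟨h1.1, sInf (A ∩ Ioi b) - b, sub_pos.2 h1.2, ?_⟩, h1.2⟩
  intro y hy1 hy2 hyA
  rw [sub_sub_cancel] at hy1
  exact absurd (csInf_le hbd ⟨hyA, hy1⟩) (not_le.2 hy2)

theorem tubeuua_min {A : Set ℝ} (hA : IsClosed A) (hne : A.Nonempty) (hbd : BddBelow A) :
    sInf A ∈ tubeuua_L A :=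
  ⟨hA.csInf_mem hne hbd, 1, one_pos, fun _ _ hy2 hyA => absurd (csInf_le hbd hyA) (not_le.2 hy2)⟩

open Classical in
/-- The count on a line. -/
theorem tubeuua_line {A F : Set ℝ} (hA : IsClosed A) (hF : frontier A ⊆ F)
    (hiso : ∀ b ∈ frontier A, ∀ δ > 0, ∃ t, 0 < |t| ∧ |t| < δ ∧ b + t ∈ A)
    (hd : BddBelow A ∨ ∀ b, (A ∩ Ioi b).Nonempty) : 2 * cnt (rend A) ≤ cnt F := by
  have hdisj : Disjoint (rend A) (tubeuua_L A) := by
    rw [Set.disjoint_left]
    intro b hb hb'
    have hbf := tubeuua_rend hA hb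
    obtain ⟨hbA, ε, hε, h1⟩ := hb
    obtain ⟨-, ε', hε', h2⟩ := hb'
    obtain ⟨t, ht0, ht, htA⟩ := hiso b hbf (min ε ε') (lt_min hε hε')
    have h3 := ht.trans_le (min_le_left _ _)
    have h4 := ht.trans_le (min_le_right _ _)
    rcases lt_or_gt_of_ne (abs_pos.1 ht0) with h5 | h5
    · rw [abs_of_neg h5] at h4
      exact h2 (b + t) (by linarith) (by linarith) htA
    · rw [abs_of_pos h5] at h3
      exact h1 (b + t) (by linarith) (by linarith) htA
  have hinj : (rend A).encard ≤ (tubeuua_L A).encard := by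
    refine Set.encard_le_encard_of_injOn
      (f := fun b => if (A ∩ Ioi b).Nonempty then sInf (A ∩ Ioi b) else sInf A) ?_ ?_
    · intro b hb
      show (if (A ∩ Ioi b).Nonempty then sInf (A ∩ Ioi b) else sInf A) ∈ tubeuua_L A
      split_ifs with h1
      · exact (tubeuua_next hA hb h1).1
      · rcases hd with h2 | h2
        · exact tubeuua_min hA ⟨b, hb.1⟩ h2
        · exact absurd (h2 b) h1
    · have key : ∀ b ∈ rend A, ∀ b' ∈ rend A, b < b' →
          (if (A ∩ Ioi b).Nonempty then sInf (A ∩ Ioi b) else sInf A) ≠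
          (if (A ∩ Ioi b').Nonempty then sInf (A ∩ Ioi b') else sInf A) := by
        intro b hb b' hb' hlt
        have h1 : (A ∩ Ioi b).Nonempty := ⟨b', hb'.1, hlt⟩
        have h2 : sInf (A ∩ Ioi b) ≤ b' := csInf_le ⟨b, fun y hy => hy.2.le⟩ ⟨hb'.1, hlt⟩
        have h3 := (tubeuua_next hA hb h1).2
        rw [if_pos h1]
        split_ifs with h4
        · exact ne_of_lt (h2.trans_lt (tubeuua_next hA hb' h4).2)
        · rcases hd with h5 | h5
          · exact ne_of_gt ((csInf_le h5 hb.1).trans_lt h3)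
          · exact absurd (h5 b') h4
      intro b hb b' hb' heq
      by_contra hne
      rcases lt_or_gt_of_ne hne with h1 | h1
      · exact key b hb b' hb' h1 heq
      · exact key b' hb' b hb h1 heq.symm
  have hsum : (rend A).encard + (rend A).encard ≤ F.encard :=
    calc (rend A).encard + (rend A).encard ≤ (rend A).encard + (tubeuua_L A).encard :=
          add_le_add le_rfl hinj
      _ = (rend A ∪ tubeuua_L A).encard := (Set.encard_union_eq hdisj).symm
      _ ≤ F.encard := Set.encard_le_encard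
          ((union_subset (tubeuua_rend hA) (tubeuua_lend hA)).trans hF)
  unfold cnt
  rw [two_mul]
  exact_mod_cast hsum

theorem tubeuua_cont (θ p : ℝ) : Continuous fun y : ℝ => p • dir θ + y • nrm θ := by
  fun_prop

/-- the points of the line -/
theorem tubeuua_cnt (θ p : ℝ) (S : Set (E 2)) :
    cnt {y : ℝ | p • dir θ + y • nrm θ ∈ S} ≤ cnt (S ∩ ln θ p) := by
  have hinj : Set.InjOn (fun y : ℝ => p • dir θ + y • nrm θ)
      {y : ℝ | p • dir θ + y • nrm θ ∈ S} := by
    intro y _ z _ hyz
    have h1 := congrArg (fun x : E 2 => ⟪nrm θ, x⟫) hyz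
    simp only [inner_nrm_comb] at h1
    exact h1
  unfold cnt
  rw [← hinj.encard_image]
  refine ENat.toENNReal_le.2 (Set.encard_le_encard ?_)
  rintro _ ⟨y, hy, rfl⟩
  exact ⟨hy, inner_dir_comb θ p y⟩

variable {D : Domain 2} (J : JordanBoundary D)

include J

theorem tubeuua_iso {i : Fin J.N} {θ p : ℝ} (hfin : (frontier D.carrier ∩ ln θ p).Finite)
    (hiso : ∀ z ∈ frontier D.carrier ∩ ln θ p, ∀ δ > 0,
      ∃ t : ℝ, 0 < |t| ∧ |t| < δ ∧ z + t • nrm θ ∉ D.carrier) {b : ℝ}
    (hb : p • dir θ + b • nrm θ ∈ J.comp i)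
    (hbf : p • dir θ + b • nrm θ ∈ frontier D.carrier) {δ : ℝ} (hδ : 0 < δ) :
    ∃ t, 0 < |t| ∧ |t| < δ ∧ b + t ∈ slc θ (J.comp i) p := by
  have hfin2 : {y : ℝ | p • dir θ + y • nrm θ ∈ frontier D.carrier}.Finite := by
    refine Set.Finite.of_injOn (f := fun y : ℝ => p • dir θ + y • nrm θ) (fun y hy => ?_) ?_ hfin
    · exact ⟨hy, inner_dir_comb θ p y⟩
    · intro y _ z _ hyz
      have h1 := congrArg (fun x : E 2 => ⟪nrm θ, x⟫) hyz
      simp only [inner_nrm_comb] at h1
      exact h1
  obtain ⟨δ', hδ', hball⟩ := Metric.mem_nhds_iff.1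
    ((hfin2.subset (sdiff_subset (t := {b}))).isClosed.isOpen_compl.mem_nhds
      (show b ∈ ({y : ℝ | p • dir θ + y • nrm θ ∈ frontier D.carrier} \ {b})ᶜ from
        fun h => h.2 rfl))
  obtain ⟨t, ht0, ht, htD⟩ := hiso _ ⟨hbf, inner_dir_comb θ p b⟩ (min δ δ') (lt_min hδ hδ')
  have ht1 := ht.trans_le (min_le_left _ _)
  have ht2 := ht.trans_le (min_le_right _ _)
  have hz : p • dir θ + b • nrm θ + t • nrm θ = p • dir θ + (b + t) • nrm θ := by
    rw [add_smul, add_assoc]
  rw [hz] at htD
  refine ⟨t, ht0, ht1, ?_⟩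
  -- the half open segment
  have hseg : ∀ S : Set ℝ, IsPreconnected S → b + t ∈ S → b ∉ S → (∀ y ∈ S, |y - b| ≤ |t|) →
      ∀ y ∈ S, p • dir θ + y • nrm θ ∉ D.carrier := by
    intro S hS hbt hbS hle
    have hcov : S ⊆ (fun y : ℝ => p • dir θ + y • nrm θ) ⁻¹' D.carrier ∪
        (fun y : ℝ => p • dir θ + y • nrm θ) ⁻¹' (closure D.carrier)ᶜ := by
      intro y hy
      by_contra hcon
      rw [mem_union, not_or, mem_preimage, mem_preimage, mem_compl_iff, not_not] at hcon
      have h1 : p • dir θ + y • nrm θ ∈ frontier D.carrier := by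
        rw [D.isOpen.frontier_eq]
        exact ⟨hcon.2, hcon.1⟩
      have h2 : y ∈ ball b δ' := by
        rw [mem_ball, Real.dist_eq]
        exact (hle y hy).trans_lt ht2
      refine hball h2 ⟨h1, ?_⟩
      rw [mem_singleton_iff]
      rintro rfl
      exact hbS hy
    intro y hy hyD
    have h1 := hS.subset_left_of_subset_union (D.isOpen.preimage (tubeuua_cont θ p))
      (isClosed_closure.isOpen_compl.preimage (tubeuua_cont θ p)) (by
        rw [Set.disjoint_left]
        intro z hz1 hz2
        exact hz2 (subset_closure hz1)) hcov ⟨y, hy, hyD⟩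
    exact htD (h1 hbt)
  have hbD : p • dir θ + b • nrm θ ∉ D.carrier := by
    rw [D.isOpen.frontier_eq] at hbf
    exact hbf.2
  have hall : ∀ y ∈ uIcc b (b + t), p • dir θ + y • nrm θ ∈ D.carrierᶜ := by
    intro y hy
    rcases lt_or_gt_of_ne (abs_pos.1 ht0) with h5 | h5
    · rw [uIcc_of_ge (by linarith), mem_Icc] at hy
      rcases eq_or_lt_of_le hy.2 with h6 | h6
      · rw [h6]
        exact hbD
      · refine hseg (Ico (b + t) b) isPreconnected_Ico ⟨le_rfl, by linarith⟩
          (fun h => lt_irrefl _ h.2) ?_ y ⟨hy.1, h6⟩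
        intro z hz
        rw [abs_of_neg h5, abs_of_nonpos (by linarith [hz.2])]
        linarith [hz.1]
    · rw [uIcc_of_le (by linarith), mem_Icc] at hy
      rcases eq_or_lt_of_le hy.1 with h6 | h6
      · rw [← h6]
        exact hbD
      · refine hseg (Ioc b (b + t)) isPreconnected_Ioc ⟨by linarith, le_rfl⟩
          (fun h => lt_irrefl _ h.1) ?_ y ⟨h6, hy.2⟩
        intro z hz
        rw [abs_of_pos h5, abs_of_nonneg (by linarith [hz.1])]
        linarith [hz.2]
  have h7 : (fun y : ℝ => p • dir θ + y • nrm θ) '' uIcc b (b + t) ⊆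
      connectedComponentIn D.carrierᶜ (p • dir θ + b • nrm θ) := by
    refine IsPreconnected.subset_connectedComponentIn ?_ ⟨b, left_mem_uIcc, rfl⟩ ?_
    · exact isPreconnected_uIcc.image _ (tubeuua_cont θ p).continuousOn
    · rintro _ ⟨y, hy, rfl⟩
      exact hall y hy
  have h8 : J.comp i = connectedComponentIn D.carrierᶜ (p • dir θ + b • nrm θ) :=
    connectedComponentIn_eq hb
  rw [mem_slc, h8]
  exact h7 ⟨b + t, right_mem_uIcc, rfl⟩

/-- For almost every line the number of right endpoints of the slice of a component is at most half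
the number of boundary points. PROOF: for `p` as in `ae_finite` and `no_isolated` let
`A = slc θ (comp i) p` (closed, and compact or with bounded complement). For `b ∈ rend A` let
`[a, b] ⊆ A` be the order component of `b` in `A` and, if it is unbounded below, or in any case, let
`b⁺ = ` the next point of `A` above `b` (if any). If `comp i` is compact map `b` to `(b, a)`, where
`a` is the left end of its order component: `a` is a boundary point; `a ≠ b` because otherwise `b`
is isolated in `A`, near `b` there are only finitely many boundary points on the line, so a punctured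
neighbourhood of `b` in the line is contained on each side in `D` or in the complement; in the
second case it belongs to the component `comp i`, contradiction; so `b` is isolated in the
complement, contradicting `no_isolated`. If the complement of `comp i` is bounded map `b` to
`(b, b⁺)`; `b⁺` is a boundary point, `b⁺ ∉ rend A` as before. The points `b`, `a` (resp. `b`, `b⁺`)
are all different. -/
theorem rend_comp_le (i : Fin J.N) (θ : ℝ) : ∀ᵐ p : ℝ,
    2 * cnt (rend (slc θ (J.comp i) p)) ≤ cnt (frontier D.carrier ∩ J.comp i ∩ ln θ p) := by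
  filter_upwards [ae_finite J θ, no_isolated J θ] with p hfin hiso
  have hcl := isClosed_slc (θ := θ) (comp_isClosed J i) p
  have hfr : frontier (slc θ (J.comp i) p) ⊆
      {y : ℝ | p • dir θ + y • nrm θ ∈ frontier D.carrier ∩ J.comp i} := by
    intro y hy
    have h1 := (tubeuua_cont θ p).frontier_preimage_subset (J.comp i) hy
    rw [frontier_comp, inter_comm] at h1
    exact h1
  refine (tubeuua_line hcl hfr ?_ ?_).trans (tubeuua_cnt θ p _)
  · intro b hb δ hδ
    have h1 := hfr hb
    exact tubeuua_iso J hfin hiso h1.2 h1.1 hδ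
  · have hnorm : ∀ y : ℝ, |y| ≤ ‖p • dir θ + y • nrm θ‖ := by
      intro y
      have h1 := abs_inner_nrm_le θ (p • dir θ + y • nrm θ)
      rwa [inner_nrm_comb] at h1
    rcases comp_dich J i with hc | hc
    · left
      obtain ⟨R, hR⟩ := hc.isBounded.exists_norm_le
      refine ⟨-R, fun y hy => ?_⟩
      have h1 := (hnorm y).trans (hR _ hy)
      exact (abs_le.1 h1).1
    · right
      intro b
      obtain ⟨R, hR⟩ := hc.exists_norm_le
      refine ⟨max b R + 1, ?_, ?_⟩
      · rw [mem_slc]
        by_contra hcon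
        have h1 := (hnorm _).trans (hR _ hcon)
        have h2 := (le_abs_self _).trans h1
        linarith [le_max_right b R]
      · rw [mem_Ioi]
        linarith [le_max_left b R]

end Pool.Agent.RA
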