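import Pool.Agent.H.MP_1b807b_an.A.TubeUUA
import Pool.Agent.H.MP_1b807b_an.A.DlenC
import Pool.Agent.H.MP_1b807b_an.A.DlenD
import Pool.Agent.H.MP_1b807b_an.A.TubeA
import Pool.Agent.H.MP_1b807b_an.A.TubeB

/-! MP_1b807b_an, large parameter asymptotics in the plane, module TubeUUB: tube inequality for components -/

set_option autoImplicit false

namespace Pool.Agent.RA

open MeasureTheory Metric Set Pool.Agent.RG
open scoped RealInnerProductSpace ENNReal Topology Pointwise

theorem tubeuub_half {a : ℝ≥0∞} {b : ℝ} (h : 2 * a ≤ ENNReal.ofReal b) :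
    a ≤ ENNReal.ofReal (b / 2) := by
  have h2 : ENNReal.ofReal (b / 2) = ENNReal.ofReal b / 2 := by
    rw [ENNReal.ofReal_div_of_pos two_pos, ENNReal.ofReal_ofNat]
  rw [h2, ENNReal.le_div_iff_mul_le (Or.inl two_ne_zero) (Or.inl ENNReal.ofNat_ne_top), mul_comm]
  exact h

variable {D : Domain 2} (J : JordanBoundary D)

include J

/-- PROOF: `rend_comp_le` and `dl_cnt`. -/
theorem NN_comp_le (i : Fin J.N) (θ : ℝ) : 2 * NN θ (J.comp i) ≤ J.dl (J.comp i) θ := by
  unfold NN
  rw [← lintegral_const_mul' _ _ ENNReal.ofNat_ne_top]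
  exact (lintegral_mono_ae (rend_comp_le J i θ)).trans (dl_cnt J θ (comp_isClosed J i))

/-- PROOF: `tube_compact` / `tube_cobdd` with `Lm` of `dl_real`. -/
theorem tube_comp (i : Fin J.N) {t : ℝ} (ht : 0 ≤ t) :
    volume ({x | infDist x (J.comp i) ≤ t} \ J.comp i) ≤
      ENNReal.ofReal (D.surface.real (J.comp i) * t + Real.pi * t ^ 2) := by
  obtain ⟨Lm, h1, h2, h3, h4⟩ := dl_real J (comp_isClosed J i)
  have hN : ∀ θ, NN θ (J.comp i) ≤ ENNReal.ofReal (Lm θ / 2) :=
    fun θ => tubeuub_half (h1 θ ▸ NN_comp_le J i θ)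
  rcases comp_dich J i with hc | hb
  · exact tube_compact hc (comp_conn J i) h3 hN h2 h4 ht
  · refine (tube_cobdd (comp_isClosed J i) (comp_conn J i) hb h3 hN h2 h4 ht).trans ?_
    apply ENNReal.ofReal_le_ofReal
    have h5 : 0 ≤ Real.pi * t ^ 2 := mul_nonneg Real.pi_pos.le (sq_nonneg t)
    linarith

theorem tube_comp_unbdd {i : Fin J.N} (hi : ¬ Bornology.IsBounded (J.comp i)) {t : ℝ}
    (ht : 0 ≤ t) :
    volume ({x | infDist x (J.comp i) ≤ t} \ J.comp i) ≤
      ENNReal.ofReal (D.surface.real (J.comp i) * t) := by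
  obtain ⟨Lm, h1, h2, h3, h4⟩ := dl_real J (comp_isClosed J i)
  have hN : ∀ θ, NN θ (J.comp i) ≤ ENNReal.ofReal (Lm θ / 2) :=
    fun θ => tubeuub_half (h1 θ ▸ NN_comp_le J i θ)
  rcases comp_dich J i with hc | hb
  · exact absurd hc.isBounded hi
  · exact tube_cobdd (comp_isClosed J i) (comp_conn J i) hb h3 hN h2 h4 ht

/-- `surface (comp i) = clen i`. -/
theorem surface_comp (i : Fin J.N) : D.surface.real (J.comp i) = J.clen i := by
  classical
  have h1 : D.surface (J.comp i) = ∑ j, ENNReal.ofReal (if J.curve j 0 ∈ J.comp i then J.len j else 0) := by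
    rw [surface_apply J (comp_isClosed J i).measurableSet]
    refine Finset.sum_congr rfl fun j _ => ?_
    by_cases h : J.curve j 0 ∈ J.comp i
    · have h2 : J.curve j ⁻¹' J.comp i = univ := by
        rw [eq_univ_iff_forall]
        intro s
        exact curve_sub_comp J h (mem_range_self s)
      rw [h2, inter_univ, Real.volume_Ico, sub_zero, if_pos h]
    · have h2 : J.curve j ⁻¹' J.comp i = ∅ := by
        rw [eq_empty_iff_forall_notMem]
        intro s hs
        exact h (curve_sub_comp J hs (mem_range_self 0))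
      rw [h2, inter_empty, measure_empty, if_neg h, ENNReal.ofReal_zero]
  have h0 : ∀ j : Fin J.N, 0 ≤ (if J.curve j 0 ∈ J.comp i then J.len j else 0) := by
    intro j
    split_ifs
    · exact (J.len_pos j).le
    · exact le_rfl
  rw [Measure.real, h1, ← ENNReal.ofReal_sum_of_nonneg fun j _ => h0 j,
    ENNReal.toReal_ofReal (Finset.sum_nonneg fun j _ => h0 j)]
  unfold JordanBoundary.clen
  refine Finset.sum_congr rfl fun j _ => ?_
  congr

end Pool.Agent.RA
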