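import Pool.Agent.H.MP_1b807b_an.A.CompD

/-! MP_1b807b_an, large parameter asymptotics in the plane, module UUA: filling small holes, basic facts -/

set_option autoImplicit false

namespace Pool.Agent.RA

open MeasureTheory Metric Set Pool.Agent.RG
open scoped RealInnerProductSpace ENNReal Topology Pointwise

variable {D : Domain 2} (J : JordanBoundary D)

include J

theorem uua_big {p₀ : ℝ} {i j : Fin J.N} (h : J.comp i = J.comp j) (hi : J.big p₀ i) :
    J.big p₀ j := by
  have h1 : J.clen i = J.clen j := by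
    unfold JordanBoundary.clen
    rw [h]
  rcases hi with hi | hi
  · left
    rwa [← h]
  · right
    rwa [← h1]

theorem uua_mem (i : Fin J.N) : J.curve i 0 ∈ J.comp i :=
  mem_connectedComponentIn (curve_mem_compl J i 0)

theorem SS_isClosed (p₀ : ℝ) : IsClosed (J.SS p₀) := by
  refine isClosed_iUnion_of_finite fun i => isClosed_iUnion_of_finite fun _ => comp_isClosed J i

theorem SS_nonempty (p₀ : ℝ) : (J.SS p₀).Nonempty := by
  obtain ⟨i, hi⟩ := exists_unbdd J
  exact ⟨J.curve i 0, mem_iUnion.2 ⟨i, mem_iUnion.2 ⟨Or.inl hi, uua_mem J i⟩⟩⟩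

theorem carrier_sub_UU (p₀ : ℝ) : D.carrier ⊆ J.UU p₀ := by
  intro x hx hS
  obtain ⟨i, hi⟩ := mem_iUnion.1 hS
  obtain ⟨_, hi⟩ := mem_iUnion.1 hi
  exact comp_sub J i hi hx

theorem UU_bdd (p₀ : ℝ) : Bornology.IsBounded (J.UU p₀) := by
  obtain ⟨i, hi⟩ := exists_unbdd J
  have h1 : Bornology.IsBounded (J.comp i)ᶜ := by
    rcases comp_dich J i with h | h
    · exact absurd h.isBounded hi
    · exact h
  refine h1.subset ?_
  intro x hx hxi
  exact hx (mem_iUnion.2 ⟨i, mem_iUnion.2 ⟨Or.inl hi, hxi⟩⟩)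

/-- `UU` is `D` together with the small components. -/
theorem UU_eq (p₀ : ℝ) : J.UU p₀ = D.carrier ∪ ⋃ i, ⋃ _ : ¬ J.big p₀ i, J.comp i := by
  ext x
  constructor
  · intro hx
    by_cases hD : x ∈ D.carrier
    · exact Or.inl hD
    · obtain ⟨i, hi⟩ := exists_comp J hD
      exact Or.inr (mem_iUnion.2 ⟨i, mem_iUnion.2
        ⟨fun hb => hx (mem_iUnion.2 ⟨i, mem_iUnion.2 ⟨hb, hi⟩⟩), hi⟩⟩)
  · rintro (hx | hx)
    · exact carrier_sub_UU J p₀ hx
    · obtain ⟨i, hi⟩ := mem_iUnion.1 hx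
      obtain ⟨hb, hi⟩ := mem_iUnion.1 hi
      intro hS
      obtain ⟨j, hj⟩ := mem_iUnion.1 hS
      obtain ⟨hbj, hj⟩ := mem_iUnion.1 hj
      exact hb (uua_big J (comp_eq J hj hi) hbj)

/-- PROOF: `UU_eq`; `D` is connected, each small component is connected and contains a point of
`frontier D ⊆ closure D`. -/
theorem UU_conn (p₀ : ℝ) : IsConnected (J.UU p₀) := by
  obtain ⟨x₀, hx₀⟩ := D.isConnected.nonempty
  refine ⟨⟨x₀, carrier_sub_UU J p₀ hx₀⟩, ?_⟩
  refine isPreconnected_of_forall x₀ fun y hy => ?_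
  have hy' := hy
  rw [UU_eq] at hy'
  rcases hy' with h | h
  · exact ⟨D.carrier, carrier_sub_UU J p₀, hx₀, h, D.isConnected.isPreconnected⟩
  · obtain ⟨i, hi⟩ := mem_iUnion.1 h
    obtain ⟨hb, hi⟩ := mem_iUnion.1 hi
    have hcl : J.curve i 0 ∈ closure D.carrier := by
      apply frontier_subset_closure
      rw [J.frontier_eq]
      exact mem_iUnion.2 ⟨i, mem_range_self 0⟩
    have h1 : IsPreconnected (D.carrier ∪ {J.curve i 0}) :=
      D.isConnected.isPreconnected.subset_closure subset_union_left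
        (union_subset subset_closure (singleton_subset_iff.2 hcl))
    have h2 : IsPreconnected ((D.carrier ∪ {J.curve i 0}) ∪ J.comp i) :=
      h1.union (J.curve i 0) (Or.inr rfl) (uua_mem J i) (comp_conn J i).isPreconnected
    refine ⟨_, ?_, Or.inl (Or.inl hx₀), Or.inr hi, h2⟩
    have h3 : J.comp i ⊆ J.UU p₀ := by
      intro z hz
      rw [UU_eq]
      exact Or.inr (mem_iUnion.2 ⟨i, mem_iUnion.2 ⟨hb, hz⟩⟩)
    exact union_subset (union_subset (carrier_sub_UU J p₀)
      (singleton_subset_iff.2 (h3 (uua_mem J i)))) h3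

end Pool.Agent.RA
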