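import Pool.Agent.H.MP_1b807b_an.A.TubeUUB
import Pool.Agent.H.MP_1b807b_an.A.UUA

/-! MP_1b807b_an, large parameter asymptotics in the plane, module TubeUUC: tube inequality for the big components -/

set_option autoImplicit false

namespace Pool.Agent.RA

open MeasureTheory Metric Set Pool.Agent.RG
open scoped RealInnerProductSpace ENNReal Topology Pointwise

variable {D : Domain 2} (J : JordanBoundary D)

include J

/-- PROOF: `{infDist x SS ≤ t}` is the union of the sets `{infDist x (comp i) ≤ t}` over a set of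
representatives of the big components; the bounded ones have `clen i > p₀`, so their number is at
most `surface SS / p₀`; `∑ clen = surface SS`. -/
theorem tube_UU {p₀ : ℝ} (hp : 0 < p₀) {t : ℝ} (ht : 0 ≤ t) :
    volume (J.UU p₀ ∩ {x | infDist x (J.SS p₀) ≤ t}) ≤ ENNReal.ofReal
      (D.surface.real (J.SS p₀) * t + Real.pi * (D.surface.real (J.SS p₀) / p₀) * t ^ 2) := by
  classical
  have := D.isFinite
  set B : Finset (Fin J.N) := Finset.univ.filter (fun i => J.big p₀ i) with hB
  set K : Finset (Set (E 2)) := B.image J.comp with hK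
  have hrep : ∀ C ∈ K, ∃ i, J.big p₀ i ∧ J.comp i = C := by
    intro C hC
    obtain ⟨i, hi, hiC⟩ := Finset.mem_image.1 hC
    exact ⟨i, (Finset.mem_filter.1 hi).2, hiC⟩
  have hSS : J.SS p₀ = ⋃ C ∈ K, C := by
    ext x
    simp only [JordanBoundary.SS, mem_iUnion, exists_prop]
    constructor
    · rintro ⟨i, hi, hx⟩
      exact ⟨J.comp i, Finset.mem_image.2 ⟨i, Finset.mem_filter.2 ⟨Finset.mem_univ i, hi⟩, rfl⟩, hx⟩
    · rintro ⟨C, hC, hx⟩
      obtain ⟨i, hi, hiC⟩ := hrep C hC
      exact ⟨i, hi, hiC ▸ hx⟩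
  have hclosed : ∀ C ∈ K, IsClosed C := by
    intro C hC
    obtain ⟨i, _, hiC⟩ := hrep C hC
    rw [← hiC]
    exact comp_isClosed J i
  have hdisj : (K : Set (Set (E 2))).PairwiseDisjoint id := by
    intro C hC C' hC' hne
    obtain ⟨i, _, hiC⟩ := hrep C hC
    obtain ⟨j, _, hjC⟩ := hrep C' hC'
    refine Set.disjoint_left.2 fun x hx hx' => hne ?_
    have h1 : x ∈ J.comp i := by rw [hiC]; exact hx
    have h2 : x ∈ J.comp j := by rw [hjC]; exact hx'
    rw [← hiC, ← hjC]
    exact comp_eq J h1 h2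
  have hcover : J.UU p₀ ∩ {x | infDist x (J.SS p₀) ≤ t} ⊆ ⋃ C ∈ K, {x | infDist x C ≤ t} \ C := by
    rintro x ⟨hxU, hx⟩
    obtain ⟨y, hy, hxy⟩ := (SS_isClosed J p₀).exists_infDist_eq_dist (SS_nonempty J p₀) x
    have hy' := hy
    rw [hSS] at hy'
    simp only [mem_iUnion, exists_prop] at hy'
    obtain ⟨C, hC, hyC⟩ := hy'
    simp only [mem_iUnion, exists_prop]
    refine ⟨C, hC, ?_, fun hxC => hxU ?_⟩
    · have h1 : infDist x C ≤ dist x y := infDist_le_dist_of_mem hyC
      have h2 : infDist x (J.SS p₀) ≤ t := hx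
      exact h1.trans (hxy ▸ h2)
    · rw [hSS]
      simp only [mem_iUnion, exists_prop]
      exact ⟨C, hC, hxC⟩
  have hsum : D.surface.real (J.SS p₀) = ∑ C ∈ K, D.surface.real C := by
    rw [hSS]
    exact measureReal_biUnion_finset hdisj fun C hC => (hclosed C hC).measurableSet
  have hbound : ∀ C ∈ K, volume ({x | infDist x C ≤ t} \ C) ≤ ENNReal.ofReal
      (D.surface.real C * t + if Bornology.IsBounded C then Real.pi * t ^ 2 else 0) := by
    intro C hC
    obtain ⟨i, _, hiC⟩ := hrep C hC
    subst hiC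
    split_ifs with hb
    · exact tube_comp J i ht
    · rw [add_zero]
      exact tube_comp_unbdd J hb ht
  have hpt : 0 ≤ Real.pi * t ^ 2 := mul_nonneg Real.pi_pos.le (sq_nonneg t)
  have hcount : ((K.filter fun C => Bornology.IsBounded C).card : ℝ) * p₀ ≤ D.surface.real (J.SS p₀) := by
    rw [hsum, ← nsmul_eq_mul]
    refine le_trans ?_ (Finset.sum_le_sum_of_subset_of_nonneg (Finset.filter_subset
      (fun C => Bornology.IsBounded C) K) fun C _ _ => measureReal_nonneg)
    refine Finset.card_nsmul_le_sum _ _ _ fun C hC => ?_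
    obtain ⟨hCK, hCb⟩ := Finset.mem_filter.1 hC
    obtain ⟨i, hi, hiC⟩ := hrep C hCK
    subst hiC
    rw [surface_comp J i]
    rcases hi with hi | hi
    · exact absurd hCb hi
    · exact hi.le
  calc volume (J.UU p₀ ∩ {x | infDist x (J.SS p₀) ≤ t})
      ≤ volume (⋃ C ∈ K, {x | infDist x C ≤ t} \ C) := measure_mono hcover
    _ ≤ ∑ C ∈ K, volume ({x | infDist x C ≤ t} \ C) := measure_biUnion_finset_le _ _
    _ ≤ ∑ C ∈ K, ENNReal.ofReal
      (D.surface.real C * t + if Bornology.IsBounded C then Real.pi * t ^ 2 else 0) :=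
        Finset.sum_le_sum hbound
    _ = ENNReal.ofReal (∑ C ∈ K,
      (D.surface.real C * t + if Bornology.IsBounded C then Real.pi * t ^ 2 else 0)) := by
        rw [ENNReal.ofReal_sum_of_nonneg]
        intro C _
        have h1 : 0 ≤ D.surface.real C * t := mul_nonneg measureReal_nonneg ht
        split_ifs
        · linarith
        · linarith
    _ ≤ _ := by
        refine ENNReal.ofReal_le_ofReal ?_
        rw [Finset.sum_add_distrib, ← Finset.sum_mul, ← hsum, ← Finset.sum_filter,
          Finset.sum_const, nsmul_eq_mul]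
        have h2 : ((K.filter fun C => Bornology.IsBounded C).card : ℝ) ≤
            D.surface.real (J.SS p₀) / p₀ := by
          rw [le_div_iff₀ hp]
          exact hcount
        have h3 := mul_le_mul_of_nonneg_right h2 hpt
        nlinarith [h3]

end Pool.Agent.RA
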