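import Pool.Agent.H.MP_1b807b_an.A.UUA
import Pool.Agent.H.MP_1b807b_an.A.CompC
import Pool.Agent.H.MP_1b807b_an.A.NoIsoC

/-! MP_1b807b_an, large parameter asymptotics in the plane, module UUB: filling small holes, frontier -/

set_option autoImplicit false

namespace Pool.Agent.RA

open MeasureTheory Metric Set Pool.Agent.RG
open scoped RealInnerProductSpace ENNReal Topology Pointwise

variable {D : Domain 2} (J : JordanBoundary D)

include J

theorem uub_big_congr {p₀ : ℝ} {i j : Fin J.N} (h : J.comp i = J.comp j) (hi : J.big p₀ i) :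
    J.big p₀ j := by
  have h1 : J.clen j = J.clen i := by
    unfold JordanBoundary.clen
    rw [h]
  unfold JordanBoundary.big at hi ⊢
  rw [h1, ← h]
  exact hi

theorem uub_mem_SS {p₀ : ℝ} {z : E 2} : z ∈ J.SS p₀ ↔ ∃ i, J.big p₀ i ∧ z ∈ J.comp i := by
  unfold JordanBoundary.SS
  simp only [mem_iUnion, exists_prop]

/-- PROOF: `frontier UU = frontier SS ⊆ SS`; a point of the frontier of `SS` is in the frontier of a
component; `SS ∩ frontier D ⊆ frontier UU` since `D ⊆ UU`. -/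
theorem frontier_UU (p₀ : ℝ) : frontier (J.UU p₀) = J.SS p₀ ∩ frontier D.carrier := by
  have hUU : frontier (J.UU p₀) = frontier (J.SS p₀) := frontier_compl _
  apply Set.Subset.antisymm
  · intro z hz
    rw [hUU] at hz
    have hzS : z ∈ J.SS p₀ := by
      have := frontier_subset_closure hz
      rwa [(SS_isClosed J p₀).closure_eq] at this
    refine ⟨hzS, ?_⟩
    obtain ⟨i, hi, hzi⟩ := (uub_mem_SS J).1 hzS
    by_contra hcon
    have h1 : z ∉ frontier (J.comp i) := by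
      rw [frontier_comp J i]
      exact fun h => hcon h.2
    have h2 : z ∈ interior (J.comp i) := by
      by_contra h3
      exact h1 ⟨subset_closure hzi, h3⟩
    have h3 : z ∈ interior (J.SS p₀) :=
      interior_mono (fun x hx => (uub_mem_SS J).2 ⟨i, hi, hx⟩) h2
    exact hz.2 h3
  · rintro z ⟨hzS, hzf⟩
    refine ⟨closure_mono (carrier_sub_UU J p₀) hzf.1, fun h => ?_⟩
    exact interior_subset h hzS

/-- PROOF: near a point of `SS` the sets `UU` and `D` coincide (the union of the small components is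
closed and disjoint from `SS`). -/
theorem UU_near {p₀ : ℝ} {z : E 2} (hz : z ∈ J.SS p₀) :
    ∃ ε > 0, J.UU p₀ ∩ ball z ε = D.carrier ∩ ball z ε := by
  obtain ⟨i, hi, hzi⟩ := (uub_mem_SS J).1 hz
  have hK : IsClosed (⋃ j, ⋃ _ : ¬ J.big p₀ j, J.comp j) :=
    isClosed_iUnion_of_finite fun j => isClosed_iUnion_of_finite fun _ => comp_isClosed J j
  have hzK : z ∈ (⋃ j, ⋃ _ : ¬ J.big p₀ j, J.comp j)ᶜ := by
    intro h
    simp only [mem_iUnion, exists_prop] at h
    obtain ⟨j, hj, hzj⟩ := h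
    exact hj (uub_big_congr J (comp_eq J hzi hzj) hi)
  obtain ⟨ε, hε, hball⟩ := Metric.isOpen_iff.1 hK.isOpen_compl z hzK
  refine ⟨ε, hε, ?_⟩
  rw [UU_eq J p₀]
  ext x
  constructor
  · rintro ⟨hx | hx, hxb⟩
    · exact ⟨hx, hxb⟩
    · exact absurd hx (hball hxb)
  · rintro ⟨hx, hxb⟩
    exact ⟨Or.inl hx, hxb⟩

theorem UU_locc (p₀ : ℝ) (h : LocConn D.carrier) : LocConn (J.UU p₀) := by
  intro z hz ε hε
  rw [frontier_UU J p₀] at hz
  obtain ⟨ε', hε', heq⟩ := UU_near J hz.1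
  obtain ⟨V, hV, hVs, hVc⟩ := h z hz.2 (min ε ε') (lt_min hε hε')
  refine ⟨V, hV, hVs.trans (ball_subset_ball (min_le_left _ _)), ?_⟩
  have h1 : J.UU p₀ ∩ V = D.carrier ∩ V := by
    ext x
    constructor
    · rintro ⟨hx, hxV⟩
      have hxb : x ∈ ball z ε' := ball_subset_ball (min_le_right _ _) (hVs hxV)
      have : x ∈ J.UU p₀ ∩ ball z ε' := ⟨hx, hxb⟩
      rw [heq] at this
      exact ⟨this.1, hxV⟩
    · rintro ⟨hx, hxV⟩
      exact ⟨carrier_sub_UU J p₀ hx, hxV⟩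
  rw [h1]
  exact hVc

theorem UU_noiso (p₀ θ : ℝ) : ∀ᵐ p : ℝ, ∀ z ∈ frontier (J.UU p₀) ∩ ln θ p, ∀ δ > 0,
    ∃ t : ℝ, 0 < |t| ∧ |t| < δ ∧ z + t • nrm θ ∉ J.UU p₀ := by
  filter_upwards [no_isolated J θ] with p hp z hz δ hδ
  rw [frontier_UU J p₀] at hz
  obtain ⟨ε, hε, heq⟩ := UU_near J hz.1.1
  obtain ⟨t, ht0, ht1, ht2⟩ := hp z ⟨hz.1.2, hz.2⟩ (min δ ε) (lt_min hδ hε)
  refine ⟨t, ht0, lt_of_lt_of_le ht1 (min_le_left _ _), fun hU => ht2 ?_⟩
  have hb : z + t • nrm θ ∈ ball z ε := by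
    rw [mem_ball, dist_eq_norm, add_sub_cancel_left, norm_smul, norm_nrm, mul_one,
      Real.norm_eq_abs]
    exact lt_of_lt_of_le ht1 (min_le_right _ _)
  have h1 : z + t • nrm θ ∈ J.UU p₀ ∩ ball z ε := ⟨hU, hb⟩
  rw [heq] at h1
  exact h1.1

end Pool.Agent.RA
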