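import Pool.Agent.H.MP_1b807b_an.A.UUA
import Pool.Agent.H.MP_1b807b_an.A.CompE
import Pool.Agent.H.MP_1b807b_an.A.DlenA

/-! MP_1b807b_an, large parameter asymptotics in the plane, module UUC: filling small holes, area -/

set_option autoImplicit false

namespace Pool.Agent.RA

open MeasureTheory Metric Set Pool.Agent.RG
open scoped RealInnerProductSpace ENNReal Topology Pointwise

variable {D : Domain 2} (J : JordanBoundary D)

include J

/-- PROOF: `volume_comp_le` and `clen i ≤ p₀`: each small component has volume at most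
`p₀ * clen i = p₀ *` the total length of its curves. -/
theorem volume_UU_le {p₀ : ℝ} (hp : 0 < p₀) :
    volume (J.UU p₀) ≤ volume D.carrier + ENNReal.ofReal p₀ * D.surface univ := by
  classical
  rw [UU_eq, surface_univ, ENNReal.ofReal_sum_of_nonneg fun j _ => (J.len_pos j).le]
  refine (measure_union_le _ _).trans (add_le_add le_rfl ?_)
  obtain ⟨S, hS⟩ : ∃ S : Finset (Set (E 2)),
      S = (Finset.univ.filter (fun i => ¬ J.big p₀ i)).image J.comp := ⟨_, rfl⟩
  have h1 : (⋃ i, ⋃ _ : ¬ J.big p₀ i, J.comp i) ⊆ ⋃ C ∈ S, C := by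
    intro x hx
    obtain ⟨i, hi⟩ := mem_iUnion.1 hx
    obtain ⟨hb, hi⟩ := mem_iUnion.1 hi
    refine mem_iUnion.2 ⟨J.comp i, mem_iUnion.2 ⟨?_, hi⟩⟩
    rw [hS]
    exact Finset.mem_image_of_mem _ (Finset.mem_filter.2 ⟨Finset.mem_univ _, hb⟩)
  refine (measure_mono h1).trans ((measure_biUnion_finset_le _ _).trans ?_)
  have h2 : ∀ C ∈ S, volume C ≤
      ∑ j ∈ (Finset.univ.filter (fun j => J.comp j ∈ S)).filter (fun j => J.comp j = C),
        ENNReal.ofReal p₀ * ENNReal.ofReal (J.len j) := by
    intro C hC
    have hC' := hC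
    rw [hS] at hC'
    obtain ⟨i, hi, rfl⟩ := Finset.mem_image.1 hC'
    have hb := (Finset.mem_filter.1 hi).2
    rw [JordanBoundary.big, not_or, not_not, not_lt] at hb
    have hn : 0 ≤ J.clen i := by
      unfold JordanBoundary.clen
      refine Finset.sum_nonneg fun j _ => ?_
      split_ifs
      · exact (J.len_pos j).le
      · exact le_rfl
    have h3 : J.clen i = ∑ j ∈ (Finset.univ.filter (fun j => J.curve j 0 ∈ J.comp i)),
        J.len j := by
      rw [Finset.sum_filter]
      unfold JordanBoundary.clen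
      refine Finset.sum_congr rfl fun j _ => ?_
      congr
    have h4 : (Finset.univ.filter (fun j => J.curve j 0 ∈ J.comp i)) =
        (Finset.univ.filter (fun j => J.comp j ∈ S)).filter (fun j => J.comp j = J.comp i) := by
      ext j
      simp only [Finset.mem_filter, Finset.mem_univ, true_and]
      constructor
      · intro h
        have h5 : J.comp i = J.comp j := comp_eq J h (uua_mem J j)
        exact ⟨by rw [← h5]; exact hC, h5.symm⟩
      · rintro ⟨_, h⟩
        rw [← h]
        exact uua_mem J j
    rw [← Finset.mul_sum, ← h4, ← ENNReal.ofReal_sum_of_nonneg fun j _ => (J.len_pos j).le, ← h3,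
      ← ENNReal.ofReal_mul hp.le]
    refine (volume_comp_le J hb.1).trans (ENNReal.ofReal_le_ofReal ?_)
    rw [sq]
    exact mul_le_mul_of_nonneg_right hb.2 hn
  refine (Finset.sum_le_sum h2).trans ?_
  rw [Finset.sum_fiberwise_of_maps_to (fun j hj => (Finset.mem_filter.1 hj).2), Finset.mul_sum]
  exact Finset.sum_le_sum_of_subset (Finset.filter_subset _ _)

end Pool.Agent.RA
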