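import Pool.Agent.H.MP_1b807b_an.A.UUB
import Pool.Agent.H.MP_1b807b_an.A.DlenB
import Pool.Agent.H.MP_1b807b_an.A.DlenC
import Pool.Agent.H.MP_1b807b_an.A.DlenD

/-! MP_1b807b_an, large parameter asymptotics in the plane, module UUD: filling small holes, data of the geometric theorem -/

set_option autoImplicit false

namespace Pool.Agent.RA

open MeasureTheory Metric Set Pool.Agent.RG
open scoped RealInnerProductSpace ENNReal Topology Pointwise

variable {D : Domain 2} (J : JordanBoundary D)

include J

/-- The data of the geometric theorem. -/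
theorem UU_geo (p₀ : ℝ) (h : LocConn D.carrier) :
    GeoData (J.UU p₀) (D.surface.restrict (J.SS p₀)) := by
  have hSc : IsClosed (J.SS p₀) := SS_isClosed J p₀
  have hSm : MeasurableSet (J.SS p₀) := hSc.measurableSet
  have hF := frontier_UU J p₀
  have hinter : ∀ C : Set (E 2), frontier (J.UU p₀) ∩ C =
      frontier D.carrier ∩ (C ∩ J.SS p₀) := by
    intro C
    rw [hF]
    ext x
    simp only [mem_inter_iff]
    tauto
  haveI := D.isFinite
  refine ⟨hSc.isOpen_compl, UU_conn J p₀, UU_bdd J p₀, UU_locc J p₀ h, ?_, ?_, ?_, ?_,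
    UU_noiso J p₀, ?_⟩
  · rw [Measure.restrict_apply' hSm]
    refine measure_mono_null ?_ D.support
    rw [hF]
    intro x hx hxD
    exact hx.1 ⟨hx.2, hxD⟩
  · intro z
    exact le_antisymm ((Measure.restrict_apply_le _ _).trans (surface_point J z).le) zero_le
  · exact ((Measure.restrict_apply_le _ _).trans_lt (measure_lt_top _ _)).ne
  · intro C hC
    rw [Measure.restrict_apply hC.measurableSet]
    refine le_trans ?_ (dl_int J (hC.inter hSc))
    refine lintegral_mono fun θ => ?_
    rw [hinter C]
    exact dl_cnt J θ (hC.inter hSc)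
  · intro f hf C hC
    rw [Measure.restrict_apply hC.measurableSet, hinter C]
    exact surface_proj J hf (hC.inter hSc)

end Pool.Agent.RA
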