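import Pool.Agent.H.MP_1b807b_an.A.TubeUUC
import Pool.Agent.H.MP_1b807b_an.A.UUC
import Pool.Agent.H.MP_1b807b_an.A.EnergyA
import Pool.Agent.H.MP_1b807b_an.A.EnergyC
import Pool.Agent.H.MP_1b807b_an.A.EnergyD

/-! MP_1b807b_an, large parameter asymptotics in the plane, module UpperA: length and area bounds -/

set_option autoImplicit false

namespace Pool.Agent.RA

open MeasureTheory Metric Set Pool.Agent.RG
open scoped RealInnerProductSpace ENNReal Topology Pointwise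

/-- The length of the boundary of the big components. PROOF: `L = surface.real (SS p₀)`,
`A = |D|`, `p₀ = β ^ (1 - η)`. `EN_exp`, `layer_cake` with `c = π L / p₀` (`tube_UU`):
`β L ≤ (2 β² + Λ) (L/(2β) (1 - e^{-2βA/L}) + π L/(2 β² p₀))`. If `L > 0` divide by `β L`:
`1 ≤ (1 + Λ/(2β²)) (1 - e^{-2βA/L} + π/(β p₀))`, so
`e^{-2βA/L} ≤ Λ/(2β²) (1 + π/(β p₀)) + π/(β p₀)`, which for `Λ ≤ M log β` and large `β` is at most
`β ^ (-2 + 2 η)`, that is `2 β A / L ≥ (2 - 2 η) log β`. -/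
theorem length_bound {A M η : ℝ} (hA : 0 < A) (hM : 0 < M) (hη : 0 < η) (hη1 : η < 1) :
    ∃ β₁ : ℝ, ∀ (D : Domain 2) (J : JordanBoundary D) (β Λ : ℝ), β₁ ≤ β → 0 ≤ Λ →
      Λ ≤ M * Real.log β → EN D β Λ → volume.real D.carrier = A →
      D.surface.real (J.SS (β ^ (1 - η))) * ((1 - η) * Real.log β) ≤ β * A := by
  have hpi := Real.pi_pos
  have hlarge : ∀ᶠ β : ℝ in Filter.atTop, 1 < β ∧
      Real.pi * β ^ (-η) + M / 2 * (Real.log β * β ^ (-(2 * η))) ≤ 1 := by
    have h1 : Filter.Tendsto (fun β : ℝ => β ^ (-η)) Filter.atTop (nhds 0) :=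
      tendsto_rpow_neg_atTop hη
    have h2 : Filter.Tendsto (fun β : ℝ => Real.log β * β ^ (-(2 * η))) Filter.atTop (nhds 0) := by
      have h3 := (isLittleO_log_rpow_atTop (r := 2 * η) (by positivity)).tendsto_div_nhds_zero
      refine h3.congr' ?_
      filter_upwards [Filter.eventually_gt_atTop (0 : ℝ)] with β hβ
      rw [Real.rpow_neg hβ.le, div_eq_mul_inv]
    have h4 := (h1.const_mul Real.pi).add (h2.const_mul (M / 2))
    rw [mul_zero, mul_zero, add_zero] at h4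
    filter_upwards [Filter.eventually_gt_atTop (1 : ℝ), h4.eventually (gt_mem_nhds one_pos)]
      with β g1 g2
    exact ⟨g1, g2.le⟩
  obtain ⟨β₁, hβ₁⟩ := Filter.eventually_atTop.1 hlarge
  refine ⟨β₁, fun D J β Λ hβ hΛ hΛM hEN hvol => ?_⟩
  obtain ⟨hβ1, hsum⟩ := hβ₁ β hβ
  have hβ0 : 0 < β := by linarith
  have hlog : 0 < Real.log β := Real.log_pos hβ1
  set p₀ := β ^ (1 - η) with hp₀
  have hp : 0 < p₀ := Real.rpow_pos_of_pos hβ0 _
  set L := D.surface.real (J.SS p₀) with hL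
  have hL0 : 0 ≤ L := measureReal_nonneg
  rcases hL0.eq_or_lt with h0 | hLpos
  · rw [← h0, zero_mul]; positivity
  have hexp := EN_exp hEN hβ0 hΛ (SS_isClosed J p₀) (SS_nonempty J p₀)
  have hlc := layer_cake (D := D) (β := β) (L := L) (c := Real.pi * (L / p₀)) hβ0 hLpos
    (by positivity) (S := J.SS p₀) (fun t ht => by
      refine (measure_mono ?_).trans (tube_UU J hp ht)
      exact inter_subset_inter_left _ (carrier_sub_UU J p₀))
  rw [hvol] at hlc
  set x := 2 * β * A / L with hx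
  have h1 : β * L ≤ (2 * β ^ 2 + Λ) *
      (L / (2 * β) * (1 - Real.exp (-x)) + Real.pi * (L / p₀) / (2 * β ^ 2)) :=
    hexp.trans (mul_le_mul_of_nonneg_left hlc (by positivity))
  have h2 : 1 ≤ (1 + Λ / (2 * β ^ 2)) * (1 - Real.exp (-x) + Real.pi / (β * p₀)) := by
    have h3 : (2 * β ^ 2 + Λ) *
        (L / (2 * β) * (1 - Real.exp (-x)) + Real.pi * (L / p₀) / (2 * β ^ 2)) =
        β * L * ((1 + Λ / (2 * β ^ 2)) * (1 - Real.exp (-x) + Real.pi / (β * p₀))) := by
      field_simp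
    rw [h3] at h1
    have h4 : 0 < β * L := by positivity
    by_contra hcon
    rw [not_le] at hcon
    have := mul_lt_mul_of_pos_left hcon h4
    linarith
  have h5 : Real.exp (-x) ≤ Real.pi / (β * p₀) + Λ / (2 * β ^ 2) := by
    set y := Λ / (2 * β ^ 2) with hy
    have hy0 : 0 ≤ y := by positivity
    set z := Real.pi / (β * p₀) with hz
    have hz0 : 0 ≤ z := by positivity
    by_contra hcon
    rw [not_le] at hcon
    have h6 : (1 + y) * (1 - Real.exp (-x) + z) < (1 + y) * (1 - y) :=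
      mul_lt_mul_of_pos_left (by linarith) (by linarith)
    nlinarith
  have h6 : Real.pi / (β * p₀) = Real.pi * β ^ (-η) * β ^ (-2 + 2 * η) := by
    have h7 : β * p₀ = β ^ (2 - η) := by
      rw [hp₀]
      nth_rw 1 [← Real.rpow_one β]
      rw [← Real.rpow_add hβ0]
      congr 1; ring
    rw [h7, div_eq_mul_inv, ← Real.rpow_neg hβ0.le, mul_assoc, ← Real.rpow_add hβ0]
    congr 2; ring
  have h7 : Λ / (2 * β ^ 2) ≤ M / 2 * (Real.log β * β ^ (-(2 * η))) * β ^ (-2 + 2 * η) := by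
    have h8 : β ^ (-(2 * η)) * β ^ (-2 + 2 * η) = (β ^ 2)⁻¹ := by
      rw [← Real.rpow_add hβ0, ← Real.rpow_natCast, ← Real.rpow_neg hβ0.le]
      congr 1; push_cast; ring
    calc Λ / (2 * β ^ 2) ≤ M * Real.log β / (2 * β ^ 2) := by gcongr
      _ = M / 2 * Real.log β * (β ^ 2)⁻¹ := by field_simp
      _ = M / 2 * Real.log β * (β ^ (-(2 * η)) * β ^ (-2 + 2 * η)) := by rw [h8]
      _ = _ := by ring
  have h8 : Real.exp (-x) ≤ β ^ (-2 + 2 * η) := by
    have h9 : 0 < β ^ (-2 + 2 * η) := Real.rpow_pos_of_pos hβ0 _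
    calc Real.exp (-x) ≤ (Real.pi * β ^ (-η) + M / 2 * (Real.log β * β ^ (-(2 * η)))) *
          β ^ (-2 + 2 * η) := by rw [add_mul]; linarith
      _ ≤ 1 * β ^ (-2 + 2 * η) := mul_le_mul_of_nonneg_right hsum h9.le
      _ = _ := one_mul _
  have h9 : -x ≤ (-2 + 2 * η) * Real.log β := by
    have := Real.log_le_log (Real.exp_pos _) h8
    rwa [Real.log_exp, Real.log_rpow hβ0] at this
  have h10 : (2 - 2 * η) * Real.log β ≤ 2 * β * A / L := by rw [← hx]; linarith
  rw [le_div_iff₀ hLpos] at h10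
  nlinarith

/-- PROOF: `volume_UU_le` and `EN_length` (`surface univ ≤ 2 β A`). -/
theorem UU_small {A M η : ℝ} (hA : 0 < A) (hM : 0 < M) (hη : 0 < η) (hη1 : η < 1) :
    ∃ β₁ : ℝ, ∀ (D : Domain 2) (J : JordanBoundary D) (β Λ : ℝ), β₁ ≤ β → 0 ≤ Λ →
      Λ ≤ M * Real.log β → EN D β Λ → volume.real D.carrier = A →
      volume (J.UU (β ^ (1 - η))) ≤ ENNReal.ofReal (3 * A * β ^ (2 - η)) := by
  have hlarge : ∀ᶠ β : ℝ in Filter.atTop, 1 < β ∧ M * Real.log β ≤ β ^ 2 := by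
    have hl2 := Real.isLittleO_log_id_atTop.bound (c := 1 / M) (by positivity)
    filter_upwards [Filter.eventually_gt_atTop (1 : ℝ), hl2] with β g1 g2
    have hlog : 0 ≤ Real.log β := Real.log_nonneg g1.le
    simp only [id, Real.norm_eq_abs, abs_of_nonneg hlog, abs_of_pos (lt_trans one_pos g1)] at g2
    refine ⟨g1, ?_⟩
    calc M * Real.log β ≤ M * (1 / M * β) := mul_le_mul_of_nonneg_left g2 hM.le
      _ = β := by field_simp
      _ ≤ β ^ 2 := by nlinarith
  obtain ⟨β₁, hβ₁⟩ := Filter.eventually_atTop.1 hlarge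
  refine ⟨β₁, fun D J β Λ hβ hΛ hΛM hEN hvol => ?_⟩
  obtain ⟨hβ1, hΛβ⟩ := hβ₁ β hβ
  have hβ0 : 0 < β := by linarith
  set p₀ := β ^ (1 - η) with hp₀
  have hp : 0 < p₀ := Real.rpow_pos_of_pos hβ0 _
  have hlen := EN_length hEN
  rw [hvol] at hlen
  have hfinS : IsFiniteMeasure D.surface := D.isFinite
  have h1 : D.surface.real univ ≤ 2 * β * A := by
    have h2 : (β ^ 2 + Λ) * A ≤ β * (2 * β * A) := by nlinarith
    have h3 := hlen.trans h2
    exact le_of_mul_le_mul_left h3 hβ0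
  have h2 : D.surface univ ≤ ENNReal.ofReal (2 * β * A) := by
    rw [← ENNReal.ofReal_toReal (measure_ne_top D.surface univ)]
    exact ENNReal.ofReal_le_ofReal h1
  have h3 : volume D.carrier = ENNReal.ofReal A := by
    rw [← hvol, Measure.real, ENNReal.ofReal_toReal D.isBounded.measure_lt_top.ne]
  have h4 : 1 ≤ β ^ (2 - η) := Real.one_le_rpow hβ1.le (by linarith)
  have h5 : p₀ * (2 * β * A) = 2 * A * β ^ (2 - η) := by
    have h7 : β * p₀ = β ^ (2 - η) := by
      rw [hp₀]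
      nth_rw 1 [← Real.rpow_one β]
      rw [← Real.rpow_add hβ0]
      congr 1; ring
    rw [← h7]; ring
  calc volume (J.UU p₀) ≤ volume D.carrier + ENNReal.ofReal p₀ * D.surface univ :=
        volume_UU_le J hp
    _ ≤ ENNReal.ofReal A + ENNReal.ofReal p₀ * ENNReal.ofReal (2 * β * A) := by
        rw [h3]; gcongr
    _ = ENNReal.ofReal (A + 2 * A * β ^ (2 - η)) := by
        rw [← ENNReal.ofReal_mul hp.le, ← ENNReal.ofReal_add hA.le (by positivity), h5]
    _ ≤ ENNReal.ofReal (3 * A * β ^ (2 - η)) := by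
        apply ENNReal.ofReal_le_ofReal
        nlinarith

end Pool.Agent.RA
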