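import Pool.Agent.H.MP_1b807b_an.A.WaveA

/-! MP_1b807b_an, large parameter asymptotics in the plane, module WaveC: plain cut-offs -/

set_option autoImplicit false

namespace Pool.Agent.RA

open MeasureTheory Metric Set Pool.Agent.RG
open scoped RealInnerProductSpace ENNReal Topology Pointwise

/-- Plain cut-off functions. PROOF: `u = η χ(g)` in `EN`. -/
theorem wave_plain {D : Domain 2} {β Λ : ℝ} (hEN : EN D β Λ) (hβ : 0 < β) {U : Set (E 2)}
    {x₀ : E 2} {R' : ℝ} {E' : Set (E 2)} (h : WaveData D U x₀ R' E')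
    {χ : ℝ → ℝ} (hχ : ContDiff ℝ 1 χ) {c : ℝ} (hc : R' < c) (hχc : ∀ r ≤ c, χ r = 0) :
    β * ∫ x in closure E', χ (dist x x₀) ^ 2 ∂D.surface ≤
      (∫ x in D.carrier ∩ E', deriv χ (dist x x₀) ^ 2) +
        (β ^ 2 + Λ) * ∫ x in D.carrier ∩ E', χ (dist x x₀) ^ 2 := by
  obtain ⟨η, hη, hη01, hη1, hη0⟩ := wave_cutoff h hc
  have hc0 : 0 < c := lt_of_le_of_lt h.R'_nonneg hc
  have hcd : ContDiff ℝ 1 (fun x => χ (dist x x₀)) := wavea_cd hχ hc0 hχc x₀
  have hu : ContDiff ℝ 1 (fun x => η x * χ (dist x x₀)) :=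
    (hη.of_le one_le_two).mul hcd
  have hE' : IsOpen E' := wavea_isOpen h
  have hmD : MeasurableSet D.carrier := D.isOpen.measurableSet
  have hmDE : MeasurableSet (D.carrier ∩ E') := hmD.inter hE'.measurableSet
  have h1 := hEN _ hu
  have hs : ∫ x in closure E', χ (dist x x₀) ^ 2 ∂D.surface ≤
      ∫ x, (η x * χ (dist x x₀)) ^ 2 ∂D.surface := by
    have h2 : ∫ x in closure E', χ (dist x x₀) ^ 2 ∂D.surface =
        ∫ x in closure E', (η x * χ (dist x x₀)) ^ 2 ∂D.surface := by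
      refine setIntegral_congr_fun isClosed_closure.measurableSet fun x hx => ?_
      have h3 : η x * χ (dist x x₀) = χ (dist x x₀) := (wavea_eq_in hη1 hχc hx).self_of_nhds
      simp only [h3]
    rw [h2]
    exact setIntegral_le_integral (wavea_intSurf D (hu.continuous.pow 2))
      (Filter.Eventually.of_forall fun x => sq_nonneg _)
  have hd : ∫ x in D.carrier, ‖fderiv ℝ (fun x => η x * χ (dist x x₀)) x‖ ^ 2 =
      ∫ x in D.carrier ∩ E', deriv χ (dist x x₀) ^ 2 := by
    rw [setIntegral_eq_of_subset_of_forall_sdiff_eq_zero hmD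
      (inter_subset_left : D.carrier ∩ E' ⊆ D.carrier)]
    · refine setIntegral_congr_fun hmDE fun x hx => ?_
      have h3 := wavea_eq_in hη1 hχc (subset_closure hx.2)
      rw [h3.fderiv_eq, wavea_fderiv hχ hχc hc0, sq_abs]
    · intro x hx
      have h3 := wavea_eq_out hc hη0 hχc (h.sub hx.1) (fun hxE => hx.2 ⟨hx.1, hxE⟩)
      rw [h3.fderiv_eq, fderiv_fun_const]
      simp
  have hi : ∫ x in D.carrier, (η x * χ (dist x x₀)) ^ 2 =
      ∫ x in D.carrier ∩ E', χ (dist x x₀) ^ 2 := by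
    rw [setIntegral_eq_of_subset_of_forall_sdiff_eq_zero hmD
      (inter_subset_left : D.carrier ∩ E' ⊆ D.carrier)]
    · refine setIntegral_congr_fun hmDE fun x hx => ?_
      have h3 : η x * χ (dist x x₀) = χ (dist x x₀) :=
        (wavea_eq_in hη1 hχc (subset_closure hx.2)).self_of_nhds
      simp only [h3]
    · intro x hx
      have h3 : η x * χ (dist x x₀) = 0 :=
        (wavea_eq_out hc hη0 hχc (h.sub hx.1) (fun hxE => hx.2 ⟨hx.1, hxE⟩)).self_of_nhds
      rw [h3]
      ring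
  rw [hd, hi] at h1
  exact (mul_le_mul_of_nonneg_left hs hβ.le).trans h1

end Pool.Agent.RA
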