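import Pool.Agent.H.MP_1b807b_an.A.WaveDefs
import Pool.Agent.H.MP_1b807b_an.A.Fub

/-! MP_1b807b_an, large parameter asymptotics in the plane, module WaveD: levels -/

set_option autoImplicit false

namespace Pool.Agent.RA

open MeasureTheory Metric Set Pool.Agent.RG
open scoped RealInnerProductSpace ENNReal Topology Pointwise

theorem waved_lin {M : Set (E 2)} (hM : MeasurableSet M) (x₀ : E 2) :
    volume M = ∫⁻ s in Ioi (0 : ℝ), ∫⁻ θ in Ioo (-Real.pi) Real.pi,
      ENNReal.ofReal s * M.indicator (fun _ => (1 : ℝ≥0∞)) (x₀ + s • dir θ) := by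
  have h1 : volume M = ∫⁻ x, M.indicator (fun _ => (1 : ℝ≥0∞)) (x₀ + x) := by
    rw [lintegral_add_left_eq_self (fun x => M.indicator (fun _ => (1 : ℝ≥0∞)) x) x₀,
      lintegral_indicator hM]
    simp
  have hm : Measurable (fun x : E 2 => M.indicator (fun _ => (1 : ℝ≥0∞)) (x₀ + x)) :=
    (measurable_const.indicator hM).comp (measurable_const_add x₀)
  have h2 : volume M = ∫⁻ p : ℝ × ℝ, M.indicator (fun _ => (1 : ℝ≥0∞)) (x₀ + fub_map 0 p) := by
    rw [h1, ← (fub_preserving 0).lintegral_comp hm]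
  have h3 := lintegral_comp_polarCoord_symm
    (fun p : ℝ × ℝ => M.indicator (fun _ => (1 : ℝ≥0∞)) (x₀ + fub_map 0 p))
  rw [h2, ← h3]
  have h4 : ∀ p : ℝ × ℝ, fub_map 0 (polarCoord.symm p) = p.1 • dir p.2 := by
    intro p
    unfold fub_map
    rw [polarCoord_symm_apply]
    ext i
    fin_cases i
    · simp [dir_zero, nrm_zero]
    · simp [dir_one, nrm_one]
  simp only [h4, smul_eq_mul]
  have h5 : polarCoord.target = Ioi (0 : ℝ) ×ˢ Ioo (-Real.pi) Real.pi := rfl
  rw [h5, Measure.volume_eq_prod, ← Measure.prod_restrict, lintegral_prod]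
  refine Measurable.aemeasurable ?_
  refine (ENNReal.measurable_ofReal.comp measurable_fst).mul ?_
  refine hm.comp ?_
  have : Continuous (fun p : ℝ × ℝ => p.1 • dir p.2) :=
    continuous_fst.smul (continuous_dir.comp continuous_snd)
  exact this.measurable

theorem waved_polar {M : Set (E 2)} (hM : MeasurableSet M) (x₀ : E 2) {s₁ : ℝ} (h1 : 0 < s₁)
    {A : Set ℝ} (hA : ∀ s ∈ A, s₁ < s ∧ ∀ x, dist x x₀ = s → x ∈ M) :
    ENNReal.ofReal (2 * Real.pi * s₁) * volume A ≤ volume M := by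
  rw [waved_lin hM x₀]
  have hmeas : Measurable (fun s : ℝ => ∫⁻ θ in Ioo (-Real.pi) Real.pi,
      ENNReal.ofReal s * M.indicator (fun _ => (1 : ℝ≥0∞)) (x₀ + s • dir θ)) := by
    refine Measurable.lintegral_prod_right' (f := fun p : ℝ × ℝ =>
      ENNReal.ofReal p.1 * M.indicator (fun _ => (1 : ℝ≥0∞)) (x₀ + p.1 • dir p.2)) ?_
    refine (ENNReal.measurable_ofReal.comp measurable_fst).mul ?_
    have hm : Measurable (fun x : E 2 => M.indicator (fun _ => (1 : ℝ≥0∞)) (x₀ + x)) :=
      (measurable_const.indicator hM).comp (measurable_const_add x₀)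
    refine hm.comp ?_
    have : Continuous (fun p : ℝ × ℝ => p.1 • dir p.2) :=
      continuous_fst.smul (continuous_dir.comp continuous_snd)
    exact this.measurable
  refine le_trans ?_ (mul_meas_ge_le_lintegral hmeas (ENNReal.ofReal (2 * Real.pi * s₁)))
  refine mul_le_mul_right ?_ _
  rw [Measure.restrict_apply' measurableSet_Ioi]
  refine measure_mono ?_
  intro s hs
  obtain ⟨h2, h3⟩ := hA s hs
  have hs0 : 0 < s := h1.trans h2
  refine ⟨?_, hs0⟩
  have h4 : ∀ θ : ℝ, M.indicator (fun _ => (1 : ℝ≥0∞)) (x₀ + s • dir θ) = 1 := by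
    intro θ
    refine indicator_of_mem (h3 _ ?_) _
    rw [dist_eq_norm, add_sub_cancel_left, norm_smul, norm_dir, mul_one, Real.norm_of_nonneg hs0.le]
  show ENNReal.ofReal (2 * Real.pi * s₁) ≤ ∫⁻ θ in Ioo (-Real.pi) Real.pi,
      ENNReal.ofReal s * M.indicator (fun _ => (1 : ℝ≥0∞)) (x₀ + s • dir θ)
  simp only [h4, mul_one, lintegral_const, Measure.restrict_apply_univ, Real.volume_Ioo]
  rw [← ENNReal.ofReal_mul hs0.le]
  refine ENNReal.ofReal_le_ofReal ?_
  nlinarith [Real.pi_pos]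

theorem waved_conn {S A : Set (E 2)} (hS : IsPreconnected S) (hA : IsOpen A)
    (h1 : (S ∩ A).Nonempty) (h2 : ¬ S ⊆ A) : ∃ z ∈ S, z ∈ frontier A := by
  by_contra hcon
  push Not at hcon
  obtain ⟨y, hyS, hyA⟩ := not_subset.1 h2
  have hcov : S ⊆ A ∪ (closure A)ᶜ := by
    intro z hz
    by_cases hzA : z ∈ A
    · exact Or.inl hzA
    · refine Or.inr fun hc => hcon z hz ?_
      rw [hA.frontier_eq]
      exact ⟨hc, hzA⟩
  have hy : y ∈ S ∩ (closure A)ᶜ := by
    refine ⟨hyS, ?_⟩
    rcases hcov hyS with h | h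
    · exact absurd h hyA
    · exact h
  obtain ⟨w, -, hw1, hw2⟩ := hS A (closure A)ᶜ hA isClosed_closure.isOpen_compl hcov h1 ⟨y, hy⟩
  exact hw2 (subset_closure hw1)

/-- The levels of `dist · x₀` on the boundary of `E'`. PROOF: for every `s ∈ (s₁, s₂)` the circle
`sphere x₀ s` meets `E'` (`E'` is connected and has points with `dist ≤ s₁` and with `dist > s₂`).
If it is not contained in `E'` it contains a point of `frontier E'` (the circle is connected), which
is in `frontier U` since `E'` is a component of the open set `U \ closedBall x₀ R'`. The set of `s`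
with `sphere x₀ s ⊆ E'` has measure at most `|U| / (2 π s₁)` (polar coordinates). Apply `hproj` to
`f = dist · x₀` and `C = closure E' ∩ {s₁ ≤ dist x x₀}`. -/
theorem wave_levels {D : Domain 2} {U : Set (E 2)} {x₀ : E 2} {R' : ℝ} {E' : Set (E 2)}
    (h : WaveData D U x₀ R' E') {lam : Measure (E 2)}
    (hproj : ∀ f : E 2 → ℝ, LipschitzWith 1 f → ∀ C : Set (E 2), IsClosed C →
      volume (f '' (frontier U ∩ C)) ≤ lam C)
    {s₁ s₂ : ℝ} (h1 : R' < s₁) (h12 : s₁ < s₂) (hlow : ∃ x ∈ E', dist x x₀ ≤ s₁)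
    (hup : ∃ x ∈ E', s₂ < dist x x₀) :
    ENNReal.ofReal (s₂ - s₁) ≤ lam (closure E' ∩ {x | s₁ ≤ dist x x₀}) +
      volume U / ENNReal.ofReal (2 * Real.pi * s₁) := by
  obtain ⟨q, hq, rfl⟩ := h.comp
  set W : Set (E 2) := U \ closedBall x₀ R' with hW
  set E' : Set (E 2) := connectedComponentIn W q with hE'
  have hWo : IsOpen W := h.isOpen.sdiff isClosed_closedBall
  have hEo : IsOpen E' := hWo.connectedComponentIn
  have hEp : IsPreconnected E' := isPreconnected_connectedComponentIn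
  have hEW : E' ⊆ W := connectedComponentIn_subset W q
  have hs0 : 0 < s₁ := lt_of_le_of_lt h.R'_nonneg h1
  set A : Set ℝ := {s | s ∈ Ioo s₁ s₂ ∧ sphere x₀ s ⊆ E'} with hA
  have hAm : ENNReal.ofReal (2 * Real.pi * s₁) * volume A ≤ volume U := by
    refine waved_polar h.isOpen.measurableSet x₀ hs0 fun s hs => ⟨hs.1.1, fun x hx => ?_⟩
    exact (hEW (hs.2 hx)).1
  have hpos : ENNReal.ofReal (2 * Real.pi * s₁) ≠ 0 := by
    rw [ne_eq, ENNReal.ofReal_eq_zero, not_le]
    exact mul_pos (mul_pos two_pos Real.pi_pos) hs0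
  have hAm2 : volume A ≤ volume U / ENNReal.ofReal (2 * Real.pi * s₁) := by
    rw [ENNReal.le_div_iff_mul_le (Or.inl hpos) (Or.inl ENNReal.ofReal_ne_top), mul_comm]
    exact hAm
  have hf : LipschitzWith 1 (fun x : E 2 => dist x x₀) := LipschitzWith.dist_left x₀
  have hC : IsClosed (closure E' ∩ {x | s₁ ≤ dist x x₀}) :=
    isClosed_closure.inter (isClosed_le continuous_const (continuous_id.dist continuous_const))
  have hp := hproj _ hf _ hC
  have hcov : Ioo s₁ s₂ ⊆ (fun x : E 2 => dist x x₀) ''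
      (frontier U ∩ (closure E' ∩ {x | s₁ ≤ dist x x₀})) ∪ A := by
    intro s hs
    by_cases hsE : sphere x₀ s ⊆ E'
    · exact Or.inr ⟨hs, hsE⟩
    left
    obtain ⟨a, haE, ha⟩ := hlow
    obtain ⟨b, hbE, hb⟩ := hup
    have hiv : s ∈ (fun x : E 2 => dist x x₀) '' E' := by
      have := hEp.intermediate_value haE hbE (f := fun x : E 2 => dist x x₀)
        (continuous_id.dist continuous_const).continuousOn
      exact this ⟨ha.trans hs.1.le, (hs.2.trans hb).le⟩
    obtain ⟨x, hxE, hx⟩ := hiv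
    have hrank : 1 < Module.rank ℝ (E 2) := by
      rw [← Module.finrank_eq_rank, finrank_euclideanSpace]
      simp
    obtain ⟨z, hzS, hzF⟩ := waved_conn (isPreconnected_sphere hrank x₀ s) hEo ⟨x, hx, hxE⟩ hsE
    have hz : dist z x₀ = s := hzS
    have hzc : z ∈ closure E' := frontier_subset_closure hzF
    have hzU : z ∉ U := by
      intro hzU
      have hzW : z ∈ W := ⟨hzU, by rw [mem_closedBall, not_le, hz]; exact h1.trans hs.1⟩
      have ho : IsOpen (connectedComponentIn W z) := hWo.connectedComponentIn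
      obtain ⟨w, hw1, hw2⟩ := mem_closure_iff.1 hzc _ ho (mem_connectedComponentIn hzW)
      have e1 := connectedComponentIn_eq hw1
      have e2 := connectedComponentIn_eq hw2
      have hzE : z ∈ E' := by
        rw [hE', e2, ← e1]
        exact mem_connectedComponentIn hzW
      rw [hEo.frontier_eq] at hzF
      exact hzF.2 hzE
    refine ⟨z, ⟨?_, hzc, ?_⟩, hz⟩
    · rw [h.isOpen.frontier_eq]
      exact ⟨closure_mono (hEW.trans sdiff_subset) hzc, hzU⟩
    · show s₁ ≤ dist z x₀
      rw [hz]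
      exact hs.1.le
  calc ENNReal.ofReal (s₂ - s₁) = volume (Ioo s₁ s₂) := by rw [Real.volume_Ioo]
    _ ≤ volume ((fun x : E 2 => dist x x₀) ''
      (frontier U ∩ (closure E' ∩ {x | s₁ ≤ dist x x₀})) ∪ A) := measure_mono hcov
    _ ≤ volume ((fun x : E 2 => dist x x₀) ''
      (frontier U ∩ (closure E' ∩ {x | s₁ ≤ dist x x₀}))) + volume A := measure_union_le _ _
    _ ≤ _ := by gcongr

end Pool.Agent.RA
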