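import Pool.Agent.H.MP_1b807b_an.A.WaveB
import Pool.Agent.H.MP_1b807b_an.A.WaveC
import Pool.Agent.H.MP_1b807b_an.A.WaveD

/-! MP_1b807b_an, large parameter asymptotics in the plane, module WaveE: property PP -/

set_option autoImplicit false

namespace Pool.Agent.RA

open MeasureTheory Metric Set Pool.Agent.RG
open scoped RealInnerProductSpace ENNReal Topology Pointwise

/-- Smooth cut-off functions of one variable. -/
theorem wavee_cut : ∃ C : ℝ, 0 < C ∧ ∀ a b : ℝ, a < b → ∃ χ : ℝ → ℝ, ContDiff ℝ 1 χ ∧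
    (∀ r ≤ a, χ r = 0) ∧ (∀ r, b ≤ r → χ r = 1) ∧ (∀ r, 0 ≤ χ r ∧ χ r ≤ 1) ∧
    (∀ r, |deriv χ r| ≤ C / (b - a)) ∧ (∀ r, r < a → deriv χ r = 0) ∧
    ∀ r, b < r → deriv χ r = 0 := by
  have hS : ContDiff ℝ 1 Real.smoothTransition := Real.smoothTransition.contDiff
  have h0 : ∀ t, t < 0 → deriv Real.smoothTransition t = 0 := by
    intro t ht
    have h1 : Real.smoothTransition =ᶠ[𝓝 t] fun _ => (0 : ℝ) := by
      filter_upwards [Iio_mem_nhds ht] with s hs
      exact Real.smoothTransition.zero_of_nonpos (le_of_lt hs)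
    rw [h1.deriv_eq, deriv_const]
  have h1 : ∀ t, 1 < t → deriv Real.smoothTransition t = 0 := by
    intro t ht
    have h1 : Real.smoothTransition =ᶠ[𝓝 t] fun _ => (1 : ℝ) := by
      filter_upwards [Ioi_mem_nhds ht] with s hs
      exact Real.smoothTransition.one_of_one_le (le_of_lt hs)
    rw [h1.deriv_eq, deriv_const]
  obtain ⟨C, hC⟩ := (isCompact_Icc (a := (0 : ℝ)) (b := 1)).exists_bound_of_continuousOn
    (hS.continuous_deriv le_rfl).continuousOn
  have hC1 : (0 : ℝ) < max C 1 := lt_max_of_lt_right one_pos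
  have hall : ∀ t, |deriv Real.smoothTransition t| ≤ max C 1 := by
    intro t
    rcases lt_or_ge t 0 with h | h
    · rw [h0 t h, abs_zero]
      exact hC1.le
    · rcases lt_or_ge 1 t with h' | h'
      · rw [h1 t h', abs_zero]
        exact hC1.le
      · exact (hC t ⟨h, h'⟩).trans (le_max_left _ _)
  refine ⟨max C 1, hC1, fun a b hab =>
    ⟨fun r => Real.smoothTransition ((r - a) / (b - a)), ?_, ?_, ?_, ?_, ?_, ?_, ?_⟩⟩
  · exact hS.comp ((contDiff_id.sub contDiff_const).div_const _)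
  · intro r hr
    exact Real.smoothTransition.zero_of_nonpos
      (div_nonpos_of_nonpos_of_nonneg (by linarith) (by linarith))
  · intro r hr
    refine Real.smoothTransition.one_of_one_le ?_
    rw [le_div_iff₀ (by linarith)]
    linarith
  · intro r
    exact ⟨Real.smoothTransition.nonneg _, Real.smoothTransition.le_one _⟩
  all_goals
    have hd : ∀ r, deriv (fun r => Real.smoothTransition ((r - a) / (b - a))) r =
        deriv Real.smoothTransition ((r - a) / (b - a)) * (1 / (b - a)) := by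
      intro r
      have e1 : HasDerivAt (fun r : ℝ => (r - a) / (b - a)) (1 / (b - a)) r :=
        ((hasDerivAt_id r).sub_const a).div_const (b - a)
      have e2 : HasDerivAt Real.smoothTransition
          (deriv Real.smoothTransition ((r - a) / (b - a))) ((r - a) / (b - a)) :=
        (hS.differentiable one_ne_zero _).hasDerivAt
      exact (e2.comp r e1).deriv
  · intro r
    rw [hd, abs_mul, abs_of_pos (show (0 : ℝ) < 1 / (b - a) by
      exact one_div_pos.2 (by linarith)), div_eq_mul_one_div (max C 1) (b - a)]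
    exact mul_le_mul_of_nonneg_right (hall _) (one_div_pos.2 (by linarith)).le
  · intro r hr
    rw [hd, h0 _ (div_neg_of_neg_of_pos (by linarith) (by linarith)), zero_mul]
  · intro r hr
    rw [hd, h1 _ (by
      rw [lt_div_iff₀ (by linarith)]
      linarith), zero_mul]

theorem wavee_ind {μ : Measure (E 2)} {S T : Set (E 2)} (hT : MeasurableSet T) (hfin : μ S ≠ ⊤)
    (K : ℝ) : Integrable (T.indicator fun _ => K) (μ.restrict S) ∧
      ∫ x in S, T.indicator (fun _ => K) x ∂μ = K * μ.real (S ∩ T) := by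
  constructor
  · have h1 : IsFiniteMeasure (μ.restrict S) := ⟨by
      rw [Measure.restrict_apply_univ]
      exact hfin.lt_top⟩
    exact (integrable_const K).indicator hT
  · rw [setIntegral_indicator hT, setIntegral_const, smul_eq_mul, mul_comm]

theorem wavee_low {μ : Measure (E 2)} {S T : Set (E 2)} (hT : MeasurableSet T) (hfin : μ S ≠ ⊤)
    {G : E 2 → ℝ} {K : ℝ} (hG : IntegrableOn G S μ) (h0 : ∀ x, 0 ≤ G x)
    (hK : ∀ x ∈ T, K ≤ G x) : K * μ.real (S ∩ T) ≤ ∫ x in S, G x ∂μ := by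
  obtain ⟨h1, h2⟩ := wavee_ind (μ := μ) (S := S) hT hfin K
  rw [← h2]
  refine integral_mono h1 hG fun x => ?_
  by_cases hx : x ∈ T
  · rw [indicator_of_mem hx]
    exact hK x hx
  · rw [indicator_of_notMem hx]
    exact h0 x

theorem wavee_up {μ : Measure (E 2)} {S T : Set (E 2)} (hT : MeasurableSet T) (hfin : μ S ≠ ⊤)
    {F : E 2 → ℝ} {K : ℝ} (h0 : ∀ x, 0 ≤ F x) (hK : ∀ x ∈ T, F x ≤ K)
    (hn : ∀ x, x ∉ T → F x = 0) : ∫ x in S, F x ∂μ ≤ K * μ.real (S ∩ T) := by
  obtain ⟨h1, h2⟩ := wavee_ind (μ := μ) (S := S) hT hfin K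
  rw [← h2]
  refine integral_mono_of_nonneg (Filter.Eventually.of_forall h0) h1
    (Filter.Eventually.of_forall fun x => ?_)
  show F x ≤ T.indicator (fun _ => K) x
  by_cases hx : x ∈ T
  · rw [indicator_of_mem hx]
    exact hK x hx
  · rw [indicator_of_notMem hx, hn x hx]

/-- The numerical contradiction. -/
theorem wavee_num {A C β m a0 Λ : ℝ} (hC : 0 < C) (hA : 0 ≤ A)
    (hβ : 8 * (512 * C ^ 2 * (16 * C ^ 2 + 2) * A) + 1 ≤ β) (hΛ : Λ ≤ β ^ 2) (hm : 1 ≤ m)
    (ha0 : 0 ≤ a0) (h1 : Real.exp (β * m / 2) * a0 ≤ 64 * C ^ 2 * A)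
    (h2 : β * (m / 8) ≤ (16 * C ^ 2 + (β ^ 2 + Λ)) * a0) : False := by
  obtain ⟨M, hM⟩ : ∃ M : ℝ, M = 512 * C ^ 2 * (16 * C ^ 2 + 2) * A := ⟨_, rfl⟩
  have hM0 : 0 ≤ M := by
    rw [hM]
    positivity
  rw [← hM] at hβ
  have hβ1 : 1 ≤ β := by linarith
  have hβ0 : 0 < β := by linarith
  have e1 : Real.exp (β / 2) ≤ Real.exp (β * m / 2) := by
    apply Real.exp_le_exp.2
    nlinarith
  have e2 : 1 + β / 2 + (β / 2) ^ 2 / 2 ≤ Real.exp (β / 2) :=
    Real.quadratic_le_exp_of_nonneg (by positivity)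
  have e3 : (16 * C ^ 2 + (β ^ 2 + Λ)) * a0 ≤ (16 * C ^ 2 + 2) * β ^ 2 * a0 := by
    apply mul_le_mul_of_nonneg_right _ ha0
    nlinarith [mul_nonneg (sq_nonneg C) (show 0 ≤ β ^ 2 - 1 by nlinarith)]
  have e4 : β / 8 ≤ (16 * C ^ 2 + 2) * β ^ 2 * a0 := by
    have : β / 8 ≤ β * (m / 8) := by nlinarith
    linarith
  have e5 : 1 / 8 ≤ (16 * C ^ 2 + 2) * β * a0 := by
    have : β * (1 / 8) ≤ β * ((16 * C ^ 2 + 2) * β * a0) := by
      calc β * (1 / 8) = β / 8 := by ring
        _ ≤ (16 * C ^ 2 + 2) * β ^ 2 * a0 := e4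
        _ = β * ((16 * C ^ 2 + 2) * β * a0) := by ring
    exact le_of_mul_le_mul_left this hβ0
  have e6 : Real.exp (β / 2) * (1 / 8) ≤ (16 * C ^ 2 + 2) * β * (64 * C ^ 2 * A) := by
    calc Real.exp (β / 2) * (1 / 8) ≤ Real.exp (β / 2) * ((16 * C ^ 2 + 2) * β * a0) :=
          mul_le_mul_of_nonneg_left e5 (Real.exp_pos _).le
      _ = (16 * C ^ 2 + 2) * β * (Real.exp (β / 2) * a0) := by ring
      _ ≤ (16 * C ^ 2 + 2) * β * (Real.exp (β * m / 2) * a0) := by
          apply mul_le_mul_of_nonneg_left _ (by positivity)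
          exact mul_le_mul_of_nonneg_right e1 ha0
      _ ≤ _ := mul_le_mul_of_nonneg_left h1 (by positivity)
  have e7 : Real.exp (β / 2) ≤ M * β := by
    rw [hM]
    linarith
  have e8 : β ^ 2 / 8 < M * β := by nlinarith
  have e9 : β / 8 < M := by
    have : β * (β / 8) < β * M := by nlinarith
    exact lt_of_mul_lt_mul_left this hβ0.le
  linarith

/-- PROOF: let `q`, `E'` violate `PP`; `c₁ = R' + m/8`, `c₂ = R' + m/4`. `χ` a `C¹` function with
`χ = 0` for `r ≤ c₁`, `χ = 1` for `r ≥ c₂`, `|χ'| ≤ C/m`. If `E'` has no point with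
`dist ≤ R' + 3m/4` then `E' = U` (`wave_all`), `χ = 1` and `χ' = 0` on `E'` and `wave_main` gives
`(β/R - Λ) ∫_D e^{2βg} ≤ 0`, contradiction (`D` is open and non empty). Otherwise `wave_levels` with
`s₁ = R' + 3m/4`, `s₂ = R' + m` gives `lam (closure E' ∩ {s₁ ≤ dist}) ≥ m/4 - |U|/(3 π m/2) ≥ m/8`;
`wave_plain` with `χ₂` cutting off between `R' + m/2` and `R' + 3m/4` gives
`β m/8 ≤ (C²/m² + β² + Λ) a₀`, `a₀ = |D ∩ E' ∩ {R' + m/2 ≤ dist}|`. And `wave_main` gives
`(β/R - Λ) e^{2β(R'+m/2)} a₀ ≤ (C²/m²) e^{2β(R'+m/4)} |D|`. So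
`β m / 8 ≤ (C² + β² + Λ) C² e^{-β m/2} |D|` using `m ≥ 1`: impossible if `β` is large
(`Λ ≤ β²`). -/
theorem PP_of_EN (A : ℝ) : ∃ β₁ : ℝ, ∀ (D : Domain 2) (U : Set (E 2)) (β Λ R m : ℝ),
    β₁ ≤ β → 0 ≤ Λ → Λ ≤ β ^ 2 → EN D β Λ → volume.real D.carrier = A → 1 ≤ m → 0 < R →
    Λ + 1 ≤ β / R → IsOpen U → IsConnected U → Bornology.IsBounded U → LocConn U →
    D.carrier ⊆ U → frontier U ⊆ frontier D.carrier → volume U ≤ ENNReal.ofReal (m ^ 2 / 2) →
    (∀ f : E 2 → ℝ, LipschitzWith 1 f → ∀ C : Set (E 2), IsClosed C →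
      volume (f '' (frontier U ∩ C)) ≤ D.surface C) →
    PP U R m := by
  obtain ⟨C, hC, hcut⟩ := wavee_cut
  refine ⟨8 * (512 * C ^ 2 * (16 * C ^ 2 + 2) * |A|) + 1, ?_⟩
  intro D U β Λ R m hβ hΛ0 hΛ hEN hvol hm hR0 hRΛ hUo hUc hUb hUl hDU hfr hUv hproj x₀ R' hR' q hq
    hqd hsub
  have hA : 0 ≤ A := by
    rw [← hvol]
    exact measureReal_nonneg
  rw [abs_of_nonneg hA] at hβ
  have hβ1 : 1 ≤ β := by
    have : 0 ≤ 8 * (512 * C ^ 2 * (16 * C ^ 2 + 2) * A) := by positivity
    linarith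
  have hβ0 : 0 < β := by linarith
  have hm0 : 0 < m := by linarith
  obtain ⟨E', hE'⟩ : ∃ E' : Set (E 2), E' = connectedComponentIn (U \ closedBall x₀ R') q :=
    ⟨_, rfl⟩
  rw [← hE'] at hsub
  have hqm : q ∈ U \ closedBall x₀ R' := by
    refine ⟨hq, ?_⟩
    rw [mem_closedBall]
    linarith
  have hW : WaveData D U x₀ R' E' := ⟨hUo, hUc, hUb, hUl, hDU, hR', q, hqm, hE'⟩
  have hqE : q ∈ E' := by
    rw [hE']
    exact mem_connectedComponentIn hqm
  have hEo : IsOpen E' := by
    rw [hE']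
    exact (hUo.sdiff isClosed_closedBall).connectedComponentIn
  have hDfin : volume D.carrier ≠ ⊤ := D.isBounded.measure_lt_top.ne
  have hSfin : volume (D.carrier ∩ E') ≠ ⊤ :=
    ne_top_of_le_ne_top hDfin (measure_mono inter_subset_left)
  have hSm : MeasurableSet (D.carrier ∩ E') := (D.isOpen.inter hEo).measurableSet
  have hdc : Continuous fun x : E 2 => dist x x₀ := continuous_id.dist continuous_const
  have hgap : 1 ≤ β / R - Λ := by linarith
  obtain ⟨χ, hχ, hχ0, hχ1, hχb, hχd, hχd0, hχd1⟩ := hcut (R' + m / 8) (R' + m / 4) (by linarith)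
  have hmain := wave_main hEN hβ0 hW hsub hR0 hχ (c := R' + m / 8) (by linarith) hχ0
  have hGint : IntegrableOn (fun x : E 2 => χ (dist x x₀) ^ 2 * Real.exp (2 * β * dist x x₀))
      (D.carrier ∩ E') volume := by
    have hc : Continuous fun x : E 2 => χ (dist x x₀) ^ 2 * Real.exp (2 * β * dist x x₀) :=
      ((hχ.continuous.comp hdc).pow 2).mul (Real.continuous_exp.comp (hdc.const_mul _))
    exact (hc.continuousOn.integrableOn_compact D.isBounded.isCompact_closure).mono_set
      (inter_subset_left.trans subset_closure)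
  have hGnn : ∀ x : E 2, 0 ≤ χ (dist x x₀) ^ 2 * Real.exp (2 * β * dist x x₀) := fun x =>
    mul_nonneg (sq_nonneg _) (Real.exp_pos _).le
  have hIge : ∫ x in D.carrier ∩ E', χ (dist x x₀) ^ 2 * Real.exp (2 * β * dist x x₀) ≤
      ∫ x in D.carrier ∩ E', deriv χ (dist x x₀) ^ 2 * Real.exp (2 * β * dist x x₀) := by
    refine le_trans ?_ hmain
    have h1 : 0 ≤ ∫ x in D.carrier ∩ E', χ (dist x x₀) ^ 2 * Real.exp (2 * β * dist x x₀) :=
      integral_nonneg hGnn
    nlinarith
  by_cases hlow : ∃ x ∈ E', dist x x₀ ≤ R' + 3 * m / 4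
  · have hlev := wave_levels hW hproj (s₁ := R' + 3 * m / 4) (s₂ := R' + m) (by linarith)
      (by linarith) hlow ⟨q, hqE, hqd⟩
    have hfinS := D.isFinite
    -- the surface measure of the far part
    have hsurf : m / 8 ≤ D.surface.real (closure E' ∩ {x | R' + 3 * m / 4 ≤ dist x x₀}) := by
      have hs1 : 0 < 2 * Real.pi * (R' + 3 * m / 4) := by
        have := Real.pi_pos
        positivity
      have h1 : volume U / ENNReal.ofReal (2 * Real.pi * (R' + 3 * m / 4)) ≤
          ENNReal.ofReal (m / 8) := by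
        calc volume U / ENNReal.ofReal (2 * Real.pi * (R' + 3 * m / 4))
            ≤ ENNReal.ofReal (m ^ 2 / 2) / ENNReal.ofReal (2 * Real.pi * (R' + 3 * m / 4)) :=
              ENNReal.div_le_div_right hUv _
          _ = ENNReal.ofReal (m ^ 2 / 2 / (2 * Real.pi * (R' + 3 * m / 4))) :=
              (ENNReal.ofReal_div_of_pos hs1).symm
          _ ≤ ENNReal.ofReal (m / 8) := by
              apply ENNReal.ofReal_le_ofReal
              rw [div_le_iff₀ hs1]
              have h2 := Real.pi_gt_three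
              have h3 : 0 ≤ (Real.pi - 3) * R' := mul_nonneg (by linarith) hR'
              have h4 : 0 ≤ (Real.pi - 3) * m := mul_nonneg (by linarith) hm0.le
              nlinarith [mul_nonneg h3 hm0.le, mul_nonneg h4 hm0.le, mul_nonneg hR' hm0.le]
      have h2 : ENNReal.ofReal (R' + m - (R' + 3 * m / 4)) ≤
          D.surface (closure E' ∩ {x | R' + 3 * m / 4 ≤ dist x x₀}) + ENNReal.ofReal (m / 8) :=
        hlev.trans (by gcongr)
      have h3 := ENNReal.toReal_mono (ENNReal.add_ne_top.2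
        ⟨measure_ne_top _ _, ENNReal.ofReal_ne_top⟩) h2
      rw [ENNReal.toReal_add (measure_ne_top _ _) ENNReal.ofReal_ne_top,
        ENNReal.toReal_ofReal (by linarith), ENNReal.toReal_ofReal (by linarith)] at h3
      rw [Measure.real]
      linarith
    obtain ⟨χ₂, hψ, hψ0, hψ1, hψb, hψd, hψd0, hψd1⟩ :=
      hcut (R' + m / 2) (R' + 3 * m / 4) (by linarith)
    have hplain := wave_plain hEN hβ0 hW hψ (c := R' + m / 2) (by linarith) hψ0
    obtain ⟨T, hT⟩ : ∃ T : Set (E 2), T = {x | R' + m / 2 ≤ dist x x₀} := ⟨_, rfl⟩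
    have hTm : MeasurableSet T := by
      rw [hT]
      exact (isClosed_le continuous_const hdc).measurableSet
    have hTn : ∀ x, x ∉ T → dist x x₀ < R' + m / 2 := by
      intro x hx
      rw [hT, mem_setOf_eq, not_le] at hx
      exact hx
    obtain ⟨a0, ha0⟩ : ∃ a0 : ℝ, a0 = volume.real (D.carrier ∩ E' ∩ T) := ⟨_, rfl⟩
    have ha0n : 0 ≤ a0 := by
      rw [ha0]
      exact measureReal_nonneg
    -- lower bound of the boundary integral
    have hb : 1 * D.surface.real (closure E' ∩ {x | R' + 3 * m / 4 ≤ dist x x₀}) ≤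
        ∫ x in closure E', χ₂ (dist x x₀) ^ 2 ∂D.surface := by
      refine wavee_low (isClosed_le continuous_const hdc).measurableSet (measure_ne_top _ _) ?_
        (fun x => sq_nonneg _) ?_
      · refine Integrable.mono' (integrable_const (1 : ℝ))
          ((hψ.continuous.comp hdc).pow 2).aestronglyMeasurable
          (Filter.Eventually.of_forall fun x => ?_)
        have h1 := hψb (dist x x₀)
        rw [Real.norm_eq_abs, abs_of_nonneg (sq_nonneg _)]
        show χ₂ (dist x x₀) ^ 2 ≤ 1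
        nlinarith
      · intro x hx
        rw [hψ1 _ hx]
        norm_num
    rw [one_mul] at hb
    have hK2 : C / (R' + 3 * m / 4 - (R' + m / 2)) ≤ 4 * C := by
      rw [div_le_iff₀ (by linarith)]
      nlinarith
    have hu1 : ∫ x in D.carrier ∩ E', deriv χ₂ (dist x x₀) ^ 2 ≤ (4 * C) ^ 2 * a0 := by
      rw [ha0]
      refine wavee_up hTm hSfin (fun x => sq_nonneg _) ?_ ?_
      · intro x _
        have h1 := (hψd (dist x x₀)).trans hK2
        exact sq_le_sq' (by linarith [neg_abs_le (deriv χ₂ (dist x x₀))])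
          ((le_abs_self _).trans h1)
      · intro x hx
        rw [hψd0 _ (hTn x hx)]
        norm_num
    have hu2 : ∫ x in D.carrier ∩ E', χ₂ (dist x x₀) ^ 2 ≤ 1 * a0 := by
      rw [ha0]
      refine wavee_up hTm hSfin (fun x => sq_nonneg _) ?_ ?_
      · intro x _
        have h1 := hψb (dist x x₀)
        nlinarith
      · intro x hx
        rw [hψ0 _ (hTn x hx).le]
        norm_num
    -- the main inequality
    have hl1 : Real.exp (2 * β * (R' + m / 2)) * a0 ≤
        ∫ x in D.carrier ∩ E', χ (dist x x₀) ^ 2 * Real.exp (2 * β * dist x x₀) := by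
      rw [ha0]
      refine wavee_low hTm hSfin hGint hGnn ?_
      intro x hx
      rw [hT, mem_setOf_eq] at hx
      rw [hχ1 _ (by linarith), one_pow, one_mul]
      apply Real.exp_le_exp.2
      nlinarith
    have hK1 : C / (R' + m / 4 - (R' + m / 8)) ≤ 8 * C := by
      rw [div_le_iff₀ (by linarith)]
      nlinarith
    have hu3 : ∫ x in D.carrier ∩ E', deriv χ (dist x x₀) ^ 2 * Real.exp (2 * β * dist x x₀) ≤
        (8 * C) ^ 2 * Real.exp (2 * β * (R' + m / 4)) * A := by
      have h1 : ∫ x in D.carrier ∩ E',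
          deriv χ (dist x x₀) ^ 2 * Real.exp (2 * β * dist x x₀) ≤
          (8 * C) ^ 2 * Real.exp (2 * β * (R' + m / 4)) *
            volume.real (D.carrier ∩ E' ∩ univ) := by
        refine wavee_up MeasurableSet.univ hSfin
          (fun x => mul_nonneg (sq_nonneg _) (Real.exp_pos _).le) ?_
          (fun x hx => absurd (mem_univ x) hx)
        intro x _
        rcases lt_or_ge (R' + m / 4) (dist x x₀) with h2 | h2
        · rw [hχd1 _ h2]
          have := Real.exp_pos (2 * β * (R' + m / 4))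
          have h3 : 0 ≤ (8 * C) ^ 2 * Real.exp (2 * β * (R' + m / 4)) := by positivity
          simpa using h3
        · have h3 := (hχd (dist x x₀)).trans hK1
          refine mul_le_mul (sq_le_sq' (by linarith [neg_abs_le (deriv χ (dist x x₀))])
            ((le_abs_self _).trans h3)) (Real.exp_le_exp.2 (by nlinarith))
            (Real.exp_pos _).le (sq_nonneg _)
      refine h1.trans ?_
      apply mul_le_mul_of_nonneg_left _ (by positivity)
      rw [← hvol, inter_univ]
      exact measureReal_mono inter_subset_left hDfin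
    have hfin1 : Real.exp (β * m / 2) * a0 ≤ 64 * C ^ 2 * A := by
      have h1 := hl1.trans (hIge.trans hu3)
      have h2 : Real.exp (2 * β * (R' + m / 2)) =
          Real.exp (2 * β * (R' + m / 4)) * Real.exp (β * m / 2) := by
        rw [← Real.exp_add]
        congr 1
        ring
      rw [h2] at h1
      have h3 : Real.exp (2 * β * (R' + m / 4)) * (Real.exp (β * m / 2) * a0) ≤
          Real.exp (2 * β * (R' + m / 4)) * (64 * C ^ 2 * A) := by
        calc Real.exp (2 * β * (R' + m / 4)) * (Real.exp (β * m / 2) * a0)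
            = Real.exp (2 * β * (R' + m / 4)) * Real.exp (β * m / 2) * a0 := by ring
          _ ≤ _ := h1
          _ = Real.exp (2 * β * (R' + m / 4)) * (64 * C ^ 2 * A) := by ring
      exact le_of_mul_le_mul_left h3 (Real.exp_pos _)
    have hfin2 : β * (m / 8) ≤ (16 * C ^ 2 + (β ^ 2 + Λ)) * a0 := by
      have h1 : β * (m / 8) ≤ β * ∫ x in closure E', χ₂ (dist x x₀) ^ 2 ∂D.surface :=
        mul_le_mul_of_nonneg_left (hsurf.trans hb) hβ0.le
      have h2 : (β ^ 2 + Λ) * ∫ x in D.carrier ∩ E', χ₂ (dist x x₀) ^ 2 ≤ (β ^ 2 + Λ) * a0 := by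
        apply mul_le_mul_of_nonneg_left _ (by positivity)
        linarith
      nlinarith
    exact wavee_num hC hA hβ hΛ hm ha0n hfin1 hfin2
  · push Not at hlow
    have hEU : E' = U := wave_all hW (s₁ := R' + 3 * m / 4) (by linarith) hlow
    have hSD : D.carrier ∩ E' = D.carrier := by
      rw [hEU]
      exact inter_eq_left.2 hDU
    have h1 : ∫ x in D.carrier ∩ E',
        deriv χ (dist x x₀) ^ 2 * Real.exp (2 * β * dist x x₀) = 0 := by
      rw [setIntegral_congr_fun (g := fun _ => (0 : ℝ)) hSm, integral_zero]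
      intro x hx
      have h2 := hlow x hx.2
      show deriv χ (dist x x₀) ^ 2 * Real.exp (2 * β * dist x x₀) = 0
      rw [hχd1 _ (by linarith)]
      norm_num
    have h2 : 1 * volume.real (D.carrier ∩ E' ∩ (D.carrier ∩ E')) ≤
        ∫ x in D.carrier ∩ E', χ (dist x x₀) ^ 2 * Real.exp (2 * β * dist x x₀) := by
      refine wavee_low hSm hSfin hGint hGnn ?_
      intro x hx
      have h3 := hlow x hx.2
      rw [hχ1 _ (by linarith), one_pow, one_mul]
      apply Real.one_le_exp
      have : 0 ≤ dist x x₀ := dist_nonneg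
      positivity
    rw [inter_self, one_mul] at h2
    rw [h1] at hIge
    have h3 : 0 < volume.real (D.carrier ∩ E') := by
      rw [hSD]
      exact ENNReal.toReal_pos (D.isOpen.measure_pos volume D.isConnected.nonempty).ne' hDfin
    linarith

end Pool.Agent.RA
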