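import Pool.Agent.H.MP_1b807b_an.A.UpperA
import Pool.Agent.H.MP_1b807b_an.A.UUD
import Pool.Agent.H.MP_1b807b_an.A.LeafH
import Pool.Agent.H.MP_1b807b_an.A.WaveE

/-! MP_1b807b_an, large parameter asymptotics in the plane, module UpperB: the upper bound -/

set_option autoImplicit false

namespace Pool.Agent.RA

open MeasureTheory Metric Set Pool.Agent.RG
open scoped RealInnerProductSpace ENNReal Topology Pointwise

private theorem upperb_num {q t : ℝ} (hq : 0 < q) (hq2 : q ≤ 8) (ht : t = q / 60) :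
    4 * Real.pi - q < (4 * Real.pi - t) * (1 - t) ^ 2 := by
  have hpi := Real.pi_lt_d2
  have hpi3 := Real.pi_gt_three
  have ht0 : 0 < t := by rw [ht]; positivity
  have ht1 : t ≤ 1 / 4 := by rw [ht]; linarith
  have hqt : q = 60 * t := by rw [ht]; ring
  rw [hqt]
  have h1 : (1 - t) ^ 2 ≥ 1 - 2 * t := by nlinarith
  have h2 : (4 * Real.pi - t) * (1 - t) ^ 2 ≥ (4 * Real.pi - t) * (1 - 2 * t) :=
    mul_le_mul_of_nonneg_left h1 (by linarith)
  nlinarith

/-- The upper bound. PROOF: let `Λ = (4 π/A - ε) log β` (`ε < 4 π/A` without loss of generality) and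
suppose `-β² - Λ < robin`, so `EN D β Λ` (`EN_of_robin`). Let `ε₁, η, ε₂` be small,
`R = (1 - ε₂) β/Λ` (so `β/R ≥ Λ + 1` for large `β`), `δ` from `geo` for `ε₁`, `m = δ R`,
`U = UU (β^(1-η))`, `lam = surface.restrict SS`. `UU_geo`; `UU_small` gives
`|U| ≤ δ² R²/2` for large `β` (`R ~ β/log β`); `PP_of_EN` (with `surface_proj`) gives `PP U R m`;
`geo`: `(4 π - ε₁) R ≤ lam univ = surface.real SS`; `length_bound`:
`(4π - ε₁)(1 - ε₂)(1 - η) log β ≤ A Λ = (4π - ε A) log β`, a contradiction if `ε₁, ε₂, η` are small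
depending on `ε A`. -/
theorem upper_bound {A ε : ℝ} (hA : 0 < A) (hε : 0 < ε) : ∃ β₀ : ℝ, ∀ β ≥ β₀, ∀ D : Domain 2,
    Nonempty (JordanBoundary D) → LocConn D.carrier → volume.real D.carrier = A →
    D.robin (-β) ≤ ((-β ^ 2 - (4 * Real.pi / A - ε) * Real.log β : ℝ) : EReal) := by
  have hpi := Real.pi_pos
  have hpi3 := Real.pi_gt_three
  -- reduce to small ε
  obtain ⟨e, he, heε, heA⟩ : ∃ e : ℝ, 0 < e ∧ e ≤ ε ∧ e * A ≤ 6 := by
    refine ⟨min ε (6 / A), by positivity, min_le_left _ _, ?_⟩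
    calc min ε (6 / A) * A ≤ 6 / A * A := mul_le_mul_of_nonneg_right (min_le_right _ _) hA.le
      _ = 6 := by field_simp
  set q := e * A with hq
  have hq0 : 0 < q := by positivity
  set t := q / 60 with ht
  have ht0 : 0 < t := by positivity
  have ht1 : t ≤ 1 / 10 := by rw [ht]; linarith
  set M := 4 * Real.pi / A with hM
  have hM0 : 0 < M := by positivity
  have hMe : 6 / A ≤ M - e := by
    rw [hM, div_le_iff₀ hA, sub_mul, div_mul_cancel₀ _ hA.ne']
    linarith
  obtain ⟨δ, hδ, hgeo⟩ := geo (ε := t) ht0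
  obtain ⟨b1, h1⟩ := length_bound (A := A) (M := M) (η := t) hA hM0 ht0 (by linarith)
  obtain ⟨b2, h2⟩ := UU_small (A := A) (M := M) (η := t) hA hM0 ht0 (by linarith)
  obtain ⟨b3, h3⟩ := PP_of_EN A
  -- large β
  have hlarge : ∀ᶠ β : ℝ in Filter.atTop, b1 ≤ β ∧ b2 ≤ β ∧ b3 ≤ β ∧ 1 < β ∧
      A / (6 * t) ≤ Real.log β ∧ M * Real.log β ≤ δ * (1 - t) * β ∧
      M * Real.log β ≤ β ^ 2 ∧
      6 * A * (M * Real.log β) ^ 2 ≤ (δ * (1 - t)) ^ 2 * β ^ t := by
    have hl1 : Filter.Tendsto Real.log Filter.atTop Filter.atTop := Real.tendsto_log_atTop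
    have hl2 := Real.isLittleO_log_id_atTop
    have hl3 := isLittleO_log_rpow_atTop (r := t / 2) (by positivity)
    have c1 : 0 < δ * (1 - t) / M := by
      have : 0 < 1 - t := by linarith
      positivity
    have hl2' := hl2.bound c1
    have hl2'' := hl2.bound (c := 1 / M) (by positivity)
    set c2 := δ * (1 - t) / (M * Real.sqrt (6 * A)) with hc2
    have hc2p : 0 < c2 := by
      have : 0 < 1 - t := by linarith
      positivity
    have hl3' := hl3.bound hc2p
    filter_upwards [Filter.eventually_ge_atTop b1, Filter.eventually_ge_atTop b2,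
      Filter.eventually_ge_atTop b3, Filter.eventually_gt_atTop (1 : ℝ),
      hl1.eventually_ge_atTop (A / (6 * t)), hl2', hl2'', hl3'] with β g1 g2 g3 g4 g5 g6 g7 g8
    have hlog : 0 ≤ Real.log β := Real.log_nonneg g4.le
    simp only [id, Real.norm_eq_abs, abs_of_nonneg hlog, abs_of_pos (lt_trans one_pos g4)] at g6 g7
    rw [Real.norm_eq_abs, Real.norm_eq_abs, abs_of_nonneg hlog,
      abs_of_nonneg (Real.rpow_nonneg (by linarith) _)] at g8
    refine ⟨g1, g2, g3, g4, g5, ?_, ?_, ?_⟩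
    · calc M * Real.log β ≤ M * (δ * (1 - t) / M * β) := mul_le_mul_of_nonneg_left g6 hM0.le
        _ = δ * (1 - t) * β := by field_simp
    · calc M * Real.log β ≤ M * (1 / M * β) := mul_le_mul_of_nonneg_left g7 hM0.le
        _ = β := by field_simp
        _ ≤ β ^ 2 := by nlinarith
    · have hs : Real.sqrt (6 * A) ^ 2 = 6 * A := Real.sq_sqrt (by positivity)
      have hpow : (β ^ (t / 2)) ^ 2 = β ^ t := by
        rw [← Real.rpow_natCast, ← Real.rpow_mul (by linarith)]
        congr 1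
        push_cast
        ring
      have g9 : M * Real.log β ≤ M * (c2 * β ^ (t / 2)) := mul_le_mul_of_nonneg_left g8 hM0.le
      have g10 : (M * Real.log β) ^ 2 ≤ (M * (c2 * β ^ (t / 2))) ^ 2 :=
        pow_le_pow_left₀ (by positivity) g9 2
      calc 6 * A * (M * Real.log β) ^ 2 ≤ 6 * A * (M * (c2 * β ^ (t / 2))) ^ 2 :=
            mul_le_mul_of_nonneg_left g10 (by positivity)
        _ = Real.sqrt (6 * A) ^ 2 * (M * c2) ^ 2 * (β ^ (t / 2)) ^ 2 := by rw [hs]; ring
        _ = (Real.sqrt (6 * A) * (M * c2)) ^ 2 * β ^ t := by rw [hpow]; ring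
        _ = (δ * (1 - t)) ^ 2 * β ^ t := by
            congr 2
            rw [hc2]
            field_simp
  obtain ⟨β₀, hβ₀⟩ := Filter.eventually_atTop.1 hlarge
  refine ⟨β₀, fun β hβ D hJ hloc hvol => ?_⟩
  obtain ⟨g1, g2, g3, g4, g5, g6, g7, g8⟩ := hβ₀ β hβ
  obtain ⟨J⟩ := hJ
  have hlogpos : 0 < Real.log β := Real.log_pos g4
  have hβpos : 0 < β := by linarith
  set Λ := (M - e) * Real.log β with hΛ
  have hMe0 : 0 < M - e := lt_of_lt_of_le (by positivity) hMe
  have hΛ0 : 0 < Λ := mul_pos hMe0 hlogpos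
  have hΛM : Λ ≤ M * Real.log β := mul_le_mul_of_nonneg_right (by linarith) hlogpos.le
  have hred : ((-β ^ 2 - Λ : ℝ) : EReal) ≤
      ((-β ^ 2 - (4 * Real.pi / A - ε) * Real.log β : ℝ) : EReal) := by
    rw [EReal.coe_le_coe_iff]
    have : (4 * Real.pi / A - ε) * Real.log β ≤ Λ :=
      mul_le_mul_of_nonneg_right (by linarith) hlogpos.le
    linarith
  refine le_trans ?_ hred
  by_contra hcon
  rw [not_le] at hcon
  have hEN := EN_of_robin hcon
  have hlen := h1 D J β Λ g1 hΛ0.le hΛM hEN hvol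
  have hsmall := h2 D J β Λ g2 hΛ0.le hΛM hEN hvol
  set p₀ := β ^ (1 - t) with hp₀
  set R := (1 - t) * β / Λ with hR
  have h1t : 0 < 1 - t := by linarith
  have hR0 : 0 < R := by positivity
  have hm1 : 1 ≤ δ * R := by
    rw [hR, mul_div_assoc', le_div_iff₀ hΛ0]
    calc 1 * Λ ≤ M * Real.log β := by rw [one_mul]; exact hΛM
      _ ≤ δ * (1 - t) * β := g6
      _ = δ * ((1 - t) * β) := by ring
  have hΛt : 1 ≤ Λ * t := by
    have h5 : 6 / A * Real.log β ≤ Λ := mul_le_mul_of_nonneg_right hMe hlogpos.le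
    have h6 : 6 / A * (A / (6 * t)) ≤ 6 / A * Real.log β :=
      mul_le_mul_of_nonneg_left g5 (by positivity)
    have h7 : 6 / A * (A / (6 * t)) = 1 / t := by field_simp
    rw [h7] at h6
    calc 1 = 1 / t * t := by field_simp
      _ ≤ Λ * t := mul_le_mul_of_nonneg_right (h6.trans h5) ht0.le
  have hβR : Λ + 1 ≤ β / R := by
    have h5 : β / R = Λ / (1 - t) := by rw [hR]; field_simp
    rw [h5, le_div_iff₀ h1t]
    nlinarith
  have hvolU : volume (J.UU p₀) ≤ ENNReal.ofReal ((δ * R) ^ 2 / 2) := by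
    refine hsmall.trans (ENNReal.ofReal_le_ofReal ?_)
    have h5 : (δ * R) ^ 2 / 2 = (δ * (1 - t)) ^ 2 * β ^ 2 / (2 * Λ ^ 2) := by
      rw [hR]; field_simp
    rw [h5, le_div_iff₀ (by positivity)]
    have h6 : β ^ (2 - t) * β ^ t = β ^ 2 := by
      rw [← Real.rpow_add hβpos, ← Real.rpow_natCast]
      congr 1
      push_cast
      ring
    have h7 : Λ ^ 2 ≤ (M * Real.log β) ^ 2 := pow_le_pow_left₀ hΛ0.le hΛM 2
    have h8 : 0 ≤ β ^ (2 - t) := Real.rpow_nonneg hβpos.le _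
    calc 3 * A * β ^ (2 - t) * (2 * Λ ^ 2) = β ^ (2 - t) * (6 * A * Λ ^ 2) := by ring
      _ ≤ β ^ (2 - t) * (6 * A * (M * Real.log β) ^ 2) := by
          apply mul_le_mul_of_nonneg_left _ h8
          exact mul_le_mul_of_nonneg_left h7 (by positivity)
      _ ≤ β ^ (2 - t) * ((δ * (1 - t)) ^ 2 * β ^ t) := mul_le_mul_of_nonneg_left g8 h8
      _ = (δ * (1 - t)) ^ 2 * (β ^ (2 - t) * β ^ t) := by ring
      _ = (δ * (1 - t)) ^ 2 * β ^ 2 := by rw [h6]
  have hG := UU_geo J p₀ hloc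
  have hfr : frontier (J.UU p₀) ⊆ frontier D.carrier := by
    rw [frontier_UU]; exact inter_subset_right
  have hPP : PP (J.UU p₀) R (δ * R) := by
    refine h3 D (J.UU p₀) β Λ R (δ * R) g3 hΛ0.le (hΛM.trans g7) hEN hvol hm1 hR0 hβR hG.isOpen
      hG.conn hG.bdd hG.locc (carrier_sub_UU J p₀) hfr hvolU ?_
    intro f hf C hC
    exact (measure_mono (image_mono (inter_subset_inter_left _ hfr))).trans
      (surface_proj J hf hC)
  have hfin := hgeo R (J.UU p₀) (D.surface.restrict (J.SS p₀)) hR0 hG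
    (hvolU.trans (ENNReal.ofReal_le_ofReal (by nlinarith [sq_nonneg (δ * R)]))) hPP
  rw [Measure.restrict_apply_univ] at hfin
  have hSfin : D.surface (J.SS p₀) ≠ ⊤ := by
    have := D.isFinite
    exact measure_ne_top _ _
  have h4t : 0 ≤ 4 * Real.pi - t := by linarith
  have hreal : (4 * Real.pi - t) * R ≤ D.surface.real (J.SS p₀) := by
    rw [Measure.real]
    exact (ENNReal.ofReal_le_iff_le_toReal hSfin).1 hfin
  have h10 : (4 * Real.pi - t) * R * ((1 - t) * Real.log β) ≤ β * A :=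
    (mul_le_mul_of_nonneg_right hreal (by positivity)).trans hlen
  have h11 : (4 * Real.pi - t) * (1 - t) ^ 2 * Real.log β ≤ A * Λ := by
    have h12 : (4 * Real.pi - t) * R * ((1 - t) * Real.log β) =
        (4 * Real.pi - t) * (1 - t) ^ 2 * Real.log β * β / Λ := by
      rw [hR]; field_simp
    rw [h12, div_le_iff₀ hΛ0] at h10
    nlinarith
  have h13 : A * Λ = (4 * Real.pi - q) * Real.log β := by
    rw [hΛ, hM, hq]; field_simp
  rw [h13] at h11
  have h14 := upperb_num hq0 (by linarith) ht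
  nlinarith

end Pool.Agent.RA
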