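import Pool.Agent.H.MP_1b807b_an.A.WaveDefs

/-! MP_1b807b_an, large parameter asymptotics in the plane, module WaveA: cut-off functions -/

set_option autoImplicit false

namespace Pool.Agent.RA

open MeasureTheory Metric Set Pool.Agent.RG
open scoped RealInnerProductSpace ENNReal Topology Pointwise

theorem wavea_isOpen {D : Domain 2} {U : Set (E 2)} {x₀ : E 2} {R' : ℝ} {E' : Set (E 2)}
    (h : WaveData D U x₀ R' E') : IsOpen E' := by
  obtain ⟨q, hq, rfl⟩ := h.comp
  exact (h.isOpen.sdiff isClosed_closedBall).connectedComponentIn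

theorem wavea_sub {D : Domain 2} {U : Set (E 2)} {x₀ : E 2} {R' : ℝ} {E' : Set (E 2)}
    (h : WaveData D U x₀ R' E') : E' ⊆ U \ closedBall x₀ R' := by
  obtain ⟨q, hq, rfl⟩ := h.comp
  exact connectedComponentIn_subset _ _

/-- points of the closure of a component -/
theorem wavea_mem {D : Domain 2} {U : Set (E 2)} {x₀ : E 2} {R' : ℝ} {E' : Set (E 2)}
    (h : WaveData D U x₀ R' E') {z : E 2} (hz : z ∈ U) (hz' : R' < dist z x₀)
    (hcl : z ∈ closure E') : z ∈ E' := by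
  obtain ⟨q, hq, rfl⟩ := h.comp
  have hV : IsOpen (U \ closedBall x₀ R') := h.isOpen.sdiff isClosed_closedBall
  have hzV : z ∈ U \ closedBall x₀ R' := ⟨hz, fun hc => absurd (mem_closedBall.1 hc) (not_le.2 hz')⟩
  have h1 : IsOpen (connectedComponentIn (U \ closedBall x₀ R') z) := hV.connectedComponentIn
  obtain ⟨y, hy1, hy2⟩ := mem_closure_iff.1 hcl _ h1 (mem_connectedComponentIn hzV)
  rw [connectedComponentIn_eq hy2, ← connectedComponentIn_eq hy1]
  exact mem_connectedComponentIn hzV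

theorem wavea_disj {D : Domain 2} {U : Set (E 2)} {x₀ : E 2} {R' : ℝ} {E' : Set (E 2)}
    (h : WaveData D U x₀ R' E') {z : E 2} (hz' : R' < dist z x₀)
    (hcl : z ∈ closure E') (hcl' : z ∈ closure (U \ (E' ∪ closedBall x₀ R'))) : False := by
  have hopen := wavea_isOpen h
  by_cases hz : z ∈ U
  · have h1 := wavea_mem h hz hz' hcl
    obtain ⟨y, hy1, hy2⟩ := mem_closure_iff.1 hcl' _ hopen h1
    exact hy2.2 (Or.inl hy1)
  · have hfr : z ∈ frontier U := by
      rw [h.isOpen.frontier_eq]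
      refine ⟨closure_mono ?_ hcl', hz⟩
      exact fun x hx => hx.1
    obtain ⟨Vn, hVn, hVb, hpre⟩ := h.locc z hfr (dist z x₀ - R') (by linarith)
    have hsub : U ∩ Vn ⊆ U \ closedBall x₀ R' := by
      intro x hx
      refine ⟨hx.1, fun hc => ?_⟩
      have h1 := mem_ball.1 (hVb hx.2)
      have h2 := mem_closedBall.1 hc
      have h3 := dist_triangle z x x₀
      rw [dist_comm z x] at h3
      linarith
    obtain ⟨a, ha1, ha2⟩ := mem_closure_iff_nhds.1 hcl Vn hVn
    obtain ⟨b, hb1, hb2⟩ := mem_closure_iff_nhds.1 hcl' Vn hVn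
    have haU := (wavea_sub h ha2).1
    obtain ⟨q, hq, rfl⟩ := h.comp
    have h2 := hpre.subset_connectedComponentIn (x := a) ⟨haU, ha1⟩ hsub
    rw [← connectedComponentIn_eq ha2] at h2
    exact hb2.2 (Or.inl (h2 ⟨hb2.1, hb1⟩))

/-- A smooth cut-off function separating `E'` from the rest of `U` outside `ball x₀ c`, `c > R'`.
PROOF: the compact sets `K₁ = closure E' ∩ {c ≤ dist x x₀}` and
`K₂ = closure (U \ (E' ∪ closedBall x₀ R')) ∩ {c ≤ dist x x₀}` are disjoint: a common point `z` has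
`dist z x₀ > R'`; if `z ∈ U` a small ball around `z` is a connected subset of
`U \ closedBall x₀ R'`, so it is in one component; if `z ∈ frontier U` use `locc` in the same way.
Take disjoint closed neighbourhoods (`cthickening`) and
`exists_contMDiff_zero_one...`/`exists_contDiff_...` for smooth functions that are `1` near `K₁` and
`0` near `K₂`. The last clause: near a point of `closure D.carrier` outside `ball x₀ c` the function
takes only the values `0`, `1` on `closure D.carrier ⊆ closure E' ∪ closure (U \ ..)`. -/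
theorem wave_cutoff {D : Domain 2} {U : Set (E 2)} {x₀ : E 2} {R' : ℝ} {E' : Set (E 2)}
    (h : WaveData D U x₀ R' E') {c : ℝ} (hc : R' < c) :
    ∃ η : E 2 → ℝ, ContDiff ℝ 2 η ∧ (∀ x, 0 ≤ η x ∧ η x ≤ 1) ∧
      (∀ x ∈ closure E', c ≤ dist x x₀ → η =ᶠ[𝓝 x] fun _ => 1) ∧
      (∀ x ∈ closure (U \ (E' ∪ closedBall x₀ R')), c ≤ dist x x₀ → η =ᶠ[𝓝 x] fun _ => 0) := by
  have hG : IsClosed {x : E 2 | c ≤ dist x x₀} :=
    isClosed_le continuous_const (continuous_id.dist continuous_const)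
  have hK1 : IsClosed (closure E' ∩ {x | c ≤ dist x x₀}) := isClosed_closure.inter hG
  have hK2 : IsClosed (closure (U \ (E' ∪ closedBall x₀ R')) ∩ {x | c ≤ dist x x₀}) :=
    isClosed_closure.inter hG
  have hd : Disjoint (closure (U \ (E' ∪ closedBall x₀ R')) ∩ {x | c ≤ dist x x₀})
      (closure E' ∩ {x | c ≤ dist x x₀}) := by
    rw [disjoint_left]
    intro z hz1 hz2
    have hzc : c ≤ dist z x₀ := hz1.2
    exact wavea_disj h (lt_of_lt_of_le hc hzc) hz2.1 hz1.1
  obtain ⟨f, hf0, hf1, hf⟩ := exists_contMDiffMap_zero_one_nhds_of_isClosed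
    (modelWithCornersSelf ℝ (E 2)) (n := 2) hK2 hK1 hd
  rw [eventually_nhdsSet_iff_forall] at hf0 hf1
  refine ⟨f, f.contMDiff.contDiff, fun x => ⟨(hf x).1, (hf x).2⟩, fun x hx hcx => ?_,
    fun x hx hcx => ?_⟩
  · exact hf1 x ⟨hx, hcx⟩
  · exact hf0 x ⟨hx, hcx⟩

/-- A component of `U \ closedBall x₀ R'` that stays away from the ball is everything.
PROOF: `E'` is open and closed in `U`. -/
theorem wave_all {D : Domain 2} {U : Set (E 2)} {x₀ : E 2} {R' : ℝ} {E' : Set (E 2)}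
    (h : WaveData D U x₀ R' E') {s₁ : ℝ} (h1 : R' < s₁) (hlow : ∀ x ∈ E', s₁ < dist x x₀) :
    E' = U := by
  apply Subset.antisymm (fun x hx => (wavea_sub h hx).1)
  refine h.conn.isPreconnected.subset_of_closure_inter_subset (wavea_isOpen h) ?_ ?_
  · obtain ⟨q, hq, rfl⟩ := h.comp
    exact ⟨q, hq.1, mem_connectedComponentIn hq⟩
  · intro z hz
    have h2 : closure E' ⊆ {x | s₁ ≤ dist x x₀} :=
      closure_minimal (fun x hx => (hlow x hx).le)
        (isClosed_le continuous_const (continuous_id.dist continuous_const))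
    have h3 : s₁ ≤ dist z x₀ := h2 hz.1
    exact wavea_mem h hz.2 (by linarith) hz.1

theorem wavea_dist {x₀ x : E 2} (h : x ≠ x₀) :
    HasFDerivAt (fun y => dist y x₀) ((dist x x₀)⁻¹ • innerSL ℝ (x - x₀)) x := by
  have h0 : ‖x - x₀‖ ≠ 0 := norm_ne_zero_iff.2 (sub_ne_zero.2 h)
  have h1 : HasFDerivAt (fun y : E 2 => y - x₀) (ContinuousLinearMap.id ℝ (E 2)) x :=
    (hasFDerivAt_id x).sub_const x₀
  have h2 := h1.norm_sq.sqrt (pow_ne_zero 2 h0)
  have h3 : (fun y : E 2 => √(‖y - x₀‖ ^ 2)) = fun y => dist y x₀ := by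
    funext y
    rw [Real.sqrt_sq (norm_nonneg _), dist_eq_norm]
  rw [Real.sqrt_sq (norm_nonneg _), h3] at h2
  refine h2.congr_fderiv ?_
  rw [dist_eq_norm]
  ext v
  simp only [ContinuousLinearMap.smul_apply, ContinuousLinearMap.comp_apply, innerSL_apply_apply,
    ContinuousLinearMap.id_apply, smul_eq_mul, nsmul_eq_mul, Nat.cast_ofNat]
  field_simp

theorem wavea_norm {x₀ x : E 2} (h : x ≠ x₀) :
    ‖(dist x x₀)⁻¹ • innerSL ℝ (x - x₀)‖ = 1 := by
  have h0 : ‖x - x₀‖ ≠ 0 := norm_ne_zero_iff.2 (sub_ne_zero.2 h)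
  rw [norm_smul, innerSL_apply_norm, dist_eq_norm, norm_inv, norm_norm, inv_mul_cancel₀ h0]

theorem wavea_zero_near {ψ : ℝ → ℝ} {c : ℝ} (hψ : ∀ r ≤ c, ψ r = 0) {x₀ x : E 2}
    (hx : dist x x₀ < c) : (fun y => ψ (dist y x₀)) =ᶠ[𝓝 x] fun _ => 0 := by
  have h1 : ∀ᶠ y in 𝓝 x, dist y x₀ < c :=
    (isOpen_lt (continuous_id.dist continuous_const) continuous_const).mem_nhds hx
  filter_upwards [h1] with y hy
  exact hψ _ hy.le

theorem wavea_deriv_zero {ψ : ℝ → ℝ} {c : ℝ} (hψ : ∀ r ≤ c, ψ r = 0) {r : ℝ} (hr : r < c) :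
    deriv ψ r = 0 := by
  have h1 : ψ =ᶠ[𝓝 r] fun _ => 0 := by
    filter_upwards [Iio_mem_nhds hr] with s hs
    exact hψ s (le_of_lt hs)
  rw [h1.deriv_eq, deriv_const]

theorem wavea_cd {ψ : ℝ → ℝ} (hψ1 : ContDiff ℝ 1 ψ) {c : ℝ} (hc : 0 < c)
    (hψ : ∀ r ≤ c, ψ r = 0) (x₀ : E 2) : ContDiff ℝ 1 (fun x => ψ (dist x x₀)) := by
  rw [contDiff_iff_contDiffAt]
  intro x
  by_cases hx : x = x₀
  · have h1 : (fun y => ψ (dist y x₀)) =ᶠ[𝓝 x] fun _ => 0 := by
      apply wavea_zero_near hψ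
      rw [hx, dist_self]
      exact hc
    exact contDiffAt_const.congr_of_eventuallyEq h1
  · refine (hψ1.contDiffAt).comp x ?_
    have h1 : (fun y : E 2 => dist y x₀) = fun y => ‖y - x₀‖ := by
      funext y
      rw [dist_eq_norm]
    rw [h1]
    exact (contDiffAt_id.sub contDiffAt_const).norm ℝ (sub_ne_zero.2 hx)

/-- the function `η ψ(g)` inside `E'` -/
theorem wavea_eq_in {E' : Set (E 2)} {x₀ : E 2} {η : E 2 → ℝ} {c : ℝ}
    (h1 : ∀ x ∈ closure E', c ≤ dist x x₀ → η =ᶠ[𝓝 x] fun _ => 1)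
    {ψ : ℝ → ℝ} (hψ : ∀ r ≤ c, ψ r = 0) {x : E 2} (hx : x ∈ closure E') :
    (fun y => η y * ψ (dist y x₀)) =ᶠ[𝓝 x] fun y => ψ (dist y x₀) := by
  rcases lt_or_ge (dist x x₀) c with hlt | hge
  · filter_upwards [wavea_zero_near hψ hlt] with y hy
    rw [hy, mul_zero]
  · filter_upwards [h1 x hx hge] with y hy
    rw [hy, one_mul]

/-- the function `η ψ(g)` outside `E'` -/
theorem wavea_eq_out {U E' : Set (E 2)} {x₀ : E 2} {R' : ℝ} {η : E 2 → ℝ} {c : ℝ} (hc : R' < c)
    (h2 : ∀ x ∈ closure (U \ (E' ∪ closedBall x₀ R')), c ≤ dist x x₀ → η =ᶠ[𝓝 x] fun _ => 0)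
    {ψ : ℝ → ℝ} (hψ : ∀ r ≤ c, ψ r = 0) {x : E 2} (hx : x ∈ U) (hxE : x ∉ E') :
    (fun y => η y * ψ (dist y x₀)) =ᶠ[𝓝 x] fun _ => 0 := by
  rcases lt_or_ge (dist x x₀) c with hlt | hge
  · filter_upwards [wavea_zero_near hψ hlt] with y hy
    rw [hy, mul_zero]
  · have h3 : x ∈ U \ (E' ∪ closedBall x₀ R') := by
      refine ⟨hx, ?_⟩
      rintro (h4 | h4)
      · exact hxE h4
      · rw [mem_closedBall] at h4
        linarith
    filter_upwards [h2 x (subset_closure h3) hge] with y hy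
    rw [hy, zero_mul]

/-- the derivative of `ψ(g)` -/
theorem wavea_fderiv {ψ : ℝ → ℝ} (hψ1 : ContDiff ℝ 1 ψ) {c : ℝ}
    (hψ : ∀ r ≤ c, ψ r = 0) (hc : 0 < c) (x₀ x : E 2) :
    ‖fderiv ℝ (fun y => ψ (dist y x₀)) x‖ = |deriv ψ (dist x x₀)| := by
  rcases lt_or_ge (dist x x₀) c with hlt | hge
  · rw [(wavea_zero_near hψ hlt).fderiv_eq, fderiv_fun_const, wavea_deriv_zero hψ hlt]
    simp
  · have hne : x ≠ x₀ := by
      rintro rfl
      rw [dist_self] at hge
      linarith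
    have h1 : HasDerivAt ψ (deriv ψ (dist x x₀)) (dist x x₀) :=
      ((hψ1.differentiable one_ne_zero) _).hasDerivAt
    have h2 := h1.comp_hasFDerivAt x (wavea_dist hne)
    have h3 : (ψ ∘ fun y => dist y x₀) = fun y => ψ (dist y x₀) := rfl
    rw [h3] at h2
    rw [h2.fderiv, norm_smul, wavea_norm hne, mul_one, Real.norm_eq_abs]

theorem wavea_intOn (D : Domain 2) {F : E 2 → ℝ} (hF : Continuous F) (s : Set (E 2)) :
    IntegrableOn F (D.carrier ∩ s) := by
  have h1 : IsCompact (closure D.carrier) := D.isBounded.isCompact_closure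
  exact (hF.continuousOn.integrableOn_compact h1).mono_set
    (inter_subset_left.trans subset_closure)

theorem wavea_intSurf (D : Domain 2) {F : E 2 → ℝ} (hF : Continuous F) :
    Integrable F D.surface := by
  have := D.isFinite
  have h1 : IsCompact (closure D.carrier) := D.isBounded.isCompact_closure
  obtain ⟨B, hB⟩ := h1.exists_bound_of_continuousOn hF.continuousOn
  refine Integrable.of_bound hF.aestronglyMeasurable B ?_
  have h2 : ∀ᵐ x ∂D.surface, x ∈ frontier D.carrier := by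
    have h3 := D.support
    rw [ae_iff]
    exact h3
  filter_upwards [h2] with x hx
  exact hB x (frontier_subset_closure hx)

end Pool.Agent.RA
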