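import Pool.Agent.H.MP_1b807b_an.A.WaveA

/-! MP_1b807b_an, large parameter asymptotics in the plane, module WaveB: circular waves, main inequality -/

set_option autoImplicit false

namespace Pool.Agent.RA

open MeasureTheory Metric Set Pool.Agent.RG
open scoped RealInnerProductSpace ENNReal Topology Pointwise

theorem waveb_tr (a : ℝ) (L : E 2 →L[ℝ] ℝ) (v : E 2) :
    tr (a • ContinuousLinearMap.id ℝ (E 2) + L.smulRight v) = 2 * a + L v := by
  have hv : v = v 0 • EuclideanSpace.single (0 : Fin 2) (1 : ℝ) +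
      v 1 • EuclideanSpace.single (1 : Fin 2) (1 : ℝ) := by
    ext i
    fin_cases i <;> simp
  have h1 : L v = v 0 * L (EuclideanSpace.single (0 : Fin 2) (1 : ℝ)) +
      v 1 * L (EuclideanSpace.single (1 : Fin 2) (1 : ℝ)) := by
    conv_lhs => rw [hv]
    rw [map_add, map_smul, map_smul, smul_eq_mul, smul_eq_mul]
  unfold tr
  rw [Fin.sum_univ_two, h1]
  simp only [ContinuousLinearMap.add_apply, ContinuousLinearMap.smul_apply,
    ContinuousLinearMap.id_apply, ContinuousLinearMap.smulRight_apply, PiLp.add_apply,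
    PiLp.smul_apply, smul_eq_mul]
  simp
  ring

/-- The function `χ² e^{2βr} / r`. -/
noncomputable def waveb_Psi (χ : ℝ → ℝ) (β : ℝ) (r : ℝ) : ℝ :=
  χ r ^ 2 * Real.exp (2 * β * r) / r

theorem waveb_Psi_zero {χ : ℝ → ℝ} {β c : ℝ} (hχc : ∀ r ≤ c, χ r = 0) :
    ∀ r ≤ c, waveb_Psi χ β r = 0 := by
  intro r hr
  unfold waveb_Psi
  rw [hχc r hr]
  simp

theorem waveb_Psi_cd {χ : ℝ → ℝ} {β c : ℝ} (hχ : ContDiff ℝ 1 χ) (hc : 0 < c)
    (hχc : ∀ r ≤ c, χ r = 0) : ContDiff ℝ 1 (waveb_Psi χ β) := by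
  rw [contDiff_iff_contDiffAt]
  intro r
  rcases lt_or_ge r c with h | h
  · have h1 : waveb_Psi χ β =ᶠ[𝓝 r] fun _ => 0 := by
      filter_upwards [Iio_mem_nhds h] with s hs
      exact waveb_Psi_zero hχc s (le_of_lt hs)
    exact contDiffAt_const.congr_of_eventuallyEq h1
  · have h1 : ContDiff ℝ 1 fun r => χ r ^ 2 * Real.exp (2 * β * r) :=
      (hχ.pow 2).mul (Real.contDiff_exp.comp (contDiff_const.mul contDiff_id))
    exact h1.contDiffAt.div contDiffAt_id (by linarith)

theorem waveb_Psi_deriv {χ : ℝ → ℝ} {β : ℝ} (hχ : ContDiff ℝ 1 χ) {r : ℝ} (hr : 0 < r) :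
    HasDerivAt (waveb_Psi χ β) (((2 * χ r * deriv χ r + 2 * β * χ r ^ 2) *
      Real.exp (2 * β * r)) / r - waveb_Psi χ β r / r) r := by
  have h1 : HasDerivAt χ (deriv χ r) r := ((hχ.differentiable one_ne_zero) _).hasDerivAt
  have h2 : HasDerivAt (fun r => Real.exp (2 * β * r)) (Real.exp (2 * β * r) * (2 * β)) r := by
    have h3 : HasDerivAt (fun r : ℝ => 2 * β * r) (2 * β) r := by
      simpa using (hasDerivAt_id r).const_mul (2 * β)
    exact h3.exp
  have h3 := ((h1.pow 2).mul h2).div (hasDerivAt_id r) hr.ne'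
  refine h3.congr_deriv ?_
  unfold waveb_Psi
  simp only [Pi.pow_apply, Pi.mul_apply, id]
  field_simp
  ring

theorem waveb_divg {χ : ℝ → ℝ} {β c : ℝ} (hχ : ContDiff ℝ 1 χ) (hc : 0 < c)
    (hχc : ∀ r ≤ c, χ r = 0) (x₀ x : E 2) {X : E 2 → E 2}
    (hX : X =ᶠ[𝓝 x] fun y => waveb_Psi χ β (dist y x₀) • (y - x₀)) :
    divg X x = (2 * χ (dist x x₀) * deriv χ (dist x x₀) + 2 * β * χ (dist x x₀) ^ 2) *
      Real.exp (2 * β * dist x x₀) + waveb_Psi χ β (dist x x₀) := by
  unfold divg
  rw [hX.fderiv_eq]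
  rcases lt_or_ge (dist x x₀) c with hlt | hge
  · have h1 : (fun y => waveb_Psi χ β (dist y x₀) • (y - x₀)) =ᶠ[𝓝 x] fun _ => 0 := by
      filter_upwards [wavea_zero_near (waveb_Psi_zero (β := β) hχc) hlt] with y hy
      rw [hy, zero_smul]
    rw [h1.fderiv_eq, fderiv_fun_const, hχc _ hlt.le, waveb_Psi_zero hχc _ hlt.le]
    simp [tr]
  · have hg : 0 < dist x x₀ := by linarith
    have hne : x ≠ x₀ := by
      rintro rfl
      rw [dist_self] at hg
      exact lt_irrefl _ hg
    have h1 := (waveb_Psi_deriv (β := β) hχ hg).comp_hasFDerivAt x (wavea_dist hne)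
    have h2 : HasFDerivAt (fun y : E 2 => y - x₀) (ContinuousLinearMap.id ℝ (E 2)) x :=
      (hasFDerivAt_id x).sub_const x₀
    have h3 := h1.smul h2
    have h4 : (fun y => (waveb_Psi χ β ∘ fun y => dist y x₀) y • (y - x₀)) =
        fun y => waveb_Psi χ β (dist y x₀) • (y - x₀) := rfl
    have h5 : fderiv ℝ (fun y => waveb_Psi χ β (dist y x₀) • (y - x₀)) x = _ :=
      HasFDerivAt.fderiv h3
    rw [h5, waveb_tr]
    simp only [Function.comp_apply, ContinuousLinearMap.smul_apply, innerSL_apply_apply,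
      smul_eq_mul]
    rw [real_inner_self_eq_norm_sq, ← dist_eq_norm]
    field_simp
    ring

/-- The basic inequality of circular waves. PROOF: `g x = dist x x₀`, `u = η χ(g) exp (β g)`,
`X = η χ(g)² exp (2 β g) g⁻¹ • (x - x₀)`, both `C¹` because `χ = 0` near `g ≤ c` (`c > 0`).
`β ∫ u² dsurface = β ∫ η χ² e^{2βg} dsurface ≥ β ∫ ⟪X, ν⟫ dsurface = β ∫_D divg X` (on the support of
the surface measure `η² = η` where `χ(g) ≠ 0`). On `D ∩ E'`:
`divg X = (2 χ χ' + 2 β χ² + χ²/g) e^{2βg}`, `‖∇u‖² = (χ' + β χ)² e^{2βg}`, `u² = χ² e^{2βg}`; on `D \ E'`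
everything vanishes. Insert into `EN`: `∫_{D ∩ E'} (β/g - Λ) χ² e^{2βg} ≤ ∫_{D ∩ E'} χ'² e^{2βg}`; and
`g < R` on `E'`. -/
theorem wave_main {D : Domain 2} {β Λ : ℝ} (hEN : EN D β Λ) (hβ : 0 < β) {U : Set (E 2)}
    {x₀ : E 2} {R' R : ℝ} {E' : Set (E 2)} (h : WaveData D U x₀ R' E') (hR : E' ⊆ ball x₀ R)
    (hR0 : 0 < R) {χ : ℝ → ℝ} (hχ : ContDiff ℝ 1 χ) {c : ℝ} (hc : R' < c)
    (hχc : ∀ r ≤ c, χ r = 0) :
    (β / R - Λ) * ∫ x in D.carrier ∩ E', χ (dist x x₀) ^ 2 * Real.exp (2 * β * dist x x₀) ≤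
      ∫ x in D.carrier ∩ E', deriv χ (dist x x₀) ^ 2 * Real.exp (2 * β * dist x x₀) := by
  obtain ⟨η, hη, hη01, hη1, hη0⟩ := wave_cutoff h hc
  have hc0 : 0 < c := lt_of_le_of_lt h.R'_nonneg hc
  have hE' : IsOpen E' := wavea_isOpen h
  have hmD : MeasurableSet D.carrier := D.isOpen.measurableSet
  have hmDE : MeasurableSet (D.carrier ∩ E') := hmD.inter hE'.measurableSet
  -- the test function
  let ψ : ℝ → ℝ := fun r => χ r * Real.exp (β * r)
  have hψ1 : ContDiff ℝ 1 ψ := hχ.mul (Real.contDiff_exp.comp (contDiff_const.mul contDiff_id))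
  have hψc : ∀ r ≤ c, ψ r = 0 := by
    intro r hr
    show χ r * Real.exp (β * r) = 0
    rw [hχc r hr, zero_mul]
  have hψd : ∀ r, deriv ψ r = (deriv χ r + β * χ r) * Real.exp (β * r) := by
    intro r
    have h1 : HasDerivAt χ (deriv χ r) r := ((hχ.differentiable one_ne_zero) _).hasDerivAt
    have h2 : HasDerivAt (fun r => Real.exp (β * r)) (Real.exp (β * r) * β) r := by
      have h3 : HasDerivAt (fun r : ℝ => β * r) β r := by
        simpa using (hasDerivAt_id r).const_mul β
      exact h3.exp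
    have h3 := h1.mul h2
    have h4 : (χ * fun r => Real.exp (β * r)) = ψ := rfl
    rw [h4] at h3
    rw [h3.deriv]
    ring
  have hexp : ∀ r, Real.exp (β * r) ^ 2 = Real.exp (2 * β * r) := by
    intro r
    rw [← Real.exp_nat_mul]
    congr 1
    push_cast
    ring
  have hcd : ContDiff ℝ 1 (fun x => ψ (dist x x₀)) := wavea_cd hψ1 hc0 hψc x₀
  have hu : ContDiff ℝ 1 (fun x => η x * ψ (dist x x₀)) := (hη.of_le one_le_two).mul hcd
  have h1 := hEN _ hu
  have hd : ∫ x in D.carrier, ‖fderiv ℝ (fun x => η x * ψ (dist x x₀)) x‖ ^ 2 =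
      ∫ x in D.carrier ∩ E', deriv ψ (dist x x₀) ^ 2 := by
    rw [setIntegral_eq_of_subset_of_forall_sdiff_eq_zero hmD
      (inter_subset_left : D.carrier ∩ E' ⊆ D.carrier)]
    · refine setIntegral_congr_fun hmDE fun x hx => ?_
      have h3 := wavea_eq_in hη1 hψc (subset_closure hx.2)
      rw [h3.fderiv_eq, wavea_fderiv hψ1 hψc hc0, sq_abs]
    · intro x hx
      have h3 := wavea_eq_out hc hη0 hψc (h.sub hx.1) (fun hxE => hx.2 ⟨hx.1, hxE⟩)
      rw [h3.fderiv_eq, fderiv_fun_const]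
      simp
  have hi : ∫ x in D.carrier, (η x * ψ (dist x x₀)) ^ 2 =
      ∫ x in D.carrier ∩ E', ψ (dist x x₀) ^ 2 := by
    rw [setIntegral_eq_of_subset_of_forall_sdiff_eq_zero hmD
      (inter_subset_left : D.carrier ∩ E' ⊆ D.carrier)]
    · refine setIntegral_congr_fun hmDE fun x hx => ?_
      have h3 : η x * ψ (dist x x₀) = ψ (dist x x₀) :=
        (wavea_eq_in hη1 hψc (subset_closure hx.2)).self_of_nhds
      simp only [h3]
    · intro x hx
      have h3 : η x * ψ (dist x x₀) = 0 :=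
        (wavea_eq_out hc hη0 hψc (h.sub hx.1) (fun hxE => hx.2 ⟨hx.1, hxE⟩)).self_of_nhds
      rw [h3]
      ring
  rw [hd, hi] at h1
  -- the vector field
  have hPc : ∀ r ≤ c, waveb_Psi χ β r = 0 := waveb_Psi_zero hχc
  have hP1 : ContDiff ℝ 1 (waveb_Psi χ β) := waveb_Psi_cd hχ hc0 hχc
  have hPd : ContDiff ℝ 1 (fun x => waveb_Psi χ β (dist x x₀)) := wavea_cd hP1 hc0 hPc x₀
  let X : E 2 → E 2 := fun x => (η x * waveb_Psi χ β (dist x x₀)) • (x - x₀)
  have hX : ContDiff ℝ 1 X :=
    ((hη.of_le one_le_two).mul hPd).smul (contDiff_id.sub contDiff_const)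
  have hdiv := D.divergence X hX
  have hdl : ∫ x in D.carrier, divg X x = ∫ x in D.carrier ∩ E',
      ((2 * χ (dist x x₀) * deriv χ (dist x x₀) + 2 * β * χ (dist x x₀) ^ 2) *
      Real.exp (2 * β * dist x x₀) + waveb_Psi χ β (dist x x₀)) := by
    rw [setIntegral_eq_of_subset_of_forall_sdiff_eq_zero hmD
      (inter_subset_left : D.carrier ∩ E' ⊆ D.carrier)]
    · refine setIntegral_congr_fun hmDE fun x hx => ?_
      refine waveb_divg hχ hc0 hχc x₀ x ?_
      filter_upwards [wavea_eq_in hη1 hPc (subset_closure hx.2)] with y hy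
      show (η y * waveb_Psi χ β (dist y x₀)) • (y - x₀) = _
      rw [hy]
    · intro x hx
      have h3 : X =ᶠ[𝓝 x] fun _ => 0 := by
        filter_upwards [wavea_eq_out hc hη0 hPc (h.sub hx.1)
          (fun hxE => hx.2 ⟨hx.1, hxE⟩)] with y hy
        show (η y * waveb_Psi χ β (dist y x₀)) • (y - x₀) = _
        rw [hy, zero_smul]
      unfold divg
      rw [h3.fderiv_eq, fderiv_fun_const]
      simp [tr]
  have hsupp : ∀ᵐ x ∂D.surface, x ∈ frontier D.carrier := by
    rw [ae_iff]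
    exact D.support
  have := D.isFinite
  have hXint : Integrable (fun x => ⟪X x, D.normal x⟫) D.surface := by
    have h4 : IsCompact (closure D.carrier) := D.isBounded.isCompact_closure
    obtain ⟨B, hB⟩ := h4.exists_bound_of_continuousOn hX.continuous.continuousOn
    refine Integrable.of_bound (hX.continuous.aestronglyMeasurable.inner
      D.measurable_normal.aestronglyMeasurable) B ?_
    filter_upwards [hsupp, D.norm_normal] with x hx hn
    have h5 := norm_inner_le_norm (𝕜 := ℝ) (X x) (D.normal x)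
    rw [hn, mul_one] at h5
    exact h5.trans (hB x (frontier_subset_closure hx))
  have hle : ∫ x, ⟪X x, D.normal x⟫ ∂D.surface ≤
      ∫ x, (η x * ψ (dist x x₀)) ^ 2 ∂D.surface := by
    refine integral_mono_ae hXint (wavea_intSurf D (hu.continuous.pow 2)) ?_
    filter_upwards [hsupp, D.norm_normal] with x hx hn
    show ⟪(η x * waveb_Psi χ β (dist x x₀)) • (x - x₀), D.normal x⟫ ≤
      (η x * (χ (dist x x₀) * Real.exp (β * dist x x₀))) ^ 2
    rcases le_or_gt (dist x x₀) c with hlt | hgt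
    · rw [hPc _ hlt, mul_zero, zero_smul, inner_zero_left]
      exact sq_nonneg _
    · have hg : 0 < dist x x₀ := by linarith
      have hcl : x ∈ closure E' ∨ x ∈ closure (U \ (E' ∪ closedBall x₀ R')) := by
        have h4 : x ∈ closure (E' ∪ (U \ (E' ∪ closedBall x₀ R')) ∪ closedBall x₀ R') := by
          refine closure_mono ?_ (frontier_subset_closure hx)
          intro y hy
          by_cases h5 : y ∈ E'
          · exact Or.inl (Or.inl h5)
          · by_cases h6 : y ∈ closedBall x₀ R'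
            · exact Or.inr h6
            · refine Or.inl (Or.inr ⟨h.sub hy, ?_⟩)
              rintro (h7 | h7)
              · exact h5 h7
              · exact h6 h7
        rw [closure_union, closure_union, isClosed_closedBall.closure_eq] at h4
        rcases h4 with (h4 | h4) | h4
        · exact Or.inl h4
        · exact Or.inr h4
        · exfalso
          rw [mem_closedBall] at h4
          linarith
      have hη2 : η x ^ 2 = η x := by
        rcases hcl with h4 | h4
        · have h5 : η x = 1 := (hη1 x h4 hgt.le).self_of_nhds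
          rw [h5]
          norm_num
        · have h5 : η x = 0 := (hη0 x h4 hgt.le).self_of_nhds
          rw [h5]
          norm_num
      have h5 := (le_abs_self _).trans (abs_real_inner_le_norm
        ((η x * waveb_Psi χ β (dist x x₀)) • (x - x₀)) (D.normal x))
      rw [hn, mul_one, norm_smul, ← dist_eq_norm, Real.norm_eq_abs] at h5
      refine h5.trans (le_of_eq ?_)
      have h6 : 0 ≤ waveb_Psi χ β (dist x x₀) := by
        unfold waveb_Psi
        positivity
      rw [abs_of_nonneg (mul_nonneg (hη01 x).1 h6), mul_pow, hη2, mul_pow, hexp]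
      unfold waveb_Psi
      field_simp
  rw [← hdiv, hdl] at hle
  -- conclusion
  have hcg : Continuous fun x : E 2 => dist x x₀ := continuous_id.dist continuous_const
  have hχcont : Continuous fun x : E 2 => χ (dist x x₀) := hχ.continuous.comp hcg
  have hχ'cont : Continuous fun x : E 2 => deriv χ (dist x x₀) :=
    (hχ.continuous_deriv le_rfl).comp hcg
  have hecont : Continuous fun x : E 2 => Real.exp (2 * β * dist x x₀) :=
    Real.continuous_exp.comp (continuous_const.mul hcg)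
  have hPcont : Continuous fun x : E 2 => waveb_Psi χ β (dist x x₀) := hPd.continuous
  have hψ'cont : Continuous fun x : E 2 => deriv ψ (dist x x₀) :=
    (hψ1.continuous_deriv le_rfl).comp hcg
  have hI1 : IntegrableOn (fun x => χ (dist x x₀) ^ 2 * Real.exp (2 * β * dist x x₀))
      (D.carrier ∩ E') := wavea_intOn D ((hχcont.pow 2).mul hecont) E'
  have hI2 : IntegrableOn (fun x => deriv χ (dist x x₀) ^ 2 * Real.exp (2 * β * dist x x₀))
      (D.carrier ∩ E') := wavea_intOn D ((hχ'cont.pow 2).mul hecont) E'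
  have hI3 : IntegrableOn (fun x =>
      ((2 * χ (dist x x₀) * deriv χ (dist x x₀) + 2 * β * χ (dist x x₀) ^ 2) *
      Real.exp (2 * β * dist x x₀) + waveb_Psi χ β (dist x x₀))) (D.carrier ∩ E') := by
    apply wavea_intOn D
    exact ((((continuous_const.mul hχcont).mul hχ'cont).add
      (continuous_const.mul (hχcont.pow 2))).mul hecont).add hPcont
  have hI4 : IntegrableOn (fun x => deriv ψ (dist x x₀) ^ 2) (D.carrier ∩ E') :=
    wavea_intOn D (hψ'cont.pow 2) E'
  have hI5 : IntegrableOn (fun x => ψ (dist x x₀) ^ 2) (D.carrier ∩ E') :=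
    wavea_intOn D (hcd.continuous.pow 2) E'
  have h2 : β * ∫ x in D.carrier ∩ E',
      ((2 * χ (dist x x₀) * deriv χ (dist x x₀) + 2 * β * χ (dist x x₀) ^ 2) *
      Real.exp (2 * β * dist x x₀) + waveb_Psi χ β (dist x x₀)) ≤
      (∫ x in D.carrier ∩ E', deriv ψ (dist x x₀) ^ 2) +
        (β ^ 2 + Λ) * ∫ x in D.carrier ∩ E', ψ (dist x x₀) ^ 2 :=
    (mul_le_mul_of_nonneg_left hle hβ.le).trans h1
  have h3 : ∫ x in D.carrier ∩ E', ((β / R - Λ) * (χ (dist x x₀) ^ 2 *
      Real.exp (2 * β * dist x x₀)) - deriv χ (dist x x₀) ^ 2 *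
      Real.exp (2 * β * dist x x₀)) ≤
      ∫ x in D.carrier ∩ E', (β * ((2 * χ (dist x x₀) * deriv χ (dist x x₀) +
        2 * β * χ (dist x x₀) ^ 2) * Real.exp (2 * β * dist x x₀) +
        waveb_Psi χ β (dist x x₀)) - (deriv ψ (dist x x₀) ^ 2 +
        (β ^ 2 + Λ) * ψ (dist x x₀) ^ 2)) := by
    refine setIntegral_mono_on ((hI1.const_mul _).sub hI2)
      ((hI3.const_mul _).sub (hI4.add (hI5.const_mul _))) hmDE fun x hx => ?_
    have hgR : dist x x₀ < R := hR hx.2
    rw [hψd, mul_pow, hexp]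
    show _ ≤ β * ((2 * χ (dist x x₀) * deriv χ (dist x x₀) +
        2 * β * χ (dist x x₀) ^ 2) * Real.exp (2 * β * dist x x₀) +
        waveb_Psi χ β (dist x x₀)) - ((deriv χ (dist x x₀) + β * χ (dist x x₀)) ^ 2 *
        Real.exp (2 * β * dist x x₀) + (β ^ 2 + Λ) *
        (χ (dist x x₀) * Real.exp (β * dist x x₀)) ^ 2)
    rw [mul_pow, hexp]
    have h4 : χ (dist x x₀) ^ 2 * Real.exp (2 * β * dist x x₀) / R ≤
        waveb_Psi χ β (dist x x₀) := by
      rcases le_or_gt (dist x x₀) c with hlt | hgt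
      · rw [hPc _ hlt, hχc _ hlt]
        simp
      · unfold waveb_Psi
        exact div_le_div_of_nonneg_left (by positivity) (by linarith) hgR.le
    have h5 : β * (χ (dist x x₀) ^ 2 * Real.exp (2 * β * dist x x₀) / R) ≤
        β * waveb_Psi χ β (dist x x₀) := mul_le_mul_of_nonneg_left h4 hβ.le
    have h6 : β / R * (χ (dist x x₀) ^ 2 * Real.exp (2 * β * dist x x₀)) =
        β * (χ (dist x x₀) ^ 2 * Real.exp (2 * β * dist x x₀) / R) := by ring
    nlinarith [h5, h6]
  have hI6 : IntegrableOn (fun x => deriv ψ (dist x x₀) ^ 2 +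
      (β ^ 2 + Λ) * ψ (dist x x₀) ^ 2) (D.carrier ∩ E') := hI4.add (hI5.const_mul _)
  rw [integral_sub (hI1.const_mul _) hI2, integral_const_mul,
    integral_sub (hI3.const_mul _) hI6, integral_const_mul,
    integral_add hI4 (hI5.const_mul _), integral_const_mul] at h3
  linarith

end Pool.Agent.RA
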