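import Pool.Agent.H.MP_1b807b_an.A.Basic

/-! MP_1b807b_an, large parameter asymptotics in the plane, module WaveDefs: circular waves, definitions -/

set_option autoImplicit false

namespace Pool.Agent.RA

open MeasureTheory Metric Set Pool.Agent.RG
open scoped RealInnerProductSpace ENNReal Topology Pointwise

/-- The situation: `U` open connected bounded, `D ⊆ U`, boundary measure, `E'` a component of
`U \ closedBall x₀ R'`. -/
structure WaveData (D : Domain 2) (U : Set (E 2)) (x₀ : E 2) (R' : ℝ) (E' : Set (E 2)) : Prop where
  isOpen : IsOpen U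
  conn : IsConnected U
  bdd : Bornology.IsBounded U
  locc : LocConn U
  sub : D.carrier ⊆ U
  R'_nonneg : 0 ≤ R'
  comp : ∃ q ∈ U \ closedBall x₀ R', E' = connectedComponentIn (U \ closedBall x₀ R') q

end Pool.Agent.RA
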