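import Pool.Agent.H.MP_1b807b_an.A.ZonDefs
import Pool.Agent.H.MP_1b807b_an.A.NNaddA
import Pool.Agent.H.MP_1b807b_an.A.NNaddB

/-! MP_1b807b_an, large parameter asymptotics in the plane, module ZonA: area of a sum with a zonotope -/

set_option autoImplicit false

namespace Pool.Agent.RA

open MeasureTheory Metric Set Pool.Agent.RG
open scoped RealInnerProductSpace ENNReal Topology Pointwise

theorem zona_seg_compact (v : E 2) : IsCompact (segment ℝ (0 : E 2) v) := by
  rw [segment_eq_image]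
  exact isCompact_Icc.image (by fun_prop)

theorem zona_pre_add {S T : Set (E 2)} (hS : IsPreconnected S) (hT : IsPreconnected T) :
    IsPreconnected (S + T) := by
  rw [← Set.add_image_prod]
  exact (hS.prod hT).image _ (by fun_prop)

theorem zona_sub_add (S : Set (E 2)) (v : E 2) : S ⊆ S + segment ℝ (0 : E 2) v := by
  intro x hx
  exact Set.mem_add.2 ⟨x, hx, 0, left_mem_segment ℝ 0 v, add_zero x⟩

theorem zona_zero (S : Set (E 2)) (m : ℕ) (τ : ℝ) : S + zon m τ 0 = S := by
  unfold zon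
  rw [Finset.range_zero, Finset.sum_empty, add_zero]

theorem zona_succ (S : Set (E 2)) (m : ℕ) (τ : ℝ) (j : ℕ) : S + zon m τ (j + 1) =
    (S + zon m τ j) + segment ℝ (0 : E 2) (τ • nrm (j * Real.pi / m)) := by
  unfold zon
  rw [Finset.sum_range_succ, add_assoc]

theorem zona_inner (m : ℕ) (τ : ℝ) (k i : ℕ) :
    ⟪dir (k * Real.pi / m), τ • nrm (i * Real.pi / m)⟫ =
      τ * Real.sin ((k - i : ℝ) * Real.pi / m) := by
  rw [inner_smul_right, inner_dir_nrm']
  congr 2
  ring

theorem zona_sin_pos {m k i : ℕ} (hk : k < m) (hi : i < k) :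
    0 < Real.sin ((k - i : ℝ) * Real.pi / m) := by
  have hm : (0 : ℝ) < m := by
    have : 0 < m := by omega
    exact_mod_cast this
  have h1 : (i : ℝ) + 1 ≤ k := by exact_mod_cast hi
  have h2 : (k : ℝ) + 1 ≤ m := by exact_mod_cast hk
  have h3 : (0 : ℝ) ≤ i := Nat.cast_nonneg i
  refine Real.sin_pos_of_pos_of_lt_pi ?_ ?_
  · refine div_pos (mul_pos (by linarith) Real.pi_pos) hm
  · rw [div_lt_iff₀ hm]
    nlinarith [Real.pi_pos]

theorem zona_main {S : Set (E 2)} (P : Set (E 2) → Prop) (hcl : ∀ T, P T → IsClosed T)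
    (hstep : ∀ T, P T → ∀ v, P (T + segment ℝ (0 : E 2) v)) {c : ℝ} (hc : 0 ≤ c)
    (hNN : ∀ T, P T → ∀ θ v, 0 < ⟪dir θ, v⟫ →
      NN θ (T + segment ℝ 0 v) ≤ NN θ T + ENNReal.ofReal (c * ⟪dir θ, v⟫))
    (hS : P S) {m : ℕ} {τ : ℝ} (hτ : 0 < τ) :
    volume ((S + zon m τ m) \ S) ≤
      ENNReal.ofReal τ * (∑ k ∈ Finset.range m, NN (k * Real.pi / m) S) +
      ENNReal.ofReal (c * (τ ^ 2 * ∑ k ∈ Finset.range m, ∑ i ∈ Finset.range k,
        Real.sin ((k - i : ℝ) * Real.pi / m))) := by
  have hP : ∀ j, P (S + zon m τ j) := by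
    intro j
    induction j with
    | zero => rw [zona_zero]; exact hS
    | succ j ih => rw [zona_succ]; exact hstep _ ih _
  have hN : ∀ k, k < m → ∀ j, j ≤ k → NN (k * Real.pi / m) (S + zon m τ j) ≤
      NN (k * Real.pi / m) S + ∑ i ∈ Finset.range j,
        ENNReal.ofReal (c * (τ * Real.sin ((k - i : ℝ) * Real.pi / m))) := by
    intro k hk j
    induction j with
    | zero =>
      intro _
      rw [zona_zero, Finset.range_zero, Finset.sum_empty, add_zero]
    | succ j ih =>
      intro hj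
      have h1 := hNN _ (hP j) (k * Real.pi / m) (τ • nrm (j * Real.pi / m)) (by
        rw [zona_inner]
        exact mul_pos hτ (zona_sin_pos hk (by omega)))
      rw [zona_inner] at h1
      rw [zona_succ, Finset.sum_range_succ, ← add_assoc]
      exact h1.trans (add_le_add (ih (by omega)) le_rfl)
  have hV : ∀ j, volume ((S + zon m τ j) \ S) ≤
      ∑ k ∈ Finset.range j, ENNReal.ofReal τ * NN (k * Real.pi / m) (S + zon m τ k) := by
    intro j
    induction j with
    | zero =>
      rw [zona_zero, Set.sdiff_self, measure_empty]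
      exact zero_le
    | succ j ih =>
      rw [zona_succ, Finset.sum_range_succ]
      have hsub : ((S + zon m τ j) + segment ℝ (0 : E 2) (τ • nrm (j * Real.pi / m))) \ S ⊆
          (((S + zon m τ j) + segment ℝ (0 : E 2) (τ • nrm (j * Real.pi / m))) \
            (S + zon m τ j)) ∪ ((S + zon m τ j) \ S) := by
        intro x hx
        by_cases h : x ∈ S + zon m τ j
        · exact Or.inr ⟨h, hx.2⟩
        · exact Or.inl ⟨hx.1, h⟩
      refine (measure_mono (μ := volume) hsub).trans ((measure_union_le _ _).trans ?_)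
      rw [add_comm]
      exact add_le_add ih (area_add (hcl _ (hP j)) _ hτ.le)
  have hsum : ENNReal.ofReal (c * (τ ^ 2 * ∑ k ∈ Finset.range m, ∑ i ∈ Finset.range k,
        Real.sin ((k - i : ℝ) * Real.pi / m))) =
      ∑ k ∈ Finset.range m, ENNReal.ofReal τ * ∑ i ∈ Finset.range k,
        ENNReal.ofReal (c * (τ * Real.sin ((k - i : ℝ) * Real.pi / m))) := by
    have e1 : c * (τ ^ 2 * ∑ k ∈ Finset.range m, ∑ i ∈ Finset.range k,
        Real.sin ((k - i : ℝ) * Real.pi / m)) = ∑ k ∈ Finset.range m, τ *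
          ∑ i ∈ Finset.range k, c * (τ * Real.sin ((k - i : ℝ) * Real.pi / m)) := by
      rw [Finset.mul_sum, Finset.mul_sum]
      refine Finset.sum_congr rfl fun k _ => ?_
      rw [Finset.mul_sum, Finset.mul_sum, Finset.mul_sum]
      refine Finset.sum_congr rfl fun i _ => ?_
      ring
    have hpos : ∀ k ∈ Finset.range m, ∀ i ∈ Finset.range k,
        0 ≤ c * (τ * Real.sin ((k - i : ℝ) * Real.pi / m)) := by
      intro k hk i hi
      exact mul_nonneg hc (mul_nonneg hτ.le
        (zona_sin_pos (Finset.mem_range.1 hk) (Finset.mem_range.1 hi)).le)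
    rw [e1, ENNReal.ofReal_sum_of_nonneg]
    · refine Finset.sum_congr rfl fun k hk => ?_
      rw [ENNReal.ofReal_mul hτ.le, ENNReal.ofReal_sum_of_nonneg (hpos k hk)]
    · intro k hk
      exact mul_nonneg hτ.le (Finset.sum_nonneg (hpos k hk))
  rw [hsum, Finset.mul_sum, ← Finset.sum_add_distrib]
  refine (hV m).trans (Finset.sum_le_sum fun k hk => ?_)
  rw [← mul_add]
  exact mul_le_mul' le_rfl (hN k (Finset.mem_range.1 hk) k le_rfl)

/-- PROOF: induction on `j`: `S + zon m τ (j+1) = (S + zon m τ j) + segment`, the set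
`S + zon m τ j` is compact and connected, `area_add` for the new points, and by `NN_add_compact`
(`⟪dir (k π/m), τ nrm (i π/m)⟫ = τ sin ((k-i) π/m) > 0` for `i < k < m`, for `τ > 0`)
`NN (j π/m) (S + zon m τ j) ≤ NN (j π/m) S + ∑_{i<j} τ sin ((j-i) π/m)`. -/
theorem zon_area_compact {S : Set (E 2)} (hS : IsCompact S) (hc : IsPreconnected S) {m : ℕ}
    (hm : 0 < m) {τ : ℝ} (hτ : 0 < τ) :
    volume ((S + zon m τ m) \ S) ≤
      ENNReal.ofReal τ * (∑ k ∈ Finset.range m, NN (k * Real.pi / m) S) +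
      ENNReal.ofReal (τ ^ 2 * ∑ k ∈ Finset.range m, ∑ i ∈ Finset.range k,
        Real.sin ((k - i : ℝ) * Real.pi / m)) := by
  have h := zona_main (S := S) (fun T => IsCompact T ∧ IsPreconnected T)
    (fun T hT => hT.1.isClosed)
    (fun T hT v => ⟨hT.1.add (zona_seg_compact v),
      zona_pre_add hT.2 (convex_segment _ _).isPreconnected⟩)
    (c := 1) zero_le_one
    (fun T hT θ v hv => by rw [one_mul]; exact NN_add_compact hT.1 hT.2 hv)
    ⟨hS, hc⟩ (m := m) hτ
  rwa [one_mul] at h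

theorem zon_area_cobdd {S : Set (E 2)} (hS : IsClosed S) (hc : IsPreconnected S)
    (hb : Bornology.IsBounded Sᶜ) {m : ℕ} (hm : 0 < m) {τ : ℝ} (hτ : 0 < τ) :
    volume ((S + zon m τ m) \ S) ≤
      ENNReal.ofReal τ * (∑ k ∈ Finset.range m, NN (k * Real.pi / m) S) := by
  have h := zona_main (S := S)
    (fun T => IsClosed T ∧ IsPreconnected T ∧ Bornology.IsBounded Tᶜ)
    (fun T hT => hT.1)
    (fun T hT v => ⟨hT.1.add_right_of_isCompact (zona_seg_compact v),
      zona_pre_add hT.2.1 (convex_segment _ _).isPreconnected,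
      hT.2.2.subset (Set.compl_subset_compl.2 (zona_sub_add T v))⟩)
    (c := 0) le_rfl
    (fun T hT θ v hv => by
      rw [zero_mul, ENNReal.ofReal_zero, add_zero]
      exact NN_add_cobdd hT.1 hT.2.1 hT.2.2 hv)
    ⟨hS, hc, hb⟩ (m := m) hτ
  rwa [zero_mul, ENNReal.ofReal_zero, add_zero] at h

end Pool.Agent.RA
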