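import Pool.Agent.H.MP_1b807b_an.A.Basic

/-! MP_1b807b_an, large parameter asymptotics in the plane, module ZonDefs: zonotopes, definitions -/

set_option autoImplicit false

namespace Pool.Agent.RA

open MeasureTheory Metric Set Pool.Agent.RG
open scoped RealInnerProductSpace ENNReal Topology Pointwise

/-- the zonotope with `m` sides of length `τ` -/
noncomputable def zon (m : ℕ) (τ : ℝ) (j : ℕ) : Set (E 2) :=
  ∑ k ∈ Finset.range j, segment ℝ (0 : E 2) (τ • nrm (k * Real.pi / m))

/-- the centre of the zonotope -/
noncomputable def zc (m : ℕ) (τ : ℝ) : E 2 :=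
  (τ / 2) • ∑ k ∈ Finset.range m, nrm (k * Real.pi / m)

end Pool.Agent.RA
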